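import Mathlib

/-!
[PMC] p-minimal condition, MP_8fcd2c_al: vocabulary and trivial lemmas (all proved).
-/

set_option autoImplicit false

namespace PMC

open Subgroup
open scoped commutatorElement

/-- locally finite -/
def LF (G : Type*) [Group G] : Prop :=
  ∀ s : Set G, s.Finite → (Subgroup.closure s : Set G).Finite

/-- the `p`-minimal condition -/
def PMin (p : ℕ) (G : Type*) [Group G] : Prop :=
  ¬ ∃ H : ℕ → Subgroup G, ∀ i : ℕ, H (i + 1) < H i ∧
    ∃ g ∈ H i, g ∉ H (i + 1) ∧ ∃ k : ℕ, g ^ (p ^ k) = 1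

section

variable {G : Type*} [Group G]

/-- no nontrivial `p`-elements in `U` -/
def PP (p : ℕ) (U : Subgroup G) : Prop := ∀ u ∈ U, ∀ k : ℕ, u ^ (p ^ k) = 1 → u = 1

/-- `A` is the divisible part of the Chernikov group `U` -/
def CherW (A U : Subgroup G) : Prop :=
  A ≤ U ∧ (A.subgroupOf U).Normal ∧ A.relIndex U ≠ 0 ∧
  (∀ a ∈ A, ∀ b ∈ A, a * b = b * a) ∧
  (∀ a ∈ A, ∀ m : ℕ, 0 < m → ∃ b ∈ A, b ^ m = a) ∧
  {a : G | a ∈ A ∧ ∃ q : ℕ, q.Prime ∧ a ^ q = 1}.Finite

/-- `U` is a Chernikov group -/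
def Cher (U : Subgroup G) : Prop := ∃ A : Subgroup G, CherW A U

/-- `g U g⁻¹` -/
def cj (g : G) (U : Subgroup G) : Subgroup G := U.map (MulAut.conj g).toMonoidHom

/-- `X` normalises `U` -/
def Nz (X U : Subgroup G) : Prop := ∀ y ∈ X, ∀ u ∈ U, y * u * y⁻¹ ∈ U

/-- `G = V ⟨x⟩` with a normal `p'`-subgroup `V`, a `p`-element `x`, and no infinite descending chain
of `x`-perfect subgroups of `V` -/
structure Cfg (p : ℕ) (V X : Subgroup G) (x : G) : Prop where
  prime : p.Prime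
  lf : LF G
  norm : V.Normal
  pp : PP p V
  gen : X = Subgroup.zpowers x
  xp : ∃ k : ℕ, x ^ (p ^ k) = 1
  sup : V ⊔ X = ⊤
  dcc : ¬ ∃ U : ℕ → Subgroup G, ∀ i, U i ≤ V ∧ ⁅U i, X⁆ = U i ∧ U (i + 1) < U i

/-- minimal situation: `V = [V, x]` is not Chernikov, its proper `x`-perfect subgroups are -/
structure MinCfg (p : ℕ) (V X : Subgroup G) (x : G) : Prop extends Cfg p V X x where
  perf : ⁅V, X⁆ = V
  ncher : ¬ Cher V
  minl : ∀ U ≤ V, ⁅U, X⁆ = U → U ≠ V → Cher U

theorem mem_cj {g x : G} {U : Subgroup G} : x ∈ cj g U ↔ g⁻¹ * x * g ∈ U := by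
  unfold cj
  rw [Subgroup.mem_map]
  constructor
  · rintro ⟨u, hu, rfl⟩
    have h : g⁻¹ * ((MulAut.conj g).toMonoidHom u) * g = u := by
      simp [MulAut.conj_apply, mul_assoc]
    rw [h]
    exact hu
  · intro h
    refine ⟨_, h, ?_⟩
    simp [MulAut.conj_apply, mul_assoc]

theorem conj_mem_cj {g x : G} {U : Subgroup G} : g * x * g⁻¹ ∈ cj g U ↔ x ∈ U := by
  rw [mem_cj]
  have h : g⁻¹ * (g * x * g⁻¹) * g = x := by group
  rw [h]

theorem cj_one (U : Subgroup G) : cj 1 U = U := by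
  ext x
  rw [mem_cj]
  simp

theorem cj_cj (g h : G) (U : Subgroup G) : cj g (cj h U) = cj (g * h) U := by
  ext x
  rw [mem_cj, mem_cj, mem_cj]
  have e : h⁻¹ * (g⁻¹ * x * g) * h = (g * h)⁻¹ * x * (g * h) := by group
  rw [e]

theorem cj_inv_cj (g : G) (U : Subgroup G) : cj g⁻¹ (cj g U) = U := by
  rw [cj_cj, inv_mul_cancel, cj_one]

theorem cj_cj_inv (g : G) (U : Subgroup G) : cj g (cj g⁻¹ U) = U := by
  rw [cj_cj, mul_inv_cancel, cj_one]

theorem cj_mono {g : G} {U W : Subgroup G} (h : U ≤ W) : cj g U ≤ cj g W := by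
  intro x hx
  rw [mem_cj] at *
  exact h hx

theorem cj_comm (g : G) (U W : Subgroup G) : cj g ⁅U, W⁆ = ⁅cj g U, cj g W⁆ :=
  Subgroup.map_commutator _ _ _

theorem cj_normal (g : G) {U : Subgroup G} (hU : U.Normal) : cj g U = U := by
  ext x
  rw [mem_cj]
  constructor
  · intro h
    have := hU.conj_mem _ h g
    have e : g * (g⁻¹ * x * g) * g⁻¹ = x := by group
    rwa [e] at this
  · intro h
    have := hU.conj_mem _ h g⁻¹
    rwa [inv_inv] at this

theorem nz_iff_cj {X U : Subgroup G} : Nz X U ↔ ∀ y ∈ X, cj y U = U := by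
  constructor
  · intro h y hy
    ext x
    rw [mem_cj]
    constructor
    · intro hx
      have := h y hy _ hx
      have e : y * (y⁻¹ * x * y) * y⁻¹ = x := by group
      rwa [e] at this
    · intro hx
      have := h y⁻¹ (inv_mem hy) _ hx
      rwa [inv_inv] at this
  · intro h y hy u hu
    rw [← h y hy]
    exact conj_mem_cj.2 hu

theorem nz_of_normal {X U : Subgroup G} (hU : U.Normal) : Nz X U := fun y _ u hu =>
  hU.conj_mem u hu y

theorem Nz.mono {X Y U : Subgroup G} (h : Nz X U) (hY : Y ≤ X) : Nz Y U := fun y hy =>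
  h y (hY hy)

theorem nz_subgroupOf {L U : Subgroup G} (hLU : L ≤ U) : (L.subgroupOf U).Normal ↔ Nz U L := by
  constructor
  · intro h y hy u hu
    have := h.conj_mem ⟨u, hLU hu⟩ (by rw [Subgroup.mem_subgroupOf]; exact hu) ⟨y, hy⟩
    rw [Subgroup.mem_subgroupOf] at this
    exact this
  · intro h
    refine ⟨fun n hn g => ?_⟩
    rw [Subgroup.mem_subgroupOf] at *
    exact h g g.2 n hn

theorem nz_of_sup {V X U : Subgroup G} (hsup : V ⊔ X = ⊤) (h1 : Nz V U) (h2 : Nz X U) : U.Normal := by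
  refine ⟨fun u hu g => ?_⟩
  have key : ∀ g ∈ V ⊔ X, cj g U = U := by
    intro g hg
    rw [Subgroup.sup_eq_closure] at hg
    refine Subgroup.closure_induction (p := fun g _ => cj g U = U) ?_ ?_ ?_ ?_ hg
    · rintro y (hy | hy)
      · exact nz_iff_cj.1 h1 y hy
      · exact nz_iff_cj.1 h2 y hy
    · exact cj_one U
    · intro a b _ _ ha hb
      rw [← cj_cj, hb, ha]
    · intro a _ ha
      have := cj_inv_cj a U
      rwa [ha] at this
  have h := key g (by rw [hsup]; exact Subgroup.mem_top g)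
  have h3 := conj_mem_cj (g := g) (x := u) (U := U)
  rw [h] at h3
  exact h3.2 hu

/-- `[M, X]` is normalised by `M` -/
theorem nz_comm_left {M X : Subgroup G} : Nz M ⁅M, X⁆ := by
  intro m hm u hu
  rw [Subgroup.commutator_def] at hu
  refine Subgroup.closure_induction (p := fun u _ => m * u * m⁻¹ ∈ ⁅M, X⁆) ?_ ?_ ?_ ?_ hu
  · rintro _ ⟨a, ha, y, hy, rfl⟩
    have e : m * ⁅a, y⁆ * m⁻¹ = ⁅m * a, y⁆ * ⁅m, y⁆⁻¹ := by
      simp only [commutatorElement_def]
      group
    rw [e]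
    exact mul_mem (Subgroup.commutator_mem_commutator (mul_mem hm ha) hy)
      (inv_mem (Subgroup.commutator_mem_commutator hm hy))
  · simp
  · intro a b _ _ ha hb
    have e : m * (a * b) * m⁻¹ = (m * a * m⁻¹) * (m * b * m⁻¹) := by group
    rw [e]
    exact mul_mem ha hb
  · intro a _ ha
    have e : m * a⁻¹ * m⁻¹ = (m * a * m⁻¹)⁻¹ := by group
    rw [e]
    exact inv_mem ha

theorem nz_comm_right {M X : Subgroup G} : Nz X ⁅M, X⁆ := by
  rw [Subgroup.commutator_comm]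
  exact nz_comm_left

theorem comm_le_left {M X : Subgroup G} (h : Nz X M) : ⁅M, X⁆ ≤ M := by
  rw [Subgroup.commutator_le]
  intro m hm y hy
  rw [commutatorElement_def]
  have := h y hy _ (inv_mem hm)
  have e : m * y * m⁻¹ * y⁻¹ = m * (y * m⁻¹ * y⁻¹) := by group
  rw [e]
  exact mul_mem hm this

theorem nz_of_perf {U X : Subgroup G} (h : ⁅U, X⁆ = U) : Nz X U := by
  have := nz_comm_right (M := U) (X := X)
  rwa [h] at this

end

end PMC
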