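import Pool.Agent.PMC.Defs

/-!
[PMC] infinite simple sections are not locally soluble (all proved).
-/

set_option autoImplicit false

namespace PMC

open Subgroup
open scoped commutatorElement

/-- a group without proper nontrivial normal subgroups whose finitely generated subgroups are
solvable is commutative -/
theorem comm_of_simple {Q : Type*} [Group Q] (hs : ∀ N : Subgroup Q, N.Normal → N = ⊥ ∨ N = ⊤)
    (hl : ∀ F : Set Q, F.Finite → Group.IsSolvable (Subgroup.closure F)) :
    ∀ a b : Q, a * b = b * a := by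
  intro a b
  by_contra hab
  have hc : ⁅a, b⁆ ≠ 1 := fun h => hab (commutatorElement_eq_one_iff_mul_comm.1 h)
  have htop : Subgroup.normalClosure {⁅a, b⁆} = (⊤ : Subgroup Q) := by
    rcases hs _ (Subgroup.normalClosure_normal (s := {⁅a, b⁆})) with h | h
    · exfalso
      apply hc
      have := Subgroup.subset_normalClosure (s := {⁅a, b⁆}) (Set.mem_singleton _)
      rw [h] at this
      exact Subgroup.mem_bot.1 this
    · exact h
  -- finitely many conjugators
  have key : ∀ g ∈ Subgroup.normalClosure {⁅a, b⁆}, ∃ T : Set Q, T.Finite ∧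
      g ∈ Subgroup.closure ((fun t => t * ⁅a, b⁆ * t⁻¹) '' T) := by
    intro g hg
    unfold Subgroup.normalClosure at hg
    refine Subgroup.closure_induction (p := fun g _ => ∃ T : Set Q, T.Finite ∧
      g ∈ Subgroup.closure ((fun t => t * ⁅a, b⁆ * t⁻¹) '' T)) ?_ ?_ ?_ ?_ hg
    · intro x hx
      rw [Group.mem_conjugatesOfSet_iff] at hx
      obtain ⟨c, hc1, hc2⟩ := hx
      rw [Set.mem_singleton_iff] at hc1
      subst hc1
      obtain ⟨t, ht⟩ := isConj_iff.1 hc2
      refine ⟨{t}, Set.finite_singleton t, Subgroup.subset_closure ?_⟩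
      exact ⟨t, Set.mem_singleton t, ht⟩
    · exact ⟨∅, Set.finite_empty, one_mem _⟩
    · rintro x y _ _ ⟨T, hT, hx⟩ ⟨S, hS, hy⟩
      refine ⟨T ∪ S, hT.union hS, mul_mem ?_ ?_⟩
      · exact Subgroup.closure_mono (Set.image_mono Set.subset_union_left) hx
      · exact Subgroup.closure_mono (Set.image_mono Set.subset_union_right) hy
    · rintro x _ ⟨T, hT, hx⟩
      exact ⟨T, hT, inv_mem hx⟩
  obtain ⟨T, hT, ha⟩ := key a (by rw [htop]; exact Subgroup.mem_top a)
  obtain ⟨S, hS, hb⟩ := key b (by rw [htop]; exact Subgroup.mem_top b)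
  set H : Subgroup Q := Subgroup.closure ({a, b} ∪ (T ∪ S)) with hH
  have hsol : Group.IsSolvable H := hl _ ((Set.toFinite {a, b}).union (hT.union hS))
  have haH : a ∈ H := Subgroup.subset_closure (Or.inl (Or.inl rfl))
  have hbH : b ∈ H := Subgroup.subset_closure (Or.inl (Or.inr rfl))
  have hTH : ∀ t ∈ T, t ∈ H := fun t ht => Subgroup.subset_closure (Or.inr (Or.inl ht))
  have hSH : ∀ t ∈ S, t ∈ H := fun t ht => Subgroup.subset_closure (Or.inr (Or.inr ht))
  set c : H := ⁅(⟨a, haH⟩ : H), (⟨b, hbH⟩ : H)⁆ with hcdef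
  set C : Subgroup H := Subgroup.normalClosure {c} with hC
  have hCn : C.Normal := Subgroup.normalClosure_normal
  have hcC : c ∈ C := Subgroup.subset_normalClosure (Set.mem_singleton _)
  have hcval : (c : Q) = ⁅a, b⁆ := rfl
  have hsub : ∀ R : Set Q, (∀ t ∈ R, t ∈ H) →
      Subgroup.closure ((fun t => t * ⁅a, b⁆ * t⁻¹) '' R) ≤ C.map H.subtype := by
    intro R hR
    rw [Subgroup.closure_le]
    rintro _ ⟨t, ht, rfl⟩
    refine ⟨⟨t, hR t ht⟩ * c * ⟨t, hR t ht⟩⁻¹, hCn.conj_mem c hcC _, ?_⟩
    simp [hcval]
  have haC : (⟨a, haH⟩ : H) ∈ C := by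
    obtain ⟨a', ha', h⟩ := hsub T hTH ha
    have : a' = ⟨a, haH⟩ := Subtype.ext h
    rwa [← this]
  have hbC : (⟨b, hbH⟩ : H) ∈ C := by
    obtain ⟨a', ha', h⟩ := hsub S hSH hb
    have : a' = ⟨b, hbH⟩ := Subtype.ext h
    rwa [← this]
  have hCC : C ≤ ⁅C, C⁆ := by
    rw [hC]
    have : (⁅C, C⁆ : Subgroup H).Normal := Subgroup.commutator_normal C C
    rw [← hC]
    apply Subgroup.normalClosure_le_normal
    rw [Set.singleton_subset_iff]
    exact Subgroup.commutator_mem_commutator haC hbC
  have hder : ∀ n : ℕ, C ≤ derivedSeries H n := by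
    intro n
    induction n with
    | zero => exact le_top
    | succ n ih =>
      rw [derivedSeries_succ]
      exact hCC.trans (Subgroup.commutator_mono ih ih)
  obtain ⟨n, hn⟩ := hsol.solvable
  have h1 : c ∈ (⊥ : Subgroup H) := hn ▸ hder n hcC
  apply hc
  rw [← hcval, Subgroup.mem_bot.1 h1]
  rfl

variable {G : Type*} [Group G]

/-- an infinite simple section `U / L = U₁ L / L` of a locally finite group is not locally
solvable -/
theorem not_locally_solvable (hG : LF G) {L U U₁ : Subgroup G} (hLU : L < U) (hL : Nz U L)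
    (hi : L.relIndex U = 0)
    (hmax : ∀ N : Subgroup G, L ≤ N → N ≤ U → Nz U N → N = L ∨ N = U)
    (hU₁ : U₁ ≤ U) (hsup : U ≤ L ⊔ U₁) :
    ∃ F : Set G, F.Finite ∧ F ⊆ U₁ ∧
      ∀ m : ℕ, ¬ (derivedSeries (Subgroup.closure F) m).map (Subgroup.closure F).subtype ≤ L := by
  by_contra hcon
  push Not at hcon
  have hn : (L.subgroupOf U).Normal := (nz_subgroupOf hLU.le).2 hL
  have hs : ∀ N : Subgroup (U ⧸ L.subgroupOf U), N.Normal → N = ⊥ ∨ N = ⊤ := by
    intro N hN
    set M : Subgroup G := (N.comap (QuotientGroup.mk' (L.subgroupOf U))).map U.subtype with hM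
    have hmem : ∀ u : U, (u : G) ∈ M ↔ (QuotientGroup.mk' (L.subgroupOf U)) u ∈ N := by
      intro u
      constructor
      · rintro ⟨w, hw, hwu⟩
        have : w = u := Subtype.ext hwu
        rw [this] at hw
        exact hw
      · intro h
        exact ⟨u, h, rfl⟩
    have hLM : L ≤ M := by
      intro l hl
      have h1 := (hmem ⟨l, hLU.le hl⟩).2 (by
        have : (QuotientGroup.mk' (L.subgroupOf U)) ⟨l, hLU.le hl⟩ = 1 := by
          rw [← MonoidHom.mem_ker, QuotientGroup.ker_mk', Subgroup.mem_subgroupOf]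
          exact hl
        rw [this]
        exact one_mem _)
      exact h1
    have hMU : M ≤ U := by
      rintro _ ⟨w, _, rfl⟩
      exact w.2
    have hMn : Nz U M := by
      intro y hy m hm
      have hmU := hMU hm
      have h1 := (hmem ⟨m, hmU⟩).1 hm
      have h2 := hN.conj_mem _ h1 ((QuotientGroup.mk' (L.subgroupOf U)) ⟨y, hy⟩)
      have h3 := (hmem (⟨y, hy⟩ * ⟨m, hmU⟩ * ⟨y, hy⟩⁻¹)).2 (by
        rw [map_mul, map_mul, map_inv]
        exact h2)
      exact h3
    rcases hmax M hLM hMU hMn with h | h
    · left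
      rw [eq_bot_iff]
      intro q hq
      obtain ⟨u, rfl⟩ := QuotientGroup.mk'_surjective _ q
      have h1 := (hmem u).2 hq
      rw [h] at h1
      rw [Subgroup.mem_bot, ← MonoidHom.mem_ker, QuotientGroup.ker_mk', Subgroup.mem_subgroupOf]
      exact h1
    · right
      rw [eq_top_iff]
      intro q _
      obtain ⟨u, rfl⟩ := QuotientGroup.mk'_surjective _ q
      exact (hmem u).1 (by rw [h]; exact u.2)
  -- representatives in `U₁`
  have hrep : ∀ q : U ⧸ L.subgroupOf U, ∃ u : U, (u : G) ∈ U₁ ∧
      QuotientGroup.mk' (L.subgroupOf U) u = q := by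
    intro q
    obtain ⟨u, rfl⟩ := QuotientGroup.mk'_surjective _ q
    have h1 : L ⊔ U₁ ≤ U := sup_le hLU.le hU₁
    have h2 : (u : G) ∈ ((L.subgroupOf U ⊔ U₁.subgroupOf U).map U.subtype : Subgroup G) := by
      rw [Subgroup.map_sup, Subgroup.map_subgroupOf_eq_of_le hLU.le,
        Subgroup.map_subgroupOf_eq_of_le hU₁]
      exact hsup u.2
    obtain ⟨w, hw, hwu⟩ := h2
    have hw' : w = u := Subtype.ext hwu
    rw [hw'] at hw
    obtain ⟨l, hl, v, hv, hlv⟩ := Subgroup.mem_sup_of_normal_left.1 (SetLike.mem_coe.1 hw)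
    refine ⟨v, hv, ?_⟩
    have h3 : QuotientGroup.mk' (L.subgroupOf U) l = 1 := by
      rw [← MonoidHom.mem_ker, QuotientGroup.ker_mk']
      exact hl
    rw [← hlv, map_mul, h3, one_mul]
  have hl : ∀ F : Set (U ⧸ L.subgroupOf U), F.Finite → Group.IsSolvable (Subgroup.closure F) := by
    intro F hF
    choose r hr1 hr2 using hrep
    obtain ⟨m, hm⟩ := hcon (U.subtype '' (r '' F)) ((hF.image r).image _) (by
        rintro _ ⟨_, ⟨q, _, rfl⟩, rfl⟩
        exact hr1 q)
    -- the derived series of `closure F` is the image of the derived series of the lift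
    have h2 : Subgroup.closure (U.subtype '' (r '' F)) = (Subgroup.closure (r '' F)).map U.subtype :=
      (MonoidHom.map_closure _ _).symm
    have h3 : Subgroup.closure F = (Subgroup.closure (r '' F)).map (QuotientGroup.mk' (L.subgroupOf U)) := by
      rw [MonoidHom.map_closure]
      congr 1
      ext q
      constructor
      · intro hq
        exact ⟨r q, ⟨q, hq, rfl⟩, hr2 q⟩
      · rintro ⟨_, ⟨q', hq', rfl⟩, rfl⟩
        rw [hr2]
        exact hq'
    -- general fact: the derived series of a subgroup `K`, seen in the big group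
    have gen1 : ∀ {A B : Type _} [Group A] [Group B] (f : A →* B) (K : Subgroup A) (m : ℕ),
        ((derivedSeries K m).map K.subtype).map f =
          (derivedSeries (K.map f) m).map (K.map f).subtype := by
      intro A B _ _ f K m
      induction m with
      | zero =>
        rw [derivedSeries_zero, derivedSeries_zero, ← MonoidHom.range_eq_map,
          ← MonoidHom.range_eq_map, Subgroup.range_subtype, Subgroup.range_subtype]
      | succ m ih =>
        rw [derivedSeries_succ, derivedSeries_succ, Subgroup.map_commutator,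
          Subgroup.map_commutator, Subgroup.map_commutator, ih]
    have e1 := gen1 U.subtype (Subgroup.closure (r '' F)) m
    have e2 := gen1 (QuotientGroup.mk' (L.subgroupOf U)) (Subgroup.closure (r '' F)) m
    rw [← h3] at e2
    have e3 : (derivedSeries (Subgroup.closure (r '' F)) m).map
        (Subgroup.closure (r '' F)).subtype ≤ L.subgroupOf U := by
      intro u hu
      rw [Subgroup.mem_subgroupOf]
      apply hm
      rw [h2]
      rw [← e1]
      exact ⟨u, hu, rfl⟩
    have e4 : ((derivedSeries (Subgroup.closure (r '' F)) m).map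
        (Subgroup.closure (r '' F)).subtype).map (QuotientGroup.mk' (L.subgroupOf U)) = ⊥ := by
      rw [Subgroup.map_eq_bot_iff, QuotientGroup.ker_mk']
      exact e3
    rw [e4] at e2
    refine ⟨⟨m, ?_⟩⟩
    exact (Subgroup.map_eq_bot_iff_of_injective _ (Subgroup.subtype_injective _)).1 e2.symm
  have hcomm := comm_of_simple hs hl
  -- `U / L` is commutative and simple, hence finite
  obtain ⟨u, huU, huL⟩ := Set.exists_of_ssubset hLU
  have hq1 : (QuotientGroup.mk' (L.subgroupOf U)) ⟨u, huU⟩ ≠ 1 := by
    intro h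
    rw [← MonoidHom.mem_ker, QuotientGroup.ker_mk', Subgroup.mem_subgroupOf] at h
    exact huL h
  set q := (QuotientGroup.mk' (L.subgroupOf U)) ⟨u, huU⟩ with hq
  have hz : Subgroup.zpowers q = ⊤ := by
    rcases hs (Subgroup.zpowers q) ⟨fun n hn g => by rw [hcomm g n, mul_inv_cancel_right]; exact hn⟩
      with h | h
    · exact absurd (Subgroup.zpowers_eq_bot.1 h) hq1
    · exact h
  have hfin : (Subgroup.zpowers u : Set G).Finite := by
    have := hG {u} (Set.finite_singleton u)
    rwa [← Subgroup.zpowers_eq_closure] at this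
  have hfo : IsOfFinOrder u := by
    have : Finite (Subgroup.zpowers u) := hfin
    exact finite_zpowers.1 this
  have hfo' : IsOfFinOrder q := by
    obtain ⟨n, hn, h1⟩ := isOfFinOrder_iff_pow_eq_one.1 hfo
    refine isOfFinOrder_iff_pow_eq_one.2 ⟨n, hn, ?_⟩
    rw [hq, ← map_pow]
    have : (⟨u, huU⟩ : U) ^ n = 1 := Subtype.ext h1
    rw [this, map_one]
  have hfinq : Finite (Subgroup.zpowers q) := finite_zpowers.2 hfo'
  rw [hz] at hfinq
  have : Finite (U ⧸ L.subgroupOf U) := by
    exact Finite.of_injective (fun y => (⟨y, Subgroup.mem_top y⟩ : (⊤ : Subgroup (U ⧸ L.subgroupOf U))))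
      (fun a b h => congrArg Subtype.val h)
  have hne : (L.subgroupOf U).index ≠ 0 := by
    rw [Subgroup.index]
    exact Nat.card_pos.ne'
  exact hne hi

/-- a simple section `U / L` lives in a factor of every subnormal series -/
theorem section_in_factor {L U : Subgroup G} (hLU : L < U) (hL : Nz U L)
    (hmax : ∀ N : Subgroup G, L ≤ N → N ≤ U → Nz U N → N = L ∨ N = U)
    {n : ℕ} {H : ℕ → Subgroup G} (h0 : H 0 = ⊥) (hn : H n = ⊤)
    (hH : ∀ i < n, H i ≤ H (i + 1) ∧ ((H i).subgroupOf (H (i + 1))).Normal) :
    ∃ i < n, U ⊓ H i ≤ L ∧ U ≤ L ⊔ (U ⊓ H (i + 1)) := by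
  classical
  have hP : ∃ j, j ≤ n ∧ ¬ (U ⊓ H j ≤ L) := by
    refine ⟨n, le_rfl, ?_⟩
    rw [hn, inf_top_eq]
    exact hLU.not_ge
  set j := Nat.find hP with hj
  obtain ⟨hjn, hjL⟩ := Nat.find_spec hP
  have hj0 : j ≠ 0 := by
    intro h
    rw [← hj] at hjL
    rw [h, h0, inf_bot_eq] at hjL
    exact hjL bot_le
  obtain ⟨i, hi⟩ := Nat.exists_eq_succ_of_ne_zero hj0
  have hij : i < j := by omega
  have hin : i < n := by omega
  have hi1 : i + 1 = j := by omega
  refine ⟨i, hin, ?_, ?_⟩
  · have := Nat.find_min hP (m := i) hij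
    by_contra hc
    exact this ⟨hin.le, hc⟩
  · -- downward induction
    have mono : ∀ d k, k + d ≤ n → H k ≤ H (k + d) := by
      intro d
      induction d with
      | zero => intro k _; exact le_rfl
      | succ d ih =>
        intro k hk
        exact (ih k (by omega)).trans (hH (k + d) (by omega)).1
    have key : ∀ d, i + 1 + d ≤ n → U ≤ L ⊔ (U ⊓ H (n - d)) := by
      intro d
      induction d with
      | zero =>
        intro _
        rw [Nat.sub_zero, hn, inf_top_eq]
        exact le_sup_right
      | succ d ih =>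
        intro hd
        have h1 := ih (by omega)
        set k := n - (d + 1) with hk
        have hk1 : n - d = k + 1 := by omega
        rw [hk1] at h1
        obtain ⟨h2, h3⟩ := hH k (by omega)
        have h4 : Nz (H (k + 1)) (H k) := (nz_subgroupOf h2).1 h3
        set N := L ⊔ (U ⊓ H k) with hN
        have hLN : L ≤ N := le_sup_left
        have hNU : N ≤ U := sup_le hLU.le inf_le_left
        -- `N` is normalised by `L` and by `U ⊓ H (k+1)`
        have aux : ∀ y, y ∈ U → (∀ u ∈ U ⊓ H k, y * u * y⁻¹ ∈ N) → ∀ m ∈ N, y * m * y⁻¹ ∈ N := by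
          intro y hyU hy m hm
          rw [hN, Subgroup.sup_eq_closure] at hm
          refine Subgroup.closure_induction (p := fun m _ => y * m * y⁻¹ ∈ N) ?_ ?_ ?_ ?_ hm
          · rintro w (hw | hw)
            · exact hLN (hL y hyU w hw)
            · exact hy w hw
          · simp
          · intro a b _ _ ha hb
            have e : y * (a * b) * y⁻¹ = (y * a * y⁻¹) * (y * b * y⁻¹) := by group
            rw [e]
            exact mul_mem ha hb
          · intro a _ ha
            have e : y * a⁻¹ * y⁻¹ = (y * a * y⁻¹)⁻¹ := by group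
            rw [e]
            exact inv_mem ha
        have hNz : Nz U N := by
          have hall : ∀ y ∈ L ⊔ (U ⊓ H (k + 1)), y ∈ U ∧ ∀ m ∈ N, y * m * y⁻¹ ∈ N := by
            intro y hy
            rw [Subgroup.sup_eq_closure] at hy
            -- use both `y` and `y⁻¹`
            have : y ∈ U ∧ (∀ m ∈ N, y * m * y⁻¹ ∈ N) ∧ (∀ m ∈ N, y⁻¹ * m * y ∈ N) := by
              refine Subgroup.closure_induction (p := fun y _ => y ∈ U ∧
                (∀ m ∈ N, y * m * y⁻¹ ∈ N) ∧ (∀ m ∈ N, y⁻¹ * m * y ∈ N)) ?_ ?_ ?_ ?_ hy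
              · rintro w (hw | hw)
                · refine ⟨hLU.le hw, ?_, ?_⟩
                  · intro m hm
                    exact mul_mem (mul_mem (hLN hw) hm) (inv_mem (hLN hw))
                  · intro m hm
                    exact mul_mem (mul_mem (inv_mem (hLN hw)) hm) (hLN hw)
                · obtain ⟨hw1, hw2⟩ := hw
                  refine ⟨hw1, aux w hw1 ?_, ?_⟩
                  · rintro u ⟨hu1, hu2⟩
                    exact (le_sup_right : U ⊓ H k ≤ N)
                      (Subgroup.mem_inf.2 ⟨U.mul_mem (U.mul_mem hw1 hu1) (U.inv_mem hw1),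
                        h4 w hw2 u hu2⟩)
                  · have := aux w⁻¹ (inv_mem hw1) (by
                      rintro u ⟨hu1, hu2⟩
                      exact (le_sup_right : U ⊓ H k ≤ N)
                        (Subgroup.mem_inf.2 ⟨U.mul_mem (U.mul_mem (U.inv_mem hw1) hu1)
                          (U.inv_mem (U.inv_mem hw1)),
                          h4 w⁻¹ ((H (k + 1)).inv_mem hw2) u hu2⟩))
                    simpa using this
              · exact ⟨one_mem _, by simp, by simp⟩
              · rintro a b _ _ ⟨ha1, ha2, ha3⟩ ⟨hb1, hb2, hb3⟩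
                refine ⟨mul_mem ha1 hb1, ?_, ?_⟩
                · intro m hm
                  have e : a * b * m * (a * b)⁻¹ = a * (b * m * b⁻¹) * a⁻¹ := by group
                  rw [e]
                  exact ha2 _ (hb2 m hm)
                · intro m hm
                  have e : (a * b)⁻¹ * m * (a * b) = b⁻¹ * (a⁻¹ * m * a) * b := by group
                  rw [e]
                  exact hb3 _ (ha3 m hm)
              · rintro a _ ⟨ha1, ha2, ha3⟩
                refine ⟨inv_mem ha1, ?_, ?_⟩
                · intro m hm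
                  rw [inv_inv]
                  exact ha3 m hm
                · intro m hm
                  rw [inv_inv]
                  exact ha2 m hm
            exact ⟨this.1, this.2.1⟩
          intro y hy m hm
          exact (hall y (h1 hy)).2 m hm
        rcases hmax N hLN hNU hNz with h5 | h5
        · exfalso
          apply hjL
          rw [← hj, ← hi1]
          have h6 : H (i + 1) ≤ H k := by
            have := mono (k - (i + 1)) (i + 1) (by omega)
            have e : i + 1 + (k - (i + 1)) = k := by omega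
            rwa [e] at this
          calc U ⊓ H (i + 1) ≤ U ⊓ H k := inf_le_inf_left _ h6
            _ ≤ N := le_sup_right
            _ = L := h5
        · exact h5.ge
    have := key (n - (i + 1)) (by omega)
    have e : n - (n - (i + 1)) = i + 1 := by omega
    rwa [e] at this

end PMC
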