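import Pool.Agent.PMC.LibR2
import Pool.Agent.PMC.Simple

/-!
[PMC] assembly.
-/

set_option autoImplicit false

namespace PMC

open Subgroup

section

variable {G : Type*} [Group G] {p : ℕ} {V X : Subgroup G} {x : G}

/-- `U / L` is infinite, has no proper nontrivial normal subgroup, and has the minimal condition
or a nontrivial automorphism induced by an element of `X` -/
def Sec (L U X : Subgroup G) : Prop :=
  L < U ∧ Nz U L ∧ L.relIndex U = 0 ∧
    (∀ N : Subgroup G, L ≤ N → N ≤ U → Nz U N → N = L ∨ N = U) ∧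
    ((¬ ∃ S : ℕ → Subgroup G, ∀ i, L ≤ S i ∧ S i ≤ U ∧ S (i + 1) < S i) ∨
      ∃ y ∈ X, (∀ l ∈ L, y * l * y⁻¹ ∈ L) ∧ ∃ v ∈ U, v * y * v⁻¹ * y⁻¹ ∉ L)

theorem Cfg.finX (h : Cfg p V X x) : Finite X := by
  obtain ⟨k, hk⟩ := h.xp
  rw [h.gen]
  exact (zpowers_facts h.prime hk).1

theorem Cfg.pX (h : Cfg p V X x) : IsPGroup p X := by
  obtain ⟨k, hk⟩ := h.xp
  rw [h.gen]
  exact (zpowers_facts h.prime hk).2

theorem cher_bot : Cher (⊥ : Subgroup G) := Cher.of_finite inferInstance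

theorem map_comm {H : Type*} [Group H] (f : G →* H) (A B : Subgroup G) :
    (⁅A, B⁆ : Subgroup G).map f = ⁅A.map f, B.map f⁆ := Subgroup.map_commutator _ _ _

theorem MinCfg.main (h : MinCfg p V X x) : ∃ L : Subgroup G, Sec L V X := by
  have hne : V ≠ ⊥ := fun e => h.ncher (by rw [e]; exact cher_bot)
  have hfi : ∀ M : Subgroup G, M.Normal → M ≤ V → M.relIndex V ≠ 0 → M = V :=
    fun M h1 h2 h3 => h.fi h1 h2 h3
  by_cases hB : ∃ F : Set G, F.Finite ∧ F ⊆ V ∧ Subgroup.normalClosure F = V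
  · obtain ⟨F, hF, hFV, hcl⟩ := hB
    obtain ⟨L, h1, h2, h3, h4⟩ :=
      exists_maxNormal h.norm h.toCfg.finX h.sup hne hfi hF hFV hcl
    exact ⟨L, h1, h2, h3, h4, dichotomy h.toCfg h.perf h1 h2 h3 h4⟩
  · exfalso
    push Not at hB
    obtain ⟨E, hEn, hEV, hEc, hEF⟩ := exists_E h (fun F hF hFV => hB F hF hFV)
    have hV : V.Normal := h.norm
    -- the quotient by `E`
    set π := QuotientGroup.mk' E with hπ
    have hπs : Function.Surjective π := QuotientGroup.mk'_surjective E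
    have hker : π.ker = E := QuotientGroup.ker_mk' E
    have hcfg := h.toCfg.quotient E hEV
    have hperf' : ⁅V.map π, X.map π⁆ = V.map π := by
      rw [← map_comm, h.perf]
    have hcomapV : (V.map π).comap π = V := by
      rw [Subgroup.comap_map_eq, hker, sup_eq_left]
      exact hEV
    have hfi' : ∀ M : Subgroup (G ⧸ E), M.Normal → M ≤ V.map π → M.relIndex (V.map π) ≠ 0 →
        M = V.map π := by
      intro M hM hMV hi
      have h1 : M.comap π ≤ V := by
        rw [← hcomapV]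
        exact Subgroup.comap_mono hMV
      have h2 : (M.comap π).relIndex V ≠ 0 := by
        rw [Subgroup.relIndex_comap]
        exact hi
      have h3 := hfi (M.comap π) (hM.comap π) h1 h2
      rw [← h3, Subgroup.map_comap_eq_self_of_surjective hπs]
    have hF' : ∀ F : Set (G ⧸ E), F.Finite → F ⊆ V.map π →
        Finite (⁅Subgroup.normalClosure F, X.map π⁆ : Subgroup (G ⧸ E)) := by
      intro F hF hFV
      -- lift `F`
      have : ∀ f ∈ F, ∃ v ∈ V, π v = f := fun f hf => hFV hf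
      choose! r hr1 hr2 using this
      have h1 := hEF (r '' F) (hF.image r) (by
        rintro _ ⟨f, hf, rfl⟩
        exact hr1 f hf)
      have h2 : F = π '' (r '' F) := by
        ext f
        constructor
        · intro hf
          exact ⟨r f, ⟨f, hf, rfl⟩, hr2 f hf⟩
        · rintro ⟨_, ⟨f', hf', rfl⟩, rfl⟩
          rw [hr2 f' hf']
          exact hf'
      have h3 : Subgroup.normalClosure F = (Subgroup.normalClosure (r '' F)).map π := by
        rw [Subgroup.map_normalClosure _ _ hπs, ← h2]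
      rw [h3, ← map_comm]
      set T := (⁅Subgroup.normalClosure (r '' F), X⁆ : Subgroup G) with hT
      have h4 : Finite (T ⧸ E.subgroupOf T) := by
        have : (E.subgroupOf T).index ≠ 0 := h1
        exact Nat.finite_of_card_ne_zero this
      have h5 : Function.Surjective (fun q : T ⧸ E.subgroupOf T =>
          (⟨π (Quotient.out q : T), ⟨(Quotient.out q : T), (Quotient.out q : T).2, rfl⟩⟩ :
            (T.map π : Subgroup (G ⧸ E)))) := by
        rintro ⟨_, ⟨t, ht, rfl⟩⟩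
        refine ⟨QuotientGroup.mk (⟨t, ht⟩ : T), ?_⟩
        apply Subtype.ext
        show π (Quotient.out (QuotientGroup.mk (⟨t, ht⟩ : T) : T ⧸ E.subgroupOf T) : T) = π t
        obtain ⟨e, he⟩ := QuotientGroup.mk_out_eq_mul (E.subgroupOf T) (⟨t, ht⟩ : T)
        rw [he]
        have h6 : π ((e : T) : G) = 1 := by
          rw [← MonoidHom.mem_ker, hker]
          exact e.2
        show π (t * ((e : T) : G)) = π t
        rw [map_mul, h6, mul_one]
      exact Finite.of_surjective _ h5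
    have hcommN : (⁅V, V⁆ : Subgroup G).Normal := Subgroup.commutator_normal V V
    have hVV : (⁅V, V⁆ : Subgroup G) ≤ V := Subgroup.commutator_le_left V V
    have hdivV := divisible_quot h.toCfg h.perf hfi hcommN hVV (by
      intro a ha b hb
      have := Subgroup.commutator_mem_commutator ha hb
      rwa [commutatorElement_def] at this)
    have hdiv' : ∀ v ∈ V.map π, ∀ n : ℕ, 0 < n → ∃ u ∈ V.map π, ∃ c ∈ (⁅V.map π, V.map π⁆ :
        Subgroup (G ⧸ E)), v = u ^ n * c := by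
      rintro _ ⟨v, hv, rfl⟩ n hn
      obtain ⟨u, hu, c, hc, e⟩ := hdivV v hv n hn
      refine ⟨π u, ⟨u, hu, rfl⟩, π c, ?_, ?_⟩
      · rw [← map_comm]
        exact ⟨c, hc, rfl⟩
      · rw [e, map_mul, map_pow]
    have hcc := core_comm hcfg.prime hcfg.lf hcfg.norm hcfg.pp hcfg.finX hcfg.pX hcfg.sup hperf'
      hfi' hF' hdiv'
    have hab : ∀ a ∈ V, ∀ b ∈ V, a * b * a⁻¹ * b⁻¹ ∈ E := by
      intro a ha b hb
      rw [← hker, MonoidHom.mem_ker, map_mul, map_mul, map_mul, map_inv, map_inv,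
        hcc (π a) ⟨a, ha, rfl⟩ (π b) ⟨b, hb, rfl⟩]
      group
    have hdivE := divisible_quot h.toCfg h.perf hfi hEn hEV hab
    have hVc := comm_of_E h.toCfg h.perf hEn hEV hEc hab hdivE
    exact h.ncher (cher_of_comm h.toCfg le_rfl hVc h.perf)

end

/-- minimal elements from the failure of descending chains -/
theorem exists_minimal_of_dcc {G : Type*} [Group G] (P : Subgroup G → Prop)
    (hdcc : ¬ ∃ U : ℕ → Subgroup G, ∀ i, P (U i) ∧ U (i + 1) < U i) {U : Subgroup G} (hU : P U) :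
    ∃ W, P W ∧ W ≤ U ∧ ∀ T, P T → T ≤ W → T = W := by
  by_contra hcon
  push Not at hcon
  have step : ∀ W : {W : Subgroup G // P W ∧ W ≤ U}, ∃ T : {W : Subgroup G // P W ∧ W ≤ U},
      (T : Subgroup G) < W := by
    rintro ⟨W, hW, hWU⟩
    obtain ⟨T, hT, hTW, hne⟩ := hcon W hW hWU
    exact ⟨⟨T, hT, hTW.trans hWU⟩, lt_of_le_of_ne hTW hne⟩
  choose f hf using step
  apply hdcc
  refine ⟨fun i => ((f^[i] ⟨U, hU, le_rfl⟩ : {W : Subgroup G // P W ∧ W ≤ U}) : Subgroup G), fun i => ?_⟩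
  refine ⟨(f^[i] ⟨U, hU, le_rfl⟩).2.1, ?_⟩
  have h := hf (f^[i] ⟨U, hU, le_rfl⟩)
  rw [← Function.iterate_succ_apply' f i] at h
  exact h

/-- the relative statement: `V` is only assumed to be normalised by `x` -/
theorem main_rel {G : Type*} [Group G] {p : ℕ} (hp : p.Prime) (hG : LF G) {V : Subgroup G}
    (hpp : PP p V) {x : G} (hx : ∃ k : ℕ, x ^ (p ^ k) = 1) (hN : Nz (Subgroup.zpowers x) V)
    (hdcc : ¬ ∃ U : ℕ → Subgroup G, ∀ i, U i ≤ V ∧ ⁅U i, Subgroup.zpowers x⁆ = U i ∧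
      U (i + 1) < U i)
    (hnc : ¬ Cher ⁅V, Subgroup.zpowers x⁆) :
    ∃ L U : Subgroup G, U ≤ V ∧ ⁅U, Subgroup.zpowers x⁆ = U ∧ ¬ Cher U ∧
      (∀ W ≤ U, ⁅W, Subgroup.zpowers x⁆ = W → W ≠ U → Cher W) ∧
      Sec L U (Subgroup.zpowers x) := by
  obtain ⟨k, hk⟩ := hx
  have hXf : Finite (Subgroup.zpowers x) := (zpowers_facts hp hk).1
  have hXp : IsPGroup p (Subgroup.zpowers x) := (zpowers_facts hp hk).2
  obtain ⟨U, ⟨hUV, hUp, hUn⟩, -, hmin⟩ := exists_minimal_of_dcc
    (fun U : Subgroup G => U ≤ V ∧ ⁅U, Subgroup.zpowers x⁆ = U ∧ ¬ Cher U)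
    (by
      rintro ⟨U, hU⟩
      exact hdcc ⟨U, fun i => ⟨(hU i).1.1, (hU i).1.2.1, (hU i).2⟩⟩)
    (U := ⁅V, Subgroup.zpowers x⁆)
    ⟨comm_le_left hN, comm_comm hp hG hpp hXf hXp hN, hnc⟩
  have hUX : Nz (Subgroup.zpowers x) U := nz_of_perf hUp
  have hUpp : PP p U := fun u hu => hpp u (hUV hu)
  -- the group `H = U ⟨x⟩`
  set H : Subgroup G := U ⊔ Subgroup.zpowers x with hH
  have hUH : U ≤ H := le_sup_left
  have hxH : x ∈ H := (le_sup_right : Subgroup.zpowers x ≤ H) (Subgroup.mem_zpowers x)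
  set ι : H →* G := H.subtype with hι
  have hιi : Function.Injective ι := H.subtype_injective
  set U' : Subgroup H := U.subgroupOf H with hU'
  set x' : H := ⟨x, hxH⟩ with hx'
  have hmapU : U'.map ι = U := by
    rw [hU', hι, Subgroup.map_subgroupOf_eq_of_le hUH]
  have hmapX : (Subgroup.zpowers x').map ι = Subgroup.zpowers x := by
    rw [MonoidHom.map_zpowers]
    rfl
  have hinj : ∀ A B : Subgroup H, A.map ι = B.map ι → A = B := fun A B h =>
    Subgroup.map_injective hιi h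
  have hsup' : U' ⊔ Subgroup.zpowers x' = ⊤ := by
    apply hinj
    rw [Subgroup.map_sup, hmapU, hmapX, ← MonoidHom.range_eq_map, hι, Subgroup.range_subtype]
  have hcommU : ⁅U', Subgroup.zpowers x'⁆ = U' := by
    apply hinj
    rw [map_comm, hmapU, hmapX, hUp]
  have hcfg : MinCfg p U' (Subgroup.zpowers x') x' := by
    refine
      { prime := hp
        lf := hG.subgroup H
        norm := ?_
        pp := ?_
        gen := rfl
        xp := ⟨k, Subtype.ext hk⟩
        sup := hsup'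
        dcc := ?_
        perf := hcommU
        ncher := ?_
        minl := ?_ }
    · apply nz_of_sup hsup'
      · intro y hy u hu
        exact mul_mem (mul_mem hy hu) (inv_mem hy)
      · intro y hy u hu
        have h1 : (y : G) ∈ Subgroup.zpowers x := by
          rw [← hmapX]
          exact ⟨y, hy, rfl⟩
        exact hUX y h1 u hu
    · intro u hu j hj
      have h1 : (u : G) = 1 := hUpp u hu j (by
        have := congrArg (Subtype.val : H → G) hj
        simpa using this)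
      exact Subtype.ext h1
    · rintro ⟨W, hW⟩
      apply hdcc
      refine ⟨fun i => (W i).map ι, fun i => ⟨?_, ?_, ?_⟩⟩
      · refine le_trans ?_ hUV
        rw [← hmapU]
        exact Subgroup.map_mono (hW i).1
      · rw [← hmapX, ← map_comm, (hW i).2.1]
      · refine lt_of_le_of_ne (Subgroup.map_mono (hW i).2.2.le) fun e => ?_
        exact (hW i).2.2.ne (hinj _ _ e)
    · intro hc
      apply hUn
      rw [← hmapU]
      exact (cher_map_iff ι hιi).2 hc
    · intro W hWU hWp hne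
      by_contra hc
      have h1 := hmin (W.map ι) ⟨?_, ?_, fun h => hc ((cher_map_iff ι hιi).1 h)⟩ ?_
      · exact hne (hinj _ _ (by rw [h1, hmapU]))
      · refine le_trans ?_ hUV
        rw [← hmapU]
        exact Subgroup.map_mono hWU
      · rw [← hmapX, ← map_comm, hWp]
      · rw [← hmapU]
        exact Subgroup.map_mono hWU
  obtain ⟨L', h1, h2, h3, h4, h5⟩ := hcfg.main
  have hle : L'.map ι ≤ U := by
    rw [← hmapU]
    exact Subgroup.map_mono h1.le
  refine ⟨L'.map ι, U, hUV, hUp, hUn, ?_, ?_, ?_, ?_, ?_, ?_⟩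
  · intro W hWU hWp hne
    by_contra hc
    exact hne (hmin W ⟨hWU.trans hUV, hWp, hc⟩ hWU)
  · refine lt_of_le_of_ne hle fun e => ?_
    exact h1.ne (hinj _ _ (by rw [e, hmapU]))
  · rintro y hy _ ⟨l, hl, rfl⟩
    exact ⟨⟨y, hUH hy⟩ * l * ⟨y, hUH hy⟩⁻¹, h2 ⟨y, hUH hy⟩ hy l hl, rfl⟩
  · rw [← hmapU]
    rw [Subgroup.relIndex_map_map_of_injective _ _ hιi]
    exact h3
  · intro N hN1 hN2 hN3
    have hNH : N ≤ H := hN2.trans hUH
    have hmapN : (N.subgroupOf H).map ι = N := by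
      rw [hι, Subgroup.map_subgroupOf_eq_of_le hNH]
    have e1 : L' ≤ N.subgroupOf H := fun l hl => hN1 ⟨l, hl, rfl⟩
    have e2 : N.subgroupOf H ≤ U' := fun n hn => hN2 hn
    have e3 : Nz U' (N.subgroupOf H) := fun y hy n hn => hN3 y hy n hn
    rcases h4 (N.subgroupOf H) e1 e2 e3 with e | e
    · left
      rw [← hmapN, e]
    · right
      rw [← hmapN, e, hmapU]
  · rcases h5 with h5 | ⟨y, hy, hyL, v, hv, hvy⟩
    · left
      rintro ⟨S, hS⟩
      apply h5
      refine ⟨fun i => (S i).subgroupOf H, fun i => ⟨?_, ?_, ?_⟩⟩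
      · intro l hl
        exact (hS i).1 ⟨l, hl, rfl⟩
      · intro s hs
        exact (hS i).2.1 hs
      · have hm : ∀ i, ((S i).subgroupOf H).map ι = S i := fun i => by
          rw [hι, Subgroup.map_subgroupOf_eq_of_le ((hS i).2.1.trans hUH)]
        refine lt_of_le_of_ne ?_ fun e => ?_
        · intro s hs
          exact (hS i).2.2.le hs
        · apply (hS i).2.2.ne
          rw [← hm i, ← hm (i + 1)]
          exact congrArg (Subgroup.map ι) e
    · right
      refine ⟨y, ?_, ?_, v, hv, ?_⟩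
      · rw [← hmapX]
        exact ⟨y, hy, rfl⟩
      · rintro _ ⟨l, hl, rfl⟩
        exact ⟨y * l * y⁻¹, hyL l hl, rfl⟩
      · rintro ⟨l, hl, e⟩
        apply hvy
        have : l = v * y * v⁻¹ * y⁻¹ := Subtype.ext e
        rwa [← this]

/-- the whole reduction -/
theorem reduction {p : ℕ} (hp : p.Prime) {G : Type*} [Group G] (hG : LF G) (hm : PMin p G)
    {n : ℕ} {H : ℕ → Subgroup G} (h0 : H 0 = ⊥) (hn : H n = ⊤)
    (hH : ∀ i < n, H i ≤ H (i + 1) ∧ ((H i).subgroupOf (H (i + 1))).Normal ∧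
      ((H i).relIndex (H (i + 1)) ≠ 0 ∨ ∀ x ∈ H (i + 1), ∀ k : ℕ, x ^ (p ^ k) ∈ H i → x ∈ H i))
    (hnc : ¬ Cher (Subgroup.closure {g : G | ∃ k : ℕ, g ^ (p ^ k) = 1})) :
    ∃ (x : G) (L U : Subgroup G), (∃ k : ℕ, x ^ (p ^ k) = 1) ∧ PP p U ∧
      ⁅U, Subgroup.zpowers x⁆ = U ∧ ¬ Cher U ∧
      (∀ W ≤ U, ⁅W, Subgroup.zpowers x⁆ = W → W ≠ U → Cher W) ∧
      Sec L U (Subgroup.zpowers x) ∧
      ∃ i < n, (H i).relIndex (H (i + 1)) = 0 ∧ U ⊓ H i ≤ L ∧ U ≤ L ⊔ (U ⊓ H (i + 1)) ∧
        ∃ F : Set G, F.Finite ∧ F ⊆ U ∧ F ⊆ H (i + 1) ∧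
          ∀ m : ℕ, ¬ (derivedSeries (Subgroup.closure F) m).map (Subgroup.closure F).subtype ≤ L := by
  obtain ⟨V, hV, hVi, hpp⟩ := exists_pprime_finiteIndex hp hG ⟨n, H, h0, hn, hH⟩
  have hex : ∃ x : G, (∃ k : ℕ, x ^ (p ^ k) = 1) ∧ ¬ Cher ⁅V, Subgroup.zpowers x⁆ := by
    by_contra hcon
    push Not at hcon
    exact hnc (cher_of_single hp hG hV hVi hpp hcon)
  obtain ⟨x, hx, hxc⟩ := hex
  have hN : Nz (Subgroup.zpowers x) V := nz_of_normal hV
  obtain ⟨L, U, hUV, hUp, hUn, hUm, hsec⟩ := main_rel hp hG hpp hx hN (dcc_of_pmin hp hm hpp hx hN) hxc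
  refine ⟨x, L, U, hx, fun u hu => hpp u (hUV hu), hUp, hUn, hUm, hsec, ?_⟩
  obtain ⟨h1, h2, h3, h4, -⟩ := hsec
  obtain ⟨i, hi, h5, h6⟩ := section_in_factor h1 h2 h4 h0 hn
    (fun i hi => ⟨(hH i hi).1, (hH i hi).2.1⟩)
  refine ⟨i, hi, ?_, h5, h6, ?_⟩
  · by_contra hne
    -- `L` has finite index in `U`
    apply absurd h3
    have e1 : (H i).relIndex (U ⊓ H (i + 1)) ≠ 0 := by
      intro h
      apply hne
      exact Subgroup.relIndex_eq_zero_of_le_right inf_le_right h
    have e2 : L.relIndex (U ⊓ H (i + 1)) ≠ 0 := by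
      intro h
      apply e1
      have : (U ⊓ H i).relIndex (U ⊓ H (i + 1)) = 0 :=
        Subgroup.relIndex_eq_zero_of_le_left h5 h
      have e3 : (U ⊓ H i).relIndex (U ⊓ H (i + 1)) = (H i).relIndex (U ⊓ H (i + 1)) := by
        rw [← Subgroup.inf_relIndex_right (U ⊓ H i), ← Subgroup.inf_relIndex_right (H i)]
        congr 1
        ext g
        simp only [Subgroup.mem_inf]
        tauto
      rw [← e3]
      exact this
    -- transfer along `U = L (U ⊓ H (i+1))`
    set U₁ := U ⊓ H (i + 1) with hU₁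
    have hn' : (L.subgroupOf U).Normal := (nz_subgroupOf h1.le).2 h2
    have e4 : (U₁.subgroupOf U) ⊔ (L.subgroupOf U) = ⊤ := by
      apply Subgroup.map_injective U.subtype_injective
      rw [Subgroup.map_sup, Subgroup.map_subgroupOf_eq_of_le h1.le,
        Subgroup.map_subgroupOf_eq_of_le (inf_le_left : U₁ ≤ U), ← MonoidHom.range_eq_map,
        Subgroup.range_subtype]
      apply le_antisymm (sup_le inf_le_left h1.le)
      rw [sup_comm]
      exact h6
    have e5 : (L.subgroupOf U).relIndex ((U₁.subgroupOf U) ⊔ (L.subgroupOf U)) =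
        (L.subgroupOf U).relIndex (U₁.subgroupOf U) := Subgroup.relIndex_sup_right _ _
    rw [e4, Subgroup.relIndex_top_right] at e5
    have e6 : (L.subgroupOf U).relIndex (U₁.subgroupOf U) = L.relIndex U₁ :=
      Subgroup.relIndex_subgroupOf inf_le_left
    show (L.subgroupOf U).index ≠ 0
    rw [e5, e6]
    exact e2
  · obtain ⟨F, hF, hFU, hFm⟩ := not_locally_solvable hG h1 h2 h3 h4
      (inf_le_left : U ⊓ H (i + 1) ≤ U) h6
    exact ⟨F, hF, fun f hf => (hFU hf).1, fun f hf => (hFU hf).2, hFm⟩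

end PMC
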