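import Pool.Agent.PMC.Sq

/-!
[PMC] invariant Sylow subgroups under coprime action.
-/

set_option autoImplicit false

namespace PMC

open Subgroup
open scoped commutatorElement

section

variable {G : Type*} [Group G] {p q : ℕ}

/-- `Q` is a Sylow `q`-subgroup of `F` -/
structure Syl (q : ℕ) (Q F : Subgroup G) : Prop where
  le : Q ≤ F
  pg : IsPGroup q Q
  idx : ¬ q ∣ Q.relIndex F

/-- Sylow conjugacy, relative version -/
theorem sylow_conj_rel (hp : p.Prime) (hG : LF G) {D X Y : Subgroup G} (hpp : PP p D)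
    (hX : Finite X) (hXp : IsPGroup p X) (hY : Finite Y) (hYp : IsPGroup p Y)
    (hDX : Nz X D) (h : D ⊔ X = D ⊔ Y) : ∃ d ∈ D, cj d X = Y := by
  set T := D ⊔ X with hT
  have hDT : D ≤ T := le_sup_left
  have hXT : X ≤ T := le_sup_right
  have hYT : Y ≤ T := by
    rw [h]
    exact le_sup_right
  have hinj : Function.Injective T.subtype := T.subtype_injective
  have hm : ∀ A ≤ T, (A.subgroupOf T).map T.subtype = A := fun A hA =>
    Subgroup.map_subgroupOf_eq_of_le hA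
  have hsup : D.subgroupOf T ⊔ X.subgroupOf T = ⊤ := by
    apply Subgroup.map_injective hinj
    rw [Subgroup.map_sup, hm D hDT, hm X hXT, ← MonoidHom.range_eq_map, Subgroup.range_subtype]
  have hsup' : D.subgroupOf T ⊔ Y.subgroupOf T = ⊤ := by
    apply Subgroup.map_injective hinj
    rw [Subgroup.map_sup, hm D hDT, hm Y hYT, ← MonoidHom.range_eq_map, Subgroup.range_subtype, ← h]
  have hn : (D.subgroupOf T).Normal := by
    apply nz_of_sup hsup
    · intro y hy u hu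
      exact mul_mem (mul_mem hy hu) (inv_mem hy)
    · intro y hy u hu
      exact hDX y hy u hu
  have hpp' : PP p (D.subgroupOf T) := by
    intro u hu k hk
    exact Subtype.ext (hpp u hu k (by simpa using congrArg (Subtype.val : T → G) hk))
  have fin : ∀ A : Subgroup G, Finite A → Finite (A.subgroupOf T) := by
    intro A hA
    exact Finite.of_injective (fun a : A.subgroupOf T => (⟨(a : T), a.2⟩ : A))
      (fun a b h => Subtype.ext (Subtype.ext (congrArg (Subtype.val : A → G) h)))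
  have pg : ∀ A : Subgroup G, IsPGroup p A → IsPGroup p (A.subgroupOf T) := by
    intro A hA a
    obtain ⟨k, hk⟩ := hA ⟨(a : T), a.2⟩
    exact ⟨k, Subtype.ext (Subtype.ext (congrArg (Subtype.val : A → G) hk))⟩
  obtain ⟨v, hv, hvXY⟩ := sylow_conj hp (hG.subgroup T) hn hpp' (fin X hX) (pg X hXp) (fin Y hY)
    (pg Y hYp) (hsup.trans hsup'.symm)
  refine ⟨v, hv.1, ?_⟩
  ext g
  rw [mem_cj]
  constructor
  · intro hg
    have hgT : g ∈ T := by
      have := T.mul_mem (T.mul_mem v.2 (hXT hg)) (T.inv_mem v.2)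
      have e : (v : G) * ((v : G)⁻¹ * g * v) * (v : G)⁻¹ = g := by group
      rwa [e] at this
    have h1 : (⟨g, hgT⟩ : T) ∈ cj v (X.subgroupOf T) := by
      rw [mem_cj]
      exact hg
    rw [hvXY] at h1
    exact h1
  · intro hg
    have h1 : (⟨g, hYT hg⟩ : T) ∈ Y.subgroupOf T := hg
    rw [← hvXY, mem_cj] at h1
    exact h1

theorem syl_sub {Q F : Subgroup G} (h : Syl q Q F) (hq : q.Prime) [Finite F] :
    ∃ P : Sylow q F, (P : Subgroup F) = Q.subgroupOf F := by
  have := Fact.mk hq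
  have h1 : IsPGroup q (Q.subgroupOf F) := by
    intro a
    obtain ⟨k, hk⟩ := h.pg ⟨(a : F), a.2⟩
    exact ⟨k, Subtype.ext (Subtype.ext (congrArg (Subtype.val : Q → G) hk))⟩
  exact ⟨h1.toSylow h.idx, rfl⟩

/-- Sylow conjugacy in `F` -/
theorem syl_conj_aux (hq : q.Prime) {F : Subgroup G} [Finite F] {Q₁ Q₂ : Subgroup G}
    (h1 : Syl q Q₁ F) (h2 : Syl q Q₂ F) : ∃ f ∈ F, cj f Q₁ = Q₂ := by
  have := Fact.mk hq
  obtain ⟨P₁, hP₁⟩ := syl_sub h1 hq
  obtain ⟨P₂, hP₂⟩ := syl_sub h2 hq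
  obtain ⟨f, hf⟩ := MulAction.exists_smul_eq F P₁ P₂
  have h3 : (P₂ : Subgroup F) = cj f (P₁ : Subgroup F) := by
    rw [← hf]
    rfl
  refine ⟨f, f.2, ?_⟩
  have h4 := congrArg (Subgroup.map F.subtype) h3
  rw [hP₁, hP₂, Subgroup.map_subgroupOf_eq_of_le h2.le] at h4
  rw [h4]
  ext g
  rw [mem_cj]
  constructor
  · intro hg
    have hgF : g ∈ F := by
      have := F.mul_mem (F.mul_mem f.2 (h1.le hg)) (F.inv_mem f.2)
      have e : (f : G) * ((f : G)⁻¹ * g * f) * (f : G)⁻¹ = g := by group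
      rwa [e] at this
    refine ⟨⟨g, hgF⟩, ?_, rfl⟩
    rw [SetLike.mem_coe, mem_cj]
    exact hg
  · rintro ⟨g', hg', rfl⟩
    rw [SetLike.mem_coe, mem_cj] at hg'
    exact hg'

theorem not_dvd_card (hp : p.Prime) {F : Subgroup G} [Finite F] (hpp : PP p F) :
    ¬ p ∣ Nat.card F := by
  intro h
  have := Fact.mk hp
  obtain ⟨x, hx⟩ := exists_prime_orderOf_dvd_card' p h
  have h1 : x = 1 := Subtype.ext (hpp x x.2 1 (by
    rw [pow_one]
    have := pow_orderOf_eq_one x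
    rw [hx] at this
    simpa using congrArg (Subtype.val : F → G) this))
  rw [h1, orderOf_one] at hx
  exact hp.one_lt.ne hx

/-- an invariant Sylow subgroup exists -/
theorem exists_syl (hp : p.Prime) (hq : q.Prime) {F X : Subgroup G} [Finite F] (hpp : PP p F)
    (hXp : IsPGroup p X) (hN : Nz X F) : ∃ Q, Syl q Q F ∧ Nz X Q := by
  have := Fact.mk hq
  have := Fact.mk hp
  let act : MulDistribMulAction X F :=
    { smul := fun y f => ⟨y * f * (y : G)⁻¹, hN y y.2 f f.2⟩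
      one_smul := fun f => Subtype.ext (by
        show (1 : G) * f * (1 : G)⁻¹ = f
        simp)
      mul_smul := fun y z f => Subtype.ext (by
        show ((y : G) * z) * f * ((y : G) * z)⁻¹ = y * (z * f * (z : G)⁻¹) * (y : G)⁻¹
        group)
      smul_mul := fun y f g => Subtype.ext (by
        show (y : G) * ((f : G) * g) * (y : G)⁻¹ = (y * f * (y : G)⁻¹) * (y * g * (y : G)⁻¹)
        group)
      smul_one := fun y => Subtype.ext (by
        show (y : G) * (1 : G) * (y : G)⁻¹ = 1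
        simp) }
  have h1 : ¬ p ∣ Nat.card (Sylow q F) := fun h =>
    not_dvd_card hp hpp (h.trans ((Sylow.card_dvd_index (default : Sylow q F)).trans
      (Subgroup.index_dvd_card _)))
  obtain ⟨Q, hQ⟩ := hXp.nonempty_fixed_point_of_prime_not_dvd_card (Sylow q F) h1
  have hm : ((Q : Subgroup F).map F.subtype).subgroupOf F = Q := by
    rw [Subgroup.subgroupOf, Subgroup.comap_map_eq_self_of_injective F.subtype_injective]
  refine ⟨(Q : Subgroup F).map F.subtype, ⟨?_, ?_, ?_⟩, ?_⟩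
  · rintro _ ⟨a, _, rfl⟩
    exact a.2
  · exact Q.isPGroup'.map _
  · show ¬ q ∣ (((Q : Subgroup F).map F.subtype).subgroupOf F).index
    rw [hm]
    exact Q.not_dvd_index
  · rintro y hy _ ⟨a, ha, rfl⟩
    have h2 : (⟨y, hy⟩ : X) • Q = Q := hQ ⟨y, hy⟩
    have h3 : (⟨y, hy⟩ : X) • a ∈ ((⟨y, hy⟩ : X) • Q : Sylow q F) :=
      Subgroup.smul_mem_pointwise_smul a (⟨y, hy⟩ : X) (Q : Subgroup F) ha
    rw [h2] at h3
    exact ⟨(⟨y, hy⟩ : X) • a, h3, rfl⟩

theorem nz_normalizer {X F Q : Subgroup G} (hF : Nz X F) (hQ : Nz X Q) :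
    Nz X (Subgroup.normalizer (Q : Set G) ⊓ F) := by
  intro y hy n hn
  refine Subgroup.mem_inf.2 ⟨?_, hF y hy n hn.2⟩
  have h1 : ∀ g : G, g ∈ Q ↔ y * g * y⁻¹ ∈ Q := fun g => ⟨fun hg => hQ y hy g hg, fun hg => by
    have := hQ y⁻¹ (inv_mem hy) _ hg
    have e : y⁻¹ * (y * g * y⁻¹) * y⁻¹⁻¹ = g := by group
    rwa [e] at this⟩
  rw [Subgroup.mem_normalizer_iff]
  intro h
  have h2 := Subgroup.mem_normalizer_iff.1 hn.1 (y⁻¹ * h * y)
  have h3 := h1 (y⁻¹ * h * y)
  have e3 : y * (y⁻¹ * h * y) * y⁻¹ = h := by group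
  rw [e3] at h3
  have h4 := h1 (n * (y⁻¹ * h * y) * n⁻¹)
  have e4 : y * (n * (y⁻¹ * h * y) * n⁻¹) * y⁻¹ = y * n * y⁻¹ * h * (y * n * y⁻¹)⁻¹ := by group
  rw [e4] at h4
  exact h3.symm.trans (h2.trans h4)

end

end PMC
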