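import Pool.Agent.PMC.Ix

/-!
[PMC] invariant Sylow subgroups under coprime action: extension and conjugacy.
-/

set_option autoImplicit false

namespace PMC

open Subgroup
open scoped commutatorElement

section

variable {G : Type*} [Group G] {p q : ℕ}

/-- every invariant `q`-subgroup lies in an invariant Sylow `q`-subgroup -/
theorem exists_syl_ge (hp : p.Prime) (hq : q.Prime) {F X : Subgroup G} [Finite F]
    (hpp : PP p F) (hXp : IsPGroup p X) (hN : Nz X F) {P : Subgroup G} (hPF : P ≤ F)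
    (hPq : IsPGroup q P) (hPX : Nz X P) : ∃ Q, Syl q Q F ∧ Nz X Q ∧ P ≤ Q := by
  have := Fact.mk hq
  have hfin : {R : Subgroup G | R ≤ F ∧ IsPGroup q R ∧ Nz X R}.Finite := by
    have : Finite (Subgroup F) := inferInstance
    refine (Set.finite_range (Subgroup.map F.subtype)).subset ?_
    rintro R ⟨hR, -, -⟩
    exact ⟨R.subgroupOf F, Subgroup.map_subgroupOf_eq_of_le hR⟩
  obtain ⟨R, hPR, hR⟩ := hfin.exists_le_maximal (a := P) ⟨hPF, hPq, hPX⟩
  obtain ⟨⟨hRF, hRq, hRX⟩, hmax⟩ := hR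
  refine ⟨R, ⟨hRF, hRq, ?_⟩, hRX, hPR⟩
  set N := Subgroup.normalizer (R : Set G) ⊓ F with hNdef
  have hNF : N ≤ F := inf_le_right
  have hNfin : Finite N := Finite.of_injective (Subgroup.inclusion hNF)
    (Subgroup.inclusion_injective hNF)
  have hRN : R ≤ N := le_inf Subgroup.le_normalizer hRF
  obtain ⟨S, hS, hSX⟩ := exists_syl (F := N) hp hq (fun u hu => hpp u (hNF hu)) hXp
    (nz_normalizer hN hRX)
  -- `R ≤ S`
  have hT : IsPGroup q (S ⊔ R : Subgroup G) :=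
    hS.pg.to_sup_of_normal_right' hRq (hS.le.trans inf_le_left)
  have hTN : S ⊔ R ≤ N := sup_le hS.le hRN
  have hTfin : Finite (S ⊔ R : Subgroup G) := Finite.of_injective (Subgroup.inclusion hTN)
    (Subgroup.inclusion_injective hTN)
  have h1 : S.relIndex (S ⊔ R) = 1 := by
    obtain ⟨n, hn⟩ := hT.exists_card_eq
    have h2 : S.relIndex (S ⊔ R) ∣ q ^ n := by
      rw [← hn]
      exact Subgroup.index_dvd_card _
    obtain ⟨m, -, hm⟩ := (Nat.dvd_prime_pow hq).1 h2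
    rcases Nat.eq_zero_or_pos m with h0 | h0
    · rw [hm, h0, pow_zero]
    · exfalso
      apply hS.idx
      rw [← Subgroup.relIndex_mul_relIndex S (S ⊔ R) N le_sup_left hTN, hm]
      exact Dvd.dvd.mul_right (dvd_pow_self q h0.ne') _
  have hRS : R ≤ S := le_sup_right.trans (Subgroup.relIndex_eq_one.1 h1)
  have hSR : S = R := le_antisymm (hmax ⟨hS.le.trans hNF, hS.pg, hSX⟩ hRS) hRS
  have h3 : ¬ q ∣ R.relIndex N := by
    have := hS.idx
    rwa [hSR] at this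
  intro h4
  apply h3
  -- now in `F`
  have hR' : IsPGroup q (R.subgroupOf F) := by
    intro a
    obtain ⟨k, hk⟩ := hRq ⟨(a : F), a.2⟩
    exact ⟨k, Subtype.ext (Subtype.ext (congrArg (Subtype.val : R → G) hk))⟩
  obtain ⟨n, hn⟩ := hR'.exists_card_eq
  have h5 : q ^ (n + 1) ∣ Nat.card F := by
    rw [← Subgroup.card_mul_index (R.subgroupOf F), hn, pow_succ]
    exact Nat.mul_dvd_mul_left _ h4
  have h6 := Sylow.prime_dvd_card_quotient_normalizer h5 hn
  have h7 : R.relIndex N =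
      (R.subgroupOf F).relIndex (Subgroup.normalizer ((R.subgroupOf F : Subgroup F) : Set F)) := by
    rw [← Subgroup.subgroupOf_normalizer_eq hRF, ← Subgroup.relIndex_subgroupOf hNF, hNdef,
      Subgroup.inf_subgroupOf_right]
  rw [h7]
  exact h6

/-- invariant Sylow subgroups are conjugate under the centralizer -/
theorem syl_conj (hp : p.Prime) (hG : LF G) (hq : q.Prime) {F X : Subgroup G} [Finite F]
    (hpp : PP p F) (hX : Finite X) (hXp : IsPGroup p X) (hN : Nz X F) {Q₁ Q₂ : Subgroup G}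
    (h1 : Syl q Q₁ F) (h2 : Syl q Q₂ F) (n1 : Nz X Q₁) (n2 : Nz X Q₂) :
    ∃ c ∈ F, (∀ y ∈ X, y * c = c * y) ∧ cj c Q₁ = Q₂ := by
  obtain ⟨f, hf, hfQ⟩ := syl_conj_aux hq h1 h2
  set D := Subgroup.normalizer (Q₁ : Set G) ⊓ F with hD
  have hDF : D ≤ F := inf_le_right
  have hYf : Finite (cj f⁻¹ X) := S.cj_finite hX _
  have hYp : IsPGroup p (cj f⁻¹ X) := S.cj_pgroup hXp _
  have hYF : Nz (cj f⁻¹ X) F := by
    intro y hy u hu
    rw [mem_cj, inv_inv] at hy
    have h3 := hN _ hy _ (F.mul_mem (F.mul_mem hf hu) (F.inv_mem hf))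
    have h4 := F.mul_mem (F.mul_mem (F.inv_mem hf) h3) hf
    have e : f⁻¹ * (f * y * f⁻¹ * (f * u * f⁻¹) * (f * y * f⁻¹)⁻¹) * f = y * u * y⁻¹ := by group
    rwa [e] at h4
  have hYQ : Nz (cj f⁻¹ X) Q₁ := by
    intro y hy u hu
    rw [mem_cj, inv_inv] at hy
    have h3 : f * u * f⁻¹ ∈ Q₂ := by
      rw [← hfQ, conj_mem_cj]
      exact hu
    have h4 := n2 _ hy _ h3
    rw [← hfQ, mem_cj] at h4
    have e : f⁻¹ * (f * y * f⁻¹ * (f * u * f⁻¹) * (f * y * f⁻¹)⁻¹) * f = y * u * y⁻¹ := by group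
    rwa [e] at h4
  have hnorm : ∀ Z : Subgroup G, Nz Z Q₁ → Z ≤ Subgroup.normalizer (Q₁ : Set G) := by
    intro Z hZ z hz
    rw [Subgroup.mem_normalizer_iff]
    intro g
    refine ⟨fun hg => hZ z hz g hg, fun hg => ?_⟩
    have := hZ z⁻¹ (inv_mem hz) _ hg
    have e : z⁻¹ * (z * g * z⁻¹) * z⁻¹⁻¹ = g := by group
    rwa [e] at this
  have hXD : Nz X D := nz_normalizer hN n1
  have hkey : ∀ y ∈ X, (f⁻¹ * y * f) * y⁻¹ ∈ D := by
    intro y hy
    have hy' : f⁻¹ * y * f ∈ cj f⁻¹ X := by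
      rw [mem_cj, inv_inv]
      have e : f * (f⁻¹ * y * f) * f⁻¹ = y := by group
      rwa [e]
    refine Subgroup.mem_inf.2 ⟨mul_mem (hnorm _ hYQ hy') (inv_mem (hnorm _ n1 hy)), ?_⟩
    have e : f⁻¹ * y * f * y⁻¹ = f⁻¹ * (y * f * y⁻¹) := by group
    rw [e]
    exact mul_mem (inv_mem hf) (hN y hy f hf)
  have hsup : D ⊔ X = D ⊔ cj f⁻¹ X := by
    apply le_antisymm
    · refine sup_le le_sup_left ?_
      intro y hy
      have h3 := hkey y hy
      have hy' : f⁻¹ * y * f ∈ cj f⁻¹ X := by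
        rw [mem_cj, inv_inv]
        have e : f * (f⁻¹ * y * f) * f⁻¹ = y := by group
        rwa [e]
      have e : y = ((f⁻¹ * y * f) * y⁻¹)⁻¹ * (f⁻¹ * y * f) := by group
      rw [e]
      exact mul_mem ((le_sup_left : D ≤ _) (inv_mem h3)) ((le_sup_right : cj f⁻¹ X ≤ _) hy')
    · refine sup_le le_sup_left ?_
      intro z hz
      rw [mem_cj, inv_inv] at hz
      have h3 := hkey _ hz
      have e : z = (f⁻¹ * (f * z * f⁻¹) * f * (f * z * f⁻¹)⁻¹) * (f * z * f⁻¹) := by group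
      rw [e]
      exact mul_mem ((le_sup_left : D ≤ _) h3) ((le_sup_right : X ≤ _) hz)
  obtain ⟨d, hd, hdX⟩ := sylow_conj_rel hp hG (fun u hu => hpp u (hDF hu)) hX hXp hYf hYp hXD hsup
  have hcX : cj (f * d) X = X := by
    rw [← cj_cj, hdX, cj_cj_inv]
  have hcQ : cj (f * d) Q₁ = Q₂ := by
    rw [← cj_cj]
    have h3 : cj d Q₁ = Q₁ := by
      ext g
      rw [mem_cj]
      have h4 := Subgroup.mem_normalizer_iff.1 (inv_mem hd.1) g
      rw [inv_inv] at h4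
      exact h4.symm
    rw [h3, hfQ]
  have hcF : f * d ∈ F := mul_mem hf (hDF hd)
  refine ⟨f * d, hcF, fun y hy => ?_, hcQ⟩
  have h5 : (f * d) * y * (f * d)⁻¹ ∈ X := by
    rw [← hcX]
    exact conj_mem_cj.2 hy
  have h6 : (f * d) * y * (f * d)⁻¹ * y⁻¹ ∈ X := mul_mem h5 (inv_mem hy)
  have h7 : (f * d) * y * (f * d)⁻¹ * y⁻¹ ∈ F := by
    have e : (f * d) * y * (f * d)⁻¹ * y⁻¹ = (f * d) * (y * (f * d)⁻¹ * y⁻¹) := by group
    rw [e]
    exact mul_mem hcF (hN y hy _ (inv_mem hcF))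
  obtain ⟨k, hk⟩ := hXp ⟨_, h6⟩
  have h8 := hpp _ h7 k (congrArg (Subtype.val : X → G) hk)
  have h9 : (f * d) * y * (f * d)⁻¹ = y := mul_inv_eq_one.1 h8
  calc y * (f * d) = ((f * d) * y * (f * d)⁻¹) * (f * d) := by rw [h9]
    _ = f * d * y := by group

end

end PMC
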