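import Pool.Agent.PMC.Iy

/-!
[PMC] the index of the centralizer under coprime action.
-/

set_option autoImplicit false

namespace PMC

open Subgroup
open scoped commutatorElement

section

variable {G : Type*} [Group G] {p q : ℕ} {V X : Subgroup G} {x : G}

/-- a maximal `X`-perfect `q`-subgroup -/
theorem exists_max_perf (hfin : ∀ P ≤ V, IsPGroup q P → ⁅P, X⁆ = P → Finite P) :
    ∃ P ≤ V, IsPGroup q P ∧ ⁅P, X⁆ = P ∧ Finite P ∧
      ∀ R ≤ V, IsPGroup q R → ⁅R, X⁆ = R → P ≤ R → R = P := by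
  obtain ⟨P, -, hP⟩ := zorn_le_nonempty₀ {P : Subgroup G | P ≤ V ∧ IsPGroup q P ∧ ⁅P, X⁆ = P}
    (by
      intro c hc hchain K hK
      have hdir := hchain.directedOn
      have hmem : ∀ g : G, g ∈ sSup c ↔ ∃ P ∈ c, g ∈ P := fun g =>
        Subgroup.mem_sSup_of_directedOn ⟨K, hK⟩ hdir
      refine ⟨sSup c, ⟨sSup_le fun L hL => (hc hL).1, ?_, ?_⟩, fun L hL => le_sSup hL⟩
      · rintro ⟨g, hg⟩
        obtain ⟨P, hP, hgP⟩ := (hmem g).1 hg
        obtain ⟨k, hk⟩ := (hc hP).2.1 ⟨g, hgP⟩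
        exact ⟨k, Subtype.ext (congrArg (Subtype.val : P → G) hk)⟩
      · apply le_antisymm
        · apply comm_le_left
          intro y hy u hu
          obtain ⟨P, hP, huP⟩ := (hmem u).1 hu
          exact (hmem _).2 ⟨P, hP, nz_of_perf (hc hP).2.2 y hy u huP⟩
        · refine sSup_le fun P hP => ?_
          have h1 := (hc hP).2.2
          rw [← h1]
          exact Subgroup.commutator_mono (le_sSup hP) le_rfl)
    ⊥ ⟨bot_le, IsPGroup.of_bot, Subgroup.commutator_bot_left _⟩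
  obtain ⟨⟨h1, h2, h3⟩, hmax⟩ := hP
  exact ⟨P, h1, h2, h3, hfin P h1 h2 h3, fun R hR hRq hRp hPR =>
    le_antisymm (hmax ⟨hR, hRq, hRp⟩ hPR) hPR⟩

theorem card_comm_le (hp : p.Prime) (hG : LF G) (hq : q.Prime) (hpp : PP p V) (hX : Finite X)
    (hXp : IsPGroup p X) {P : Subgroup G} (hPV : P ≤ V) (hPq : IsPGroup q P)
    (hPp : ⁅P, X⁆ = P) (hPf : Finite P)
    (hmax : ∀ R ≤ V, IsPGroup q R → ⁅R, X⁆ = R → P ≤ R → R = P)
    {F Q : Subgroup G} (hFf : Finite F) (hFV : F ≤ V) (hF : Nz X F) (hQ : Syl q Q F)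
    (hQX : Nz X Q) : Nat.card (⁅Q, X⁆ : Subgroup G) ≤ Nat.card P := by
  have hF'f : Finite (F ⊔ P : Subgroup G) := hG.finite_sup hFf hPf
  have hF'V : F ⊔ P ≤ V := sup_le hFV hPV
  have hF'X : Nz X (F ⊔ P) := C2.nz_sup hF (nz_of_perf hPp)
  have hF'pp : PP p (F ⊔ P : Subgroup G) := fun u hu => hpp u (hF'V hu)
  obtain ⟨Q₁, hQ₁, hQ₁X, hQQ₁⟩ := exists_syl_ge hp hq hF'pp hXp hF'X
    (hQ.le.trans le_sup_left) hQ.pg hQX
  obtain ⟨Q₂, hQ₂, hQ₂X, hPQ₂⟩ := exists_syl_ge hp hq hF'pp hXp hF'X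
    (le_sup_right : P ≤ F ⊔ P) hPq (nz_of_perf hPp)
  obtain ⟨c, hc, hcX, hcQ⟩ := syl_conj hp hG hq hF'pp hX hXp hF'X hQ₂ hQ₁ hQ₂X hQ₁X
  have hcX' : cj c X = X := by
    ext g
    rw [mem_cj]
    constructor
    · intro hg
      have := hcX _ hg
      have e : g = c⁻¹ * g * c := by
        calc g = c * (c⁻¹ * g * c) * c⁻¹ := by group
          _ = (c⁻¹ * g * c) * c * c⁻¹ := by rw [← this]
          _ = c⁻¹ * g * c := by group
      rw [e]
      exact hg
    · intro hg
      have e : c⁻¹ * g * c = g := by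
        calc c⁻¹ * g * c = c⁻¹ * (g * c) := by group
          _ = c⁻¹ * (c * g) := by rw [hcX g hg]
          _ = g := by group
      rw [e]
      exact hg
  have hR : (⁅Q₂, X⁆ : Subgroup G) = P := by
    apply hmax
    · exact (comm_le_left hQ₂X).trans (hQ₂.le.trans hF'V)
    · exact hQ₂.pg.to_le (comm_le_left hQ₂X)
    · exact comm_comm hp hG (fun u hu => hF'pp u (hQ₂.le hu)) hX hXp hQ₂X
    · rw [← hPp]
      exact Subgroup.commutator_mono hPQ₂ le_rfl
  have h1 : (⁅Q, X⁆ : Subgroup G) ≤ cj c P := by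
    rw [← hR, cj_comm, hcQ, hcX']
    exact Subgroup.commutator_mono hQQ₁ le_rfl
  have h2 : Finite (cj c P) := S.cj_finite hPf c
  have h3 : Nat.card (cj c P) = Nat.card P := by
    exact Nat.card_congr (P.equivMapOfInjective _ (MulAut.conj c).injective).symm.toEquiv
  rw [← h3]
  exact Nat.card_le_card_of_injective (Subgroup.inclusion h1) (Subgroup.inclusion_injective h1)

/-- the `q`-part of the index of the centralizer -/
theorem qpart_le (hp : p.Prime) (hG : LF G) (hq : q.Prime) {F Q : Subgroup G} (hpp : PP p F)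
    (hX : Finite X) (hXp : IsPGroup p X) (hFf : Finite F) (hQ : Syl q Q F)
    (hQX : Nz X Q) {n : ℕ}
    (hn : q ^ n ∣ (F ⊓ Subgroup.centralizer (X : Set G)).relIndex F) :
    q ^ n ≤ Nat.card (⁅Q, X⁆ : Subgroup G) := by
  set C := F ⊓ Subgroup.centralizer (X : Set G) with hC
  set CQ := Q ⊓ Subgroup.centralizer (X : Set G) with hCQ
  have hQf : Finite Q := Finite.of_injective (Subgroup.inclusion hQ.le)
    (Subgroup.inclusion_injective hQ.le)
  have h1 : CQ ≤ C := inf_le_inf_right _ hQ.le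
  have h2 := Subgroup.relIndex_mul_relIndex CQ C F h1 inf_le_left
  have h3 := Subgroup.relIndex_mul_relIndex CQ Q F inf_le_left hQ.le
  have h4 : q ^ n ∣ CQ.relIndex Q * Q.relIndex F := by
    rw [h3, ← h2]
    exact Dvd.dvd.mul_left hn _
  have h5 : q ^ n ∣ CQ.relIndex Q := by
    refine Nat.Coprime.dvd_of_dvd_mul_right ?_ h4
    exact Nat.Coprime.pow_left n ((Nat.Prime.coprime_iff_not_dvd hq).2 hQ.idx)
  have h6 : CQ.relIndex Q ≠ 0 := by
    have : Finite (Q ⧸ CQ.subgroupOf Q) := inferInstance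
    exact Nat.card_pos.ne'
  refine (Nat.le_of_dvd (Nat.pos_of_ne_zero h6) h5).trans ?_
  have hle : (⁅Q, X⁆ : Subgroup G) ≤ Q := comm_le_left hQX
  have hTf : Finite (⁅Q, X⁆ : Subgroup G) := Finite.of_injective (Subgroup.inclusion hle)
    (Subgroup.inclusion_injective hle)
  refine Nat.card_le_card_of_surjective
    (fun t : (⁅Q, X⁆ : Subgroup G) => (QuotientGroup.mk (⟨t, hle t.2⟩ : Q) : Q ⧸ CQ.subgroupOf Q)) ?_
  intro y
  obtain ⟨u, rfl⟩ := QuotientGroup.mk_surjective y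
  obtain ⟨c, hc, hcX, t, ht, hct⟩ := coprime_decomp hp hG (fun u hu => hpp u (hQ.le hu)) hX hXp hQX
    (inv_mem u.2)
  refine ⟨⟨t⁻¹, inv_mem ht⟩, ?_⟩
  rw [QuotientGroup.eq]
  show (⟨t⁻¹, _⟩ : Q)⁻¹ * u ∈ CQ.subgroupOf Q
  rw [Subgroup.mem_subgroupOf]
  have e : (((⟨t⁻¹, hle (inv_mem ht)⟩ : Q)⁻¹ * u : Q) : G) = c⁻¹ := by
    show (t⁻¹)⁻¹ * (u : G) = c⁻¹
    have e1 : (u : G) = t⁻¹ * c⁻¹ := by
      rw [← inv_inv (u : G), hct, mul_inv_rev]
    rw [e1]
    group
  rw [e]
  refine Subgroup.mem_inf.2 ⟨inv_mem hc, inv_mem ?_⟩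
  rw [Subgroup.mem_centralizer_iff]
  intro y hy
  exact hcX y hy

/-- the index argument -/
theorem index_argument (h : Cfg p V X x) (hperf : ⁅V, X⁆ = V)
    (hfi : ∀ M : Subgroup G, M.Normal → M ≤ V → M.relIndex V ≠ 0 → M = V)
    (ps : Finset ℕ) (hps : ∀ q : ℕ, q.Prime → ∀ v ∈ V, v ^ q = 1 → v ≠ 1 → q ∈ ps)
    (hfin : ∀ q : ℕ, q.Prime → ∀ P ≤ V, IsPGroup q P → ⁅P, X⁆ = P → Finite P) : V = ⊥ := by
  classical
  have hp := h.prime
  have hG := h.lf
  have hX := h.finX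
  have hXp := h.pX
  -- the constants
  have hc : ∀ q : ℕ, ∃ c : ℕ, 1 ≤ c ∧ (q.Prime → ∀ F Q : Subgroup G, Finite F → F ≤ V → Nz X F →
      Syl q Q F → Nz X Q → Nat.card (⁅Q, X⁆ : Subgroup G) ≤ c) := by
    intro q
    by_cases hq : q.Prime
    · obtain ⟨P, h1, h2, h3, h4, h5⟩ := exists_max_perf (q := q) (fun P h1 h2 h3 => hfin q hq P h1 h2 h3)
      exact ⟨Nat.card P, Nat.card_pos, fun _ F Q hFf hFV hF hQ hQX =>
        card_comm_le hp hG hq h.pp hX hXp h1 h2 h3 h4 h5 hFf hFV hF hQ hQX⟩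
    · exact ⟨1, le_rfl, fun hq' => absurd hq' hq⟩
  choose c hc1 hc2 using hc
  set B := ∏ q ∈ ps, c q with hB
  have hbound : ∀ F : Subgroup G, Finite F → F ≤ V → Nz X F →
      (F ⊓ Subgroup.centralizer (X : Set G)).relIndex F ≤ B := by
    intro F hFf hFV hF
    set n := (F ⊓ Subgroup.centralizer (X : Set G)).relIndex F with hn
    have hn0 : n ≠ 0 := by
      have : Finite (F ⧸ (F ⊓ Subgroup.centralizer (X : Set G)).subgroupOf F) := inferInstance
      exact Nat.card_pos.ne'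
    have hFpp : PP p F := fun u hu => h.pp u (hFV hu)
    have h1 : ∀ q ∈ n.primeFactors, q ^ (n.factorization q) ≤ c q := by
      intro q hq
      have hqp := Nat.prime_of_mem_primeFactors hq
      obtain ⟨Q, hQ, hQX⟩ := exists_syl hp hqp hFpp hXp hF
      exact (qpart_le hp hG hqp hFpp hX hXp hFf hQ hQX (Nat.ordProj_dvd n q)).trans
        (hc2 q hqp F Q hFf hFV hF hQ hQX)
    have h2 : n.primeFactors ⊆ ps := by
      intro q hq
      have hqp := Nat.prime_of_mem_primeFactors hq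
      have := Fact.mk hqp
      have h3 : q ∣ Nat.card F :=
        (Nat.dvd_of_mem_primeFactors hq).trans (Subgroup.index_dvd_card _)
      obtain ⟨v, hv⟩ := exists_prime_orderOf_dvd_card' q h3
      refine hps q hqp v (hFV v.2) ?_ ?_
      · have h4 := pow_orderOf_eq_one v
        rw [hv] at h4
        simpa using congrArg (Subtype.val : F → G) h4
      · intro h4
        have h5 : v = 1 := Subtype.ext h4
        rw [h5, orderOf_one] at hv
        exact hqp.one_lt.ne hv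
    calc n = ∏ q ∈ n.primeFactors, q ^ (n.factorization q) :=
          (Nat.prod_factorization_pow_eq_self hn0).symm
      _ ≤ ∏ q ∈ n.primeFactors, c q := Finset.prod_le_prod' h1
      _ ≤ ∏ q ∈ ps, c q := Finset.prod_le_prod_of_subset_of_one_le' h2 (fun q _ _ => hc1 q)
  -- the centralizer has finite index
  set CV := V ⊓ Subgroup.centralizer (X : Set G) with hCV
  have hidx : CV.relIndex V ≠ 0 := by
    intro h0
    have hinf : Infinite (V ⧸ CV.subgroupOf V) := by
      have h1 : Nat.card (V ⧸ CV.subgroupOf V) = 0 := h0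
      rcases Nat.card_eq_zero.1 h1 with h2 | h2
      · exact (h2.false (QuotientGroup.mk 1)).elim
      · exact h2
    obtain ⟨s, hs⟩ := Infinite.exists_subset_card_eq (V ⧸ CV.subgroupOf V) (B + 1)
    let r : V ⧸ CV.subgroupOf V → V := Quotient.out
    obtain ⟨W, hWf, hWV, hWp, hSW⟩ := exists_finite_perf h hperf
      (S := (fun t => ((r t : V) : G)) '' (s : Set (V ⧸ CV.subgroupOf V)))
      (s.finite_toSet.image _) (by
        rintro _ ⟨t, _, rfl⟩
        exact (r t).2)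
    have h1 := hbound W hWf hWV (nz_of_perf hWp)
    set CW := W ⊓ Subgroup.centralizer (X : Set G) with hCW
    have h2 : B + 1 ≤ Nat.card (W ⧸ CW.subgroupOf W) := by
      rw [← hs, ← Nat.card_eq_finsetCard]
      refine Nat.card_le_card_of_injective
        (fun t : s => (QuotientGroup.mk (⟨r t, hSW ⟨t, t.2, rfl⟩⟩ : W) : W ⧸ CW.subgroupOf W)) ?_
      intro a b hab
      have h3 := QuotientGroup.eq.1 hab
      rw [Subgroup.mem_subgroupOf] at h3
      have h4 : (r a)⁻¹ * r b ∈ CV.subgroupOf V := by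
        rw [Subgroup.mem_subgroupOf]
        exact Subgroup.mem_inf.2 ⟨((r a)⁻¹ * r b).2, h3.2⟩
      have h5 : (QuotientGroup.mk (r a) : V ⧸ CV.subgroupOf V) = QuotientGroup.mk (r b) :=
        QuotientGroup.eq.2 h4
      have h6 : (QuotientGroup.mk (r a) : V ⧸ CV.subgroupOf V) = a := Quotient.out_eq _
      have h7 : (QuotientGroup.mk (r b) : V ⧸ CV.subgroupOf V) = b := Quotient.out_eq _
      rw [h6, h7] at h5
      exact Subtype.ext h5
    have h3 : Nat.card (W ⧸ CW.subgroupOf W) ≤ B := h1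
    omega
  -- the core
  have hVi : V.index ≠ 0 := by
    have := h.norm
    have h1 : V.relIndex (X ⊔ V) = V.relIndex X := Subgroup.relIndex_sup_right _ _
    rw [sup_comm, h.sup, Subgroup.relIndex_top_right] at h1
    rw [h1]
    have : Finite (X ⧸ V.subgroupOf X) := inferInstance
    exact Nat.card_pos.ne'
  have hCVi : CV.index ≠ 0 := by
    rw [← Subgroup.relIndex_mul_index (inf_le_left : CV ≤ V)]
    exact mul_ne_zero hidx hVi
  have hCVf : CV.FiniteIndex := ⟨hCVi⟩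
  have hM : CV.normalCore.index ≠ 0 := Subgroup.FiniteIndex.index_ne_zero
  have hMV : CV.normalCore ≤ V := (Subgroup.normalCore_le CV).trans inf_le_left
  have h8 := hfi CV.normalCore inferInstance hMV (by
    intro h0
    apply hM
    rw [← Subgroup.relIndex_mul_index hMV, h0, zero_mul])
  have h9 : V ≤ Subgroup.centralizer (X : Set G) := by
    rw [← h8]
    exact (Subgroup.normalCore_le CV).trans inf_le_right
  rw [← hperf, Subgroup.commutator_eq_bot_iff_le_centralizer]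
  exact h9

end

end PMC
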