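import Pool.Agent.PMC.Iz

/-!
[PMC] the simple groups in question involve infinitely many primes or contain a quasicyclic group.
-/

set_option autoImplicit false

namespace PMC

open Subgroup SemidirectProduct
open scoped commutatorElement

universe u

/-- `S` contains a quasicyclic subgroup -/
def QC (S : Type*) [Group S] : Prop :=
  ∃ (q : ℕ) (a : ℕ → S), q.Prime ∧ a 0 ≠ 1 ∧ a 0 ^ q = 1 ∧ ∀ n, a (n + 1) ^ q = a n

/-- `S` involves finitely many primes only -/
def FP (S : Type*) [Group S] : Prop :=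
  ∃ ps : Finset ℕ, ∀ q : ℕ, q.Prime → ∀ v : S, v ^ q = 1 → v ≠ 1 → q ∈ ps

/-- a nontrivial divisible torsion subgroup contains a quasicyclic subgroup -/
theorem qc_of_divisible {G : Type*} [Group G] (hG : LF G) {A : Subgroup G} (hA : A ≠ ⊥)
    (hd : ∀ a ∈ A, ∀ m : ℕ, 0 < m → ∃ b ∈ A, b ^ m = a) :
    ∃ (q : ℕ) (a : ℕ → G), q.Prime ∧ (∀ n, a n ∈ A) ∧ a 0 ≠ 1 ∧ a 0 ^ q = 1 ∧
      ∀ n, a (n + 1) ^ q = a n := by
  obtain ⟨a, ha, ha1⟩ := (Subgroup.ne_bot_iff_exists_ne_one).1 hA |>.elim fun a ha =>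
    (⟨a.1, a.2, fun h => ha (Subtype.ext h)⟩ : ∃ g : G, g ∈ A ∧ g ≠ 1)
  obtain ⟨n, hn, han⟩ := hG.torsion a
  have hon : orderOf a ≠ 1 := fun h => ha1 (orderOf_eq_one_iff.1 h)
  obtain ⟨q, hq, hqd⟩ := Nat.exists_prime_and_dvd hon
  obtain ⟨c, hc⟩ := hqd
  have hopos : 0 < orderOf a := orderOf_pos_iff.2 (isOfFinOrder_iff_pow_eq_one.2 ⟨n, hn, han⟩)
  have hc0 : c ≠ 0 := by
    rintro rfl
    rw [mul_zero] at hc
    omega
  have h1 : orderOf (a ^ c) = q := by
    rw [orderOf_pow_of_dvd hc0 ⟨q, by rw [hc, mul_comm]⟩, hc]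
    exact Nat.mul_div_cancel _ (Nat.pos_of_ne_zero hc0)
  have h2 : a ^ c ≠ 1 := by
    intro h
    rw [h, orderOf_one] at h1
    exact hq.one_lt.ne h1
  have hex : ∀ b : A, ∃ b' : A, (b' : G) ^ q = b := by
    intro b
    obtain ⟨b', hb', e⟩ := hd b b.2 q hq.pos
    exact ⟨⟨b', hb'⟩, e⟩
  choose f hf using hex
  refine ⟨q, fun n => ((f^[n] ⟨a ^ c, pow_mem ha c⟩ : A) : G), hq, fun n => (f^[n] _).2, h2, ?_,
    fun n => ?_⟩
  · show (a ^ c) ^ q = 1
    rw [← h1, pow_orderOf_eq_one]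
  · show ((f^[n + 1] _ : A) : G) ^ q = _
    rw [Function.iterate_succ_apply', hf]

theorem finite_of_cher {G : Type*} [Group G] (hG : LF G) {U : Subgroup G} (h : Cher U)
    (hq : ¬ ∃ (q : ℕ) (a : ℕ → G), q.Prime ∧ (∀ n, a n ∈ U) ∧ a 0 ≠ 1 ∧ a 0 ^ q = 1 ∧
      ∀ n, a (n + 1) ^ q = a n) : Finite U := by
  obtain ⟨A, hAU, hn, hi, hc, hd, hf⟩ := h
  by_cases hA : A = ⊥
  · rw [hA, Subgroup.relIndex_bot_left] at hi
    exact Nat.finite_of_card_ne_zero hi
  · exfalso
    obtain ⟨q, a, h1, h2, h3⟩ := qc_of_divisible hG hA hd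
    exact hq ⟨q, a, h1, fun n => hAU (h2 n), h3⟩

/-- an infinite simple locally finite group is not a `q`-group -/
theorem not_qgroup {S : Type*} [Group S] [Infinite S]
    (hs : ∀ N : Subgroup S, N.Normal → N = ⊥ ∨ N = ⊤) (hS : LF S) {q : ℕ} (hq : q.Prime) :
    ¬ ∀ s : S, ∃ k : ℕ, s ^ (q ^ k) = 1 := by
  intro h
  have := Fact.mk hq
  have hcc := comm_of_simple hs (fun F hF => by
    have hfin : Finite (Subgroup.closure F) := hS F hF
    have hpg : IsPGroup q (Subgroup.closure F) := by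
      intro a
      obtain ⟨k, hk⟩ := h a
      exact ⟨k, Subtype.ext hk⟩
    have := hpg.isNilpotent
    infer_instance)
  have h1 := perfect_of_simple hS hs
  have h2 : ⁅(⊤ : Subgroup S), (⊤ : Subgroup S)⁆ = ⊥ := by
    rw [eq_bot_iff, Subgroup.commutator_le]
    intro a _ b _
    rw [Subgroup.mem_bot]
    exact commutatorElement_eq_one_iff_mul_comm.2 (hcc a b)
  rw [h2] at h1
  exact bot_ne_top h1

section

variable {V : Type u} [Group V]

/-- perfect subgroups of the kernel and of `V` -/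
theorem clo_of_perf {α : MulAut V} {W' : Subgroup (Ex α)} (hW'N : W' ≤ nn α)
    (hW'X : ⁅W', Subgroup.zpowers (xx α)⁆ = W') :
    Subgroup.closure ((fun w => w⁻¹ * α w) '' (W'.comap (inl : V →* Ex α) : Set V)) =
        W'.comap (inl : V →* Ex α) := by
  have hmap : (W'.comap (inl : V →* Ex α)).map inl = W' := by
    rw [Subgroup.map_comap_eq]
    exact inf_eq_right.2 hW'N
  apply Subgroup.map_injective (inl_injective (φ := (Subgroup.zpowers α).subtype))
  rw [MonoidHom.map_closure, hmap]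
  conv_rhs => rw [← hW'X, comm_zpowers_eq (nz_of_perf hW'X)]
  congr 1
  ext g
  constructor
  · rintro ⟨_, ⟨w, hw, rfl⟩, rfl⟩
    refine ⟨(inl w : Ex α)⁻¹, inv_mem hw, ?_⟩
    show ⁅(inl w : Ex α)⁻¹, xx α⁆ = inl (w⁻¹ * α w)
    rw [map_mul, ← conj_xx, map_inv, commutatorElement_def]
    group
  · rintro ⟨w', hw', rfl⟩
    obtain ⟨w, rfl⟩ := hW'N hw'
    refine ⟨w⁻¹⁻¹ * α w⁻¹, ⟨w⁻¹, ?_, rfl⟩, ?_⟩
    · show (inl w⁻¹ : Ex α) ∈ W'
      rw [map_inv]
      exact inv_mem hw'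
    · show inl (w⁻¹⁻¹ * α w⁻¹) = ⁅(inl w : Ex α), xx α⁆
      rw [map_mul, ← conj_xx, map_inv, map_inv, commutatorElement_def]
      group

theorem cfg_Ex {p : ℕ} (hp : p.Prime) {α : MulAut V} (hα : α ^ p = 1) (hV : LF V)
    (hpp : NoP p V) (hm : PMin p (Ex α)) :
    Cfg p (nn α) (Subgroup.zpowers (xx α)) (xx α) where
  prime := hp
  lf := lf_Ex hp hα hV
  norm := nn_normal α
  pp := pp_nn hpp
  gen := rfl
  xp := ⟨1, xx_pow hα⟩
  sup := sup_Ex α
  dcc := dcc_of_pmin hp hm (pp_nn hpp) ⟨1, xx_pow hα⟩ (nz_of_normal (nn_normal α))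

theorem fp_nn {ps : Finset ℕ} {α : MulAut V}
    (h : ∀ q : ℕ, q.Prime → ∀ v : V, v ^ q = 1 → v ≠ 1 → q ∈ ps) :
    ∀ q : ℕ, q.Prime → ∀ v ∈ nn α, v ^ q = 1 → v ≠ 1 → q ∈ ps := by
  rintro q hq _ ⟨v, rfl⟩ h1 h2
  refine h q hq v ?_ fun h3 => h2 (by rw [h3, map_one])
  apply inl_injective (φ := (Subgroup.zpowers α).subtype)
  rw [map_pow, map_one]
  exact h1

/-- the second kind -/
theorem case_b {p : ℕ} (hp : p.Prime) [Infinite V]
    (hs : ∀ N : Subgroup V, N.Normal → N = ⊥ ∨ N = ⊤) (hV : LF V) (hpp : NoP p V)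
    {α : MulAut V} (h1 : α ≠ 1) (hα : α ^ p = 1)
    (hW : ∀ W : Subgroup V, W ≠ ⊤ →
      Subgroup.closure ((fun w => w⁻¹ * α w) '' (W : Set V)) = W → Cher W) :
    ¬ FP V ∨ QC V := by
  by_contra hcon
  rw [not_or, not_not] at hcon
  obtain ⟨⟨ps, hps⟩, hqc⟩ := hcon
  have hm := pmin_Ex hp hV hpp h1 hα (fun W h2 h3 => (hW W h2 h3).minC hV)
  have hcfg := cfg_Ex hp hα hV hpp hm
  have hG := hcfg.lf
  have hNn := nn_normal α
  have hinj := inl_injective (φ := (Subgroup.zpowers α).subtype)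
  -- normal subgroups of the kernel
  have hnor : ∀ M : Subgroup (Ex α), M ≤ nn α → Nz (nn α) M → M = ⊥ ∨ M = nn α := by
    intro M hM hMn
    have hmap : (M.comap (inl : V →* Ex α)).map inl = M := by
      rw [Subgroup.map_comap_eq]
      exact inf_eq_right.2 hM
    rcases hs (M.comap (inl : V →* Ex α)) ⟨fun n hn g => by
      show (inl (g * n * g⁻¹) : Ex α) ∈ M
      rw [map_mul, map_mul, map_inv]
      exact hMn _ ⟨g, rfl⟩ _ hn⟩ with h | h
    · left
      rw [← hmap, h, Subgroup.map_bot]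
    · right
      rw [← hmap, h, ← MonoidHom.range_eq_map]
      rfl
  have hinf : Infinite (nn α) := Infinite.of_injective (fun v : V => (⟨inl v, v, rfl⟩ : nn α))
    (fun a b h => hinj (congrArg (Subtype.val : nn α → Ex α) h))
  have hperf : ⁅nn α, Subgroup.zpowers (xx α)⁆ = nn α := by
    rcases hnor _ (comm_le_left (nz_of_normal hNn)) nz_comm_left with h | h
    · exfalso
      apply h1
      ext v
      have h2 : ⁅(inl v : Ex α)⁻¹, xx α⁆ ∈ ⁅nn α, Subgroup.zpowers (xx α)⁆ :=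
        Subgroup.commutator_mem_commutator (inv_mem ⟨v, rfl⟩) (Subgroup.mem_zpowers _)
      rw [h, Subgroup.mem_bot] at h2
      have e : ⁅(inl v : Ex α)⁻¹, xx α⁆ = inl (v⁻¹ * α v) := by
        rw [map_mul, ← conj_xx, map_inv, commutatorElement_def]
        group
      rw [e, ← map_one (inl : V →* Ex α)] at h2
      rw [MulAut.one_apply]
      exact (inv_mul_eq_one.1 (hinj h2)).symm
    · exact h
  have h2 := index_argument hcfg hperf (by
    intro M hM hMV hi
    rcases hnor M hMV (nz_of_normal hM) with h | h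
    · exfalso
      apply hi
      rw [h, Subgroup.relIndex_bot_left]
      exact Nat.card_eq_zero_of_infinite
    · exact h) ps (fp_nn hps) (by
    intro q hq P hP hPq hPp
    have hPW : P.comap (inl : V →* Ex α) ≠ ⊤ := by
      intro h
      apply not_qgroup hs hV hq
      intro s
      have h3 : (inl s : Ex α) ∈ P := by
        have : s ∈ P.comap (inl : V →* Ex α) := by
          rw [h]
          exact Subgroup.mem_top s
        exact this
      obtain ⟨k, hk⟩ := hPq ⟨_, h3⟩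
      refine ⟨k, hinj ?_⟩
      rw [map_pow, map_one]
      exact congrArg (Subtype.val : P → Ex α) hk
    have h3 := hW _ hPW (clo_of_perf hP hPp)
    have hmap : (P.comap (inl : V →* Ex α)).map inl = P := by
      rw [Subgroup.map_comap_eq]
      exact inf_eq_right.2 hP
    have h4 : Finite (P.comap (inl : V →* Ex α)) := finite_of_cher hV h3 (by
      rintro ⟨r, a, h5, -, h6⟩
      exact hqc ⟨r, a, h5, h6⟩)
    have h5 : ((P.comap (inl : V →* Ex α)).map (inl : V →* Ex α) : Set (Ex α)).Finite := by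
      rw [Subgroup.coe_map]
      exact Set.Finite.image _ h4
    rw [hmap] at h5
    exact h5)
  have h3 : Finite (nn α) := by
    rw [h2]
    infer_instance
  exact not_finite (nn α)

end

end PMC
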