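import Pool.Agent.PMC.Ja

/-!
[PMC] the first kind of simple groups.
-/

set_option autoImplicit false

namespace PMC

open Subgroup SemidirectProduct
open scoped commutatorElement

universe u

section

variable {S : Type u} [Group S]

theorem mulSingle_comm {p : ℕ} (hp : p.Prime) (i : ZMod p) (s t : S) :
    ⁅(Pi.mulSingle i s : ZMod p → S)⁻¹ * sh p S (Pi.mulSingle i s), Pi.mulSingle i t⁆ =
      (Pi.mulSingle i ⁅s⁻¹, t⁆ : ZMod p → S) := by
  have := Fact.mk hp
  funext j
  rw [commutatorElement_def, commutatorElement_def]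
  show ((Pi.mulSingle i s : ZMod p → S) j)⁻¹ * (Pi.mulSingle i s : ZMod p → S) (j + 1) *
    (Pi.mulSingle i t : ZMod p → S) j * (((Pi.mulSingle i s : ZMod p → S) j)⁻¹ *
      (Pi.mulSingle i s : ZMod p → S) (j + 1))⁻¹ * ((Pi.mulSingle i t : ZMod p → S) j)⁻¹ = _
  by_cases hj : j = i
  · subst hj
    have h1 : j + 1 ≠ j := by simp
    rw [Pi.mulSingle_eq_same, Pi.mulSingle_eq_same, Pi.mulSingle_eq_same,
      Pi.mulSingle_eq_of_ne h1]
    group
  · rw [Pi.mulSingle_eq_of_ne hj, Pi.mulSingle_eq_of_ne hj, Pi.mulSingle_eq_of_ne hj]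
    group

/-- the first kind -/
theorem case_a {p : ℕ} (hp : p.Prime) [Infinite S]
    (hs : ∀ N : Subgroup S, N.Normal → N = ⊥ ∨ N = ⊤) (hS : LF S) (hpp : NoP p S)
    (hW : ∀ W : Subgroup S, W ≠ ⊤ → Cher W) : ¬ FP S ∨ QC S := by
  classical
  by_contra hcon
  rw [not_or, not_not] at hcon
  obtain ⟨⟨ps, hps⟩, hqc⟩ := hcon
  have := Fact.mk hp
  have : NeZero p := ⟨hp.ne_zero⟩
  have hfinW : ∀ W : Subgroup S, W ≠ ⊤ → Finite W := fun W h => finite_of_cher hS (hW W h) (by
    rintro ⟨r, a, h5, -, h6⟩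
    exact hqc ⟨r, a, h5, h6⟩)
  have hSm : MinC (⊤ : Subgroup S) := by
    rintro ⟨T, hT⟩
    have h1 : T 1 ≠ ⊤ := fun e => by
      have := (hT 0).2
      rw [zero_add, e] at this
      exact absurd this not_top_lt
    refine (hW _ h1).minC hS ⟨fun i => T (i + 1), fun i => ⟨?_, (hT (i + 1)).2⟩⟩
    exact antitone_nat_of_succ_le (fun i => (hT i).2.le) (by omega)
  have hV : LF (ZMod p → S) := LF.pi hS
  have hα := sh_pow_self p S
  have hppV : NoP p (ZMod p → S) := fun v k hv => funext fun i => hpp (v i) k (congrFun hv i)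
  have hm : PMin p (Ex (sh p S)) := pmin_of_minC (minC_Ex hp hα (minC_pi hSm))
  have hcfg := cfg_Ex hp hα hV hppV hm
  have hinj := inl_injective (φ := (Subgroup.zpowers (sh p S)).subtype)
  have hNn := nn_normal (sh p S)
  have hps' : ∀ q : ℕ, q.Prime → ∀ v : ZMod p → S, v ^ q = 1 → v ≠ 1 → q ∈ ps := by
    intro q hq v h1 h2
    obtain ⟨i, hi⟩ := Function.ne_iff.1 h2
    exact hps q hq (v i) (congrFun h1 i) hi
  -- normal subgroups of the power containing no small piece
  have hmapc : ∀ M : Subgroup (Ex (sh p S)), M ≤ nn (sh p S) →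
      (M.comap (inl : (ZMod p → S) →* Ex (sh p S))).map inl = M := by
    intro M hM
    rw [Subgroup.map_comap_eq]
    exact inf_eq_right.2 hM
  have hall : ∀ M : Subgroup (Ex (sh p S)), M ≤ nn (sh p S) → Nz (nn (sh p S)) M →
      (∀ i : ZMod p, ∃ s : S, s ≠ 1 ∧ (inl (Pi.mulSingle i s) : Ex (sh p S)) ∈ M) →
      M = nn (sh p S) := by
    intro M hM hMn h
    have h1 : M.comap (inl : (ZMod p → S) →* Ex (sh p S)) = ⊤ := by
      rw [eq_top_iff]
      intro v _
      refine Subgroup.pi_mem_of_mulSingle_mem v fun i => ?_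
      have h2 := hs ((M.comap (inl : (ZMod p → S) →* Ex (sh p S))).comap
        (MonoidHom.mulSingle (fun _ : ZMod p => S) i)) ⟨fun n hn g => by
        show (inl (Pi.mulSingle i (g * n * g⁻¹)) : Ex (sh p S)) ∈ M
        rw [Pi.mulSingle_mul, Pi.mulSingle_mul, Pi.mulSingle_inv, map_mul, map_mul, map_inv]
        exact hMn _ ⟨_, rfl⟩ _ hn⟩
      rcases h2 with h3 | h3
      · exfalso
        obtain ⟨s, hs1, hsM⟩ := h i
        have h4 : s ∈ (M.comap (inl : (ZMod p → S) →* Ex (sh p S))).comap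
            (MonoidHom.mulSingle (fun _ : ZMod p => S) i) := hsM
        rw [h3, Subgroup.mem_bot] at h4
        exact hs1 h4
      · have h4 : v i ∈ (M.comap (inl : (ZMod p → S) →* Ex (sh p S))).comap
            (MonoidHom.mulSingle (fun _ : ZMod p => S) i) := by
          rw [h3]
          exact Subgroup.mem_top _
        exact h4
    rw [← hmapc M hM, h1, ← MonoidHom.range_eq_map]
    rfl
  have hinf : Infinite (nn (sh p S)) := by
    have : Infinite (ZMod p → S) := Pi.infinite_of_exists_right 0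
    exact Infinite.of_injective
      (fun v : ZMod p → S => (⟨inl v, v, rfl⟩ : nn (sh p S)))
      (fun a b h => hinj (congrArg (Subtype.val : nn (sh p S) → Ex (sh p S)) h))
  have hperf : ⁅nn (sh p S), Subgroup.zpowers (xx (sh p S))⁆ = nn (sh p S) := by
    apply hall _ (comm_le_left (nz_of_normal hNn)) nz_comm_left
    intro i
    have h1 := perfect_of_simple hS hs
    have h2 : ∃ a b : S, ⁅a, b⁆ ≠ 1 := by
      by_contra hcon
      push Not at hcon
      have : ⁅(⊤ : Subgroup S), (⊤ : Subgroup S)⁆ = ⊥ := by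
        rw [eq_bot_iff, Subgroup.commutator_le]
        intro a _ b _
        rw [Subgroup.mem_bot]
        exact hcon a b
      rw [this] at h1
      exact bot_ne_top h1
    obtain ⟨a, b, hab⟩ := h2
    refine ⟨⁅a, b⁆, hab, ?_⟩
    have h3 := mulSingle_comm hp i a⁻¹ b
    rw [inv_inv] at h3
    rw [← h3]
    set f : ZMod p → S := Pi.mulSingle i a⁻¹ with hf
    have h4 : (inl (f⁻¹ * sh p S f) : Ex (sh p S)) ∈
        ⁅nn (sh p S), Subgroup.zpowers (xx (sh p S))⁆ := by
      have e : (inl (f⁻¹ * sh p S f) : Ex (sh p S)) = ⁅(inl f : Ex (sh p S))⁻¹, xx (sh p S)⁆ := by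
        rw [map_mul, ← conj_xx, map_inv, commutatorElement_def]
        group
      rw [e]
      exact Subgroup.commutator_mem_commutator (inv_mem ⟨f, rfl⟩) (Subgroup.mem_zpowers _)
    rw [commutatorElement_def, mul_assoc, mul_assoc, map_mul]
    refine mul_mem h4 ?_
    have h5 := nz_comm_left (M := nn (sh p S)) (X := Subgroup.zpowers (xx (sh p S)))
      (inl (Pi.mulSingle i b)) ⟨_, rfl⟩ _ (inv_mem h4)
    rw [← map_inv, ← map_inv, ← map_mul, ← map_mul, mul_assoc] at h5
    exact h5
  have h2 := index_argument hcfg hperf (by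
    intro M hM hMV hi
    apply hall M hMV (nz_of_normal hM)
    intro i
    by_contra hcon
    push Not at hcon
    -- the map `S → nn / M` is injective
    apply hi
    have h3 : (M.comap (inl : (ZMod p → S) →* Ex (sh p S))).comap
        (MonoidHom.mulSingle (fun _ : ZMod p => S) i) = ⊥ := by
      rw [eq_bot_iff]
      intro s hs'
      rw [Subgroup.mem_bot]
      by_contra h
      exact hcon s h hs'
    have h4 : ((M.comap (inl : (ZMod p → S) →* Ex (sh p S))).comap
        (MonoidHom.mulSingle (fun _ : ZMod p => S) i)).index = 0 := by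
      rw [h3, Subgroup.index_bot]
      exact Nat.card_eq_zero_of_infinite
    rw [Subgroup.index_comap] at h4
    have h5 : (M.comap (inl : (ZMod p → S) →* Ex (sh p S))).index = 0 := by
      rw [← Subgroup.relIndex_top_right]
      exact Subgroup.relIndex_eq_zero_of_le_right le_top h4
    rw [Subgroup.index_comap] at h5
    exact h5) ps (fp_nn hps') (by
    intro q hq P hP hPq hPp
    set P' := P.comap (inl : (ZMod p → S) →* Ex (sh p S)) with hP'
    have h3 : ∀ i : ZMod p, Finite (P'.map (Pi.evalMonoidHom (fun _ : ZMod p => S) i)) := by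
      intro i
      apply hfinW
      intro h
      apply not_qgroup hs hS hq
      intro s
      have h4 : s ∈ P'.map (Pi.evalMonoidHom (fun _ : ZMod p => S) i) := by
        rw [h]
        exact Subgroup.mem_top s
      obtain ⟨f, hf, rfl⟩ := h4
      obtain ⟨k, hk⟩ := hPq ⟨_, hf⟩
      refine ⟨k, ?_⟩
      have h5 : (inl f : Ex (sh p S)) ^ (q ^ k) = 1 :=
        congrArg (Subtype.val : P → Ex (sh p S)) hk
      rw [← map_pow, ← map_one (inl : (ZMod p → S) →* Ex (sh p S))] at h5
      exact congrFun (hinj h5) i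
    have h4 : (P' : Set (ZMod p → S)).Finite := by
      refine (Set.Finite.pi (t := fun i : ZMod p =>
        ((P'.map (Pi.evalMonoidHom (fun _ : ZMod p => S) i) : Subgroup S) : Set S))
        fun i => h3 i).subset ?_
      intro f hf i _
      exact ⟨f, hf, rfl⟩
    have h5 : ((P'.map (inl : (ZMod p → S) →* Ex (sh p S)) : Subgroup _) :
        Set (Ex (sh p S))).Finite := by
      rw [Subgroup.coe_map]
      exact h4.image _
    rw [hmapc P hP] at h5
    exact h5)
  have h3 : Finite (nn (sh p S)) := by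
    rw [h2]
    infer_instance
  exact not_finite (nn (sh p S))

end

/-- the final equivalence, sharpened -/
theorem main_iff' {p : ℕ} (hp : p.Prime) :
    ¬ Q1.{u} p ↔ ∃ (S : Type u) (_ : Group S), Countable S ∧ Infinite S ∧
      (∀ N : Subgroup S, N.Normal → N = ⊥ ∨ N = ⊤) ∧ LF S ∧ NoP p S ∧ (¬ FP S ∨ QC S) ∧
      ((∀ W : Subgroup S, W ≠ ⊤ → Cher W) ∨
        ∃ α : MulAut S, α ≠ 1 ∧ α ^ p = 1 ∧ ∀ W : Subgroup S, W ≠ ⊤ →
          Subgroup.closure ((fun w => w⁻¹ * α w) '' (W : Set S)) = W → Cher W) := by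
  rw [main_iff hp]
  constructor
  · rintro ⟨S, _, hc, hi, hs, hS, hpp, h⟩
    refine ⟨S, inferInstance, hc, hi, hs, hS, hpp, ?_, h⟩
    rcases h with h | ⟨α, h1, hα, h⟩
    · exact case_a hp hs hS hpp h
    · exact case_b hp hs hS hpp h1 hα h
  · rintro ⟨S, _, hc, hi, hs, hS, hpp, -, h⟩
    exact ⟨S, inferInstance, hc, hi, hs, hS, hpp, h⟩

end PMC
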