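import Pool.Agent.PMC.Jb

/-!
[PMC] the top factor.
-/

set_option autoImplicit false

namespace PMC

open Subgroup
open scoped commutatorElement

universe u

/-- `B / A` is locally soluble -/
def LocSol {G : Type*} [Group G] (A B : Subgroup G) : Prop :=
  ∀ F : Set G, F.Finite → F ⊆ B →
    ∃ m : ℕ, (derivedSeries (Subgroup.closure F) m).map (Subgroup.closure F).subtype ≤ A

/-- `B / A` involves finitely many primes -/
def FPr {G : Type*} [Group G] (A B : Subgroup G) : Prop :=
  ∃ ps : Finset ℕ, ∀ q : ℕ, q.Prime → ∀ g ∈ B, g ^ q ∈ A → g ∉ A → q ∈ ps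

/-- `B / A` contains a quasicyclic subgroup -/
def QCr {G : Type*} [Group G] (A B : Subgroup G) : Prop :=
  ∃ (q : ℕ) (a : ℕ → G), q.Prime ∧ (∀ n, a n ∈ B) ∧ a 0 ∉ A ∧ a 0 ^ q ∈ A ∧
    ∀ n, a (n + 1) ^ q * (a n)⁻¹ ∈ A

theorem map_derived {A B : Type*} [Group A] [Group B] (f : A →* B) (K : Subgroup A) (m : ℕ) :
    ((derivedSeries K m).map K.subtype).map f =
      (derivedSeries (K.map f) m).map (K.map f).subtype := by
  induction m with
  | zero =>
    rw [derivedSeries_zero, derivedSeries_zero, ← MonoidHom.range_eq_map,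
      ← MonoidHom.range_eq_map, Subgroup.range_subtype, Subgroup.range_subtype]
  | succ m ih =>
    rw [derivedSeries_succ, derivedSeries_succ, Subgroup.map_commutator,
      Subgroup.map_commutator, Subgroup.map_commutator, ih]

section

variable {G : Type*} [Group G] {p : ℕ} {V X : Subgroup G} {x : G}

theorem Cfg.index_ne (h : Cfg p V X x) : V.index ≠ 0 := by
  have := h.norm
  have hX := h.finX
  have h1 : V.relIndex (X ⊔ V) = V.relIndex X := Subgroup.relIndex_sup_right _ _
  rw [sup_comm, h.sup, Subgroup.relIndex_top_right] at h1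
  rw [h1]
  have : Finite (X ⧸ V.subgroupOf X) := inferInstance
  exact Nat.card_pos.ne'

/-- no proper subgroup of finite index at all -/
theorem MinCfg.fi' (h : MinCfg p V X x) {K : Subgroup G} (hK : K ≤ V) (hi : K.relIndex V ≠ 0) :
    K = V := by
  have hKi : K.index ≠ 0 := by
    rw [← Subgroup.relIndex_mul_index hK]
    exact mul_ne_zero hi h.toCfg.index_ne
  have hKf : K.FiniteIndex := ⟨hKi⟩
  have hM : K.normalCore.index ≠ 0 := Subgroup.FiniteIndex.index_ne_zero
  have hMV : K.normalCore ≤ V := (Subgroup.normalCore_le K).trans hK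
  have h8 := h.fi (M := K.normalCore) inferInstance hMV (by
    intro h0
    apply hM
    rw [← Subgroup.relIndex_mul_index hMV, h0, zero_mul])
  exact le_antisymm hK (h8.ge.trans (Subgroup.normalCore_le K))

/-- `V` is the normal closure of a finite set -/
theorem MinCfg.nfg (h : MinCfg p V X x) :
    ∃ F : Set G, F.Finite ∧ F ⊆ V ∧ Subgroup.normalClosure F = V := by
  have hfi : ∀ M : Subgroup G, M.Normal → M ≤ V → M.relIndex V ≠ 0 → M = V :=
    fun M h1 h2 h3 => h.fi h1 h2 h3
  by_contra hB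
  push Not at hB
  obtain ⟨E, hEn, hEV, hEc, hEF⟩ := exists_E h (fun F hF hFV => hB F hF hFV)
  have hV : V.Normal := h.norm
  -- the quotient by `E`
  set π := QuotientGroup.mk' E with hπ
  have hπs : Function.Surjective π := QuotientGroup.mk'_surjective E
  have hker : π.ker = E := QuotientGroup.ker_mk' E
  have hcfg := h.toCfg.quotient E hEV
  have hperf' : ⁅V.map π, X.map π⁆ = V.map π := by
    rw [← map_comm, h.perf]
  have hcomapV : (V.map π).comap π = V := by
    rw [Subgroup.comap_map_eq, hker, sup_eq_left]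
    exact hEV
  have hfi' : ∀ M : Subgroup (G ⧸ E), M.Normal → M ≤ V.map π → M.relIndex (V.map π) ≠ 0 →
      M = V.map π := by
    intro M hM hMV hi
    have h1 : M.comap π ≤ V := by
      rw [← hcomapV]
      exact Subgroup.comap_mono hMV
    have h2 : (M.comap π).relIndex V ≠ 0 := by
      rw [Subgroup.relIndex_comap]
      exact hi
    have h3 := hfi (M.comap π) (hM.comap π) h1 h2
    rw [← h3, Subgroup.map_comap_eq_self_of_surjective hπs]
  have hF' : ∀ F : Set (G ⧸ E), F.Finite → F ⊆ V.map π →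
      Finite (⁅Subgroup.normalClosure F, X.map π⁆ : Subgroup (G ⧸ E)) := by
    intro F hF hFV
    have : ∀ f ∈ F, ∃ v ∈ V, π v = f := fun f hf => hFV hf
    choose! r hr1 hr2 using this
    have h1 := hEF (r '' F) (hF.image r) (by
      rintro _ ⟨f, hf, rfl⟩
      exact hr1 f hf)
    have h2 : F = π '' (r '' F) := by
      ext f
      constructor
      · intro hf
        exact ⟨r f, ⟨f, hf, rfl⟩, hr2 f hf⟩
      · rintro ⟨_, ⟨f', hf', rfl⟩, rfl⟩
        rw [hr2 f' hf']
        exact hf'
    have h3 : Subgroup.normalClosure F = (Subgroup.normalClosure (r '' F)).map π := by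
      rw [Subgroup.map_normalClosure _ _ hπs, ← h2]
    rw [h3, ← map_comm]
    set T := (⁅Subgroup.normalClosure (r '' F), X⁆ : Subgroup G) with hT
    have h4 : Finite (T ⧸ E.subgroupOf T) := by
      have : (E.subgroupOf T).index ≠ 0 := h1
      exact Nat.finite_of_card_ne_zero this
    have h5 : Function.Surjective (fun q : T ⧸ E.subgroupOf T =>
        (⟨π (Quotient.out q : T), ⟨(Quotient.out q : T), (Quotient.out q : T).2, rfl⟩⟩ :
          (T.map π : Subgroup (G ⧸ E)))) := by
      rintro ⟨_, ⟨t, ht, rfl⟩⟩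
      refine ⟨QuotientGroup.mk (⟨t, ht⟩ : T), ?_⟩
      apply Subtype.ext
      show π (Quotient.out (QuotientGroup.mk (⟨t, ht⟩ : T) : T ⧸ E.subgroupOf T) : T) = π t
      obtain ⟨e, he⟩ := QuotientGroup.mk_out_eq_mul (E.subgroupOf T) (⟨t, ht⟩ : T)
      rw [he]
      have h6 : π ((e : T) : G) = 1 := by
        rw [← MonoidHom.mem_ker, hker]
        exact e.2
      show π (t * ((e : T) : G)) = π t
      rw [map_mul, h6, mul_one]
    exact Finite.of_surjective _ h5
  have hcommN : (⁅V, V⁆ : Subgroup G).Normal := Subgroup.commutator_normal V V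
  have hVV : (⁅V, V⁆ : Subgroup G) ≤ V := Subgroup.commutator_le_left V V
  have hdivV := divisible_quot h.toCfg h.perf hfi hcommN hVV (by
    intro a ha b hb
    have := Subgroup.commutator_mem_commutator ha hb
    rwa [commutatorElement_def] at this)
  have hdiv' : ∀ v ∈ V.map π, ∀ n : ℕ, 0 < n → ∃ u ∈ V.map π, ∃ c ∈ (⁅V.map π, V.map π⁆ :
      Subgroup (G ⧸ E)), v = u ^ n * c := by
    rintro _ ⟨v, hv, rfl⟩ n hn
    obtain ⟨u, hu, c, hc, e⟩ := hdivV v hv n hn
    refine ⟨π u, ⟨u, hu, rfl⟩, π c, ?_, ?_⟩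
    · rw [← map_comm]
      exact ⟨c, hc, rfl⟩
    · rw [e, map_mul, map_pow]
  have hcc := core_comm hcfg.prime hcfg.lf hcfg.norm hcfg.pp hcfg.finX hcfg.pX hcfg.sup hperf'
    hfi' hF' hdiv'
  have hab : ∀ a ∈ V, ∀ b ∈ V, a * b * a⁻¹ * b⁻¹ ∈ E := by
    intro a ha b hb
    rw [← hker, MonoidHom.mem_ker, map_mul, map_mul, map_mul, map_inv, map_inv,
      hcc (π a) ⟨a, ha, rfl⟩ (π b) ⟨b, hb, rfl⟩]
    group
  have hdivE := divisible_quot h.toCfg h.perf hfi hEn hEV hab
  have hVc := comm_of_E h.toCfg h.perf hEn hEV hEc hab hdivE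
  exact h.ncher (cher_of_comm h.toCfg le_rfl hVc h.perf)

/-- quotient facts -/
theorem fi_quot (hfi : ∀ M : Subgroup G, M.Normal → M ≤ V → M.relIndex V ≠ 0 → M = V)
    {D : Subgroup G} [D.Normal] (hDV : D ≤ V) :
    ∀ M : Subgroup (G ⧸ D), M.Normal → M ≤ V.map (QuotientGroup.mk' D) →
      M.relIndex (V.map (QuotientGroup.mk' D)) ≠ 0 → M = V.map (QuotientGroup.mk' D) := by
  intro M hM hMV hi
  have hcomapV : (V.map (QuotientGroup.mk' D)).comap (QuotientGroup.mk' D) = V := by
    rw [Subgroup.comap_map_eq, QuotientGroup.ker_mk', sup_eq_left]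
    exact hDV
  have h1 : M.comap (QuotientGroup.mk' D) ≤ V := by
    rw [← hcomapV]
    exact Subgroup.comap_mono hMV
  have h2 : (M.comap (QuotientGroup.mk' D)).relIndex V ≠ 0 := by
    rw [Subgroup.relIndex_comap]
    exact hi
  have h3 := hfi (M.comap (QuotientGroup.mk' D)) (hM.comap _) h1 h2
  rw [← h3, Subgroup.map_comap_eq_self_of_surjective (QuotientGroup.mk'_surjective D)]

/-- a maximal normal subgroup above a given one -/
theorem MinCfg.exists_max (h : MinCfg p V X x) {D : Subgroup G} (hD : D.Normal) (hDV : D < V) :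
    ∃ L : Subgroup G, D ≤ L ∧ L < V ∧ Nz V L ∧ L.relIndex V = 0 ∧
      ∀ N : Subgroup G, L ≤ N → N ≤ V → Nz V N → N = L ∨ N = V := by
  obtain ⟨F, hF, hFV, hcl⟩ := h.nfg
  have hπs := QuotientGroup.mk'_surjective D
  have hcfg := h.toCfg.quotient D hDV.le
  have hcomapV : (V.map (QuotientGroup.mk' D)).comap (QuotientGroup.mk' D) = V := by
    rw [Subgroup.comap_map_eq, QuotientGroup.ker_mk', sup_eq_left]
    exact hDV.le
  have hne : V.map (QuotientGroup.mk' D) ≠ ⊥ := by
    intro e
    rw [Subgroup.map_eq_bot_iff, QuotientGroup.ker_mk'] at e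
    exact hDV.not_ge e
  have hcl' : Subgroup.normalClosure (QuotientGroup.mk' D '' F) = V.map (QuotientGroup.mk' D) := by
    rw [← Subgroup.map_normalClosure _ _ hπs, hcl]
  obtain ⟨L, h1, h2, h3, h4⟩ := exists_maxNormal hcfg.norm hcfg.finX hcfg.sup hne
    (fi_quot (fun M a b c => h.fi a b c) hDV.le) (hF.image _) (by
      rintro _ ⟨f, hf, rfl⟩
      exact ⟨f, hFV hf, rfl⟩) hcl'
  refine ⟨L.comap (QuotientGroup.mk' D), ?_, ?_, ?_, ?_, ?_⟩
  · intro d hd
    rw [Subgroup.mem_comap]
    have : QuotientGroup.mk' D d = 1 := by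
      rw [← MonoidHom.mem_ker, QuotientGroup.ker_mk']
      exact hd
    rw [this]
    exact one_mem _
  · refine lt_of_le_of_ne ?_ fun e => ?_
    · rw [← hcomapV]
      exact Subgroup.comap_mono h1.le
    · apply h1.ne
      rw [← Subgroup.map_comap_eq_self_of_surjective hπs L, e]
  · intro y hy u hu
    rw [Subgroup.mem_comap] at *
    rw [map_mul, map_mul, map_inv]
    exact h2 _ ⟨y, hy, rfl⟩ _ hu
  · rw [Subgroup.relIndex_comap]
    exact h3
  · intro N hN1 hN2 hN3
    have hDN : (QuotientGroup.mk' D).ker ≤ N := by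
      rw [QuotientGroup.ker_mk']
      refine le_trans ?_ hN1
      intro d hd
      rw [Subgroup.mem_comap]
      have : QuotientGroup.mk' D d = 1 := by
        rw [← MonoidHom.mem_ker, QuotientGroup.ker_mk']
        exact hd
      rw [this]
      exact one_mem _
    have e0 : (N.map (QuotientGroup.mk' D)).comap (QuotientGroup.mk' D) = N := by
      rw [Subgroup.comap_map_eq, sup_eq_left]
      exact hDN
    have e1 : L ≤ N.map (QuotientGroup.mk' D) := by
      rw [← Subgroup.map_comap_eq_self_of_surjective hπs L]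
      exact Subgroup.map_mono hN1
    have e3 : Nz (V.map (QuotientGroup.mk' D)) (N.map (QuotientGroup.mk' D)) := by
      rintro _ ⟨y, hy, rfl⟩ _ ⟨n, hn, rfl⟩
      exact ⟨y * n * y⁻¹, hN3 y hy n hn, by rw [map_mul, map_mul, map_inv]⟩
    rcases h4 _ e1 (Subgroup.map_mono hN2) e3 with e | e
    · left
      rw [← e0, e]
    · right
      rw [← e0, e, hcomapV]

/-- perfect `q`-subgroups are Chernikov -/
theorem Cfg.cher_q (h : Cfg p V X x) {q : ℕ} (hq : q.Prime) {P : Subgroup G} (hP : P ≤ V)
    (hPq : IsPGroup q P) (hPp : ⁅P, X⁆ = P) : Cher P := by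
  by_contra hc
  have hgen := h.gen
  subst hgen
  have hPp' : ⁅P, Subgroup.zpowers x⁆ = P := hPp
  obtain ⟨L, U, hUP, -, -, -, h1, h2, h3, h4, -⟩ := main_rel h.prime h.lf
    (V := P) (fun u hu => h.pp u (hP hu)) h.xp (nz_of_perf hPp')
    (by
      rintro ⟨W, hW⟩
      exact h.dcc ⟨W, fun i => ⟨(hW i).1.trans hP, (hW i).2⟩⟩) (by rwa [hPp'])
  obtain ⟨F, hF, hFU, hFm⟩ := not_locally_solvable h.lf h1 h2 h3 h4 le_rfl le_sup_right
  have := Fact.mk hq
  have hcl : Subgroup.closure F ≤ P := by
    rw [Subgroup.closure_le]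
    exact fun f hf => hUP (hFU hf)
  have hfin : Finite (Subgroup.closure F) := h.lf F hF
  have hpg : IsPGroup q (Subgroup.closure F) := hPq.to_le hcl
  have := hpg.isNilpotent
  have hsol : Group.IsSolvable (Subgroup.closure F) := inferInstance
  obtain ⟨m, hm⟩ := hsol.solvable
  apply hFm m
  rw [hm, Subgroup.map_bot]
  exact bot_le

/-- the main contradiction -/
theorem MinCfg.no_top (h : MinCfg p V X x) {E : Subgroup G} (hEV : E < V) (hE : Nz V E)
    (hc : LocSol E V ∨ (FPr E V ∧ ¬ QCr E V)) : False := by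
  have hVn := h.norm
  have hX := h.toCfg.finX
  -- the core
  set D : Subgroup G := ⨅ y : X, cj (y : G) E with hD
  have hmemD : ∀ g : G, g ∈ D ↔ ∀ y ∈ X, y⁻¹ * g * y ∈ E := by
    intro g
    rw [hD, Subgroup.mem_iInf]
    constructor
    · intro h y hy
      have := h ⟨y, hy⟩
      rwa [mem_cj] at this
    · rintro h ⟨y, hy⟩
      rw [mem_cj]
      exact h y hy
  have hDE : D ≤ E := by
    intro g hg
    have := (hmemD g).1 hg 1 (one_mem X)
    simpa using this
  have hDV : D < V := lt_of_le_of_lt hDE hEV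
  have hconjV : ∀ y ∈ X, ∀ v ∈ V, y⁻¹ * v * y ∈ V := by
    intro y hy v hv
    have := hVn.conj_mem v hv y⁻¹
    rwa [inv_inv] at this
  have hDn : D.Normal := by
    apply nz_of_sup h.sup
    · intro v hv d hd
      rw [hmemD] at hd ⊢
      intro y hy
      have e : y⁻¹ * (v * d * v⁻¹) * y =
          (y⁻¹ * v * y) * (y⁻¹ * d * y) * (y⁻¹ * v * y)⁻¹ := by group
      rw [e]
      exact hE _ (hconjV y hy v hv) _ (hd y hy)
    · intro z hz d hd
      rw [hmemD] at hd ⊢
      intro y hy
      have e : y⁻¹ * (z * d * z⁻¹) * y = (z⁻¹ * y)⁻¹ * d * (z⁻¹ * y) := by group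
      rw [e]
      exact hd _ (mul_mem (inv_mem hz) hy)
  have hnotD : ∀ v : G, v ∉ D → ∃ y ∈ X, y⁻¹ * v * y ∉ E := by
    intro v hv
    by_contra hcon
    push Not at hcon
    exact hv ((hmemD v).2 hcon)
  rcases hc with hc | ⟨⟨ps, hps⟩, hqc⟩
  · -- locally soluble
    obtain ⟨L, hDL, h1, h2, h3, h4⟩ := h.exists_max hDn hDV
    obtain ⟨F, hF, hFV, hFm⟩ := not_locally_solvable h.lf h1 h2 h3 h4 le_rfl le_sup_right
    have hm : ∀ y : X, ∃ m : ℕ, (derivedSeries (Subgroup.closure F) m).map
        (Subgroup.closure F).subtype ≤ cj (y : G) E := by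
      intro y
      obtain ⟨m, hm⟩ := hc ((MulAut.conj (y : G)⁻¹).toMonoidHom '' F) (hF.image _) (by
        rintro _ ⟨f, hf, rfl⟩
        have := hconjV y y.2 f (hFV hf)
        show (y : G)⁻¹ * f * ((y : G)⁻¹)⁻¹ ∈ V
        rwa [inv_inv])
      refine ⟨m, ?_⟩
      rw [← MonoidHom.map_closure, ← map_derived] at hm
      have h5 := cj_mono (g := (y : G)) hm
      have h6 : cj (y : G) (((derivedSeries (Subgroup.closure F) m).map
          (Subgroup.closure F).subtype).map (MulAut.conj (y : G)⁻¹).toMonoidHom) =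
          (derivedSeries (Subgroup.closure F) m).map (Subgroup.closure F).subtype :=
        cj_cj_inv (y : G) _
      rwa [h6] at h5
    choose m hm' using hm
    have : Fintype X := Fintype.ofFinite X
    set M := Finset.univ.sup m with hM
    apply hFm M
    refine le_trans ?_ hDL
    rw [hD]
    refine le_iInf fun y => ?_
    refine le_trans (Subgroup.map_mono ?_) (hm' y)
    exact derivedSeries_antitone _ (Finset.le_sup (Finset.mem_univ y))
  · -- finitely many primes
    have hπs := QuotientGroup.mk'_surjective D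
    have hker := QuotientGroup.ker_mk' D
    have hcfg := h.toCfg.quotient D hDV.le
    have hperf' : ⁅V.map (QuotientGroup.mk' D), X.map (QuotientGroup.mk' D)⁆ =
        V.map (QuotientGroup.mk' D) := by
      rw [← map_comm, h.perf]
    have hmk : ∀ g : G, QuotientGroup.mk' D g = 1 ↔ g ∈ D := by
      intro g
      rw [← MonoidHom.mem_ker, hker]
    have h1 := index_argument hcfg hperf' (fi_quot (fun M a b c => h.fi a b c) hDV.le) ps
      (by
        rintro q hq _ ⟨v, hv, rfl⟩ hvq hv1
        rw [← map_pow, hmk] at hvq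
        have h2 : v ∉ D := fun h3 => hv1 ((hmk v).2 h3)
        obtain ⟨y, hy, hyE⟩ := hnotD v h2
        refine hps q hq _ (hconjV y hy v hv) ?_ hyE
        have := (hmemD _).1 hvq y hy
        have e : (y⁻¹ * v * y) ^ q = y⁻¹ * v ^ q * y := by
          have := conj_pow (i := q) (a := y⁻¹) (b := v)
          rwa [inv_inv] at this
        rw [e]
        exact this)
      (by
        intro q hq P hP hPq hPp
        refine finite_of_cher hcfg.lf (hcfg.cher_q hq hP hPq hPp) ?_
        rintro ⟨r, a, hr, haP, ha0, har, has⟩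
        have hlift : ∀ n, ∃ v ∈ V, QuotientGroup.mk' D v = a n := fun n => hP (haP n)
        choose v hvV hva using hlift
        have h2 : v 0 ∉ D := fun h3 => ha0 (by rw [← hva 0]; exact (hmk _).2 h3)
        obtain ⟨y, hy, hyE⟩ := hnotD _ h2
        apply hqc
        refine ⟨r, fun n => y⁻¹ * v n * y, hr, fun n => hconjV y hy _ (hvV n), hyE, ?_, ?_⟩
        · have h3 : v 0 ^ r ∈ D := by
            rw [← hmk, map_pow, hva]
            exact har
          have := (hmemD _).1 h3 y hy
          have e : (y⁻¹ * v 0 * y) ^ r = y⁻¹ * v 0 ^ r * y := by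
            have := conj_pow (i := r) (a := y⁻¹) (b := v 0)
            rwa [inv_inv] at this
          rw [e]
          exact this
        · intro n
          have h3 : v (n + 1) ^ r * (v n)⁻¹ ∈ D := by
            rw [← hmk, map_mul, map_pow, map_inv, hva, hva, has, mul_inv_cancel]
          have := (hmemD _).1 h3 y hy
          have e : (y⁻¹ * v (n + 1) * y) ^ r * (y⁻¹ * v n * y)⁻¹ =
              y⁻¹ * (v (n + 1) ^ r * (v n)⁻¹) * y := by
            have e1 := conj_pow (i := r) (a := y⁻¹) (b := v (n + 1))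
            rw [inv_inv] at e1
            rw [e1]
            group
          show (y⁻¹ * v (n + 1) * y) ^ r * (y⁻¹ * v n * y)⁻¹ ∈ E
          rw [e]
          exact this)
    rw [Subgroup.map_eq_bot_iff, hker] at h1
    exact hDV.not_ge h1

end

end PMC
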