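import Pool.Agent.PMC.Jc

/-!
[PMC] series whose infinite factors are good.
-/

set_option autoImplicit false

namespace PMC

open Subgroup
open scoped commutatorElement

universe u

/-- the minimal situation inside a bigger group -/
theorem exists_min_cfg {G : Type*} [Group G] {p : ℕ} (hp : p.Prime) (hG : LF G) {V : Subgroup G}
    (hpp : PP p V) {x : G} (hx : ∃ k : ℕ, x ^ (p ^ k) = 1) (hN : Nz (Subgroup.zpowers x) V)
    (hdcc : ¬ ∃ U : ℕ → Subgroup G, ∀ i, U i ≤ V ∧ ⁅U i, Subgroup.zpowers x⁆ = U i ∧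
      U (i + 1) < U i)
    (hnc : ¬ Cher ⁅V, Subgroup.zpowers x⁆) :
    ∃ (U H : Subgroup G) (x' : H), U ≤ V ∧ U ≤ H ∧ ¬ Cher U ∧
      MinCfg p (U.subgroupOf H) (Subgroup.zpowers x') x' := by
  obtain ⟨k, hk⟩ := hx
  have hXf : Finite (Subgroup.zpowers x) := (zpowers_facts hp hk).1
  have hXp : IsPGroup p (Subgroup.zpowers x) := (zpowers_facts hp hk).2
  obtain ⟨U, ⟨hUV, hUp, hUn⟩, -, hmin⟩ := exists_minimal_of_dcc
    (fun U : Subgroup G => U ≤ V ∧ ⁅U, Subgroup.zpowers x⁆ = U ∧ ¬ Cher U)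
    (by
      rintro ⟨U, hU⟩
      exact hdcc ⟨U, fun i => ⟨(hU i).1.1, (hU i).1.2.1, (hU i).2⟩⟩)
    (U := ⁅V, Subgroup.zpowers x⁆)
    ⟨comm_le_left hN, comm_comm hp hG hpp hXf hXp hN, hnc⟩
  have hUX : Nz (Subgroup.zpowers x) U := nz_of_perf hUp
  have hUpp : PP p U := fun u hu => hpp u (hUV hu)
  set H : Subgroup G := U ⊔ Subgroup.zpowers x with hH
  have hUH : U ≤ H := le_sup_left
  have hxH : x ∈ H := (le_sup_right : Subgroup.zpowers x ≤ H) (Subgroup.mem_zpowers x)
  set ι : H →* G := H.subtype with hι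
  have hιi : Function.Injective ι := H.subtype_injective
  set U' : Subgroup H := U.subgroupOf H with hU'
  set x' : H := ⟨x, hxH⟩ with hx'
  have hmapU : U'.map ι = U := by
    rw [hU', hι, Subgroup.map_subgroupOf_eq_of_le hUH]
  have hmapX : (Subgroup.zpowers x').map ι = Subgroup.zpowers x := by
    rw [MonoidHom.map_zpowers]
    rfl
  have hinj : ∀ A B : Subgroup H, A.map ι = B.map ι → A = B := fun A B h =>
    Subgroup.map_injective hιi h
  have hsup' : U' ⊔ Subgroup.zpowers x' = ⊤ := by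
    apply hinj
    rw [Subgroup.map_sup, hmapU, hmapX, ← MonoidHom.range_eq_map, hι, Subgroup.range_subtype]
  have hcommU : ⁅U', Subgroup.zpowers x'⁆ = U' := by
    apply hinj
    rw [map_comm, hmapU, hmapX, hUp]
  refine ⟨U, H, x', hUV, hUH, hUn, ?_⟩
  refine
    { prime := hp
      lf := hG.subgroup H
      norm := ?_
      pp := ?_
      gen := rfl
      xp := ⟨k, Subtype.ext hk⟩
      sup := hsup'
      dcc := ?_
      perf := hcommU
      ncher := ?_
      minl := ?_ }
  · apply nz_of_sup hsup'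
    · intro y hy u hu
      exact mul_mem (mul_mem hy hu) (inv_mem hy)
    · intro y hy u hu
      have h1 : (y : G) ∈ Subgroup.zpowers x := by
        rw [← hmapX]
        exact ⟨y, hy, rfl⟩
      exact hUX y h1 u hu
  · intro u hu j hj
    have h1 : (u : G) = 1 := hUpp u hu j (by
      have := congrArg (Subtype.val : H → G) hj
      simpa using this)
    exact Subtype.ext h1
  · rintro ⟨W, hW⟩
    apply hdcc
    refine ⟨fun i => (W i).map ι, fun i => ⟨?_, ?_, ?_⟩⟩
    · refine le_trans ?_ hUV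
      rw [← hmapU]
      exact Subgroup.map_mono (hW i).1
    · rw [← hmapX, ← map_comm, (hW i).2.1]
    · refine lt_of_le_of_ne (Subgroup.map_mono (hW i).2.2.le) fun e => ?_
      exact (hW i).2.2.ne (hinj _ _ e)
  · intro hc
    apply hUn
    rw [← hmapU]
    exact (cher_map_iff ι hιi).2 hc
  · intro W hWU hWp hne
    by_contra hc
    have h1 := hmin (W.map ι) ⟨?_, ?_, fun h => hc ((cher_map_iff ι hιi).1 h)⟩ ?_
    · exact hne (hinj _ _ (by rw [h1, hmapU]))
    · refine le_trans ?_ hUV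
      rw [← hmapU]
      exact Subgroup.map_mono hWU
    · rw [← hmapX, ← map_comm, hWp]
    · rw [← hmapU]
      exact Subgroup.map_mono hWU

/-- the factor `C / A` is good -/
def Good {G : Type*} [Group G] (A C : Subgroup G) : Prop :=
  ∀ B : Subgroup G, A ≤ B → B ≤ C →
    (∀ N : Subgroup G, A ≤ N → N ≤ B → N.relIndex B ≠ 0 → N = B) →
    LocSol A B ∨ (FPr A B ∧ ¬ QCr A B)

theorem top_main {p : ℕ} (hp : p.Prime) {G : Type*} [Group G] (hG : LF G) (hm : PMin p G)
    {n : ℕ} {H : ℕ → Subgroup G} (h0 : H 0 = ⊥) (hn : H n = ⊤)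
    (hH : ∀ i < n, H i ≤ H (i + 1) ∧ ((H i).subgroupOf (H (i + 1))).Normal ∧
      ((H i).relIndex (H (i + 1)) ≠ 0 ∨
        ((∀ x ∈ H (i + 1), ∀ k : ℕ, x ^ (p ^ k) ∈ H i → x ∈ H i) ∧ Good (H i) (H (i + 1))))) :
    Cher (Subgroup.closure {g : G | ∃ k : ℕ, g ^ (p ^ k) = 1}) := by
  classical
  by_contra hnc
  obtain ⟨V, hV, hVi, hpp⟩ := exists_pprime_finiteIndex hp hG ⟨n, H, h0, hn, fun i hi =>
    ⟨(hH i hi).1, (hH i hi).2.1, (hH i hi).2.2.imp id And.left⟩⟩
  have hex : ∃ x : G, (∃ k : ℕ, x ^ (p ^ k) = 1) ∧ ¬ Cher ⁅V, Subgroup.zpowers x⁆ := by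
    by_contra hcon
    push Not at hcon
    exact hnc (cher_of_single hp hG hV hVi hpp hcon)
  obtain ⟨x, hx, hxc⟩ := hex
  have hN : Nz (Subgroup.zpowers x) V := nz_of_normal hV
  obtain ⟨U, T, x', hUV, hUT, hUn, hcfg⟩ :=
    exists_min_cfg hp hG hpp hx hN (dcc_of_pmin hp hm hpp hx hN) hxc
  have hP : ∃ j, j ≤ n ∧ U ≤ H j := ⟨n, le_rfl, by rw [hn]; exact le_top⟩
  set j := Nat.find hP with hj
  obtain ⟨hjn, hUj⟩ := Nat.find_spec hP
  have hj0 : j ≠ 0 := by
    intro h
    rw [← hj, h, h0] at hUj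
    apply hUn
    rw [le_bot_iff.1 hUj]
    exact cher_bot
  obtain ⟨i, hi⟩ := Nat.exists_eq_succ_of_ne_zero hj0
  have hin : i < n := by omega
  have hUi : ¬ U ≤ H i := fun h => Nat.find_min hP (m := i) (by omega) ⟨hin.le, h⟩
  have hUi1 : U ≤ H (i + 1) := by
    have : i + 1 = j := by omega
    rw [this]
    exact hUj
  obtain ⟨hle, hnor, hfac⟩ := hH i hin
  have hNz := (nz_subgroupOf hle).1 hnor
  set E : Subgroup T := (U ⊓ H i).subgroupOf T with hE
  set V' : Subgroup T := U.subgroupOf T with hV'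
  have hEV : E ≤ V' := fun g hg => hg.1
  have hmem : ∀ g : T, g ∈ E ↔ (g : G) ∈ U ∧ (g : G) ∈ H i := fun g => Iff.rfl
  have hmemV : ∀ g : T, g ∈ V' ↔ (g : G) ∈ U := fun g => Iff.rfl
  have hmapE : E.map T.subtype = U ⊓ H i := Subgroup.map_subgroupOf_eq_of_le (inf_le_left.trans hUT)
  have hmapV : V'.map T.subtype = U := Subgroup.map_subgroupOf_eq_of_le hUT
  have hne : E < V' := by
    refine lt_of_le_of_ne hEV fun e => hUi ?_
    rw [← hmapV, ← e, hmapE]
    exact inf_le_right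
  have hrel : ∀ N : Subgroup G, N ≤ T → (N.subgroupOf T).relIndex V' = N.relIndex U := fun N hNT =>
    Subgroup.relIndex_subgroupOf hUT
  have hEn : Nz V' E := by
    intro y hy u hu
    rw [hmem] at hu ⊢
    rw [hmemV] at hy
    refine ⟨mul_mem (mul_mem hy hu.1) (inv_mem hy), ?_⟩
    exact hNz y (hUi1 hy) u hu.2
  rcases hfac with hfac | ⟨-, hgood⟩
  · -- finite factor
    apply hne.ne
    refine hcfg.fi' hEV ?_
    rw [hE, hrel _ (inf_le_left.trans hUT), Subgroup.inf_relIndex_left]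
    intro h
    exact hfac (Subgroup.relIndex_eq_zero_of_le_right hUi1 h)
  · have hB := hgood (H i ⊔ U) le_sup_left (sup_le hle hUi1) (by
      intro N hN1 hN2 hN3
      have h1 : N ⊓ U = U := by
        have h2 : ((N ⊓ U).subgroupOf T) = V' := by
          refine hcfg.fi' (fun g hg => hg.2) ?_
          rw [hrel _ (inf_le_right.trans hUT), Subgroup.inf_relIndex_right]
          intro h
          exact hN3 (Subgroup.relIndex_eq_zero_of_le_right le_sup_right h)
        have h3 := congrArg (Subgroup.map T.subtype) h2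
        rwa [Subgroup.map_subgroupOf_eq_of_le (inf_le_right.trans hUT), hmapV] at h3
      refine le_antisymm hN2 (sup_le hN1 ?_)
      rw [← h1]
      exact inf_le_left)
    refine hcfg.no_top hne hEn ?_
    rcases hB with hB | ⟨⟨ps, hps⟩, hqc⟩
    · left
      intro F hF hFV
      obtain ⟨m, hm⟩ := hB (T.subtype '' F) (hF.image _) (by
        rintro _ ⟨f, hf, rfl⟩
        exact (le_sup_right : U ≤ H i ⊔ U) (hFV hf))
      refine ⟨m, fun g hg => ?_⟩
      rw [← MonoidHom.map_closure, ← map_derived] at hm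
      rw [hmem]
      constructor
      · have h1 : Subgroup.closure F ≤ V' := by
          rw [Subgroup.closure_le]
          exact hFV
        obtain ⟨c, -, rfl⟩ := hg
        exact h1 c.2
      · exact hm ⟨g, hg, rfl⟩
    · right
      constructor
      · refine ⟨ps, fun q hq g hg hgq hgE => ?_⟩
        refine hps q hq g ((le_sup_right : U ≤ H i ⊔ U) hg) hgq.2 fun h => hgE ⟨hg, h⟩
      · rintro ⟨q, a, hq, haV, ha0, haq, has⟩
        apply hqc
        exact ⟨q, fun n => (a n : G), hq, fun n => (le_sup_right : U ≤ H i ⊔ U) (haV n),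
          fun h => ha0 ⟨haV 0, h⟩, haq.2, fun n => (has n).2⟩

end PMC
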