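import Pool.Agent.PMC.Jb

/-!
[PMC] explicit counterexamples from simple groups.
-/

set_option autoImplicit false

namespace PMC

open Subgroup SemidirectProduct
open scoped commutatorElement

universe u

/-- a counterexample for the prime `p` -/
def Cex (p : ℕ) (G : Type u) [Group G] : Prop :=
  LF G ∧ PMin p G ∧
    (∃ (n : ℕ) (H : ℕ → Subgroup G), H 0 = ⊥ ∧ H n = ⊤ ∧
      ∀ i < n, H i ≤ H (i + 1) ∧ ((H i).subgroupOf (H (i + 1))).Normal ∧
        ((H i).relIndex (H (i + 1)) ≠ 0 ∨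
          ∀ x ∈ H (i + 1), ∀ k : ℕ, x ^ (p ^ k) ∈ H i → x ∈ H i)) ∧
    ¬ Cher (Subgroup.closure {g : G | ∃ k : ℕ, g ^ (p ^ k) = 1})

theorem not_Q1_iff {p : ℕ} : ¬ Q1.{u} p ↔ ∃ (G : Type u) (_ : Group G), Cex p G := by
  unfold Q1 Cex
  push Not
  rfl

section

variable {V : Type u} [Group V]

theorem cex_Ex {p : ℕ} (hp : p.Prime) (hV : LF V) (hpp : NoP p V) {α : MulAut V}
    (hα : α ^ p = 1) (hm : PMin p (Ex α))
    (hn : ¬ Cher (Subgroup.closure (Set.range fun v : V => v⁻¹ * α v))) : Cex p (Ex α) := by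
  have hfin := finite_zp hp hα
  have hG := lf_Ex hp hα hV
  refine ⟨hG, hm, ⟨2, fun i => if i = 0 then ⊥ else if i = 1 then nn α else ⊤, by simp,
    by simp, ?_⟩, fun h => hn ?_⟩
  · intro i hi
    have h01 : i = 0 ∨ i = 1 := by omega
    rcases h01 with rfl | rfl
    · refine ⟨by simp, ?_, Or.inr ?_⟩
      · simp only [if_true]
        rw [Subgroup.bot_subgroupOf]
        exact Subgroup.normal_bot
      · simp only [if_true]
        intro x hx k hk
        simp only [zero_add, one_ne_zero, if_false] at hx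
        rw [Subgroup.mem_bot] at hk ⊢
        exact pp_nn hpp x hx k hk
    · refine ⟨by simp, ?_, Or.inl ?_⟩
      · simp only [one_ne_zero, if_false, if_true]
        exact Subgroup.Normal.subgroupOf (nn_normal α) _
      · simp only [one_ne_zero, if_false, if_true]
        have e : (1 + 1 = 0) = False := by simp
        have e2 : (1 + 1 = 1) = False := by simp
        simp only [e, e2, if_false]
        rw [Subgroup.relIndex_top_right, nn_eq]
        exact Subgroup.FiniteIndex.index_ne_zero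
  · have h1 : (Subgroup.closure (Set.range fun v : V => v⁻¹ * α v)).map (inl : V →* Ex α) ≤
        Subgroup.closure {g : Ex α | ∃ k : ℕ, g ^ (p ^ k) = 1} := by
      rw [MonoidHom.map_closure, Subgroup.closure_le]
      rintro _ ⟨_, ⟨v, rfl⟩, rfl⟩
      show (inl (v⁻¹ * α v) : Ex α) ∈ _
      rw [map_mul, ← conj_xx, map_inv]
      have e : (inl v : Ex α)⁻¹ * (xx α * inl v * (xx α)⁻¹) =
          ((inl v)⁻¹ * xx α * inl v) * (xx α)⁻¹ := by group
      rw [e]
      refine mul_mem (Subgroup.subset_closure ⟨1, ?_⟩)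
        (inv_mem (Subgroup.subset_closure ⟨1, xx_pow hα⟩))
      have h2 := conj_pow (i := p ^ 1) (a := (inl v : Ex α)⁻¹) (b := xx α)
      rw [inv_inv] at h2
      rw [h2, xx_pow hα]
      group
    exact (cher_map_iff _ inl_injective).1 (h.of_le hG h1)

theorem index_nn {p : ℕ} (hp : p.Prime) {α : MulAut V} (h1 : α ≠ 1) (hα : α ^ p = 1) :
    (nn α).index = p := by
  rw [nn_eq, Subgroup.index_ker, MonoidHom.range_eq_top.2 rightHom_surjective]
  rw [Subgroup.card_top, Nat.card_zpowers]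
  have := Fact.mk hp
  exact orderOf_eq_prime hα h1

/-- the kernel is isomorphic to `V` -/
noncomputable def nnEquiv (α : MulAut V) : nn α ≃* V :=
  (MonoidHom.ofInjective (inl_injective (φ := (Subgroup.zpowers α).subtype))).symm

end

theorem sh_ne_one {p : ℕ} (hp : p.Prime) {S : Type u} [Group S] [Nontrivial S] :
    sh p S ≠ 1 := by
  intro h
  have := Fact.mk hp
  obtain ⟨s, hs⟩ := exists_ne (1 : S)
  have h1 : sh p S (Pi.mulSingle 1 s) 0 = (Pi.mulSingle 1 s : ZMod p → S) 0 := by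
    rw [h]
    rfl
  have h2 : sh p S (Pi.mulSingle 1 s) 0 = (Pi.mulSingle 1 s : ZMod p → S) (0 + 1) := rfl
  rw [h2, zero_add, Pi.mulSingle_eq_same, Pi.mulSingle_eq_of_ne (zero_ne_one)] at h1
  exact hs h1

section

variable {S : Type u} [Group S] [Infinite S]

theorem cex_a {p : ℕ} (hp : p.Prime) (hs : ∀ N : Subgroup S, N.Normal → N = ⊥ ∨ N = ⊤)
    (hS : LF S) (hpp : NoP p S) (hW : ∀ W : Subgroup S, W ≠ ⊤ → Cher W) :
    Cex p (Ex (sh p S)) := by
  have := Fact.mk hp
  have : NeZero p := ⟨hp.ne_zero⟩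
  have hSm : MinC (⊤ : Subgroup S) := by
    rintro ⟨T, hT⟩
    have h1 : T 1 ≠ ⊤ := fun e => by
      have := (hT 0).2
      rw [zero_add, e] at this
      exact absurd this not_top_lt
    refine (hW _ h1).minC hS ⟨fun i => T (i + 1), fun i => ⟨?_, (hT (i + 1)).2⟩⟩
    exact antitone_nat_of_succ_le (fun i => (hT i).2.le) (by omega)
  refine cex_Ex hp (LF.pi hS) (fun v k hv => funext fun i => hpp (v i) k (congrFun hv i))
    (sh_pow_self p S) (pmin_of_minC (minC_Ex hp (sh_pow_self p S) (minC_pi hSm))) fun h => ?_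
  exact not_cher_simple hS hs (cher_of_shift hp hS h)

theorem cex_b {p : ℕ} (hp : p.Prime) (hs : ∀ N : Subgroup S, N.Normal → N = ⊥ ∨ N = ⊤)
    (hS : LF S) (hpp : NoP p S) {α : MulAut S} (h1 : α ≠ 1) (hα : α ^ p = 1)
    (hW : ∀ W : Subgroup S, W ≠ ⊤ →
      Subgroup.closure ((fun w => w⁻¹ * α w) '' (W : Set S)) = W → Cher W) :
    Cex p (Ex α) := by
  have hm := pmin_Ex hp hS hpp h1 hα (fun W h2 h3 => (hW W h2 h3).minC hS)
  refine cex_Ex hp hS hpp hα hm fun hC => ?_
  set D := Subgroup.closure (Set.range fun v : S => v⁻¹ * α v) with hD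
  have hgen : ∀ v : S, v⁻¹ * α v ∈ D := fun v => Subgroup.subset_closure ⟨v, rfl⟩
  have hDn : D.Normal := by
    refine ⟨fun d hd g => ?_⟩
    refine Subgroup.closure_induction (p := fun d _ => g * d * g⁻¹ ∈ D) ?_ ?_ ?_ ?_ hd
    · rintro _ ⟨v, rfl⟩
      have e : g * (v⁻¹ * α v) * g⁻¹ =
          ((v * g⁻¹)⁻¹ * α (v * g⁻¹)) * ((g⁻¹)⁻¹ * α g⁻¹)⁻¹ := by
        rw [map_mul]
        group
      show g * (v⁻¹ * α v) * g⁻¹ ∈ D
      rw [e]
      exact mul_mem (hgen _) (inv_mem (hgen _))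
    · simp
    · intro a b _ _ ha hb
      have e : g * (a * b) * g⁻¹ = (g * a * g⁻¹) * (g * b * g⁻¹) := by group
      rw [e]
      exact mul_mem ha hb
    · intro a _ ha
      have e : g * a⁻¹ * g⁻¹ = (g * a * g⁻¹)⁻¹ := by group
      rw [e]
      exact inv_mem ha
  rcases hs D hDn with h | h
  · apply h1
    ext v
    have := hgen v
    rw [h, Subgroup.mem_bot] at this
    rw [MulAut.one_apply]
    exact (inv_mul_eq_one.1 this).symm
  · rw [h] at hC
    exact not_cher_simple hS hs hC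

end

/-- three equivalent forms of the failure of the question for `p` -/
theorem tfae {p : ℕ} (hp : p.Prime) : List.TFAE [
    ∃ (G : Type u) (_ : Group G), Cex p G,
    ∃ (S : Type u) (_ : Group S), Countable S ∧ Infinite S ∧
      (∀ N : Subgroup S, N.Normal → N = ⊥ ∨ N = ⊤) ∧ LF S ∧ NoP p S ∧ (¬ FP S ∨ QC S) ∧
      ((∀ W : Subgroup S, W ≠ ⊤ → Cher W) ∨
        ∃ α : MulAut S, α ≠ 1 ∧ α ^ p = 1 ∧ ∀ W : Subgroup S, W ≠ ⊤ →
          Subgroup.closure ((fun w => w⁻¹ * α w) '' (W : Set S)) = W → Cher W),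
    ∃ (S G : Type u) (_ : Group S) (_ : Group G) (N : Subgroup G) (k : ℕ),
      Countable S ∧ Infinite S ∧ (∀ N : Subgroup S, N.Normal → N = ⊥ ∨ N = ⊤) ∧
      (k = 1 ∨ k = p) ∧ N.Normal ∧ N.index = p ∧ Nonempty (N ≃* (Fin k → S)) ∧ Cex p G] := by
  tfae_have 1 → 2 := by
    rw [← not_Q1_iff, main_iff' hp]
    exact id
  tfae_have 2 → 3 := by
    rintro ⟨S, _, hc, hi, hs, hS, hpp, -, h⟩
    have hnt : Nontrivial S := inferInstance
    have := Fact.mk hp
    have : NeZero p := ⟨hp.ne_zero⟩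
    rcases h with h | ⟨α, h1, hα, h⟩
    · refine ⟨S, Ex (sh p S), inferInstance, inferInstance, nn (sh p S), p, hc, hi, hs,
        Or.inr rfl, nn_normal _, index_nn hp (sh_ne_one hp) (sh_pow_self p S), ?_,
        cex_a hp hs hS hpp h⟩
      exact ⟨(nnEquiv (sh p S)).trans
        (MulEquiv.arrowCongr (ZMod.finEquiv p).symm.toEquiv (MulEquiv.refl S))⟩
    · refine ⟨S, Ex α, inferInstance, inferInstance, nn α, 1, hc, hi, hs,
        Or.inl rfl, nn_normal _, index_nn hp h1 hα, ?_, cex_b hp hs hS hpp h1 hα h⟩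
      exact ⟨(nnEquiv α).trans (MulEquiv.funUnique (Fin 1) S).symm⟩
  tfae_have 3 → 1 := by
    rintro ⟨S, G, _, hG, N, k, -, -, -, -, -, -, -, h⟩
    exact ⟨G, hG, h⟩
  tfae_finish

end PMC
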