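import Pool.Agent.PMC.Jd

/-!
[PMC] examples of good factors.
-/

set_option autoImplicit false

namespace PMC

open Subgroup

section

variable {G : Type*} [Group G] {A C : Subgroup G}

theorem good_of_locSol (h : LocSol A C) : Good A C := fun _ _ hB _ =>
  Or.inl fun F hF hFB => h F hF (hFB.trans hB)

theorem good_of_resFin
    (h : ∀ g ∈ C, g ∉ A → ∃ N : Subgroup G, A ≤ N ∧ N ≤ C ∧ N.relIndex C ≠ 0 ∧ g ∉ N) :
    Good A C := by
  intro B hAB hBC hfi
  left
  have hBA : B ≤ A := by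
    intro g hg
    by_contra hgA
    obtain ⟨N, hN1, -, hN3, hgN⟩ := h g (hBC hg) hgA
    apply hgN
    have h1 := hfi (N ⊓ B) (le_inf hN1 hAB) inf_le_right (by
      rw [Subgroup.inf_relIndex_right]
      intro h0
      exact hN3 (Subgroup.relIndex_eq_zero_of_le_right hBC h0))
    rw [← h1] at hg
    exact hg.1
  intro F _ hFB
  refine ⟨0, ?_⟩
  rintro _ ⟨c, -, rfl⟩
  have h2 : Subgroup.closure F ≤ A := by
    rw [Subgroup.closure_le]
    exact fun f hf => hBA (hFB hf)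
  exact h2 c.2

theorem good_of_exp (hN : Nz C A) {e : ℕ} (he : 0 < e) (h : ∀ g ∈ C, g ^ e ∈ A) : Good A C := by
  intro B hAB hBC _
  right
  have hn : (A.subgroupOf B).Normal := (nz_subgroupOf hAB).2 fun y hy u hu => hN y (hBC hy) u hu
  have hmk : ∀ b : B, QuotientGroup.mk' (A.subgroupOf B) b = 1 ↔ (b : G) ∈ A := by
    intro b
    rw [← MonoidHom.mem_ker, QuotientGroup.ker_mk', Subgroup.mem_subgroupOf]
  constructor
  · refine ⟨e.primeFactors, fun q hq g hg hgq hgA => ?_⟩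
    rw [Nat.mem_primeFactors]
    refine ⟨hq, ?_, he.ne'⟩
    by_contra hqe
    apply hgA
    have hco := (Nat.Prime.coprime_iff_not_dvd hq).2 hqe
    have h1 : (QuotientGroup.mk' (A.subgroupOf B) ⟨g, hg⟩) ^ q = 1 := by
      rw [← map_pow, hmk]
      exact hgq
    have h2 : (QuotientGroup.mk' (A.subgroupOf B) ⟨g, hg⟩) ^ e = 1 := by
      rw [← map_pow, hmk]
      exact h g (hBC hg)
    have h3 : orderOf (QuotientGroup.mk' (A.subgroupOf B) ⟨g, hg⟩) ∣ 1 := by
      rw [← hco.gcd_eq_one]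
      exact Nat.dvd_gcd (orderOf_dvd_of_pow_eq_one h1) (orderOf_dvd_of_pow_eq_one h2)
    have h4 := orderOf_eq_one_iff.1 (Nat.dvd_one.1 h3)
    exact (hmk _).1 h4
  · rintro ⟨q, a, hq, haB, ha0, haq, has⟩
    set π := QuotientGroup.mk' (A.subgroupOf B) with hπ
    have h1 : ∀ n, (π ⟨a (n + 1), haB (n + 1)⟩) ^ q = π ⟨a n, haB n⟩ := by
      intro n
      rw [← mul_inv_eq_one, ← map_pow, ← map_inv, ← map_mul, hmk]
      exact has n
    have h2 : ∀ n, (π ⟨a n, haB n⟩) ^ (q ^ n) = π ⟨a 0, haB 0⟩ := by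
      intro n
      induction n with
      | zero => simp
      | succ n ih => rw [pow_succ', pow_mul, h1, ih]
    have h3 : ∀ n, (π ⟨a n, haB n⟩) ^ e = 1 := by
      intro n
      rw [← map_pow, hmk]
      exact h _ (hBC (haB n))
    obtain ⟨s, e', he', hee⟩ := Nat.exists_eq_pow_mul_and_not_dvd he.ne' q hq.one_lt.ne'
    have h4 : (π ⟨a 0, haB 0⟩) ^ e' = 1 := by
      have := h3 s
      rwa [hee, pow_mul, h2] at this
    have h5 : (π ⟨a 0, haB 0⟩) ^ q = 1 := by
      rw [← map_pow, hmk]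
      exact haq
    have hco := (Nat.Prime.coprime_iff_not_dvd hq).2 he'
    have h6 : orderOf (π ⟨a 0, haB 0⟩) ∣ 1 := by
      rw [← hco.gcd_eq_one]
      exact Nat.dvd_gcd (orderOf_dvd_of_pow_eq_one h5) (orderOf_dvd_of_pow_eq_one h4)
    exact ha0 ((hmk _).1 (orderOf_eq_one_iff.1 (Nat.dvd_one.1 h6)))

end

end PMC
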