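import Pool.Agent.PMC.RowC1

set_option autoImplicit false

alias PMC.divisible_le := PMC.C1.divisible_le
alias PMC.CherW.unique := PMC.C1.CherW.unique
alias PMC.CherW.cj := PMC.C1.CherW.cj
alias PMC.CherW.nz := PMC.C1.CherW.nz
alias PMC.CherW.le_of_divisible := PMC.C1.CherW.le_of_divisible
alias PMC.Cher.of_relIndex := PMC.C1.Cher.of_relIndex
alias PMC.Cher.of_finite := PMC.C1.Cher.of_finite
alias PMC.cher_map_iff := PMC.C1.cher_map_iff
alias PMC.Cher.finite_torsion := PMC.C1.Cher.finite_torsion
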