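import Pool.Agent.PMC.RowC2

set_option autoImplicit false

alias PMC.finite_quot_torsion := PMC.C2.finite_quot_torsion
alias PMC.Cher.sup := PMC.C2.Cher.sup
alias PMC.Cher.iSup := PMC.C2.Cher.iSup
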