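import Pool.Agent.PMC.RowD

set_option autoImplicit false

alias PMC.exists_finite_perf := PMC.D.exists_finite_perf
alias PMC.exists_finite_normal := PMC.D.exists_finite_normal
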