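import Pool.Agent.PMC.RowEC

set_option autoImplicit false

alias PMC.exists_comm_mod := PMC.EC.exists_comm_mod
alias PMC.comm_of_E := PMC.EC.comm_of_E
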