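import Pool.Agent.PMC.RowFI

set_option autoImplicit false

alias PMC.MinCfg.fi := PMC.FI.MinCfg.fi
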