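import Pool.Agent.PMC.RowL

set_option autoImplicit false

alias PMC.LF.subgroup := PMC.L.LF.subgroup
alias PMC.LF.quotient := PMC.L.LF.quotient
alias PMC.LF.torsion := PMC.L.LF.torsion
alias PMC.LF.finite_sup := PMC.L.LF.finite_sup
alias PMC.PP.mem_of_pow := PMC.L.PP.mem_of_pow
alias PMC.PP.quotient := PMC.L.PP.quotient
alias PMC.exists_p_lift := PMC.L.exists_p_lift
alias PMC.zpowers_facts := PMC.L.zpowers_facts
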