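import Pool.Agent.PMC.RowN

set_option autoImplicit false

alias PMC.neumann := PMC.N.neumann
alias PMC.divisible_commute := PMC.N.divisible_commute
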