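import Pool.Agent.PMC.RowQ

set_option autoImplicit false

alias PMC.Cfg.quotient := PMC.Q.Cfg.quotient
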