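import Pool.Agent.PMC.RowR0

set_option autoImplicit false

alias PMC.exists_pprime_finiteIndex := PMC.R0.exists_pprime_finiteIndex
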