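import Pool.Agent.PMC.RowR2

set_option autoImplicit false

alias PMC.cher_of_single := PMC.R2.cher_of_single
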