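import Pool.Agent.PMC.RowS

set_option autoImplicit false

alias PMC.sylow_conj := PMC.S.sylow_conj
alias PMC.star := PMC.S.star
alias PMC.coprime_decomp := PMC.S.coprime_decomp
alias PMC.comm_comm := PMC.S.comm_comm
alias PMC.fix_trivial := PMC.S.fix_trivial
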