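import Pool.Agent.PMC.Fin

/-!
[PMC] minimal condition and Chernikov groups: closure properties.
-/

set_option autoImplicit false

namespace PMC

open Subgroup

section

variable {G : Type*} [Group G]

/-- the minimal condition on the subgroups of `U` -/
def MinC (U : Subgroup G) : Prop :=
  ¬ ∃ S : ℕ → Subgroup G, ∀ i, S i ≤ U ∧ S (i + 1) < S i

theorem MinC.mono {U W : Subgroup G} (h : MinC W) (hU : U ≤ W) : MinC U := by
  rintro ⟨S, hS⟩
  exact h ⟨S, fun i => ⟨(hS i).1.trans hU, (hS i).2⟩⟩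

/-- a weakly descending chain becomes stationary -/
theorem MinC.stab {U : Subgroup G} (h : MinC U) {S : ℕ → Subgroup G} (hS : ∀ i, S i ≤ U)
    (ha : ∀ i, S (i + 1) ≤ S i) : ∃ n, ∀ m, n ≤ m → S m = S n := by
  obtain ⟨W, ⟨-, n, rfl⟩, -, hW⟩ := exists_minimal_of_dcc
    (fun T : Subgroup G => T ≤ U ∧ ∃ n, T = S n)
    (by
      rintro ⟨T, hT⟩
      exact h ⟨T, fun i => ⟨(hT i).1.1, (hT i).2⟩⟩)
    (U := S 0) ⟨hS 0, 0, rfl⟩
  refine ⟨n, fun m hm => hW _ ⟨hS m, m, rfl⟩ ?_⟩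
  exact antitone_nat_of_succ_le ha hm

theorem MinC.map {H : Type*} [Group H] (f : G →* H) {U : Subgroup G} (h : MinC U) :
    MinC (U.map f) := by
  rintro ⟨S, hS⟩
  apply h
  have e : ∀ i, ((S i).comap f ⊓ U).map f = S i := by
    intro i
    apply le_antisymm
    · rintro _ ⟨g, hg, rfl⟩
      exact hg.1
    · intro s hs
      obtain ⟨u, hu, rfl⟩ := (hS i).1 hs
      exact ⟨u, ⟨hs, hu⟩, rfl⟩
  refine ⟨fun i => (S i).comap f ⊓ U, fun i => ⟨inf_le_right, lt_of_le_of_ne ?_ fun h' => ?_⟩⟩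
  · exact inf_le_inf_right _ (Subgroup.comap_mono (hS i).2.le)
  · have := congrArg (Subgroup.map f) h'
    rw [e, e] at this
    exact (hS i).2.ne this

/-- extensions -/
theorem MinC.ext {H : Type*} [Group H] (f : G →* H) {U : Subgroup G} (h1 : MinC (U ⊓ f.ker))
    (h2 : MinC (U.map f)) : MinC U := by
  rintro ⟨S, hS⟩
  obtain ⟨n, hn⟩ := h1.stab (S := fun i => S i ⊓ f.ker) (fun i => inf_le_inf_right _ (hS i).1)
    (fun i => inf_le_inf_right _ (hS i).2.le)
  obtain ⟨m, hm⟩ := h2.stab (S := fun i => (S i).map f) (fun i => Subgroup.map_mono (hS i).1)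
    (fun i => Subgroup.map_mono (hS i).2.le)
  set k := max n m with hk
  have e1 : S (k + 1) ⊓ f.ker = S k ⊓ f.ker :=
    (hn (k + 1) (by omega)).trans (hn k (by omega)).symm
  have e2 : (S (k + 1)).map f = (S k).map f :=
    (hm (k + 1) (by omega)).trans (hm k (by omega)).symm
  apply (hS k).2.not_ge
  intro s hs
  have h3 : f s ∈ (S (k + 1)).map f := by
    rw [e2]
    exact ⟨s, hs, rfl⟩
  obtain ⟨t, ht, hts⟩ := h3
  have h4 : t⁻¹ * s ∈ S k ⊓ f.ker := by
    refine Subgroup.mem_inf.2 ⟨(S k).mul_mem ((S k).inv_mem ((hS k).2.le ht)) hs, ?_⟩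
    rw [MonoidHom.mem_ker, map_mul, map_inv, hts, inv_mul_cancel]
  rw [← e1] at h4
  have := mul_mem ht h4.1
  rwa [mul_inv_cancel_left] at this

theorem MinC.of_finite {U : Subgroup G} (h : Finite U) : MinC U := by
  rintro ⟨S, hS⟩
  have hanti : StrictAnti (fun i => Nat.card (S i)) := by
    apply strictAnti_nat_of_succ_lt
    intro i
    have h1 : Finite (S i) := Finite.Set.subset (U : Set G) (hS i).1
    exact Set.ncard_lt_ncard (show (S (i + 1) : Set G) ⊂ S i from (hS i).2) h1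
  obtain ⟨n, hn⟩ : ∃ n, ∀ m, (fun i => Nat.card (S i)) n ≤ (fun i => Nat.card (S i)) m := by
    obtain ⟨n, hn⟩ := (wellFounded_lt (α := ℕ)).has_min (Set.range fun i => Nat.card (S i))
      ⟨_, 0, rfl⟩
    obtain ⟨⟨k, rfl⟩, h2⟩ := hn
    exact ⟨k, fun m => not_lt.1 (h2 _ ⟨m, rfl⟩)⟩
  exact absurd (hn (n + 1)) (not_le.2 (hanti (Nat.lt_succ_self n)))

theorem minC_of_relIndex {A U : Subgroup G} (hi : A.relIndex U ≠ 0)
    (hA : MinC A) : MinC U := by
  rintro ⟨S, hS⟩
  have ha : Antitone S := antitone_nat_of_succ_le fun i => (hS i).2.le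
  obtain ⟨n, hn⟩ := hA.stab (S := fun i => S i ⊓ A) (fun i => inf_le_right)
    (fun i => inf_le_inf_right _ (hS i).2.le)
  set B := S n ⊓ A with hB
  have hB' : ∀ m, n ≤ m → B.relIndex (S m) ≠ 0 := by
    intro m hm
    rw [← hn m hm]
    show (S m ⊓ A).relIndex (S m) ≠ 0
    rw [Subgroup.inf_relIndex_left]
    intro h0
    exact hi (Subgroup.relIndex_eq_zero_of_le_right (hS m).1 h0)
  have hlt : ∀ m, n ≤ m → B.relIndex (S (m + 1)) < B.relIndex (S m) := by
    intro m hm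
    have h1 : B ≤ S (m + 1) := by
      rw [← hn (m + 1) (by omega)]
      exact inf_le_left
    rw [← Subgroup.relIndex_mul_relIndex B (S (m + 1)) (S m) h1 (hS m).2.le]
    have h2 : (S (m + 1)).relIndex (S m) ≠ 0 := by
      intro h0
      apply hB' m hm
      rw [← Subgroup.relIndex_mul_relIndex B (S (m + 1)) (S m) h1 (hS m).2.le, h0, mul_zero]
    have h3 : (S (m + 1)).relIndex (S m) ≠ 1 := by
      intro h0
      rw [Subgroup.relIndex_eq_one] at h0
      exact (hS m).2.not_ge h0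
    have h4 : 2 ≤ (S (m + 1)).relIndex (S m) := by omega
    have h5 : 0 < B.relIndex (S (m + 1)) := Nat.pos_of_ne_zero (hB' (m + 1) (by omega))
    nlinarith
  have hanti : StrictAnti (fun i => B.relIndex (S (n + i))) := by
    apply strictAnti_nat_of_succ_lt
    intro i
    exact hlt (n + i) (by omega)
  obtain ⟨k, hk⟩ : ∃ k, ∀ m, B.relIndex (S (n + k)) ≤ B.relIndex (S (n + m)) := by
    obtain ⟨k, hk⟩ := (wellFounded_lt (α := ℕ)).has_min
      (Set.range fun i => B.relIndex (S (n + i))) ⟨_, 0, rfl⟩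
    obtain ⟨⟨k, rfl⟩, h2⟩ := hk
    exact ⟨k, fun m => not_lt.1 (h2 _ ⟨m, rfl⟩)⟩
  exact absurd (hk (k + 1)) (not_le.2 (hanti (Nat.lt_succ_self k)))

end

/-- an abelian torsion group with finitely many elements of prime order has the minimal
condition -/
theorem dcc_comm {B : Type*} [CommGroup B] (ht : ∀ b : B, ∃ n : ℕ, 0 < n ∧ b ^ n = 1)
    (hfin : {b : B | ∃ q : ℕ, q.Prime ∧ b ^ q = 1}.Finite) :
    ¬ ∃ S : ℕ → Subgroup B, ∀ i, S (i + 1) < S i := by
  rintro ⟨S, hS⟩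
  have ha : Antitone S := antitone_nat_of_succ_le fun i => (hS i).le
  set N : Subgroup B := ⨅ i, S i with hN
  have hNS : ∀ i, N ≤ S i := fun i => iInf_le _ i
  have hq : ∀ q : ℕ, q.Prime → {y : B ⧸ N | y ^ q = 1}.Finite := fun q hq =>
    (finite_quot_torsion ht hq (hfin.subset fun b hb => ⟨q, hq, hb⟩) N).1
  set P : Set ℕ := orderOf '' {b : B | ∃ q : ℕ, q.Prime ∧ b ^ q = 1} with hP
  have hPf : P.Finite := hfin.image _
  -- an element of prime order `q` in the quotient gives `q ∈ P`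
  have hqP : ∀ (y : B ⧸ N) (q : ℕ), q.Prime → y ^ q = 1 → y ≠ 1 → q ∈ P := by
    intro y q hq hy hy1
    obtain ⟨b, rfl⟩ := QuotientGroup.mk'_surjective N y
    obtain ⟨n, hn, hbn⟩ := ht b
    have hqo : orderOf (QuotientGroup.mk' N b) = q := by
      have := Fact.mk hq
      exact orderOf_eq_prime hy hy1
    have hdvd : q ∣ orderOf b := by
      rw [← hqo]
      exact orderOf_map_dvd _ b
    have hob : 0 < orderOf b := orderOf_pos_iff.2 (isOfFinOrder_iff_pow_eq_one.2 ⟨n, hn, hbn⟩)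
    obtain ⟨c, hc⟩ := hdvd
    have hc0 : c ≠ 0 := by
      rintro rfl
      rw [mul_zero] at hc
      omega
    have h1 : orderOf (b ^ c) = q := by
      rw [orderOf_pow_of_dvd hc0 ⟨q, by rw [hc, mul_comm]⟩, hc]
      exact Nat.mul_div_cancel _ (Nat.pos_of_ne_zero hc0)
    refine ⟨b ^ c, ⟨q, hq, ?_⟩, h1⟩
    rw [← h1, pow_orderOf_eq_one]
  have hT : {y : B ⧸ N | y ≠ 1 ∧ ∃ q : ℕ, q.Prime ∧ y ^ q = 1}.Finite := by
    refine Set.Finite.subset (Set.Finite.biUnion (s := {q | q ∈ P ∧ q.Prime}) (t := fun q => {y : B ⧸ N | y ^ q = 1})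
      (hPf.subset fun q hq => hq.1) (fun q hq' => hq q hq'.2)) ?_
    rintro y ⟨hy1, q, hqp, hy⟩
    simp only [Set.mem_iUnion]
    exact ⟨q, ⟨hqP y q hqp hy hy1, hqp⟩, hy⟩
  -- elements of `T` are eventually outside
  have hout : ∀ y : B ⧸ N, y ≠ 1 → ∃ i, ∀ j, i ≤ j → y ∉ (S j).map (QuotientGroup.mk' N) := by
    intro y hy
    by_contra hcon
    push Not at hcon
    apply hy
    obtain ⟨b, rfl⟩ := QuotientGroup.mk'_surjective N y
    have hbN : b ∈ N := by
      rw [hN, Subgroup.mem_iInf]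
      intro i
      obtain ⟨j, hij, c, hc, hcb⟩ := hcon i
      have h1 : c⁻¹ * b ∈ N := QuotientGroup.eq.1 hcb
      have := mul_mem (ha hij hc) (hNS i h1)
      rwa [mul_inv_cancel_left] at this
    exact (QuotientGroup.eq_one_iff b).2 hbN
  choose! f hf using hout
  obtain ⟨M, hM⟩ := (hT.image f).bddAbove
  have hSM : S M ≤ N := by
    intro b hb
    by_contra hbN
    have hy : QuotientGroup.mk' N b ≠ 1 := fun h => hbN ((QuotientGroup.eq_one_iff b).1 h)
    obtain ⟨n, hn, hbn⟩ := ht b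
    have hon : orderOf (QuotientGroup.mk' N b) ≠ 1 := fun h => hy (orderOf_eq_one_iff.1 h)
    obtain ⟨q, hq, hqd⟩ := Nat.exists_prime_and_dvd hon
    obtain ⟨c, hc⟩ := hqd
    have hopos : 0 < orderOf (QuotientGroup.mk' N b) := orderOf_pos_iff.2
      (isOfFinOrder_iff_pow_eq_one.2 ⟨n, hn, by rw [← map_pow, hbn, map_one]⟩)
    have hc0 : c ≠ 0 := by
      rintro rfl
      rw [mul_zero] at hc
      omega
    have h1 : orderOf ((QuotientGroup.mk' N b) ^ c) = q := by
      rw [orderOf_pow_of_dvd hc0 ⟨q, by rw [hc, mul_comm]⟩, hc]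
      exact Nat.mul_div_cancel _ (Nat.pos_of_ne_zero hc0)
    have h2 : (QuotientGroup.mk' N b) ^ c ≠ 1 := by
      intro h
      rw [h, orderOf_one] at h1
      exact hq.one_lt.ne h1
    have h3 : ((QuotientGroup.mk' N b) ^ c) ^ q = 1 := by
      rw [← h1, pow_orderOf_eq_one]
    have h4 : f ((QuotientGroup.mk' N b) ^ c) ≤ M := hM ⟨_, ⟨h2, q, hq, h3⟩, rfl⟩
    apply hf _ h2 M h4
    exact ⟨b ^ c, pow_mem hb c, map_pow _ _ _⟩
  exact (hS M).not_ge (hSM.trans (hNS (M + 1)))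

section

variable {G : Type*} [Group G]

theorem Cher.minC (hG : LF G) {U : Subgroup G} (h : Cher U) : MinC U := by
  obtain ⟨A, hAU, hn, hi, hc, hd, hf⟩ := h
  refine minC_of_relIndex hi ?_
  rintro ⟨S, hS⟩
  letI : CommGroup A := { (inferInstance : Group A) with
    mul_comm := fun a b => Subtype.ext (hc a a.2 b b.2) }
  refine dcc_comm (B := A) ?_ ?_ ⟨fun i => (S i).subgroupOf A, fun i => ?_⟩
  · intro b
    obtain ⟨n, hn, h1⟩ := hG.torsion (b : G)
    exact ⟨n, hn, Subtype.ext h1⟩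
  · refine Set.Finite.of_finite_image (f := (Subtype.val : A → G)) (hf.subset ?_)
      Subtype.val_injective.injOn
    rintro _ ⟨b, ⟨q, hq, hb⟩, rfl⟩
    exact ⟨b.2, q, hq, by simpa using congrArg (Subtype.val : A → G) hb⟩
  · refine lt_of_le_of_ne (fun s hs => (hS i).2.le hs) fun e => ?_
    apply (hS i).2.ne
    have := congrArg (Subgroup.map A.subtype) e
    rwa [Subgroup.map_subgroupOf_eq_of_le (hS i).1,
      Subgroup.map_subgroupOf_eq_of_le (hS (i + 1)).1] at this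

end

end PMC
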