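import Pool.Agent.PMC.Mn

/-!
[PMC] minimal condition and Chernikov groups: abelian-by-finite groups with the minimal condition
are Chernikov.
-/

set_option autoImplicit false

namespace PMC

open Subgroup

/-- an abelian group with the minimal condition has finitely many elements of prime order -/
theorem finite_socle {B : Type*} [CommGroup B] (hm : ¬ ∃ S : ℕ → Subgroup B, ∀ i, S (i + 1) < S i) :
    {b : B | ∃ q : ℕ, q.Prime ∧ b ^ q = 1}.Finite := by
  by_contra hinf
  obtain ⟨E, hE, -, hmin⟩ := exists_minimal_of_dcc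
    (fun E : Subgroup B => {b : B | b ∈ E ∧ ∃ q : ℕ, q.Prime ∧ b ^ q = 1}.Infinite)
    (by
      rintro ⟨S, hS⟩
      exact hm ⟨S, fun i => (hS i).2⟩)
    (U := ⊤) (by
      have : {b : B | b ∈ (⊤ : Subgroup B) ∧ ∃ q : ℕ, q.Prime ∧ b ^ q = 1} =
          {b : B | ∃ q : ℕ, q.Prime ∧ b ^ q = 1} := by
        ext b
        simp
      rw [this]
      exact hinf)
  obtain ⟨t, ⟨htE, q, hq, htq⟩, ht1⟩ := (hE.sdiff (Set.finite_singleton (1 : B))).nonempty
  have ht1 : t ≠ 1 := ht1
  obtain ⟨K, -, hK⟩ := zorn_le_nonempty₀ {K : Subgroup B | K ≤ E ∧ t ∉ K}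
    (by
      intro c hc hchain K hK
      refine ⟨sSup c, ⟨sSup_le fun L hL => (hc hL).1, ?_⟩, fun L hL => le_sSup hL⟩
      intro ht
      rw [Subgroup.mem_sSup_of_directedOn ⟨K, hK⟩ hchain.directedOn] at ht
      obtain ⟨L, hL, htL⟩ := ht
      exact (hc hL).2 htL)
    ⊥ ⟨bot_le, fun h => ht1 (Subgroup.mem_bot.1 h)⟩
  obtain ⟨⟨hKE, htK⟩, hKmax⟩ := hK
  have key : ∀ y ∈ E, ∀ r : ℕ, r.Prime → y ^ r = 1 → y ∉ K →
      y ^ q = 1 ∧ ∃ j < q, y * t ^ j ∈ K := by
    intro y hyE r hr hyr hyK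
    have h1 : t ∈ K ⊔ Subgroup.zpowers y := by
      by_contra h
      apply hyK
      exact hKmax ⟨sup_le hKE (by rwa [Subgroup.zpowers_le]), h⟩ le_sup_left
        ((le_sup_right : Subgroup.zpowers y ≤ _) (Subgroup.mem_zpowers y))
    obtain ⟨k, hk, z, ⟨i, rfl⟩, hkz⟩ := Subgroup.mem_sup.1 h1
    have hkz : k * y ^ i = t := hkz
    -- `r = q`
    have htr : t ^ r ∈ K := by
      rw [← hkz, mul_pow, ← zpow_natCast (y ^ i), ← zpow_mul, mul_comm i, zpow_mul, zpow_natCast,
        hyr, one_zpow, mul_one]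
      exact pow_mem hk r
    have hrq : r = q := by
      by_contra hne
      have hco : Nat.Coprime r q := (Nat.coprime_primes hr hq).2 hne
      apply htK
      have h2 : t ^ q ∈ K := by rw [htq]; exact one_mem K
      have h3 := Nat.gcd_eq_gcd_ab r q
      rw [hco.gcd_eq_one] at h3
      have h4 : t = (t ^ r) ^ (Nat.gcdA r q) * (t ^ q) ^ (Nat.gcdB r q) := by
        rw [← zpow_natCast, ← zpow_natCast, ← zpow_mul, ← zpow_mul, ← zpow_add, ← h3]
        simp
      rw [h4]
      exact mul_mem (zpow_mem htr _) (zpow_mem h2 _)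
    subst hrq
    refine ⟨hyr, ?_⟩
    -- `i` is prime to `r`
    have hir : ¬ (r : ℤ) ∣ i := by
      rintro ⟨c, rfl⟩
      apply htK
      rw [← hkz, zpow_mul, zpow_natCast, hyr, one_zpow, mul_one]
      exact hk
    have hco : IsCoprime (r : ℤ) i := by
      rw [Int.isCoprime_iff_gcd_eq_one]
      have := (Nat.Prime.coprime_iff_not_dvd hr (n := i.natAbs)).2 (by
        intro h
        exact hir (Int.natCast_dvd.2 h))
      exact this
    obtain ⟨a, b, hab⟩ := hco
    -- `y = (k⁻¹ t) ^ b`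
    have hy : y = (k⁻¹ * t) ^ b := by
      have h5 : k⁻¹ * t = y ^ i := by rw [← hkz, inv_mul_cancel_left]
      rw [h5, ← zpow_mul, mul_comm i b]
      have h6 : b * i = 1 - a * r := by linarith
      rw [h6, zpow_sub, zpow_one, mul_comm a, zpow_mul, zpow_natCast, hyr, one_zpow, inv_one,
        mul_one]
    refine ⟨((-b) % r).toNat, ?_, ?_⟩
    · have h7 : (0 : ℤ) < r := by exact_mod_cast hr.pos
      have h8 := Int.emod_lt_of_pos (-b) h7
      have h9 := Int.emod_nonneg (-b) h7.ne'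
      omega
    · have h7 : (0 : ℤ) < r := by exact_mod_cast hr.pos
      have h9 := Int.emod_nonneg (-b) h7.ne'
      have h10 : t ^ ((-b) % r).toNat = t ^ (-b) := by
        rw [← zpow_natCast, Int.toNat_of_nonneg h9]
        have h11 := Int.emod_add_mul_ediv (-b) r
        conv_rhs => rw [← h11]
        rw [zpow_add, zpow_mul, zpow_natCast t r, htq, one_zpow, mul_one]
      rw [h10, hy, mul_zpow, mul_assoc, ← zpow_add, add_neg_cancel, zpow_zero, mul_one]
      exact zpow_mem (inv_mem hk) _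
  -- the elements of prime order in `K`
  have hKinf : {b : B | b ∈ K ∧ ∃ q : ℕ, q.Prime ∧ b ^ q = 1}.Infinite := by
    intro hfin
    apply hE
    refine Set.Finite.subset (hfin.union (Set.Finite.biUnion (Set.finite_Iio q)
      (t := fun j => {y : B | y ^ q = 1 ∧ y * t ^ j ∈ K}) ?_)) ?_
    · intro j _
      refine Set.Finite.of_finite_image (f := fun y => y * t ^ j) (hfin.subset ?_)
        (fun a _ b _ h => mul_right_cancel h)
      rintro _ ⟨y, ⟨hy1, hy2⟩, rfl⟩
      refine ⟨hy2, q, hq, ?_⟩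
      show (y * t ^ j) ^ q = 1
      rw [mul_pow, hy1, one_mul, ← pow_mul, mul_comm, pow_mul, htq, one_pow]
    · rintro y ⟨hyE, r, hr, hyr⟩
      by_cases hyK : y ∈ K
      · exact Or.inl ⟨hyK, r, hr, hyr⟩
      · right
        obtain ⟨h1, j, hj, h2⟩ := key y hyE r hr hyr hyK
        simp only [Set.mem_iUnion]
        exact ⟨j, hj, h1, h2⟩
  have h12 := hmin K hKinf hKE
  exact htK (h12 ▸ htE)

section

variable {G : Type*} [Group G]

/-- an abelian-by-finite group with the minimal condition is Chernikov -/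
theorem cher_of_minC {A U : Subgroup G} (hAU : A ≤ U)
    (hA : ∀ a ∈ A, ∀ b ∈ A, a * b = b * a) (hi : A.relIndex U ≠ 0) (hm : MinC U) : Cher U := by
  obtain ⟨B, ⟨hBA, hBi⟩, -, hmin⟩ := exists_minimal_of_dcc
    (fun T : Subgroup G => T ≤ A ∧ T.relIndex U ≠ 0)
    (by
      rintro ⟨S, hS⟩
      exact hm ⟨S, fun i => ⟨(hS i).1.1.trans hAU, (hS i).2⟩⟩)
    (U := A) ⟨le_rfl, hi⟩
  have hBU : B ≤ U := hBA.trans hAU
  have hcB : ∀ a ∈ B, ∀ b ∈ B, a * b = b * a := fun a ha b hb => hA a (hBA ha) b (hBA hb)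
  have hconj : ∀ u ∈ U, B ≤ cj u B := by
    intro u hu
    have h1 : cj u U = U := by
      ext g
      rw [mem_cj]
      constructor
      · intro h
        have := U.mul_mem (U.mul_mem hu h) (U.inv_mem hu)
        have e : u * (u⁻¹ * g * u) * u⁻¹ = g := by group
        rwa [e] at this
      · intro h
        exact U.mul_mem (U.mul_mem (U.inv_mem hu) h) hu
    have h2 : (cj u B).relIndex U ≠ 0 := by
      have h3 := AB.relIndex_cj u B U
      rw [h1] at h3
      rw [h3]
      exact hBi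
    have h3 : (B ⊓ cj u B).relIndex U ≠ 0 := Subgroup.relIndex_inf_ne_zero hBi h2
    have h4 := hmin (B ⊓ cj u B) ⟨(inf_le_left : B ⊓ cj u B ≤ B).trans hBA, h3⟩ inf_le_left
    exact h4.ge.trans (inf_le_right : B ⊓ cj u B ≤ cj u B)
  have hN : Nz U B := by
    intro u hu b hb
    have := hconj u⁻¹ (inv_mem hu) hb
    rw [mem_cj, inv_inv] at this
    exact this
  have hno : ∀ K ≤ B, K.relIndex B ≠ 0 → K = B := by
    intro K hK hKi
    refine hmin K ⟨hK.trans hBA, ?_⟩ hK
    rw [← Subgroup.relIndex_mul_relIndex K B U hK hBU]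
    exact mul_ne_zero hKi hBi
  refine ⟨B, hBU, (nz_subgroupOf hBU).2 hN, hBi, hcB, ?_, ?_⟩
  · intro a ha m hm'
    exact AB.div_all hcB hno m hm' a ha
  · let _ : CommGroup B := { (inferInstance : Group B) with
      mul_comm := fun a b => Subtype.ext (hcB a a.2 b b.2) }
    have h1 := finite_socle (B := B) (by
      rintro ⟨S, hS⟩
      apply hm
      refine ⟨fun i => (S i).map B.subtype, fun i => ⟨?_, ?_⟩⟩
      · rintro _ ⟨b, _, rfl⟩
        exact hBU b.2
      · refine lt_of_le_of_ne (Subgroup.map_mono (hS i).le) fun e => (hS i).ne ?_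
        exact Subgroup.map_injective B.subtype_injective e)
    refine (h1.image (Subtype.val : B → G)).subset ?_
    rintro a ⟨ha, q, hq, haq⟩
    exact ⟨⟨a, ha⟩, ⟨q, hq, Subtype.ext haq⟩, rfl⟩

theorem Cher.abel {U : Subgroup G} (h : Cher U) : ∃ A ≤ U, (∀ a ∈ A, ∀ b ∈ A, a * b = b * a) ∧
    A.relIndex U ≠ 0 := by
  obtain ⟨A, hAU, -, hi, hc, -⟩ := h
  exact ⟨A, hAU, hc, hi⟩

theorem Cher.of_le (hG : LF G) {U W : Subgroup G} (h : Cher U) (hW : W ≤ U) : Cher W := by
  obtain ⟨A, hAU, hc, hi⟩ := h.abel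
  refine cher_of_minC (A := A ⊓ W) inf_le_right (fun a ha b hb => hc a ha.1 b hb.1) ?_
    ((h.minC hG).mono hW)
  rw [Subgroup.inf_relIndex_right]
  intro h0
  exact hi (Subgroup.relIndex_eq_zero_of_le_right hW h0)

theorem Cher.map (hG : LF G) {H : Type*} [Group H] (f : G →* H) {U : Subgroup G} (h : Cher U) :
    Cher (U.map f) := by
  obtain ⟨A, hAU, hc, hi⟩ := h.abel
  refine cher_of_minC (A := A.map f) (Subgroup.map_mono hAU) ?_ ?_ ((h.minC hG).map f)
  · rintro _ ⟨a, ha, rfl⟩ _ ⟨b, hb, rfl⟩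
    rw [← map_mul, hc a ha b hb, map_mul]
  · rw [Subgroup.relIndex_map_map, sup_comm A, sup_comm U]
    exact C2.relIndex_sup (nz_of_normal f.normal_ker) hi

/-- an infinite simple group is not Chernikov -/
theorem not_cher_simple (hG : LF G) [Infinite G]
    (hs : ∀ N : Subgroup G, N.Normal → N = ⊥ ∨ N = ⊤) : ¬ Cher (⊤ : Subgroup G) := by
  rintro ⟨A, -, hn, hi, hc, hd, hf⟩
  have hAn : A.Normal := by
    have := (nz_subgroupOf (le_top : A ≤ ⊤)).1 hn
    exact ⟨fun n hn g => this g (Subgroup.mem_top g) n hn⟩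
  rcases hs A hAn with h | h
  · rw [h, Subgroup.relIndex_bot_left] at hi
    apply hi
    rw [Subgroup.card_top]
    exact Nat.card_eq_zero_of_infinite
  · subst h
    have hcc : ∀ a b : G, a * b = b * a := fun a b => hc a (Subgroup.mem_top a) b (Subgroup.mem_top b)
    obtain ⟨g, hg⟩ := exists_ne (1 : G)
    have hz : Subgroup.zpowers g = ⊤ := by
      rcases hs (Subgroup.zpowers g) ⟨fun n hn x => by rw [hcc x n, mul_inv_cancel_right]; exact hn⟩
        with h | h
      · exact absurd (Subgroup.zpowers_eq_bot.1 h) hg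
      · exact h
    have hfin : (Subgroup.zpowers g : Set G).Finite := by
      have := hG {g} (Set.finite_singleton g)
      rwa [← Subgroup.zpowers_eq_closure] at this
    rw [hz] at hfin
    exact Set.infinite_univ hfin

end

end PMC
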