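import Pool.Agent.PMC.LibQ

/-!
[PMC] row AB: the commutative case.
-/

set_option autoImplicit false

namespace PMC.AB

open PMC Subgroup

section

variable {G : Type*} [Group G] {p : ℕ} {V X U : Subgroup G} {x : G}

theorem facts (h : Cfg p V X x) : Finite X ∧ IsPGroup p X := by
  obtain ⟨k, hk⟩ := h.xp
  have := zpowers_facts h.prime hk
  rw [h.gen]
  exact this

theorem perf_of_inv (h : Cfg p V X x) (hU : U ≤ V) (hc : ∀ a ∈ U, ∀ b ∈ U, a * b = b * a)
    (hperf : ⁅U, X⁆ = U) {B : Subgroup G} (hBU : B ≤ U) (hB : Nz X B) : ⁅B, X⁆ = B := by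
  obtain ⟨hX, hXp⟩ := facts h
  refine le_antisymm (comm_le_left hB) fun b hb => ?_
  have hppB : PP p B := fun u hu => h.pp u (hU (hBU hu))
  have hppU : PP p U := fun u hu => h.pp u (hU hu)
  obtain ⟨c, hcB, hcX, n, hn, hbn⟩ := coprime_decomp h.prime h.lf hppB hX hXp hB hb
  have hc1 : c = 1 := fix_trivial h.prime hppU hX hXp hc hperf (hBU hcB) hcX
  rw [hbn, hc1, one_mul]
  exact hn

theorem exists_min (h : Cfg p V X x) (hU : U ≤ V) (hc : ∀ a ∈ U, ∀ b ∈ U, a * b = b * a)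
    (hperf : ⁅U, X⁆ = U) {B : Subgroup G} (hBU : B ≤ U) (hB : Nz X B) :
    ∃ A ≤ B, Nz X A ∧ A.relIndex B ≠ 0 ∧ ∀ A' ≤ A, Nz X A' → A'.relIndex B ≠ 0 → A' = A := by
  have hwf : WellFounded (fun a b : {A : Subgroup G // A ≤ U ∧ Nz X A} => a.1 < b.1) := by
    rw [wellFounded_iff_isEmpty_descending_chain]
    refine ⟨fun f => h.dcc ⟨fun i => (f.1 i).1, fun i => ⟨(f.1 i).2.1.trans hU, ?_, f.2 i⟩⟩⟩
    exact perf_of_inv h hU hc hperf (f.1 i).2.1 (f.1 i).2.2
  obtain ⟨A, hAS, hmin⟩ := hwf.has_min {A | A.1 ≤ B ∧ A.1.relIndex B ≠ 0}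
    ⟨⟨B, hBU, hB⟩, le_rfl, by rw [Subgroup.relIndex_self]; exact one_ne_zero⟩
  refine ⟨A.1, hAS.1, A.2.2, hAS.2, fun A' hA' hN hi => ?_⟩
  by_contra hne
  exact hmin ⟨A', hA'.trans (hAS.1.trans hBU), hN⟩ ⟨hA'.trans hAS.1, hi⟩
    (lt_of_le_of_ne hA' hne)

theorem relIndex_cj (g : G) (K L : Subgroup G) : (cj g K).relIndex (cj g L) = K.relIndex L :=
  Subgroup.relIndex_map_map_of_injective K L (MulAut.conj g).injective

theorem no_fi (hX : Finite X) {A B : Subgroup G} (hAB : A ≤ B) (hA : Nz X A)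
    (hi : A.relIndex B ≠ 0)
    (hmin : ∀ A' ≤ A, Nz X A' → A'.relIndex B ≠ 0 → A' = A) :
    ∀ K ≤ A, K.relIndex A ≠ 0 → K = A := by
  intro K hK hKi
  have hle : (⨅ y : X, cj (y : G) K) ≤ K := by
    have := iInf_le (fun y : X => cj (y : G) K) 1
    simpa [cj_one] using this
  have hNz : Nz X (⨅ y : X, cj (y : G) K) := by
    intro y hy u hu
    rw [Subgroup.mem_iInf] at hu ⊢
    intro z
    have h1 := hu ⟨y⁻¹ * z, mul_mem (inv_mem hy) z.2⟩
    rw [mem_cj] at h1 ⊢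
    have e : (z : G)⁻¹ * (y * u * y⁻¹) * z = (y⁻¹ * z)⁻¹ * u * (y⁻¹ * z) := by group
    rw [e]
    exact h1
  have hri : (⨅ y : X, cj (y : G) K).relIndex A ≠ 0 := by
    refine Subgroup.relIndex_iInf_ne_zero fun y => ?_
    have h1 : cj (y : G) A = A := nz_iff_cj.1 hA y y.2
    rw [← h1, relIndex_cj]
    exact hKi
  have hri2 : (⨅ y : X, cj (y : G) K).relIndex B ≠ 0 := by
    rw [← Subgroup.relIndex_mul_relIndex _ _ _ (hle.trans hK) hAB]
    exact mul_ne_zero hri hi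
  have h2 := hmin _ (hle.trans hK) hNz hri2
  exact le_antisymm hK (by rw [← h2]; exact hle)

theorem exists_dual {K W : Type*} [Field K] [AddCommGroup W] [Module K W] {v : W} (hv : v ≠ 0) :
    ∃ f : W →+ K, f v ≠ 0 := by
  have h1 : ¬ ∀ f : Module.Dual K W, f v = 0 := fun h =>
    hv ((Module.forall_dual_apply_eq_zero_iff K _).1 h)
  rw [not_forall] at h1
  obtain ⟨f, hf⟩ := h1
  exact ⟨f.toAddMonoidHom, hf⟩

theorem exists_char {Q : Type*} [CommGroup Q] {q : ℕ} (hq : q.Prime) (hz : ∀ y : Q, y ^ q = 1)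
    {v : Q} (hv : v ≠ 1) : ∃ g : Q →* Multiplicative (ZMod q), g v ≠ 1 := by
  have hF := Fact.mk hq
  have hz' : ∀ y : Additive Q, q • y = 0 := fun y => hz y.toMul
  obtain ⟨f, hf⟩ := @exists_dual (ZMod q) (Additive Q) (ZMod.instField q) inferInstance
    (AddCommGroup.zmodModule hz') (Additive.ofMul v) hv
  refine ⟨{ toFun := fun b => Multiplicative.ofAdd (f (Additive.ofMul b))
            map_one' := by rw [ofMul_one, map_zero, ofAdd_zero]
            map_mul' := fun b c => by rw [ofMul_mul, map_add, ofAdd_add] }, fun h => hf h⟩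

theorem div_prime {A : Subgroup G} (hc : ∀ a ∈ A, ∀ b ∈ A, a * b = b * a)
    (hno : ∀ K ≤ A, K.relIndex A ≠ 0 → K = A) {q : ℕ} (hq : q.Prime) :
    ∀ a ∈ A, ∃ b ∈ A, b ^ q = a := by
  classical
  have := Fact.mk hq
  let _ : CommGroup A :=
    { (inferInstance : Group A) with mul_comm := fun a b => Subtype.ext (hc a a.2 b b.2) }
  intro a ha
  obtain ⟨N, hN⟩ : ∃ N : Subgroup A, N = (powMonoidHom q : A →* A).range := ⟨_, rfl⟩
  by_cases haN : (⟨a, ha⟩ : A) ∈ N
  · rw [hN] at haN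
    obtain ⟨b, hb⟩ := haN
    refine ⟨b, b.2, ?_⟩
    have := congrArg Subtype.val hb
    simpa using this
  exfalso
  have hz : ∀ y : A ⧸ N, y ^ q = 1 := by
    intro y
    obtain ⟨b, rfl⟩ := QuotientGroup.mk_surjective y
    rw [← QuotientGroup.mk_pow, QuotientGroup.eq_one_iff, hN]
    exact ⟨b, rfl⟩
  have hv : (((⟨a, ha⟩ : A)) : A ⧸ N) ≠ 1 := by
    rw [Ne, QuotientGroup.eq_one_iff]
    exact haN
  obtain ⟨f, hf⟩ := exists_char hq hz hv
  let g : A →* Multiplicative (ZMod q) := f.comp (QuotientGroup.mk' N)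
  have hKA : (g.ker.map A.subtype) ≤ A := by
    rintro _ ⟨b, _, rfl⟩
    exact b.2
  have hidx : (g.ker.map A.subtype).relIndex A ≠ 0 := by
    rw [Subgroup.relIndex]
    have h1 : (g.ker.map A.subtype).subgroupOf A = g.ker :=
      Subgroup.comap_map_eq_self_of_injective A.subtype_injective _
    rw [h1, Subgroup.index_ker]
    exact Nat.card_pos.ne'
  have h2 := hno _ hKA hidx
  have h3 : a ∈ g.ker.map A.subtype := by rw [h2]; exact ha
  obtain ⟨b, hb, hba⟩ := h3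
  have h4 : b = ⟨a, ha⟩ := Subtype.ext hba
  rw [h4] at hb
  have h5 : g ⟨a, ha⟩ = 1 := hb
  exact hf h5

theorem div_all {A : Subgroup G} (hc : ∀ a ∈ A, ∀ b ∈ A, a * b = b * a)
    (hno : ∀ K ≤ A, K.relIndex A ≠ 0 → K = A) (m : ℕ) :
    0 < m → ∀ a ∈ A, ∃ b ∈ A, b ^ m = a := by
  induction m using induction_on_primes with
  | zero => intro h; exact absurd h (lt_irrefl 0)
  | one => intro _ a ha; exact ⟨a, ha, pow_one a⟩
  | prime_mul q m hq ih =>
    intro hm a ha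
    obtain ⟨b, hb, hba⟩ := div_prime hc hno hq a ha
    obtain ⟨c, hcA, hcb⟩ := ih (Nat.pos_of_mul_pos_left hm) b hb
    refine ⟨c, hcA, ?_⟩
    rw [mul_comm, pow_mul, hcb, hba]

/-- elements of the subgroup generated by elements of prime order -/
theorem omega_exp {S : Set G} (hS : ∀ u ∈ S, ∃ r : ℕ, r.Prime ∧ u ^ r = 1)
    (hcomm : ∀ a ∈ Subgroup.closure S, ∀ b ∈ Subgroup.closure S, a * b = b * a)
    {q : ℕ} (hq : q.Prime) :
    ∀ b ∈ Subgroup.closure S, ∃ m : ℕ, m.Coprime q ∧ (b ^ q) ^ m = 1 := by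
  intro b hb
  refine Subgroup.closure_induction (p := fun b _ => ∃ m : ℕ, m.Coprime q ∧ (b ^ q) ^ m = 1)
    ?_ ?_ ?_ ?_ hb
  · intro u hu
    obtain ⟨r, hr, hur⟩ := hS u hu
    by_cases hrq : r = q
    · refine ⟨1, Nat.coprime_one_left q, ?_⟩
      rw [pow_one, ← hrq, hur]
    · refine ⟨r, (Nat.coprime_primes hr hq).2 hrq, ?_⟩
      rw [← pow_mul, mul_comm, pow_mul, hur, one_pow]
  · exact ⟨1, Nat.coprime_one_left q, by simp⟩
  · rintro a b ha hb ⟨m, hm, ham⟩ ⟨n, hn, hbn⟩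
    refine ⟨m * n, Nat.Coprime.mul_left hm hn, ?_⟩
    have hab : Commute a b := hcomm a ha b hb
    rw [hab.mul_pow, (hab.pow_pow q q).mul_pow, pow_mul, ham, one_pow, one_mul, mul_comm m n,
      pow_mul, hbn, one_pow]
  · rintro a _ ⟨m, hm, ham⟩
    exact ⟨m, hm, by rw [inv_pow, inv_pow, ham, inv_one]⟩

theorem cher_of_comm (h : Cfg p V X x) {U : Subgroup G} (hU : U ≤ V)
    (hc : ∀ a ∈ U, ∀ b ∈ U, a * b = b * a) (hperf : ⁅U, X⁆ = U) : Cher U := by
  obtain ⟨hX, hXp⟩ := facts h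
  have hUX : Nz X U := nz_of_perf hperf
  -- the elements of prime order
  obtain ⟨S, hSdef⟩ : ∃ S : Set G, S = {a : G | a ∈ U ∧ ∃ q : ℕ, q.Prime ∧ a ^ q = 1} := ⟨_, rfl⟩
  have hSU : Subgroup.closure S ≤ U := by
    rw [Subgroup.closure_le, hSdef]
    exact fun a ha => ha.1
  have hSX : Nz X (Subgroup.closure S) := by
    intro y hy u hu
    refine Subgroup.closure_induction (p := fun u _ => y * u * y⁻¹ ∈ Subgroup.closure S)
      ?_ ?_ ?_ ?_ hu
    · intro a ha
      apply Subgroup.subset_closure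
      rw [hSdef] at ha ⊢
      obtain ⟨haU, q, hq, haq⟩ := ha
      refine ⟨hUX y hy a haU, q, hq, ?_⟩
      rw [conj_pow, haq]
      simp
    · simp
    · intro a b _ _ ha hb
      have e : y * (a * b) * y⁻¹ = (y * a * y⁻¹) * (y * b * y⁻¹) := by group
      rw [e]
      exact mul_mem ha hb
    · intro a _ ha
      have e : y * a⁻¹ * y⁻¹ = (y * a * y⁻¹)⁻¹ := by group
      rw [e]
      exact inv_mem ha
  have hSc : ∀ a ∈ Subgroup.closure S, ∀ b ∈ Subgroup.closure S, a * b = b * a :=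
    fun a ha b hb => hc a (hSU ha) b (hSU hb)
  have hfinS : S.Finite := by
    obtain ⟨A, hAB, hA, hi, hmin⟩ := exists_min h hU hc hperf hSU hSX
    have hno := no_fi hX hAB hA hi hmin
    have hAc : ∀ a ∈ A, ∀ b ∈ A, a * b = b * a := fun a ha b hb => hSc a (hAB ha) b (hAB hb)
    have hprime : ∀ q : ℕ, q.Prime → ∀ a ∈ A, a ^ q = 1 → a = 1 := by
      intro q hq a ha haq
      obtain ⟨b, hb, hba⟩ := div_all hAc hno q hq.pos a ha
      obtain ⟨m, hm, hbm⟩ := omega_exp (S := S) (by rw [hSdef]; exact fun u hu => hu.2) hSc hq b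
        (hAB hb)
      rw [hba] at hbm
      have h1 : orderOf a ∣ Nat.gcd m q :=
        Nat.dvd_gcd (orderOf_dvd_of_pow_eq_one hbm) (orderOf_dvd_of_pow_eq_one haq)
      rw [hm, Nat.dvd_one, orderOf_eq_one_iff] at h1
      exact h1
    have hbot : A = ⊥ := by
      rw [Subgroup.eq_bot_iff_forall]
      intro a ha
      by_contra hne
      obtain ⟨n, hn, han⟩ := LF.torsion h.lf a
      have ho : orderOf a ≠ 1 := fun h1 => hne (orderOf_eq_one_iff.1 h1)
      obtain ⟨q, hq, hqd⟩ := Nat.exists_prime_and_dvd ho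
      have hpos : 0 < orderOf a := orderOf_pos_iff.2 (isOfFinOrder_iff_pow_eq_one.2 ⟨n, hn, han⟩)
      obtain ⟨k, hk⟩ := hqd
      have h2 : a ^ k = 1 := by
        refine hprime q hq _ (pow_mem ha k) ?_
        rw [← pow_mul, mul_comm, ← hk, pow_orderOf_eq_one]
      have h3 := Nat.le_of_dvd ?_ (orderOf_dvd_of_pow_eq_one h2)
      · have h4 := hq.two_le
        have hk0 : 0 < k := by
          rcases Nat.eq_zero_or_pos k with h0 | h0
          · rw [h0, mul_zero] at hk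
            omega
          · exact h0
        nlinarith
      · rcases Nat.eq_zero_or_pos k with h0 | h0
        · rw [h0, mul_zero] at hk
          omega
        · exact h0
    rw [hbot, Subgroup.relIndex_bot_left] at hi
    have hfin : Finite (Subgroup.closure S) := Nat.finite_of_card_ne_zero hi
    exact Set.Finite.subset (Set.toFinite (Subgroup.closure S : Set G)) Subgroup.subset_closure
  obtain ⟨A, hAB, hA, hi, hmin⟩ := exists_min h hU hc hperf le_rfl hUX
  have hno := no_fi hX hAB hA hi hmin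
  have hAc : ∀ a ∈ A, ∀ b ∈ A, a * b = b * a := fun a ha b hb => hc a (hAB ha) b (hAB hb)
  refine ⟨A, hAB, ?_, hi, hAc, fun a ha m hm => div_all hAc hno m hm a ha, ?_⟩
  · rw [nz_subgroupOf hAB]
    intro y hy u hu
    rw [hc y hy u (hAB hu), mul_inv_cancel_right]
    exact hu
  · refine hfinS.subset ?_
    rw [hSdef]
    exact fun a ha => ⟨hAB ha.1, ha.2⟩

end

end PMC.AB
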