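import Pool.Agent.PMC.LibN

/-!
[PMC] row C1: easy facts about Chernikov groups.
-/

set_option autoImplicit false

namespace PMC.C1

open Subgroup PMC

section

variable {G : Type*} [Group G]

/-- [C1] a divisible commutative group is contained in every subgroup meeting it in finite index -/
theorem divisible_le {A B : Subgroup G} (hA : ∀ a ∈ A, ∀ b ∈ A, a * b = b * a)
    (hd : ∀ a ∈ A, ∀ m : ℕ, 0 < m → ∃ b ∈ A, b ^ m = a) (h : B.relIndex A ≠ 0) : A ≤ B := by
  intro a ha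
  obtain ⟨b, hb, rfl⟩ := hd a ha (B.relIndex A) (Nat.pos_of_ne_zero h)
  have hn : (B.subgroupOf A).Normal := by
    refine ⟨fun n hn g => ?_⟩
    have e : g * n * g⁻¹ = n := by
      apply Subtype.ext
      push_cast
      rw [hA g g.2 n n.2]
      group
    rw [e]
    exact hn
  have := (B.subgroupOf A).pow_index_mem ⟨b, hb⟩
  exact this

theorem relIndex_ne_zero_of_le {B A U : Subgroup G} (hAU : A ≤ U) (h : B.relIndex U ≠ 0) :
    B.relIndex A ≠ 0 := fun h0 => h (relIndex_eq_zero_of_le_right hAU h0)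

/-- [C1] uniqueness of the divisible part (`divisible_le` twice) -/
theorem CherW.unique {A B U : Subgroup G} (hA : CherW A U) (hB : CherW B U) : A = B := by
  refine le_antisymm ?_ ?_
  · exact divisible_le hA.2.2.2.1 hA.2.2.2.2.1 (relIndex_ne_zero_of_le hA.1 hB.2.2.1)
  · exact divisible_le hB.2.2.2.1 hB.2.2.2.2.1 (relIndex_ne_zero_of_le hB.1 hA.2.2.1)

theorem cherW_map {H : Type*} [Group H] (f : H →* G) (hf : Function.Injective f)
    {A U : Subgroup H} (h : CherW A U) : CherW (A.map f) (U.map f) := by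
  obtain ⟨h1, h2, h3, h4, h5, h6⟩ := h
  refine ⟨Subgroup.map_mono h1, ?_, ?_, ?_, ?_, ?_⟩
  · rw [nz_subgroupOf (Subgroup.map_mono h1)]
    rw [nz_subgroupOf h1] at h2
    rintro _ ⟨y, hy, rfl⟩ _ ⟨u, hu, rfl⟩
    exact ⟨y * u * y⁻¹, h2 y hy u hu, by simp⟩
  · rw [relIndex_map_map_of_injective _ _ hf]
    exact h3
  · rintro _ ⟨a, ha, rfl⟩ _ ⟨b, hb, rfl⟩
    rw [← map_mul, ← map_mul, h4 a ha b hb]
  · rintro _ ⟨a, ha, rfl⟩ m hm
    obtain ⟨b, hb, e⟩ := h5 a ha m hm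
    exact ⟨f b, ⟨b, hb, rfl⟩, by rw [← map_pow, e]⟩
  · refine (h6.image f).subset ?_
    rintro _ ⟨⟨a, ha, rfl⟩, q, hq, e⟩
    refine ⟨a, ⟨ha, q, hq, ?_⟩, rfl⟩
    apply hf
    rw [map_pow, map_one]
    exact e

theorem cherW_of_map {H : Type*} [Group H] (f : H →* G) (hf : Function.Injective f)
    {A U : Subgroup H} (h : CherW (A.map f) (U.map f)) : CherW A U := by
  obtain ⟨h1, h2, h3, h4, h5, h6⟩ := h
  have h1' : A ≤ U := (Subgroup.map_le_map_iff_of_injective hf).1 h1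
  refine ⟨h1', ?_, ?_, ?_, ?_, ?_⟩
  · rw [nz_subgroupOf h1']
    rw [nz_subgroupOf h1] at h2
    intro y hy u hu
    obtain ⟨w, hw, e⟩ := h2 (f y) ⟨y, hy, rfl⟩ (f u) ⟨u, hu, rfl⟩
    have : w = y * u * y⁻¹ := hf (by rw [e]; simp)
    rw [← this]
    exact hw
  · rwa [relIndex_map_map_of_injective _ _ hf] at h3
  · intro a ha b hb
    apply hf
    rw [map_mul, map_mul]
    exact h4 _ ⟨a, ha, rfl⟩ _ ⟨b, hb, rfl⟩
  · intro a ha m hm
    obtain ⟨_, ⟨b, hb, rfl⟩, e⟩ := h5 (f a) ⟨a, ha, rfl⟩ m hm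
    exact ⟨b, hb, hf (by rw [map_pow, e])⟩
  · refine Set.Finite.of_finite_image (h6.subset ?_) hf.injOn
    rintro _ ⟨a, ⟨ha, q, hq, e⟩, rfl⟩
    exact ⟨⟨a, ha, rfl⟩, q, hq, by rw [← map_pow, e, map_one]⟩

/-- [C1] -/
theorem CherW.cj {A U : Subgroup G} (h : CherW A U) (g : G) : CherW (PMC.cj g A) (PMC.cj g U) :=
  cherW_map _ (MulAut.conj g).injective h

/-- [C1] whoever normalises `U` normalises the divisible part (`CherW.cj`, `CherW.unique`, `nz_iff_cj`) -/
theorem CherW.nz {A U X : Subgroup G} (h : CherW A U) (hX : Nz X U) : Nz X A := by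
  rw [nz_iff_cj] at *
  intro y hy
  have h1 := CherW.cj h y
  rw [hX y hy] at h1
  exact CherW.unique h1 h

/-- [C1] a divisible commutative subgroup of `U` lies in the divisible part of `U` -/
theorem CherW.le_of_divisible {A B U : Subgroup G} (h : CherW A U) (hBU : B ≤ U)
    (hB : ∀ a ∈ B, ∀ b ∈ B, a * b = b * a)
    (hd : ∀ a ∈ B, ∀ m : ℕ, 0 < m → ∃ b ∈ B, b ^ m = a) : B ≤ A :=
  divisible_le hB hd (relIndex_ne_zero_of_le hBU h.2.2.1)

/-- [C1] a normal Chernikov subgroup of finite index (the divisible part `A` of `K` is normal in `U` by `CherW.nz`) -/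
theorem Cher.of_relIndex {K U : Subgroup G} (hKU : K ≤ U) (hN : Nz U K) (hi : K.relIndex U ≠ 0)
    (h : Cher K) : Cher U := by
  obtain ⟨A, hA⟩ := h
  have h1 : Nz U A := CherW.nz hA hN
  obtain ⟨h2, _, h4, h5, h6, h7⟩ := hA
  refine ⟨A, h2.trans hKU, (nz_subgroupOf (h2.trans hKU)).2 h1, ?_, h5, h6, h7⟩
  rw [← relIndex_mul_relIndex A K U h2 hKU]
  exact mul_ne_zero h4 hi

/-- [C1] finite subgroups are Chernikov -/
theorem Cher.of_finite {U : Subgroup G} (h : Finite U) : Cher U := by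
  refine ⟨⊥, bot_le, ?_, ?_, ?_, ?_, ?_⟩
  · rw [nz_subgroupOf bot_le]
    intro y _ u hu
    rw [Subgroup.mem_bot] at *
    rw [hu]
    simp
  · rw [relIndex_bot_left]
    exact Nat.card_ne_zero.2 ⟨⟨1⟩, h⟩
  · intro a ha b hb
    rw [Subgroup.mem_bot] at *
    rw [ha, hb]
  · intro a ha m _
    rw [Subgroup.mem_bot] at ha
    exact ⟨1, one_mem _, by rw [one_pow, ha]⟩
  · refine (Set.finite_singleton (1 : G)).subset ?_
    rintro a ⟨ha, _⟩
    exact Subgroup.mem_bot.1 ha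

/-- [C1] transfer along an injective homomorphism -/
theorem cher_map_iff {H : Type*} [Group H] (f : H →* G) (hf : Function.Injective f)
    {U : Subgroup H} : Cher (U.map f) ↔ Cher U := by
  constructor
  · rintro ⟨A, hA⟩
    have e : (A.comap f).map f = A := by
      rw [Subgroup.map_comap_eq, inf_eq_right]
      refine hA.1.trans ?_
      rintro _ ⟨u, _, rfl⟩
      exact ⟨u, rfl⟩
    refine ⟨A.comap f, cherW_of_map f hf ?_⟩
    rw [e]
    exact hA
  · rintro ⟨A, hA⟩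
    exact ⟨A.map f, cherW_map f hf hA⟩

theorem finite_torsion_div {A : Subgroup G} (hc : ∀ a ∈ A, ∀ b ∈ A, a * b = b * a)
    (hf : {a : G | a ∈ A ∧ ∃ q : ℕ, q.Prime ∧ a ^ q = 1}.Finite) (n : ℕ) (hn : 0 < n) :
    {u : G | u ∈ A ∧ u ^ n = 1}.Finite := by
  induction n using Nat.recOnMul with
  | zero => omega
  | one =>
    refine (Set.finite_singleton (1 : G)).subset ?_
    rintro a ⟨_, h⟩
    simpa using h
  | prime p hp =>
    exact hf.subset fun a ha => ⟨ha.1, p, hp, ha.2⟩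
  | mul a b iha ihb =>
    have ha : 0 < a := Nat.pos_of_mul_pos_right hn
    have hb : 0 < b := Nat.pos_of_mul_pos_left hn
    refine Set.Finite.of_finite_fibers (fun u => u ^ a) ((ihb hb).subset ?_) ?_
    · rintro _ ⟨u, ⟨hu, h1⟩, rfl⟩
      exact ⟨pow_mem hu a, by rw [← pow_mul]; exact h1⟩
    · rintro _ ⟨u₀, ⟨hu₀, h₀⟩, rfl⟩
      refine ((iha ha).image (fun v => u₀ * v)).subset ?_
      rintro u ⟨⟨hu, _⟩, h2⟩
      refine ⟨u₀⁻¹ * u, ⟨mul_mem (inv_mem hu₀) hu, ?_⟩, by group⟩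
      have hcm : Commute u₀⁻¹ u := by
        have : Commute u₀ u := hc _ hu₀ _ hu
        exact this.inv_left
      rw [hcm.mul_pow, inv_pow]
      have h3 : u ^ a = u₀ ^ a := h2
      rw [h3]
      group

/-- [C1] for a commutative Chernikov group the `n`-torsion is finite (`{a ∈ A | a ^ n = 1}` by induction on `n` via prime
factors; then finitely many cosets) -/
theorem Cher.finite_torsion {U : Subgroup G} (h : Cher U) (hc : ∀ a ∈ U, ∀ b ∈ U, a * b = b * a)
    {n : ℕ} (hn : 0 < n) : {u : G | u ∈ U ∧ u ^ n = 1}.Finite := by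
  obtain ⟨A, h1, h2, h3, h4, h5, h6⟩ := h
  have hA := finite_torsion_div h4 h6 n hn
  have : Finite (U ⧸ A.subgroupOf U) := by
    refine Nat.finite_of_card_ne_zero ?_
    exact h3
  have hfin : {u : U | (u : G) ^ n = 1}.Finite := by
    refine Set.Finite.of_finite_fibers (fun u : U => (QuotientGroup.mk u : U ⧸ A.subgroupOf U))
      (Set.toFinite _) ?_
    rintro _ ⟨u₀, h₀, rfl⟩
    have hinj : Set.InjOn (Subtype.val : U → G)
        ({u : U | (u : G) ^ n = 1} ∩ (fun u : U => (QuotientGroup.mk u : U ⧸ A.subgroupOf U)) ⁻¹'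
          {(QuotientGroup.mk u₀ : U ⧸ A.subgroupOf U)}) := Subtype.val_injective.injOn
    refine Set.Finite.of_finite_image ((hA.image (fun v => (u₀ : G) * v)).subset ?_) hinj
    rintro _ ⟨u, ⟨hu, h7⟩, rfl⟩
    have h8 : u₀⁻¹ * u ∈ A.subgroupOf U := QuotientGroup.eq.1 (Eq.symm h7)
    have h8' : (u₀ : G)⁻¹ * u ∈ A := h8
    refine ⟨(u₀ : G)⁻¹ * u, ⟨h8', ?_⟩, by group⟩
    have hcm : Commute (u₀ : G)⁻¹ (u : G) := by
      have : Commute (u₀ : G) (u : G) := hc _ u₀.2 _ u.2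
      exact this.inv_left
    have h9 : (u : G) ^ n = 1 := hu
    have h10 : (u₀ : G) ^ n = 1 := h₀
    rw [hcm.mul_pow, inv_pow, h9, h10]
    group
  refine (hfin.image (Subtype.val : U → G)).subset ?_
  rintro u ⟨hu, h7⟩
  exact ⟨⟨u, hu⟩, h7, rfl⟩

end

end PMC.C1
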