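import Pool.Agent.PMC.LibC1

/-! # [PMC] row C2: products of Chernikov groups -/

set_option autoImplicit false

namespace PMC.C2

open Subgroup

/-- [C2] rank does not grow in quotients. -/
theorem finite_quot_torsion {B : Type*} [CommGroup B] (ht : ∀ b : B, ∃ n : ℕ, 0 < n ∧ b ^ n = 1)
    {q : ℕ} (hq : q.Prime) (hfin : {b : B | b ^ q = 1}.Finite) (N : Subgroup B) :
    {b : B ⧸ N | b ^ q = 1}.Finite ∧ {b : B ⧸ N | b ^ q = 1}.ncard ≤ {b : B | b ^ q = 1}.ncard := by
  classical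
  have key : ∀ F : Finset (B ⧸ N), (∀ x ∈ F, x ^ q = 1) → F.card ≤ {b : B | b ^ q = 1}.ncard := by
    intro F hF
    choose l hl using (QuotientGroup.mk'_surjective N : Function.Surjective (QuotientGroup.mk' N))
    let S : Subgroup B := Subgroup.closure ((F.image l : Finset B) : Set B)
    have hSfg : Group.FG S := by
      rw [Group.fg_iff_subgroup_fg]
      exact ⟨F.image l, rfl⟩
    have hStor : Monoid.IsTorsion S := by
      intro s
      obtain ⟨n, hn, h⟩ := ht s
      rw [isOfFinOrder_iff_pow_eq_one]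
      refine ⟨n, hn, ?_⟩
      ext
      simpa using h
    have hSf : Finite S := CommGroup.finite_of_fg_torsion S hStor
    let π : S →* B ⧸ N := (QuotientGroup.mk' N).comp S.subtype
    have hexp : ∀ s : S, π s ^ q = 1 := by
      rintro ⟨s, hs⟩
      show ((QuotientGroup.mk' N) s) ^ q = 1
      refine Subgroup.closure_induction (p := fun s _ => ((QuotientGroup.mk' N) s) ^ q = 1)
        ?_ ?_ ?_ ?_ hs
      · intro x hx
        rw [Finset.mem_coe, Finset.mem_image] at hx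
        obtain ⟨y, hy, rfl⟩ := hx
        rw [hl]
        exact hF y hy
      · simp
      · intro x y _ _ hx hy
        rw [map_mul, mul_pow, hx, hy, one_mul]
      · intro x _ hx
        rw [map_inv, inv_pow, hx, inv_one]
    let f : S →* S := powMonoidHom q
    have hle : f.range ≤ π.ker := by
      rintro _ ⟨s, rfl⟩
      rw [MonoidHom.mem_ker]
      show π (s ^ q) = 1
      rw [map_pow, hexp]
    have h1 : Nat.card f.ker * f.ker.index = Nat.card S := Subgroup.card_mul_index _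
    have h2 : Nat.card f.range * f.range.index = Nat.card S := Subgroup.card_mul_index _
    rw [Subgroup.index_ker] at h1
    have h3 : Nat.card f.ker = f.range.index := by
      have hpos : 0 < Nat.card f.range := Nat.card_pos
      apply Nat.eq_of_mul_eq_mul_left hpos
      rw [h2, ← h1, mul_comm]
    have h4 : Nat.card π.range ≤ f.range.index := by
      rw [← Subgroup.index_ker]
      exact Nat.le_of_dvd (Nat.pos_of_ne_zero Subgroup.index_ne_zero_of_finite)
        (Subgroup.index_dvd_of_le hle)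
    have h5 : F.card ≤ Nat.card π.range := by
      have hsub : (F : Set (B ⧸ N)) ⊆ (π.range : Set (B ⧸ N)) := by
        intro x hx
        refine ⟨⟨l x, Subgroup.subset_closure (Finset.mem_coe.2 (Finset.mem_image_of_mem l hx))⟩, ?_⟩
        exact hl x
      have hfr : (π.range : Set (B ⧸ N)).Finite := Set.finite_range π
      have := Set.ncard_le_ncard hsub hfr
      rw [Set.ncard_coe_finset] at this
      exact this
    have h6 : Nat.card f.ker ≤ {b : B | b ^ q = 1}.ncard := by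
      have : Nat.card f.ker = ((fun x : f.ker => ((x : S) : B)) '' Set.univ).ncard := by
        rw [Set.ncard_image_of_injective _ (fun x y h => Subtype.ext (Subtype.ext h)),
          Set.ncard_univ]
      rw [this]
      refine Set.ncard_le_ncard ?_ hfin
      rintro _ ⟨⟨x, hx⟩, -, rfl⟩
      rw [MonoidHom.mem_ker] at hx
      have h7 : x ^ q = 1 := hx
      show ((x : S) : B) ^ q = 1
      rw [← Subgroup.coe_pow, h7, Subgroup.coe_one]
    omega
  have hfin' : {b : B ⧸ N | b ^ q = 1}.Finite := by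
    by_contra hinf
    obtain ⟨F, hF, hc⟩ := Set.Infinite.exists_subset_card_eq hinf ({b : B | b ^ q = 1}.ncard + 1)
    have := key F fun x hx => hF hx
    omega
  refine ⟨hfin', ?_⟩
  have := key hfin'.toFinset fun x hx => by simpa using hx
  rw [← Set.ncard_eq_toFinset_card _ hfin'] at this
  exact this

section

variable {G : Type*} [Group G]

theorem mem_sup_of_nz {A B : Subgroup G} (h : Nz B A) {x : G} (hx : x ∈ A ⊔ B) :
    ∃ a ∈ A, ∃ b ∈ B, x = a * b := by
  rw [Subgroup.sup_eq_closure] at hx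
  refine Subgroup.closure_induction (p := fun x _ => ∃ a ∈ A, ∃ b ∈ B, x = a * b) ?_ ?_ ?_ ?_ hx
  · rintro y (hy | hy)
    · exact ⟨y, hy, 1, one_mem _, (mul_one y).symm⟩
    · exact ⟨1, one_mem _, y, hy, (one_mul y).symm⟩
  · exact ⟨1, one_mem _, 1, one_mem _, (mul_one 1).symm⟩
  · rintro _ _ _ _ ⟨a, ha, b, hb, rfl⟩ ⟨a', ha', b', hb', rfl⟩
    refine ⟨a * (b * a' * b⁻¹), mul_mem ha (h b hb a' ha'), b * b', mul_mem hb hb', ?_⟩
    group
  · rintro _ _ ⟨a, ha, b, hb, rfl⟩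
    refine ⟨b⁻¹ * a⁻¹ * (b⁻¹)⁻¹, h b⁻¹ (inv_mem hb) _ (inv_mem ha), b⁻¹, inv_mem hb, ?_⟩
    group

theorem nz_sup {M A B : Subgroup G} (hA : Nz M A) (hB : Nz M B) : Nz M (A ⊔ B) := by
  rw [nz_iff_cj] at *
  intro y hy
  unfold cj at *
  rw [Subgroup.map_sup, hA y hy, hB y hy]

theorem nz_bot {M : Subgroup G} : Nz M (⊥ : Subgroup G) := by
  intro y _ u hu
  rw [Subgroup.mem_bot] at *
  subst hu
  group

theorem relIndex_sup {N X Y : Subgroup G} (hN : Nz Y N) (h : X.relIndex Y ≠ 0) :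
    (N ⊔ X).relIndex (N ⊔ Y) ≠ 0 := by
  have hfi : (X.subgroupOf Y).FiniteIndex := ⟨h⟩
  have hfin : Finite (Y ⧸ (X.subgroupOf Y)) := Subgroup.finite_quotient_of_finiteIndex
  let φ : (Y ⧸ (X.subgroupOf Y)) → ((N ⊔ Y : Subgroup G) ⧸ ((N ⊔ X).subgroupOf (N ⊔ Y))) :=
    Quotient.map' (fun y => ⟨y, Subgroup.mem_sup_right y.2⟩) (by
      intro a b hab
      rw [QuotientGroup.leftRel_apply] at *
      rw [Subgroup.mem_subgroupOf] at *
      exact Subgroup.mem_sup_right hab)
  have hφ : Function.Surjective φ := by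
    intro z
    induction z using QuotientGroup.induction_on with
    | _ z =>
      obtain ⟨z, hz⟩ := z
      obtain ⟨n, hn, y, hy, rfl⟩ := mem_sup_of_nz hN hz
      refine ⟨QuotientGroup.mk ⟨y, hy⟩, ?_⟩
      show (QuotientGroup.mk _ : (N ⊔ Y : Subgroup G) ⧸ _) = QuotientGroup.mk _
      rw [QuotientGroup.eq, Subgroup.mem_subgroupOf]
      have := hN y⁻¹ (inv_mem hy) n hn
      rw [inv_inv] at this
      have e : (((⟨y, Subgroup.mem_sup_right hy⟩ : (N ⊔ Y : Subgroup G))⁻¹ *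
          ⟨n * y, hz⟩ : (N ⊔ Y : Subgroup G)) : G) = y⁻¹ * n * y := by
        show y⁻¹ * (n * y) = _
        group
      rw [e]
      exact Subgroup.mem_sup_left this
  have : Finite ((N ⊔ Y : Subgroup G) ⧸ ((N ⊔ X).subgroupOf (N ⊔ Y))) :=
    Finite.of_surjective φ hφ
  exact Subgroup.index_ne_zero_of_finite

/-- torsion of prime order in a product of two commuting groups with finitely many elements of
prime order -/
theorem finite_prime_torsion (hG : LF G) {A B : Subgroup G} (hA : ∀ a ∈ A, ∀ b ∈ A, a * b = b * a)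
    (hB : ∀ a ∈ B, ∀ b ∈ B, a * b = b * a) (hAB : ∀ a ∈ A, ∀ b ∈ B, a * b = b * a)
    (hfA : {a : G | a ∈ A ∧ ∃ q : ℕ, q.Prime ∧ a ^ q = 1}.Finite)
    (hfB : {a : G | a ∈ B ∧ ∃ q : ℕ, q.Prime ∧ a ^ q = 1}.Finite) :
    {c : G | c ∈ A ⊔ B ∧ ∃ q : ℕ, q.Prime ∧ c ^ q = 1}.Finite := by
  have hnz : Nz B A := by
    intro b hb a ha
    rw [← hAB a ha b hb, mul_assoc, mul_inv_cancel, mul_one]
    exact ha
  -- for each prime
  have hone : ∀ q : ℕ, q.Prime → {c : G | c ∈ A ⊔ B ∧ c ^ q = 1}.Finite := by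
    intro q hq
    letI iA : CommGroup A := { (inferInstance : Group A) with
      mul_comm := fun a b => Subtype.ext (hA a a.2 b b.2) }
    letI iB : CommGroup B := { (inferInstance : Group B) with
      mul_comm := fun a b => Subtype.ext (hB a a.2 b b.2) }
    let f : A × B →* G := MonoidHom.noncommCoprod A.subtype B.subtype
      (fun a b => hAB a a.2 b b.2)
    have hf : ∀ x : A × B, f x = (x.1 : G) * x.2 := fun x => rfl
    have htor : ∀ x : A × B, ∃ n : ℕ, 0 < n ∧ x ^ n = 1 := by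
      rintro ⟨a, b⟩
      obtain ⟨n, hn, h⟩ := hG.torsion (a : G)
      obtain ⟨m, hm, h'⟩ := hG.torsion (b : G)
      refine ⟨n * m, Nat.mul_pos hn hm, ?_⟩
      ext
      · show ((a ^ (n * m) : A) : G) = 1
        rw [Subgroup.coe_pow, pow_mul, h, one_pow]
      · show ((b ^ (n * m) : B) : G) = 1
        rw [Subgroup.coe_pow, mul_comm, pow_mul, h', one_pow]
    have hfin : {x : A × B | x ^ q = 1}.Finite := by
      have h1 : {x : A × B | x ^ q = 1} ⊆
          (fun x : A × B => ((x.1 : G), (x.2 : G))) ⁻¹'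
            ({a : G | a ∈ A ∧ ∃ q : ℕ, q.Prime ∧ a ^ q = 1} ×ˢ
              {a : G | a ∈ B ∧ ∃ q : ℕ, q.Prime ∧ a ^ q = 1}) := by
        rintro ⟨a, b⟩ hx
        have hx' : ((a, b) : A × B) ^ q = 1 := hx
        rw [Prod.ext_iff] at hx'
        refine ⟨⟨a.2, q, hq, ?_⟩, ⟨b.2, q, hq, ?_⟩⟩
        · have := congrArg (Subtype.val : A → G) hx'.1
          simpa using this
        · have := congrArg (Subtype.val : B → G) hx'.2
          simpa using this
      refine Set.Finite.subset (Set.Finite.preimage ?_ (hfA.prod hfB)) h1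
      intro x _ y _ hxy
      have h2 := Prod.mk.inj hxy
      exact Prod.ext (Subtype.ext h2.1) (Subtype.ext h2.2)
    have h3 := (finite_quot_torsion htor hq hfin f.ker).1
    refine Set.Finite.subset (h3.image (QuotientGroup.kerLift f)) ?_
    rintro c ⟨hc, hcq⟩
    obtain ⟨a, ha, b, hb, rfl⟩ := mem_sup_of_nz hnz hc
    refine ⟨QuotientGroup.mk (⟨a, ha⟩, ⟨b, hb⟩), ?_, ?_⟩
    · show (QuotientGroup.mk _ : (A × B) ⧸ f.ker) ^ q = 1
      rw [← QuotientGroup.mk_pow, QuotientGroup.eq_one_iff, MonoidHom.mem_ker, map_pow, hf]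
      exact hcq
    · rw [QuotientGroup.kerLift_mk, hf]
  -- the relevant primes
  have hQ : ((fun x : G => orderOf x) '' {a : G | a ∈ A ∧ ∃ q : ℕ, q.Prime ∧ a ^ q = 1} ∪
      (fun x : G => orderOf x) '' {a : G | a ∈ B ∧ ∃ q : ℕ, q.Prime ∧ a ^ q = 1}).Finite :=
    (hfA.image _).union (hfB.image _)
  have hfree : ∀ (C : Subgroup G) (q : ℕ), q.Prime →
      q ∉ (fun x : G => orderOf x) '' {a : G | a ∈ C ∧ ∃ q : ℕ, q.Prime ∧ a ^ q = 1} →
      ∀ a ∈ C, ∃ n : ℕ, 0 < n ∧ a ^ n = 1 ∧ n.Coprime q := by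
    intro C q hq hqn a ha
    obtain ⟨n, hn, h⟩ := hG.torsion a
    have hfo : IsOfFinOrder a := isOfFinOrder_iff_pow_eq_one.2 ⟨n, hn, h⟩
    refine ⟨orderOf a, hfo.orderOf_pos, pow_orderOf_eq_one a, ?_⟩
    rw [Nat.coprime_comm, Nat.Prime.coprime_iff_not_dvd hq]
    intro hdvd
    apply hqn
    have ho : orderOf (a ^ (orderOf a / q)) = q :=
      orderOf_pow_orderOf_div hfo.orderOf_pos.ne' hdvd
    refine ⟨a ^ (orderOf a / q), ⟨pow_mem ha _, q, hq, ?_⟩, ho⟩
    have := pow_orderOf_eq_one (a ^ (orderOf a / q))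
    rwa [ho] at this
  refine Set.Finite.subset ((Set.finite_singleton (1 : G)).union
    (hQ.biUnion' (t := fun q _ => {c : G | c ∈ A ⊔ B ∧ c ^ q = 1 ∧ q.Prime}) fun q _ => ?_)) ?_
  · by_cases hq : q.Prime
    · exact (hone q hq).subset fun c hc => ⟨hc.1, hc.2.1⟩
    · refine Set.Finite.subset Set.finite_empty fun c hc => ?_
      exact absurd hc.2.2 hq
  · rintro c ⟨hc, q, hq, hcq⟩
    by_cases hqQ : q ∈ ((fun x : G => orderOf x) '' {a : G | a ∈ A ∧ ∃ q : ℕ, q.Prime ∧ a ^ q = 1} ∪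
      (fun x : G => orderOf x) '' {a : G | a ∈ B ∧ ∃ q : ℕ, q.Prime ∧ a ^ q = 1})
    · right
      rw [Set.mem_iUnion₂]
      exact ⟨q, hqQ, hc, hcq, hq⟩
    · left
      rw [Set.mem_union, not_or] at hqQ
      obtain ⟨a, ha, b, hb, rfl⟩ := mem_sup_of_nz hnz hc
      obtain ⟨n, hn, hna, hnq⟩ := hfree A q hq hqQ.1 a ha
      obtain ⟨m, hm, hmb, hmq⟩ := hfree B q hq hqQ.2 b hb
      have hcomm : Commute a b := hAB a ha b hb
      have h1 : (a * b) ^ (n * m) = 1 := by
        rw [hcomm.mul_pow, pow_mul, hna, one_pow, mul_comm n m, pow_mul, hmb, one_pow, one_mul]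
      have h2 : orderOf (a * b) ∣ n * m := orderOf_dvd_of_pow_eq_one h1
      have h3 : orderOf (a * b) ∣ q := orderOf_dvd_of_pow_eq_one hcq
      have h4 : (n * m).Coprime q := Nat.Coprime.mul_left hnq hmq
      have h5 : orderOf (a * b) ∣ 1 := by
        rw [← Nat.Coprime.gcd_eq_one h4]
        exact Nat.dvd_gcd h2 h3
      exact orderOf_eq_one_iff.1 (Nat.dvd_one.1 h5)

/-- [C2] product of two Chernikov groups normal in a common group `M`. -/
theorem Cher.sup (hG : LF G) {A B M : Subgroup G} (hAM : A ≤ M) (hBM : B ≤ M) (hA : Nz M A)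
    (hB : Nz M B) (h1 : Cher A) (h2 : Cher B) : Cher (A ⊔ B) := by
  obtain ⟨A₀, hA₀⟩ := h1
  obtain ⟨B₀, hB₀⟩ := h2
  have nA := hA₀.nz hA
  have nB := hB₀.nz hB
  obtain ⟨a1, -, a3, a4, a5, a6⟩ := hA₀
  obtain ⟨b1, -, b3, b4, b5, b6⟩ := hB₀
  have hcomm : ∀ a ∈ A₀, ∀ b ∈ B₀, a * b = b * a :=
    divisible_commute hG a4 b4 (nB.mono (a1.trans hAM)) (nA.mono (b1.trans hBM)) b5
  have hnz : Nz B₀ A₀ := nA.mono (b1.trans hBM)
  refine ⟨A₀ ⊔ B₀, sup_le_sup a1 b1, ?_, ?_, ?_, ?_, finite_prime_torsion hG a4 b4 hcomm a6 b6⟩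
  · rw [nz_subgroupOf (sup_le_sup a1 b1)]
    exact (nz_sup nA nB).mono (sup_le hAM hBM)
  · refine Subgroup.relIndex_ne_zero_trans (K := A₀ ⊔ B) ?_ ?_
    · exact relIndex_sup (nA.mono hBM) b3
    · rw [sup_comm A₀ B, sup_comm A B]
      exact relIndex_sup (hB.mono hAM) a3
  · intro x hx y hy
    obtain ⟨a, ha, b, hb, rfl⟩ := mem_sup_of_nz hnz hx
    obtain ⟨a', ha', b', hb', rfl⟩ := mem_sup_of_nz hnz hy
    have e1 : Commute a a' := a4 a ha a' ha'
    have e2 : Commute a b' := hcomm a ha b' hb'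
    have e3 : Commute b a' := (hcomm a' ha' b hb).symm
    have e4 : Commute b b' := b4 b hb b' hb'
    exact ((e1.mul_right e2).mul_left (e3.mul_right e4)).eq
  · intro x hx m hm
    obtain ⟨a, ha, b, hb, rfl⟩ := mem_sup_of_nz hnz hx
    obtain ⟨c, hc, rfl⟩ := a5 a ha m hm
    obtain ⟨d, hd, rfl⟩ := b5 b hb m hm
    refine ⟨c * d, mul_mem (Subgroup.mem_sup_left hc) (Subgroup.mem_sup_right hd), ?_⟩
    have e : Commute c d := hcomm c hc d hd
    exact e.mul_pow m

/-- [C2] finite joins. -/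
theorem Cher.iSup (hG : LF G) {ι : Type*} [Finite ι] {K : ι → Subgroup G} {M : Subgroup G}
    (hKM : ∀ i, K i ≤ M) (hN : ∀ i, Nz M (K i)) (hK : ∀ i, Cher (K i)) : Cher (⨆ i, K i) := by
  classical
  cases nonempty_fintype ι
  have key : ∀ s : Finset ι, (⨆ i ∈ s, K i) ≤ M ∧ Nz M (⨆ i ∈ s, K i) ∧ Cher (⨆ i ∈ s, K i) := by
    intro s
    induction s using Finset.induction_on with
    | empty =>
      have e : (⨆ i ∈ (∅ : Finset ι), K i) = ⊥ := by simp
      rw [e]
      exact ⟨bot_le, nz_bot, Cher.of_finite inferInstance⟩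
    | insert a s ha ih =>
      rw [Finset.iSup_insert]
      exact ⟨sup_le (hKM a) ih.1, nz_sup (hN a) ih.2.1,
        Cher.sup hG (hKM a) ih.1 (hN a) ih.2.1 (hK a) ih.2.2⟩
  have h := (key Finset.univ).2.2
  have e : (⨆ i ∈ (Finset.univ : Finset ι), K i) = ⨆ i, K i := by simp
  rwa [e] at h

end

end PMC.C2
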