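import Pool.Agent.PMC.LibEC

/-!
[PMC] row CB1: a maximal normal subgroup.
-/

set_option autoImplicit false

namespace PMC.CB1

open Subgroup PMC

variable {G : Type*} [Group G] {p : ℕ} {V X : Subgroup G} {x : G}

/-- a subgroup of `V` normalised by `V` which contains the `X`-conjugates of `F` is `V` -/
theorem eq_of_subset (hV : V.Normal) (hsup : V ⊔ X = ⊤) {F : Set G}
    (hcl : Subgroup.normalClosure F = V) {L : Subgroup G} (hLV : L ≤ V) (hL : Nz V L)
    (h : ∀ y ∈ X, ∀ f ∈ F, y * f * y⁻¹ ∈ L) : L = V := by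
  apply le_antisymm hLV
  rw [← hcl, Subgroup.normalClosure, Subgroup.closure_le]
  intro c hc
  rw [Group.mem_conjugatesOfSet_iff] at hc
  obtain ⟨f, hf, hcon⟩ := hc
  obtain ⟨g, rfl⟩ := isConj_iff.1 hcon
  have hg : g ∈ ((V ⊔ X : Subgroup G) : Set G) := by rw [hsup]; exact Subgroup.mem_top g
  rw [Subgroup.normal_mul] at hg
  obtain ⟨v, hv, y, hy, rfl⟩ := hg
  have e : v * y * f * (v * y)⁻¹ = v * (y * f * y⁻¹) * v⁻¹ := by group
  simp only [SetLike.mem_coe]
  rw [e]
  exact hL v hv _ (h y hy f hf)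

/-- [CB1] case B. `V` is generated, as a normal subgroup of itself, by the finite set `{y f y⁻¹ | f ∈ F, y ∈ X}`
(`G = V X`); Zorn gives `L` maximal among the subgroups `≠ V` of `V` normalised by `V`. If `L.relIndex V ≠ 0` then
`⨅ y ∈ X, cj y L` (finite intersection) is normal in `G` (`nz_of_sup`), of finite index in `V` and `≠ V`: contradiction with `hfi`.
(`V ≠ ⊥`: use `hne`.) -/
theorem exists_maxNormal (hV : V.Normal) (hX : Finite X) (hsup : V ⊔ X = ⊤) (hne : V ≠ ⊥)
    (hfi : ∀ M : Subgroup G, M.Normal → M ≤ V → M.relIndex V ≠ 0 → M = V)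
    {F : Set G} (hF : F.Finite) (hFV : F ⊆ V) (hcl : Subgroup.normalClosure F = V) :
    ∃ L : Subgroup G, L < V ∧ Nz V L ∧ L.relIndex V = 0 ∧
      ∀ N : Subgroup G, L ≤ N → N ≤ V → Nz V N → N = L ∨ N = V := by
  -- the finite set of the `X`-conjugates
  set F' : Set G := (fun q : G × G => q.1 * q.2 * q.1⁻¹) '' ((X : Set G) ×ˢ F) with hF'
  have hF'fin : F'.Finite := (Set.Finite.prod (Set.toFinite (X : Set G)) hF).image _
  have hkey : ∀ L : Subgroup G, L ≤ V → Nz V L → F' ⊆ L → L = V := by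
    intro L h1 h2 h3
    exact eq_of_subset hV hsup hcl h1 h2 fun y hy f hf => h3 ⟨(y, f), ⟨hy, hf⟩, rfl⟩
  have hF'V : F' ⊆ V := by
    rintro _ ⟨⟨y, f⟩, ⟨_, hf⟩, rfl⟩
    exact hV.conj_mem _ (hFV hf) y
  obtain ⟨L, hL⟩ := zorn_le₀ {L : Subgroup G | L ≤ V ∧ Nz V L ∧ L ≠ V} (by
    intro c hc hchain
    rcases c.eq_empty_or_nonempty with rfl | hcne
    · refine ⟨⊥, ⟨bot_le, ?_, hne.symm⟩, fun z hz => absurd hz (Set.notMem_empty z)⟩
      intro y _ u hu
      rw [Subgroup.mem_bot] at hu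
      rw [hu, Subgroup.mem_bot]
      group
    · have hdir : DirectedOn (· ≤ ·) c := hchain.directedOn
      refine ⟨sSup c, ⟨?_, ?_, ?_⟩, fun z hz => le_sSup hz⟩
      · exact sSup_le fun L hL => (hc hL).1
      · intro y hy u hu
        rw [Subgroup.mem_sSup_of_directedOn hcne hdir] at hu ⊢
        obtain ⟨L, hL, hu⟩ := hu
        exact ⟨L, hL, (hc hL).2.1 y hy u hu⟩
      · intro heq
        -- `F'` is contained in a member
        have hsub : ∀ S : Set G, S.Finite → S ⊆ V → ∃ L ∈ c, S ⊆ L := by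
          intro S hS
          induction S, hS using Set.Finite.induction_on with
          | empty =>
            intro _
            obtain ⟨L, hL⟩ := hcne
            exact ⟨L, hL, Set.empty_subset _⟩
          | @insert a S _ _ ih =>
            intro hSV
            obtain ⟨L₁, hL₁, h1⟩ := ih ((Set.subset_insert a S).trans hSV)
            have ha : a ∈ sSup c := by rw [heq]; exact hSV (Set.mem_insert a S)
            rw [Subgroup.mem_sSup_of_directedOn hcne hdir] at ha
            obtain ⟨L₂, hL₂, h2⟩ := ha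
            obtain ⟨L₃, hL₃, h3, h4⟩ := hdir L₁ hL₁ L₂ hL₂
            exact ⟨L₃, hL₃, Set.insert_subset (h4 h2) (h1.trans h3)⟩
        obtain ⟨L, hL, h1⟩ := hsub F' hF'fin hF'V
        exact (hc hL).2.2 (hkey L (hc hL).1 (hc hL).2.1 h1))
  have hLm : L ≤ V ∧ Nz V L ∧ L ≠ V := hL.prop
  obtain ⟨hLV, hLn, hLne⟩ := hLm
  refine ⟨L, lt_of_le_of_ne hLV hLne, hLn, ?_, ?_⟩
  · by_contra hidx
    set M : Subgroup G := ⨅ y : X, cj (y : G) L with hM
    have hMmem : ∀ u, u ∈ M ↔ ∀ y ∈ X, u ∈ cj y L := by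
      intro u
      rw [hM, Subgroup.mem_iInf]
      exact ⟨fun h y hy => h ⟨y, hy⟩, fun h y => h y y.2⟩
    have hMV : M ≤ V := by
      intro u hu
      have := (hMmem u).1 hu 1 (one_mem X)
      rw [cj_one] at this
      exact hLV this
    have hML : M ≤ L := by
      intro u hu
      have := (hMmem u).1 hu 1 (one_mem X)
      rwa [cj_one] at this
    have h1 : Nz V M := by
      intro v hv u hu
      rw [hMmem] at hu ⊢
      intro y hy
      have hu' := hu y hy
      rw [mem_cj] at hu' ⊢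
      have hv' : y⁻¹ * v * y ∈ V := by
        have := hV.conj_mem v hv y⁻¹
        rwa [inv_inv] at this
      have e : y⁻¹ * (v * u * v⁻¹) * y = (y⁻¹ * v * y) * (y⁻¹ * u * y) * (y⁻¹ * v * y)⁻¹ := by
        group
      rw [e]
      exact hLn _ hv' _ hu'
    have h2 : Nz X M := by
      intro z hz u hu
      rw [hMmem] at hu ⊢
      intro y hy
      have hu' := hu (z⁻¹ * y) (mul_mem (inv_mem hz) hy)
      rw [mem_cj] at hu' ⊢
      have e : y⁻¹ * (z * u * z⁻¹) * y = (z⁻¹ * y)⁻¹ * u * (z⁻¹ * y) := by group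
      rw [e]
      exact hu'
    have h3 : M.Normal := nz_of_sup hsup h1 h2
    have h4 : M.relIndex V ≠ 0 := by
      rw [hM]
      refine Subgroup.relIndex_iInf_ne_zero fun y => ?_
      have h5 : (cj (y : G) L).relIndex (cj (y : G) V) = L.relIndex V :=
        Subgroup.relIndex_map_map_of_injective _ _ (MulAut.conj (y : G)).injective
      rw [cj_normal (y : G) hV] at h5
      rw [h5]
      exact hidx
    have h6 := hfi M h3 hMV h4
    exact hLne (le_antisymm hLV (h6 ▸ hML))
  · intro N hLN hNV hN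
    by_cases hNe : N = V
    · exact Or.inr hNe
    · exact Or.inl (le_antisymm (hL.le_of_ge ⟨hNV, hN, hNe⟩ hLN) hLN)

end PMC.CB1
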