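import Pool.Agent.PMC.LibCB1

/-!
[PMC] row CB2: the dichotomy.
-/

set_option autoImplicit false

namespace PMC.CB2

open Subgroup PMC
open scoped Pointwise commutatorElement

section

variable {G : Type*} [Group G] {p : ℕ} {V X : Subgroup G} {x : G}

/-- products in `A ⊔ B`, `A` normalising `B` -/
theorem mem_sup_prod {A B : Subgroup G} (h : Nz A B) {g : G} (hg : g ∈ A ⊔ B) :
    ∃ a ∈ A, ∃ b ∈ B, g = a * b := by
  have hle : A ≤ Subgroup.normalizer (B : Set G) := by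
    intro a ha
    rw [Subgroup.mem_normalizer_iff]
    intro b
    constructor
    · intro hb
      exact h a ha b hb
    · intro hb
      have := h a⁻¹ (inv_mem ha) _ hb
      have e : a⁻¹ * (a * b * a⁻¹) * a⁻¹⁻¹ = b := by group
      rwa [e] at this
  have h2 := Subgroup.coe_mul_of_left_le_normalizer_right A B hle
  have h3 : g ∈ (A : Set G) * (B : Set G) := by
    rw [← h2]
    exact hg
  obtain ⟨a, ha, b, hb, hab⟩ := h3
  exact ⟨a, ha, b, hb, hab.symm⟩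

/-- the elements of `V` which commute with `v` modulo `L` -/
def cen (V L : Subgroup G) (hL : Nz V L) (v : G) : Subgroup G where
  carrier := {u | u ∈ V ∧ v * u * v⁻¹ * u⁻¹ ∈ L}
  one_mem' := by
    refine ⟨one_mem _, ?_⟩
    have e : v * 1 * v⁻¹ * 1⁻¹ = 1 := by group
    rw [e]
    exact one_mem _
  mul_mem' := by
    rintro a b ⟨ha, ha'⟩ ⟨hb, hb'⟩
    refine ⟨mul_mem ha hb, ?_⟩
    have e : v * (a * b) * v⁻¹ * (a * b)⁻¹ =
        (v * a * v⁻¹ * a⁻¹) * (a * (v * b * v⁻¹ * b⁻¹) * a⁻¹) := by group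
    rw [e]
    exact mul_mem ha' (hL a ha _ hb')
  inv_mem' := by
    rintro a ⟨ha, ha'⟩
    refine ⟨inv_mem ha, ?_⟩
    have e : v * a⁻¹ * v⁻¹ * a⁻¹⁻¹ =
        a⁻¹ * (v * a * v⁻¹ * a⁻¹)⁻¹ * a⁻¹⁻¹ := by group
    rw [e]
    exact hL a⁻¹ (inv_mem ha) _ (inv_mem ha')

theorem mem_cen {V L : Subgroup G} {hL : Nz V L} {v u : G} :
    u ∈ cen V L hL v ↔ u ∈ V ∧ v * u * v⁻¹ * u⁻¹ ∈ L := Iff.rfl

theorem comm_symm {L : Subgroup G} {u v : G} (h : v * u * v⁻¹ * u⁻¹ ∈ L) :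
    u * v * u⁻¹ * v⁻¹ ∈ L := by
  have e : u * v * u⁻¹ * v⁻¹ = (v * u * v⁻¹ * u⁻¹)⁻¹ := by group
  rw [e]
  exact inv_mem h

theorem nz_sup {M A B : Subgroup G} (hA : Nz M A) (hB : Nz M B) : Nz M (A ⊔ B) := by
  rw [nz_iff_cj] at *
  intro y hy
  unfold cj at *
  rw [Subgroup.map_sup, hA y hy, hB y hy]

/-- primality -/
theorem prime_aux {V L A B : Subgroup G} (hLV : L ≤ V) (hL : Nz V L)
    (hmax : ∀ N : Subgroup G, L ≤ N → N ≤ V → Nz V N → N = L ∨ N = V)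
    (hnc : ∃ a ∈ V, ∃ b ∈ V, a * b * a⁻¹ * b⁻¹ ∉ L) (hAV : A ≤ V) (hBV : B ≤ V) (hA : Nz V A)
    (hB : Nz V B) (hAB : A ⊓ B ≤ L) : A ≤ L ∨ B ≤ L := by
  by_contra hcon
  rw [not_or] at hcon
  obtain ⟨hAL, hBL⟩ := hcon
  have hAs : A ⊔ L = V := by
    rcases hmax (A ⊔ L) le_sup_right (sup_le hAV hLV) (nz_sup hA hL) with h | h
    · exact absurd (le_sup_left.trans h.le) hAL
    · exact h
  have hBs : B ⊔ L = V := by
    rcases hmax (B ⊔ L) le_sup_right (sup_le hBV hLV) (nz_sup hB hL) with h | h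
    · exact absurd (le_sup_left.trans h.le) hBL
    · exact h
  -- `[v, l] ∈ L`
  have hl : ∀ v ∈ V, ∀ l ∈ L, v * l * v⁻¹ * l⁻¹ ∈ L := fun v hv l hl' =>
    mul_mem (hL v hv l hl') (inv_mem hl')
  have h1 : ∀ b ∈ B, ∀ v ∈ V, v * b * v⁻¹ * b⁻¹ ∈ L := by
    intro b hb v hv
    have h2 : V ≤ cen V L hL b := by
      refine hAs.ge.trans (sup_le ?_ ?_)
      · intro a ha
        refine ⟨hAV ha, comm_symm (hAB ⟨?_, ?_⟩)⟩
        · have e : a * b * a⁻¹ * b⁻¹ = a * (b * a⁻¹ * b⁻¹) := by group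
          rw [e]
          exact A.mul_mem ha (hA b (hBV hb) _ (A.inv_mem ha))
        · exact B.mul_mem (hB a (hAV ha) _ hb) (B.inv_mem hb)
      · intro l hl'
        exact ⟨hLV hl', hl b (hBV hb) l hl'⟩
    exact comm_symm (h2 hv).2
  obtain ⟨a, ha, b, hb, hab⟩ := hnc
  have h3 : V ≤ cen V L hL a := by
    refine hBs.ge.trans (sup_le ?_ ?_)
    · intro c hc
      exact ⟨hBV hc, h1 c hc a ha⟩
    · intro l hl'
      exact ⟨hLV hl', hl a ha l hl'⟩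
  exact hab (h3 hb).2

theorem nz_cj {V L : Subgroup G} (hV : V.Normal) (hL : Nz V L) (y : G) : Nz V (cj y L) := by
  intro v hv u hu
  rw [mem_cj] at *
  have e : y⁻¹ * (v * u * v⁻¹) * y = (y⁻¹ * v * y) * (y⁻¹ * u * y) * (y⁻¹ * v * y)⁻¹ := by group
  rw [e]
  refine hL _ ?_ _ hu
  have := hV.conj_mem v hv y⁻¹
  rwa [inv_inv] at this

theorem cj_le {V L : Subgroup G} (hV : V.Normal) (hL : L ≤ V) (y : G) : cj y L ≤ V :=
  (cj_mono hL).trans (cj_normal y hV).le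

/-- the intersection of finitely many conjugates not contained in `L` is not contained in `L` -/
theorem inter_aux {V L : Subgroup G} (hV : V.Normal) (hLV : L < V) (hL : Nz V L)
    (hmax : ∀ N : Subgroup G, L ≤ N → N ≤ V → Nz V N → N = L ∨ N = V)
    (hnc : ∃ a ∈ V, ∃ b ∈ V, a * b * a⁻¹ * b⁻¹ ∉ L) (T : Set G) (hT : T.Finite) :
    (∀ y ∈ T, ¬ cj y L ≤ L) → ∃ D : Subgroup G, D ≤ V ∧ Nz V D ∧ ¬ D ≤ L ∧
      ∀ y ∈ T, D ≤ cj y L := by
  induction T, hT using Set.Finite.induction_on with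
  | empty =>
    intro _
    exact ⟨V, le_rfl, fun y hy u hu => hV.conj_mem u hu y, not_le_of_gt hLV, by simp⟩
  | @insert y T _ _ ih =>
    intro h
    obtain ⟨D, hD1, hD2, hD3, hD4⟩ := ih fun z hz => h z (Set.mem_insert_of_mem _ hz)
    have hy := h y (Set.mem_insert _ _)
    refine ⟨cj y L ⊓ D, inf_le_right.trans hD1, ?_, ?_, ?_⟩
    · intro v hv u hu
      exact ⟨nz_cj hV hL y v hv u hu.1, hD2 v hv u hu.2⟩
    · intro hc
      rcases prime_aux hLV.le hL hmax hnc (cj_le hV hLV.le y) hD1 (nz_cj hV hL y) hD2 hc with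
        h5 | h5
      · exact hy h5
      · exact hD3 h5
    · intro z hz
      rcases Set.mem_insert_iff.1 hz with rfl | hz
      · exact inf_le_left
      · exact inf_le_right.trans (hD4 z hz)

/-- the largest subgroup of `V ⊓ S` invariant under `X` -/
def inn (V X S : Subgroup G) : Subgroup G where
  carrier := {d | d ∈ V ∧ ∀ y ∈ X, y * d * y⁻¹ ∈ S}
  one_mem' := ⟨one_mem _, fun y _ => by
    have e : y * 1 * y⁻¹ = 1 := by group
    rw [e]
    exact one_mem _⟩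
  mul_mem' := by
    rintro a b ⟨ha, ha'⟩ ⟨hb, hb'⟩
    refine ⟨mul_mem ha hb, fun y hy => ?_⟩
    have e : y * (a * b) * y⁻¹ = (y * a * y⁻¹) * (y * b * y⁻¹) := by group
    rw [e]
    exact mul_mem (ha' y hy) (hb' y hy)
  inv_mem' := by
    rintro a ⟨ha, ha'⟩
    refine ⟨inv_mem ha, fun y hy => ?_⟩
    have e : y * a⁻¹ * y⁻¹ = (y * a * y⁻¹)⁻¹ := by group
    rw [e]
    exact inv_mem (ha' y hy)

theorem mem_inn {V X S : Subgroup G} {d : G} :
    d ∈ inn V X S ↔ d ∈ V ∧ ∀ y ∈ X, y * d * y⁻¹ ∈ S := Iff.rfl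

theorem dichotomy (h : Cfg p V X x) (hperf : ⁅V, X⁆ = V) {L : Subgroup G} (hLV : L < V)
    (hL : Nz V L) (hLi : L.relIndex V = 0)
    (hmax : ∀ N : Subgroup G, L ≤ N → N ≤ V → Nz V N → N = L ∨ N = V) :
    (¬ ∃ S : ℕ → Subgroup G, ∀ i, L ≤ S i ∧ S i ≤ V ∧ S (i + 1) < S i) ∨
      ∃ y ∈ X, (∀ l ∈ L, y * l * y⁻¹ ∈ L) ∧ ∃ v ∈ V, v * y * v⁻¹ * y⁻¹ ∉ L := by
  by_contra hcon
  rw [not_or, not_not] at hcon
  obtain ⟨⟨S, hS⟩, hno'⟩ := hcon
  have hno : ∀ y ∈ X, (∀ l ∈ L, y * l * y⁻¹ ∈ L) → ∀ v ∈ V, v * y * v⁻¹ * y⁻¹ ∈ L := by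
    intro y hy h1 v hv
    by_contra hc
    exact hno' ⟨y, hy, h1, v, hv, hc⟩
  have hV := h.norm
  obtain ⟨k, hk⟩ := h.xp
  have hXf := zpowers_facts h.prime hk
  rw [← h.gen] at hXf
  obtain ⟨hXfin, hXp⟩ := hXf
  -- some `y₀ ∈ X` does not normalise `L`
  obtain ⟨y₀, hy₀, hy₀L⟩ : ∃ y ∈ X, ¬ ∀ l ∈ L, y * l * y⁻¹ ∈ L := by
    by_contra hc
    push Not at hc
    apply not_le_of_gt hLV
    conv_lhs => rw [← hperf]
    rw [Subgroup.commutator_le]
    intro v hv y hy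
    exact hno y hy (hc y hy) v hv
  -- `V / L` is not commutative
  have hnc : ∃ a ∈ V, ∃ b ∈ V, a * b * a⁻¹ * b⁻¹ ∉ L := by
    by_contra hc
    push Not at hc
    have h1 : Nz V (S 1) := by
      intro v hv s hs
      have e : v * s * v⁻¹ = (v * s * v⁻¹ * s⁻¹) * s := by group
      rw [e]
      exact mul_mem ((hS 1).1 (hc v hv s ((hS 1).2.1 hs))) hs
    rcases hmax (S 1) (hS 1).1 (hS 1).2.1 h1 with h2 | h2
    · have h3 := (hS 1).2.2
      rw [h2] at h3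
      exact not_le_of_gt h3 (hS 2).1
    · have h3 := (hS 0).2.2
      rw [zero_add, h2] at h3
      exact not_le_of_gt h3 (hS 0).2.1
  -- if `y⁻¹` normalises `L` then so does `y`
  have hinv : ∀ y : G, cj y⁻¹ L ≤ L → ∀ l ∈ L, y * l * y⁻¹ ∈ L := by
    intro y hy
    have h1 : L ≤ cj y L := by
      have := cj_mono (g := y) hy
      rwa [cj_cj_inv] at this
    rcases hmax (cj y L) h1 (cj_le hV hLV.le y) (nz_cj hV hL y) with h2 | h2
    · intro l hl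
      have := (conj_mem_cj (g := y) (x := l) (U := L)).2 hl
      rwa [h2] at this
    · exfalso
      have h3 : L = V := by
        have := congrArg (cj y⁻¹) h2
        rwa [cj_inv_cj, cj_normal y⁻¹ hV] at this
      exact hLV.ne h3
  -- the group `D`
  obtain ⟨D, hDV, hDn, hDL, hD⟩ := inter_aux hV hLV hL hmax hnc
    {z | ∃ y ∈ X, z = y⁻¹ ∧ ¬ ∀ l ∈ L, y * l * y⁻¹ ∈ L}
    (by
      refine Set.Finite.subset (X : Set G).toFinite ?_
      rintro z ⟨y, hy, rfl, _⟩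
      exact inv_mem hy)
    (by
      rintro z ⟨y, hy, rfl, h1⟩ h2
      exact h1 (hinv y h2))
  have hDy : ∀ d ∈ D, ∀ y ∈ X, (¬ ∀ l ∈ L, y * l * y⁻¹ ∈ L) → y * d * y⁻¹ ∈ L := by
    intro d hd y hy h1
    have h2 := hD y⁻¹ ⟨y, hy, rfl, h1⟩ hd
    rw [mem_cj, inv_inv] at h2
    exact h2
  have hDs : D ⊔ L = V := by
    rcases hmax (D ⊔ L) le_sup_right (sup_le hDV hLV.le) (nz_sup hDn hL) with h1 | h1
    · exact absurd (le_sup_left.trans h1.le) hDL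
    · exact h1
  -- the chain
  set U : ℕ → Subgroup G := fun i => inn V X (S i) with hU
  have hUV : ∀ i, U i ≤ V := fun i d hd => hd.1
  have hUS : ∀ i, U i ≤ S i := fun i d hd => by
    have := hd.2 1 (one_mem _)
    simpa using this
  have hUX : ∀ i, Nz X (U i) := by
    intro i z hz d hd
    refine ⟨hV.conj_mem d hd.1 z, fun y hy => ?_⟩
    have e : y * (z * d * z⁻¹) * y⁻¹ = (y * z) * d * (y * z)⁻¹ := by group
    rw [e]
    exact hd.2 _ (mul_mem hy hz)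
  have hUm : ∀ i, U (i + 1) ≤ U i := fun i d hd =>
    ⟨hd.1, fun y hy => (hS i).2.2.le (hd.2 y hy)⟩
  have hPU : ∀ i, ⁅U i, X⁆ ≤ U i := fun i => comm_le_left (hUX i)
  have hSP : ∀ i, S i ≤ ⁅U i, X⁆ ⊔ L := by
    intro i s hs
    have hsV : s ∈ D ⊔ L := by
      rw [hDs]
      exact (hS i).2.1 hs
    obtain ⟨d, hd, l, hl, hdl⟩ := mem_sup_prod (hL.mono hDV) hsV
    have hdS : d ∈ S i := by
      have e : d = s * l⁻¹ := by rw [hdl]; group
      rw [e]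
      exact mul_mem hs (inv_mem ((hS i).1 hl))
    have hdU : d ∈ U i := by
      refine ⟨hDV hd, fun y hy => ?_⟩
      by_cases hA : ∀ l ∈ L, y * l * y⁻¹ ∈ L
      · have h1 := hno y hy hA d⁻¹ (inv_mem (hDV hd))
        have e : y * d * y⁻¹ = d * (d⁻¹ * y * d⁻¹⁻¹ * y⁻¹) := by group
        rw [e]
        exact mul_mem hdS ((hS i).1 h1)
      · exact (hS i).1 (hDy d hd y hy hA)
    have e : s = ⁅d, y₀⁆ * ((y₀ * d * y₀⁻¹) * l) := by
      rw [hdl, commutatorElement_def]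
      group
    rw [e]
    exact mul_mem (le_sup_left (a := ⁅U i, X⁆) (b := L)
        (Subgroup.commutator_mem_commutator hdU hy₀))
      (le_sup_right (a := ⁅U i, X⁆) (b := L) (mul_mem (hDy d hd y₀ hy₀ hy₀L) hl))
  refine h.dcc ⟨fun i => ⁅U i, X⁆, fun i => ⟨(hPU i).trans (hUV i), ?_, ?_⟩⟩
  · exact comm_comm h.prime h.lf (fun u hu k hk => h.pp u (hUV i hu) k hk) hXfin hXp (hUX i)
  · refine lt_of_le_of_ne (Subgroup.commutator_mono (hUm i) le_rfl) fun he => ?_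
    have h1 : S i ≤ S (i + 1) := by
      refine (hSP i).trans (sup_le ?_ (hS (i + 1)).1)
      have he' : ⁅U (i + 1), X⁆ = ⁅U i, X⁆ := he
      rw [← he']
      exact (hPU (i + 1)).trans (hUS (i + 1))
    exact not_le_of_gt (hS i).2.2 h1

end

end PMC.CB2
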