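import Pool.Agent.PMC.LibAB

/-!
[PMC-D] finite subsets of `V = [V, X]`.
-/

set_option autoImplicit false

namespace PMC.D

open PMC
open Subgroup
open scoped commutatorElement

section

variable {G : Type*} [Group G] {p : ℕ} {V X : Subgroup G} {x : G}

/-- the group generated by the commutators `⁅v, y⁆` with `v ∈ F`, `y ∈ X` -/
def CF (X : Subgroup G) (F : Set G) : Subgroup G :=
  Subgroup.closure {g : G | ∃ v ∈ F, ∃ y ∈ X, ⁅v, y⁆ = g}

theorem CF_mono {F F' : Set G} (h : F ⊆ F') : CF X F ≤ CF X F' := by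
  refine Subgroup.closure_mono ?_
  rintro g ⟨v, hv, y, hy, rfl⟩
  exact ⟨v, h hv, y, hy, rfl⟩

theorem exists_one {s : G} (hs : s ∈ ⁅V, X⁆) :
    ∃ F : Set G, F.Finite ∧ F ⊆ V ∧ s ∈ CF X F := by
  rw [Subgroup.commutator_def] at hs
  refine Subgroup.closure_induction
    (p := fun s _ => ∃ F : Set G, F.Finite ∧ F ⊆ V ∧ s ∈ CF X F) ?_ ?_ ?_ ?_ hs
  · rintro _ ⟨v, hv, y, hy, rfl⟩
    refine ⟨{v}, Set.finite_singleton v, ?_, ?_⟩
    · rw [Set.singleton_subset_iff]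
      exact hv
    · exact Subgroup.subset_closure ⟨v, rfl, y, hy, rfl⟩
  · exact ⟨∅, Set.finite_empty, Set.empty_subset _, one_mem _⟩
  · rintro a b _ _ ⟨F, hF, hFV, ha⟩ ⟨F', hF', hFV', hb⟩
    exact ⟨F ∪ F', hF.union hF', Set.union_subset hFV hFV',
      mul_mem (CF_mono Set.subset_union_left ha) (CF_mono Set.subset_union_right hb)⟩
  · rintro a _ ⟨F, hF, hFV, ha⟩
    exact ⟨F, hF, hFV, inv_mem ha⟩

theorem exists_all (hperf : ⁅V, X⁆ = V) {S : Set G} (hS : S.Finite) (hSV : S ⊆ V) :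
    ∃ F : Set G, F.Finite ∧ F ⊆ V ∧ S ⊆ CF X F := by
  have key : ∀ s : G, ∃ F : Set G, F.Finite ∧ F ⊆ V ∧ (s ∈ S → s ∈ CF X F) := by
    intro s
    by_cases hs : s ∈ S
    · have h1 : s ∈ ⁅V, X⁆ := by
        rw [hperf]
        exact hSV hs
      obtain ⟨F, hF, hFV, h2⟩ := exists_one h1
      exact ⟨F, hF, hFV, fun _ => h2⟩
    · exact ⟨∅, Set.finite_empty, Set.empty_subset _, fun h => absurd h hs⟩
  choose F hF hFV hm using key
  refine ⟨⋃ s ∈ S, F s, hS.biUnion (fun s _ => hF s), ?_, ?_⟩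
  · exact Set.iUnion₂_subset (fun s _ => hFV s)
  · intro s hs
    exact CF_mono (Set.subset_biUnion_of_mem (u := F) hs) (hm s hs)

/-- [D] a finite subset of `V = [V, X]` lies in a finite `X`-perfect subgroup -/
theorem exists_finite_perf (h : Cfg p V X x) (hperf : ⁅V, X⁆ = V) {S : Set G} (hS : S.Finite)
    (hSV : S ⊆ V) : ∃ W : Subgroup G, Finite W ∧ W ≤ V ∧ ⁅W, X⁆ = W ∧ S ⊆ W := by
  obtain ⟨F, hF, hFV, hSF⟩ := exists_all hperf hS hSV
  obtain ⟨k, hk⟩ := h.xp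
  have hz := zpowers_facts h.prime hk
  rw [← h.gen] at hz
  have hXfin : (X : Set G).Finite := by
    have := hz.1
    exact Set.toFinite _
  set R : Set G := Set.image2 (fun y v => y * v * y⁻¹) (X : Set G) F with hR
  have hRfin : R.Finite := hXfin.image2 _ hF
  set W₀ : Subgroup G := Subgroup.closure R with hW₀
  have hW₀fin : Finite W₀ := (h.lf R hRfin).to_subtype
  have hW₀V : W₀ ≤ V := by
    rw [hW₀, Subgroup.closure_le]
    rintro _ ⟨y, hy, v, hv, rfl⟩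
    exact h.norm.conj_mem v (hFV hv) y
  have hnz : Nz X W₀ := by
    intro y hy u hu
    have hle : W₀ ≤ cj y⁻¹ W₀ := by
      rw [hW₀, Subgroup.closure_le, ← hW₀]
      rintro _ ⟨z, hz, v, hv, rfl⟩
      rw [SetLike.mem_coe, mem_cj, inv_inv]
      refine Subgroup.subset_closure ⟨y * z, mul_mem hy hz, v, hv, ?_⟩
      simp only
      group
    have h1 := hle hu
    rwa [mem_cj, inv_inv] at h1
  have hpp : PP p W₀ := fun u hu => h.pp u (hW₀V hu)
  have hle : ⁅W₀, X⁆ ≤ W₀ := comm_le_left hnz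
  refine ⟨⁅W₀, X⁆, ?_, hle.trans hW₀V, comm_comm h.prime h.lf hpp hz.1 hz.2 hnz, ?_⟩
  · exact Finite.of_injective (Subgroup.inclusion hle) (Subgroup.inclusion_injective hle)
  · intro s hs
    have h1 : CF X F ≤ ⁅W₀, X⁆ := by
      rw [CF, Subgroup.closure_le]
      rintro _ ⟨v, hv, y, hy, rfl⟩
      refine Subgroup.commutator_mem_commutator ?_ hy
      refine Subgroup.subset_closure ⟨1, one_mem _, v, hv, ?_⟩
      simp
    exact h1 (hSF hs)

/-- [D] a finite subset of `V = [V, X]` lies in `⁅F^G, X⁆` for a finite set `F ⊆ V` -/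
theorem exists_finite_normal (hV : V.Normal) (hperf : ⁅V, X⁆ = V) {S : Set G} (hS : S.Finite)
    (hSV : S ⊆ V) :
    ∃ F : Set G, F.Finite ∧ F ⊆ V ∧ S ⊆ (⁅Subgroup.normalClosure F, X⁆ : Subgroup G) := by
  obtain ⟨F, hF, hFV, hSF⟩ := exists_all hperf hS hSV
  refine ⟨F, hF, hFV, ?_⟩
  intro s hs
  have h1 : CF X F ≤ ⁅Subgroup.normalClosure F, X⁆ := by
    rw [CF, Subgroup.closure_le]
    rintro _ ⟨v, hv, y, hy, rfl⟩
    exact Subgroup.commutator_mem_commutator (Subgroup.subset_normalClosure hv) hy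
  exact h1 (hSF hs)

end

end PMC.D
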