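import Pool.Agent.PMC.LibFI

set_option autoImplicit false

namespace PMC.DV

open PMC Subgroup

variable {G : Type*} [Group G] {p : ℕ} {V X : Subgroup G} {x : G}

theorem divisible_quot (h : Cfg p V X x) (hperf : ⁅V, X⁆ = V)
    (hfi : ∀ M : Subgroup G, M.Normal → M ≤ V → M.relIndex V ≠ 0 → M = V)
    {N : Subgroup G} (hN : N.Normal) (hNV : N ≤ V) (hc : ∀ a ∈ V, ∀ b ∈ V, a * b * a⁻¹ * b⁻¹ ∈ N) :
    ∀ v ∈ V, ∀ n : ℕ, 0 < n → ∃ u ∈ V, ∃ c ∈ N, v = u ^ n * c := by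
  intro v hv n hn
  have := hN
  have hq := h.quotient N hNV
  have hcomm : ∀ a ∈ V.map (QuotientGroup.mk' N), ∀ b ∈ V.map (QuotientGroup.mk' N),
      a * b = b * a := by
    rintro _ ⟨a, ha, rfl⟩ _ ⟨b, hb, rfl⟩
    have h1 := hc a ha b hb
    have h2 : (QuotientGroup.mk' N) (a * b * a⁻¹ * b⁻¹) = 1 :=
      (QuotientGroup.eq_one_iff _).2 h1
    simp only [map_mul, map_inv] at h2
    rw [mul_inv_eq_one, mul_inv_eq_iff_eq_mul] at h2
    exact h2
  have hperf' : ⁅V.map (QuotientGroup.mk' N), X.map (QuotientGroup.mk' N)⁆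
      = V.map (QuotientGroup.mk' N) := by
    rw [← Subgroup.map_commutator, hperf]
  obtain ⟨A, hA⟩ := cher_of_comm hq le_rfl hcomm hperf'
  have hAn : A.Normal := by
    refine nz_of_sup hq.sup (hA.nz ?_) (hA.nz (nz_of_normal hq.norm))
    exact nz_of_normal hq.norm
  have hcomapV : (V.map (QuotientGroup.mk' N)).comap (QuotientGroup.mk' N) = V := by
    rw [Subgroup.comap_map_eq, QuotientGroup.ker_mk', sup_eq_left.2 hNV]
  have hM : A.comap (QuotientGroup.mk' N) = V := by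
    refine hfi _ (hAn.comap _) ?_ ?_
    · calc A.comap (QuotientGroup.mk' N)
          ≤ (V.map (QuotientGroup.mk' N)).comap (QuotientGroup.mk' N) := Subgroup.comap_mono hA.1
        _ = V := hcomapV
    · rw [Subgroup.relIndex_comap]
      exact hA.2.2.1
  have hvA : (QuotientGroup.mk' N) v ∈ A := by
    rw [← Subgroup.mem_comap, hM]
    exact hv
  obtain ⟨b, hb, hbn⟩ := hA.2.2.2.2.1 _ hvA n hn
  obtain ⟨u, rfl⟩ := QuotientGroup.mk'_surjective N b
  have hu : u ∈ V := by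
    rw [← hM]
    exact hb
  refine ⟨u, hu, (u ^ n)⁻¹ * v, ?_, ?_⟩
  · rw [← QuotientGroup.eq]
    rw [← map_pow] at hbn
    exact hbn
  · group

end PMC.DV
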