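import Pool.Agent.PMC.LibDV

/-!
[PMC-E] case A of the main lemma: the commutative normal subgroup generated by the divisible parts.
-/

set_option autoImplicit false

namespace PMC.E

open PMC
open Subgroup

section

variable {G : Type*} [Group G] {p : ℕ} {V X : Subgroup G} {x : G}

/-- the proper `G`-normal closures give Chernikov groups `⁅F^G, X⁆` -/
theorem cher_T (h : MinCfg p V X x)
    (hA : ∀ F : Set G, F.Finite → F ⊆ V → Subgroup.normalClosure F ≠ V)
    {F : Set G} (hF : F.Finite) (hFV : F ⊆ V) :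
    Subgroup.normalClosure F ≤ V ∧ ⁅Subgroup.normalClosure F, X⁆ ≤ Subgroup.normalClosure F ∧
      Cher ⁅Subgroup.normalClosure F, X⁆ := by
  have := h.norm
  have hM : Subgroup.normalClosure F ≤ V := Subgroup.normalClosure_le_normal hFV
  have hMn : (Subgroup.normalClosure F).Normal := Subgroup.normalClosure_normal
  have hT : ⁅Subgroup.normalClosure F, X⁆ ≤ Subgroup.normalClosure F :=
    comm_le_left (nz_of_normal hMn)
  obtain ⟨k, hk⟩ := h.xp
  have hz := zpowers_facts h.prime hk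
  rw [← h.gen] at hz
  have hpp : PP p (Subgroup.normalClosure F) := fun u hu => h.pp u (hM hu)
  refine ⟨hM, hT, h.minl _ (hT.trans hM) ?_ ?_⟩
  · exact comm_comm h.prime h.lf hpp hz.1 hz.2 (nz_of_normal hMn)
  · intro he
    apply hA F hF hFV
    exact le_antisymm hM (he ▸ hT)

/-- a normal subgroup `M` which normalises `D` normalises every conjugate of `D` -/
theorem nz_cj_of_normal {M D : Subgroup G} (hM : M.Normal) (hD : Nz M D) (g : G) :
    Nz M (cj g D) := by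
  intro m hm u hu
  rw [mem_cj] at *
  have h1 : g⁻¹ * m * g ∈ M := by
    have := hM.conj_mem m hm g⁻¹
    rwa [inv_inv] at this
  have h2 := hD _ h1 _ hu
  have e : g⁻¹ * m * g * (g⁻¹ * u * g) * (g⁻¹ * m * g)⁻¹ = g⁻¹ * (m * u * m⁻¹) * g := by group
  rwa [e] at h2

theorem cj_le_normal {M D : Subgroup G} (hM : M.Normal) (hD : D ≤ M) (g : G) : cj g D ≤ M := by
  have := cj_mono (g := g) hD
  rwa [cj_normal g hM] at this

/-- two divisible parts commute -/
theorem commute_parts (h : MinCfg p V X x)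
    (hA : ∀ F : Set G, F.Finite → F ⊆ V → Subgroup.normalClosure F ≠ V)
    {F₁ F₂ : Set G} (hF₁ : F₁.Finite) (hFV₁ : F₁ ⊆ V) (hF₂ : F₂.Finite) (hFV₂ : F₂ ⊆ V)
    {g₁ g₂ : G} {A B : Subgroup G}
    (h1 : CherW A (cj g₁ ⁅Subgroup.normalClosure F₁, X⁆))
    (h2 : CherW B (cj g₂ ⁅Subgroup.normalClosure F₂, X⁆)) :
    ∀ a ∈ A, ∀ b ∈ B, a * b = b * a := by
  obtain ⟨hMV, hTM, D, hD⟩ := cher_T h hA (hF₁.union hF₂) (Set.union_subset hFV₁ hFV₂)
  set M := Subgroup.normalClosure (F₁ ∪ F₂) with hMdef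
  have hMn : M.Normal := Subgroup.normalClosure_normal
  have hMD : Nz M D := hD.nz nz_comm_left
  have hDM : D ≤ M := hD.1.trans hTM
  have hsub₁ : ⁅Subgroup.normalClosure F₁, X⁆ ≤ ⁅M, X⁆ :=
    Subgroup.commutator_mono (Subgroup.normalClosure_mono Set.subset_union_left) le_rfl
  have hsub₂ : ⁅Subgroup.normalClosure F₂, X⁆ ≤ ⁅M, X⁆ :=
    Subgroup.commutator_mono (Subgroup.normalClosure_mono Set.subset_union_right) le_rfl
  have hD₁ := hD.cj g₁
  have hD₂ := hD.cj g₂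
  have hA₁ : A ≤ cj g₁ D :=
    hD₁.le_of_divisible (h1.1.trans (cj_mono hsub₁)) h1.2.2.2.1 h1.2.2.2.2.1
  have hB₁ : B ≤ cj g₂ D :=
    hD₂.le_of_divisible (h2.1.trans (cj_mono hsub₂)) h2.2.2.2.1 h2.2.2.2.2.1
  have hn₁ : Nz (cj g₁ D) (cj g₂ D) :=
    (nz_cj_of_normal hMn hMD g₂).mono (cj_le_normal hMn hDM g₁)
  have hn₂ : Nz (cj g₂ D) (cj g₁ D) :=
    (nz_cj_of_normal hMn hMD g₁).mono (cj_le_normal hMn hDM g₂)
  intro a ha b hb
  exact divisible_commute h.lf hD₁.2.2.2.1 hD₂.2.2.2.1 hn₁ hn₂ hD₂.2.2.2.2.1 a (hA₁ ha) b (hB₁ hb)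

/-- [E] case A: no finite subset of `V` has normal closure `V`. -/
theorem exists_E (h : MinCfg p V X x)
    (hA : ∀ F : Set G, F.Finite → F ⊆ V → Subgroup.normalClosure F ≠ V) :
    ∃ E : Subgroup G, E.Normal ∧ E ≤ V ∧ (∀ a ∈ E, ∀ b ∈ E, a * b = b * a) ∧
      ∀ F : Set G, F.Finite → F ⊆ V →
        E.relIndex ⁅Subgroup.normalClosure F, X⁆ ≠ 0 := by
  set S : Set (Subgroup G) := {A | ∃ F : Set G, F.Finite ∧ F ⊆ V ∧ ∃ g : G,
    CherW A (cj g ⁅Subgroup.normalClosure F, X⁆)} with hS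
  have hcomm : ∀ A ∈ S, ∀ B ∈ S, ∀ a ∈ A, ∀ b ∈ B, a * b = b * a := by
    rintro A ⟨F₁, hF₁, hFV₁, g₁, h1⟩ B ⟨F₂, hF₂, hFV₂, g₂, h2⟩
    exact commute_parts h hA hF₁ hFV₁ hF₂ hFV₂ h1 h2
  refine ⟨sSup S, ?_, ?_, ?_, ?_⟩
  · refine ⟨fun u hu g => ?_⟩
    have hle : sSup S ≤ cj g⁻¹ (sSup S) := by
      refine sSup_le ?_
      rintro A ⟨F, hF, hFV, g₁, h1⟩
      have hmem : cj g A ∈ S := by
        refine ⟨F, hF, hFV, g * g₁, ?_⟩
        rw [← cj_cj]
        exact h1.cj g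
      have h2 : cj g A ≤ sSup S := le_sSup hmem
      have h3 := cj_mono (g := g⁻¹) h2
      rwa [cj_inv_cj] at h3
    have h4 := hle hu
    rw [mem_cj, inv_inv] at h4
    exact h4
  · refine sSup_le ?_
    rintro A ⟨F, hF, hFV, g₁, h1⟩
    obtain ⟨hMV, hTM, -⟩ := cher_T h hA hF hFV
    exact h1.1.trans (cj_le_normal h.norm (hTM.trans hMV) g₁)
  · have h1 : ∀ A ∈ S, A ≤ Subgroup.centralizer (sSup S : Subgroup G) := by
      intro A hA' a ha
      have h2 : sSup S ≤ Subgroup.centralizer (A : Set G) := by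
        refine sSup_le ?_
        intro B hB b hb
        rw [Subgroup.mem_centralizer_iff]
        intro a' ha'
        exact hcomm A hA' B hB a' ha' b hb
      rw [Subgroup.mem_centralizer_iff]
      intro b hb
      have h3 := h2 hb
      rw [Subgroup.mem_centralizer_iff] at h3
      exact (h3 a ha).symm
    have h2 : sSup S ≤ Subgroup.centralizer (sSup S : Subgroup G) := sSup_le h1
    intro a ha b hb
    have h3 := h2 hb
    rw [Subgroup.mem_centralizer_iff] at h3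
    exact h3 a ha
  · intro F hF hFV
    obtain ⟨hMV, hTM, D, hD⟩ := cher_T h hA hF hFV
    have hDE : D ≤ sSup S := by
      refine le_sSup ⟨F, hF, hFV, 1, ?_⟩
      rw [cj_one]
      exact hD
    have hdvd := Subgroup.relIndex_dvd_of_le_left (⁅Subgroup.normalClosure F, X⁆) hDE
    intro h0
    rw [h0, zero_dvd_iff] at hdvd
    exact hD.2.2.1 hdvd

end

end PMC.E
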