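import Pool.Agent.PMC.LibZ2

set_option autoImplicit false

namespace PMC.EC

open Subgroup PMC
open scoped commutatorElement

section

variable {G : Type*} [Group G] {p : ℕ} {V X : Subgroup G} {x : G}

/-- [EC1] -/
theorem exists_comm_mod (h : Cfg p V X x) (hperf : ⁅V, X⁆ = V) {E : Subgroup G} (hE : E.Normal)
    (hEV : E ≤ V) (hab : ∀ a ∈ V, ∀ b ∈ V, a * b * a⁻¹ * b⁻¹ ∈ E) {v : G} (hv : v ∈ V) :
    ∃ w ∈ V, ∃ e ∈ E, v = w * x * w⁻¹ * x⁻¹ * e := by
  have := hE
  have _ := hEV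
  have hVn := h.norm
  set π := QuotientGroup.mk' E with hπ
  have hker : ∀ g : G, π g = 1 ↔ g ∈ E := fun g => QuotientGroup.eq_one_iff g
  have hcomm : ∀ a ∈ V, ∀ b ∈ V, π a * π b = π b * π a := by
    intro a ha b hb
    have h1 := (hker _).2 (hab a ha b hb)
    rw [map_mul, map_mul, map_mul, map_inv, map_inv] at h1
    have h2 := mul_inv_eq_one.1 h1
    exact mul_inv_eq_iff_eq_mul.1 h2
  have hconj : ∀ w ∈ V, x * w * x⁻¹ ∈ V := fun w hw => hVn.conj_mem w hw x
  have hcV : ∀ w ∈ V, w * x * w⁻¹ * x⁻¹ ∈ V := by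
    intro w hw
    have h1 : w * x * w⁻¹ * x⁻¹ = w * (x * w⁻¹ * x⁻¹) := by group
    rw [h1]
    exact mul_mem hw (hconj _ (inv_mem hw))
  let P : G → Prop := fun c => ∃ w ∈ V, π c = π (w * x * w⁻¹ * x⁻¹)
  have hP1 : P 1 := ⟨1, one_mem V, by simp⟩
  have hPmul : ∀ a b, P a → P b → P (a * b) := by
    rintro a b ⟨w, hw, ha⟩ ⟨w', hw', hb⟩
    refine ⟨w * w', mul_mem hw hw', ?_⟩
    have h1 : w * w' * x * (w * w')⁻¹ * x⁻¹ =
        w * (w' * x * w'⁻¹ * x⁻¹) * w⁻¹ * (w * x * w⁻¹ * x⁻¹) := by group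
    rw [h1, map_mul π a b, ha, hb, map_mul π (w * (w' * x * w'⁻¹ * x⁻¹) * w⁻¹), map_mul π _ w⁻¹,
      map_mul π w, hcomm w hw _ (hcV w' hw'), mul_assoc (π (w' * x * w'⁻¹ * x⁻¹)), map_inv,
      mul_inv_cancel, mul_one]
    exact hcomm _ (hcV w hw) _ (hcV w' hw')
  have hPinv : ∀ a, P a → P a⁻¹ := by
    rintro a ⟨w, hw, ha⟩
    refine ⟨w⁻¹, inv_mem hw, ?_⟩
    have h1 : w⁻¹ * x * w⁻¹⁻¹ * x⁻¹ = w⁻¹ * (w * x * w⁻¹ * x⁻¹)⁻¹ * w := by group
    rw [h1, map_mul, map_mul, hcomm _ (inv_mem hw) _ (inv_mem (hcV w hw)), mul_assoc, map_inv π w,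
      inv_mul_cancel, mul_one, map_inv, map_inv, ha]
  have hPconj : ∀ c, P c → P (x * c * x⁻¹) := by
    rintro c ⟨w, hw, hc⟩
    refine ⟨x * w * x⁻¹, hconj w hw, ?_⟩
    have h1 : x * w * x⁻¹ * x * (x * w * x⁻¹)⁻¹ * x⁻¹ = x * (w * x * w⁻¹ * x⁻¹) * x⁻¹ := by group
    rw [h1, map_mul π (x * c), map_mul π x, map_mul π (x * (w * x * w⁻¹ * x⁻¹)), map_mul π x, hc]
  have hPpow : ∀ u ∈ V, ∀ n : ℕ, P (u * x ^ n * u⁻¹ * (x ^ n)⁻¹) := by
    intro u hu n
    induction n with
    | zero => simpa using hP1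
    | succ n ih =>
      have h1 : u * x ^ (n + 1) * u⁻¹ * (x ^ (n + 1))⁻¹ =
          (u * x * u⁻¹ * x⁻¹) * (x * (u * x ^ n * u⁻¹ * (x ^ n)⁻¹) * x⁻¹) := by
        rw [pow_succ' x n]; group
      rw [h1]
      exact hPmul _ _ ⟨u, hu, rfl⟩ (hPconj _ ih)
  have hfin : IsOfFinOrder x := by
    obtain ⟨k, hk⟩ := h.xp
    exact isOfFinOrder_iff_pow_eq_one.2 ⟨p ^ k, pow_pos h.prime.pos k, hk⟩
  have key : ∀ c ∈ ⁅V, X⁆, P c := by
    intro c hc
    rw [Subgroup.commutator_def] at hc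
    refine Subgroup.closure_induction (p := fun c _ => P c) ?_ hP1 ?_ ?_ hc
    · rintro _ ⟨u, hu, y, hy, rfl⟩
      rw [h.gen] at hy
      obtain ⟨n, rfl⟩ := (Submonoid.mem_powers_iff _ _).1 (hfin.mem_powers_iff_mem_zpowers.2 hy)
      rw [commutatorElement_def]
      exact hPpow u hu n
    · intro a b _ _ ha hb
      exact hPmul a b ha hb
    · intro a _ ha
      exact hPinv a ha
  obtain ⟨w, hw, hvw⟩ := key v (by rw [hperf]; exact hv)
  refine ⟨w, hw, (w * x * w⁻¹ * x⁻¹)⁻¹ * v, ?_, by group⟩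
  rw [← hker, map_mul, hvw, ← map_mul, inv_mul_cancel, map_one]

/-- [EC2] -/
theorem comm_of_E (h : Cfg p V X x) (hperf : ⁅V, X⁆ = V) {E : Subgroup G} (hE : E.Normal)
    (hEV : E ≤ V) (hEc : ∀ a ∈ E, ∀ b ∈ E, a * b = b * a)
    (hab : ∀ a ∈ V, ∀ b ∈ V, a * b * a⁻¹ * b⁻¹ ∈ E)
    (hdiv : ∀ v ∈ V, ∀ n : ℕ, 0 < n → ∃ u ∈ V, ∃ e ∈ E, v = u ^ n * e) :
    ∀ a ∈ V, ∀ b ∈ V, a * b = b * a := by
  classical
  have hp := h.prime
  have hXfacts : Finite X ∧ IsPGroup p X := by
    obtain ⟨k, hk⟩ := h.xp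
    rw [h.gen]
    exact zpowers_facts hp hk
  have hppE : PP p E := fun u hu k hk => h.pp u (hEV hu) k hk
  have hNXE : Nz X E := nz_of_normal hE
  have hcle : ⁅E, X⁆ ≤ E := comm_le_left hNXE
  have hxX : x ∈ X := by rw [h.gen]; exact Subgroup.mem_zpowers x
  have hcher : Cher ⁅E, X⁆ := cher_of_comm h (hcle.trans hEV)
    (fun a ha b hb => hEc a (hcle ha) b (hcle hb))
    (comm_comm hp h.lf hppE hXfacts.1 hXfacts.2 hNXE)
  have hEconj : ∀ g : G, ∀ a ∈ E, g * a * g⁻¹ ∈ E := fun g a ha => hE.conj_mem a ha g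
  have hpowc : ∀ (g a : G) (n : ℕ), (g * a * g⁻¹) ^ n = g * a ^ n * g⁻¹ := fun g a n => conj_pow
  have hpowm : ∀ (n : ℕ), ∀ a ∈ E, ∀ b ∈ E, (a * b) ^ n = a ^ n * b ^ n := fun n a ha b hb =>
    (show Commute a b from hEc a ha b hb).mul_pow n
  -- the torsion of `E` is central in `V`
  have hcent : ∀ n : ℕ, 0 < n → ∀ v ∈ V, ∀ a ∈ E, a ^ n = 1 → v * a = a * v := by
    intro n hn
    set S : Set G := {u : G | u ∈ ⁅E, X⁆ ∧ u ^ n = 1} with hS
    have hSf : S.Finite := Cher.finite_torsion hcher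
      (fun a ha b hb => hEc a (hcle ha) b (hcle hb)) hn
    set N := S.ncard * S.ncard with hN
    -- a uniform power centralises
    have hpow : ∀ v ∈ V, ∀ a ∈ E, a ^ n = 1 → v ^ (N.factorial * n) * a = a * v ^ (N.factorial * n) := by
      intro v hv
      set Q : Set G := {q | ∃ a ∈ E, a ^ n = 1 ∧ q = a⁻¹ * (v * a * v⁻¹)} with hQ
      obtain ⟨w, hw, e, he, hvw⟩ := exists_comm_mod h hperf hE hEV hab hv
      have hQS : Q ⊆ (fun st : G × G => st.1 * (w * st.2 * w⁻¹)) '' (S ×ˢ S) := by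
        rintro _ ⟨a, ha, han, rfl⟩
        have hb : x⁻¹ * a * x ∈ E := by simpa using hEconj x⁻¹ a ha
        have hbn : (x⁻¹ * a * x) ^ n = 1 := by
          have := hpowc x⁻¹ a n
          rw [inv_inv] at this
          rw [this, han]; group
        set b := x⁻¹ * a * x with hbdef
        have hc : w⁻¹ * b * w ∈ E := by simpa using hEconj w⁻¹ b hb
        have hcn : (w⁻¹ * b * w) ^ n = 1 := by
          have := hpowc w⁻¹ b n
          rw [inv_inv] at this
          rw [this, hbn]; group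
        set c := w⁻¹ * b * w with hcdef
        refine ⟨(a⁻¹ * b, c⁻¹ * (x * c * x⁻¹)), ⟨⟨?_, ?_⟩, ⟨?_, ?_⟩⟩, ?_⟩
        · show a⁻¹ * b ∈ ⁅E, X⁆
          have h1 : a⁻¹ * b = ⁅a⁻¹, x⁻¹⁆ := by
            rw [commutatorElement_def, hbdef]; group
          rw [h1]
          exact Subgroup.commutator_mem_commutator (inv_mem ha) (inv_mem hxX)
        · show (a⁻¹ * b) ^ n = 1
          rw [hpowm n _ (inv_mem ha) _ hb, inv_pow, han, hbn]; simp
        · show c⁻¹ * (x * c * x⁻¹) ∈ ⁅E, X⁆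
          have h1 : c⁻¹ * (x * c * x⁻¹) = ⁅c⁻¹, x⁆ := by
            rw [commutatorElement_def]; group
          rw [h1]
          exact Subgroup.commutator_mem_commutator (inv_mem hc) hxX
        · show (c⁻¹ * (x * c * x⁻¹)) ^ n = 1
          rw [hpowm n _ (inv_mem hc) _ (hEconj x c hc), inv_pow, hcn, hpowc, hcn]; simp
        · show a⁻¹ * b * (w * (c⁻¹ * (x * c * x⁻¹)) * w⁻¹) = a⁻¹ * (v * a * v⁻¹)
          have h1 : v * a * v⁻¹ = w * x * w⁻¹ * x⁻¹ * (e * a * e⁻¹) * (w * x * w⁻¹ * x⁻¹)⁻¹ := by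
            rw [hvw]; group
          have h2 : e * a * e⁻¹ = a := by rw [hEc e he a ha]; group
          rw [h1, h2, hcdef, hbdef]
          group
      have hQf : Q.Finite := (((hSf.prod hSf).image _).subset hQS)
      have hQc : Q.ncard ≤ N := by
        refine (Set.ncard_le_ncard hQS ((hSf.prod hSf).image _)).trans ?_
        refine (Set.ncard_image_le (hSf.prod hSf)).trans ?_
        rw [Set.ncard_prod]
      have hQE : ∀ q ∈ Q, q ∈ E ∧ q ^ n = 1 := by
        rintro _ ⟨a, ha, han, rfl⟩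
        refine ⟨mul_mem (inv_mem ha) (hEconj v a ha), ?_⟩
        rw [hpowm n _ (inv_mem ha) _ (hEconj v a ha), inv_pow, han, hpowc, han]; simp
      have hQm : ∀ q ∈ Q, ∀ q' ∈ Q, q * q' ∈ Q := by
        rintro _ ⟨a, ha, han, rfl⟩ _ ⟨b, hb, hbn, rfl⟩
        refine ⟨a * b, mul_mem ha hb, by rw [hpowm n a ha b hb, han, hbn, one_mul], ?_⟩
        have h1 : (a * b)⁻¹ * (v * (a * b) * v⁻¹) =
            b⁻¹ * ((a⁻¹ * (v * a * v⁻¹)) * (v * b * v⁻¹)) := by group
        have h2 := hEc b⁻¹ (inv_mem hb) _ (mul_mem (inv_mem ha) (hEconj v a ha))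
        rw [h1, ← mul_assoc b⁻¹ (a⁻¹ * (v * a * v⁻¹)), h2]
        exact (mul_assoc _ _ _).symm
      have hQv : ∀ q ∈ Q, v * q * v⁻¹ ∈ Q := by
        rintro _ ⟨a, ha, han, rfl⟩
        refine ⟨v * a * v⁻¹, hEconj v a ha, by rw [hpowc, han]; simp, ?_⟩
        group
      have hQpow : ∀ q ∈ Q, ∀ j : ℕ, v ^ j * q * (v ^ j)⁻¹ ∈ Q := by
        intro q hq j
        induction j with
        | zero => simpa using hq
        | succ j ih =>
          have h1 : v ^ (j + 1) * q * (v ^ (j + 1))⁻¹ = v * (v ^ j * q * (v ^ j)⁻¹) * v⁻¹ := by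
            rw [pow_succ' v j]; group
          rw [h1]
          exact hQv _ ih
      -- `z = v ^ N!` centralises `Q`
      have hz : ∀ q ∈ Q, Commute (v ^ N.factorial) q := by
        intro q hq
        obtain ⟨i, hi, j, hj, hij, hf⟩ :=
          Finset.exists_ne_map_eq_of_card_lt_of_maps_to (s := Finset.range (N + 1))
            (t := hQf.toFinset) (f := fun j => v ^ j * q * (v ^ j)⁻¹)
            (by rw [Finset.card_range, ← Set.ncard_eq_toFinset_card Q hQf]; omega)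
            (fun j _ => by
              rw [Finset.mem_coe, Set.Finite.mem_toFinset]
              exact hQpow q hq j)
        wlog hlt : i < j generalizing i j
        · exact this j hj i hi hij.symm hf.symm (by omega)
        rw [Finset.mem_range] at hi hj
        have hd : v ^ (j - i) * q = q * v ^ (j - i) := by
          have h1 : v ^ j = v ^ i * v ^ (j - i) := by rw [← pow_add]; congr 1; omega
          rw [h1] at hf
          have h2 : v ^ i * v ^ (j - i) * q * (v ^ i * v ^ (j - i))⁻¹ =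
              v ^ i * (v ^ (j - i) * q * (v ^ (j - i))⁻¹) * (v ^ i)⁻¹ := by group
          rw [h2] at hf
          have h3 := mul_left_cancel (mul_right_cancel hf)
          rw [eq_mul_inv_iff_mul_eq] at h3
          exact h3.symm
        obtain ⟨m, hm⟩ : (j - i) ∣ N.factorial := Nat.dvd_factorial (by omega) (by omega)
        rw [hm, pow_mul]
        exact (show Commute (v ^ (j - i)) q from hd).pow_left m
      have h1Q : ∀ a ∈ E, a ^ n = 1 → ∀ j : ℕ, 0 < j → a⁻¹ * (v ^ j * a * (v ^ j)⁻¹) ∈ Q := by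
        intro a ha han j hj
        induction j with
        | zero => omega
        | succ j ih =>
          rcases Nat.eq_zero_or_pos j with hj0 | hj0
          · subst hj0
            refine ⟨a, ha, han, by simp⟩
          · have h1 : a⁻¹ * (v ^ (j + 1) * a * (v ^ (j + 1))⁻¹) =
                (a⁻¹ * (v * a * v⁻¹)) * (v * (a⁻¹ * (v ^ j * a * (v ^ j)⁻¹)) * v⁻¹) := by
              rw [pow_succ' v j]; group
            rw [h1]
            exact hQm _ ⟨a, ha, han, rfl⟩ _ (hQv _ (ih hj0))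
      intro a ha han
      set z := v ^ N.factorial with hzdef
      have hr := h1Q a ha han N.factorial (Nat.factorial_pos N)
      rw [← hzdef] at hr
      set r := a⁻¹ * (z * a * z⁻¹) with hrdef
      have hzr := hz r hr
      have hza : ∀ j : ℕ, z ^ j * a = a * r ^ j * z ^ j := by
        intro j
        induction j with
        | zero => simp
        | succ j ih =>
          have h1 : z * a = a * r * z := by rw [hrdef]; group
          have h2 : z * r ^ j = r ^ j * z := (hzr.pow_right j)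
          calc z ^ (j + 1) * a = z * (z ^ j * a) := by rw [pow_succ' z j, mul_assoc]
            _ = z * a * r ^ j * z ^ j := by rw [ih]; group
            _ = a * r * (z * r ^ j) * z ^ j := by rw [h1]; group
            _ = a * r * (r ^ j * z) * z ^ j := by rw [h2]
            _ = a * r ^ (j + 1) * z ^ (j + 1) := by rw [pow_succ' r j, pow_succ' z j]; group
      have h3 := hza n
      rw [(hQE r hr).2, mul_one] at h3
      rw [pow_mul, ← hzdef]
      exact h3
    intro v hv a ha han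
    obtain ⟨u, hu, e, he, rfl⟩ := hdiv v hv (N.factorial * n) (Nat.mul_pos (Nat.factorial_pos N) hn)
    rw [mul_assoc, hEc e he a ha, ← mul_assoc, hpow u hu a ha han, mul_assoc]
  have hcentral : ∀ v ∈ V, ∀ a ∈ E, v * a = a * v := by
    intro v hv a ha
    obtain ⟨n, hn, han⟩ := h.lf.torsion a
    exact hcent n hn v hv a ha han
  intro u hu v hv
  obtain ⟨n, hn, hvn⟩ := h.lf.torsion v
  obtain ⟨w, hw, e, he, rfl⟩ := hdiv u hu n hn
  set c := w * v * w⁻¹ * v⁻¹ with hc
  have hcE : c ∈ E := hab w hw v hv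
  have hwv : w * v * w⁻¹ = c * v := by rw [hc]; group
  have hcn : c ^ n = 1 := by
    have h1 : (w * v * w⁻¹) ^ n = c ^ n * v ^ n := by
      rw [hwv]
      exact (show Commute c v from (hcentral v hv c hcE).symm).mul_pow n
    rw [hpowc, hvn, mul_one, mul_one, mul_inv_cancel] at h1
    exact h1.symm
  have hwn : ∀ j : ℕ, w ^ j * v = c ^ j * v * w ^ j := by
    intro j
    induction j with
    | zero => simp
    | succ j ih =>
      have h2 : w * c ^ j = c ^ j * w := (show Commute w c from hcentral w hw c hcE).pow_right j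
      have h3 : w * v = c * v * w := by rw [← hwv]; group
      calc w ^ (j + 1) * v = w * (w ^ j * v) := by rw [pow_succ' w j, mul_assoc]
        _ = (w * c ^ j) * v * w ^ j := by rw [ih]; group
        _ = c ^ j * (w * v) * w ^ j := by rw [h2]; group
        _ = c ^ j * (c * v * w) * w ^ j := by rw [h3]
        _ = c ^ (j + 1) * v * w ^ (j + 1) := by rw [pow_succ c j, pow_succ' w j]; group
  have h4 := hwn n
  rw [hcn, one_mul] at h4
  rw [mul_assoc, ← hcentral v hv e he, ← mul_assoc, h4, mul_assoc]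

end

end PMC.EC
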