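import Pool.Agent.PMC.LibD

set_option autoImplicit false

namespace PMC.FI

open Subgroup PMC
open scoped commutatorElement

section

variable {G : Type*} [Group G] {p : ℕ} {V X : Subgroup G} {x : G}

theorem nz_sup {A B K : Subgroup G} (hA : Nz A K) (hB : Nz B K) : Nz (A ⊔ B) K := by
  rw [nz_iff_cj]
  intro g hg
  rw [Subgroup.sup_eq_closure] at hg
  refine Subgroup.closure_induction (p := fun g _ => cj g K = K) ?_ ?_ ?_ ?_ hg
  · rintro y (hy | hy)
    · exact nz_iff_cj.1 hA y hy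
    · exact nz_iff_cj.1 hB y hy
  · exact cj_one K
  · intro a b _ _ ha hb
    rw [← cj_cj, hb, ha]
  · intro a _ ha
    have := cj_inv_cj a K
    rwa [ha] at this

/-- [FI] no proper `G`-normal subgroup of finite index in a minimal situation. -/
theorem MinCfg.fi (h : MinCfg p V X x) {M : Subgroup G} (hM : M.Normal) (hMV : M ≤ V)
    (hi : M.relIndex V ≠ 0) : M = V := by
  classical
  by_contra hne
  obtain ⟨k, hk⟩ := h.xp
  obtain ⟨hXf, hXp⟩ := zpowers_facts h.prime hk
  rw [← h.gen] at hXf hXp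
  have hG := h.lf
  have hppM : PP p M := fun u hu => h.pp u (hMV hu)
  -- `⁅M, X⁆` is Chernikov
  have hMX : Cher ⁅M, X⁆ := by
    have hle : ⁅M, X⁆ ≤ M := comm_le_left (nz_of_normal hM)
    refine h.minl _ (hle.trans hMV) (comm_comm h.prime hG hppM hXf hXp (nz_of_normal hM)) ?_
    intro h1
    exact hne (le_antisymm hMV (h1 ▸ hle))
  -- the finite group `W`
  have hfin : Finite (V ⧸ M.subgroupOf V) := Subgroup.index_ne_zero_iff_finite.1 hi
  obtain ⟨W, hWf, hWV, hWperf, hSW⟩ := exists_finite_perf h.toCfg h.perf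
    (S := Set.range fun q : V ⧸ M.subgroupOf V => ((q.out : V) : G)) (Set.finite_range _) (by
      rintro _ ⟨q, rfl⟩
      exact (q.out : V).2)
  have hVMW : ∀ v ∈ V, ∃ m ∈ M, ∃ w ∈ W, v = m * w := by
    intro v hv
    set q : V ⧸ M.subgroupOf V := QuotientGroup.mk ⟨v, hv⟩ with hq
    have h1 : (QuotientGroup.mk (q.out) : V ⧸ M.subgroupOf V) = QuotientGroup.mk ⟨v, hv⟩ := by
      rw [← hq]
      exact Quotient.out_eq' q
    rw [QuotientGroup.eq, Subgroup.mem_subgroupOf] at h1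
    have h2 : ((q.out : V) : G)⁻¹ * v ∈ M := by simpa using h1
    refine ⟨v * ((q.out : V) : G)⁻¹, ?_, ((q.out : V) : G), hSW ⟨q, rfl⟩, by group⟩
    have h3 := hM.conj_mem _ h2 ((q.out : V) : G)
    have e : ((q.out : V) : G) * (((q.out : V) : G)⁻¹ * v) * ((q.out : V) : G)⁻¹ =
      v * ((q.out : V) : G)⁻¹ := by group
    rwa [e] at h3
  -- the group `K`
  set A : G → Subgroup G := fun w => ⁅M, cj w X⁆ with hA
  set K : Subgroup G := ⨆ w : W, A w with hK
  have hAcj : ∀ g w : G, cj g (A w) = A (g * w) := by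
    intro g w
    simp only [hA]
    rw [cj_comm, cj_normal g hM, cj_cj]
  have hAK : ∀ w ∈ W, A w ≤ K := fun w hw => le_iSup (fun w : W => A w) ⟨w, hw⟩
  have hAM : ∀ w, A w ≤ M := fun w => comm_le_left (nz_of_normal hM)
  have hKM : K ≤ M := iSup_le fun w => hAM w
  have hKcher : Cher K := by
    refine Cher.iSup hG (M := M) (fun w => hAM w) (fun w => nz_comm_left) fun w => ?_
    have e : A (w : G) = cj (w : G) (A 1) := by rw [hAcj, mul_one]
    have e1 : A 1 = ⁅M, X⁆ := by simp only [hA]; rw [cj_one]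
    rw [e, e1]
    unfold PMC.cj
    rw [cher_map_iff _ (MulAut.conj (w : G)).injective]
    exact hMX
  have hNz : ∀ Y : Subgroup G, (∀ y ∈ Y, ∀ w ∈ W, cj y (A w) ≤ K) → Nz Y K := by
    intro Y hY y hy u hu
    have h1 : cj y K ≤ K := by
      rw [hK]
      unfold PMC.cj
      rw [Subgroup.map_iSup]
      exact iSup_le fun w => hY y hy w w.2
    exact h1 (conj_mem_cj.2 hu)
  have hNM : Nz M K := by
    refine hNz M fun y hy w hw => ?_
    have h1 : cj y (A w) = A w := nz_iff_cj.1 (nz_comm_left (M := M) (X := cj w X)) y hy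
    rw [h1]
    exact hAK w hw
  have hNW : Nz W K := by
    refine hNz W fun y hy w hw => ?_
    rw [hAcj]
    exact hAK _ (mul_mem hy hw)
  have hXW : Nz X W := nz_of_perf hWperf
  have hNX : Nz X K := by
    refine hNz X fun y hy w hw => ?_
    rw [hAcj]
    have e : A (y * w) = A (y * w * y⁻¹) := by
      simp only [hA]
      have e1 : cj (y * w) X = cj (y * w * y⁻¹) (cj y X) := by
        rw [cj_cj]
        congr 1
        group
      have e2 : cj y X = X := by
        have h2 : Nz X X := by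
          intro a ha b hb
          exact mul_mem (mul_mem ha hb) (inv_mem ha)
        exact nz_iff_cj.1 h2 y hy
      rw [e1, e2]
    rw [e]
    exact hAK _ (hXW y hy w hw)
  have hVW : V ≤ M ⊔ W := by
    intro v hv
    obtain ⟨m, hm, w, hw, rfl⟩ := hVMW v hv
    exact mul_mem (Subgroup.mem_sup_left hm) (Subgroup.mem_sup_right hw)
  have hKn : K.Normal := nz_of_sup h.sup ((nz_sup hNM hNW).mono hVW) hNX
  -- the centraliser of `M` modulo `K`
  have hC1 : ∀ a b m : G, ⁅m, a⁆ ∈ K → ⁅m, b⁆ ∈ K → ⁅m, a * b⁆ ∈ K := by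
    intro a b m ha hb
    have e : ⁅m, a * b⁆ = ⁅m, a⁆ * (a * ⁅m, b⁆ * a⁻¹) := by
      simp only [commutatorElement_def]
      group
    rw [e]
    exact mul_mem ha (hKn.conj_mem _ hb a)
  have hC2 : ∀ a m : G, ⁅m, a⁆ ∈ K → ⁅m, a⁻¹⁆ ∈ K := by
    intro a m ha
    have e : ⁅m, a⁻¹⁆ = a⁻¹ * ⁅m, a⁆⁻¹ * a⁻¹⁻¹ := by
      simp only [commutatorElement_def]
      group
    rw [e]
    exact hKn.conj_mem _ (inv_mem ha) _
  have hXC : ∀ m ∈ M, ∀ w ∈ W, ∀ y ∈ X, ⁅m, w * y * w⁻¹⁆ ∈ K := by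
    intro m hm w hw y hy
    exact hAK w hw (Subgroup.commutator_mem_commutator hm (conj_mem_cj.2 hy))
  have hXC' : ∀ m ∈ M, ∀ y ∈ X, ⁅m, y⁆ ∈ K := by
    intro m hm y hy
    have := hXC m hm 1 (one_mem W) y hy
    simpa using this
  have hWC : ∀ m ∈ M, ∀ w ∈ W, ⁅m, w⁆ ∈ K := by
    intro m hm w hw
    rw [← hWperf, Subgroup.commutator_def] at hw
    refine Subgroup.closure_induction (p := fun w _ => ⁅m, w⁆ ∈ K) ?_ ?_ ?_ ?_ hw
    · rintro _ ⟨a, ha, y, hy, rfl⟩
      have e : ⁅a, y⁆ = (a * y * a⁻¹) * y⁻¹ := by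
        simp only [commutatorElement_def]
      rw [e]
      exact hC1 _ _ _ (hXC m hm a ha y hy) (hC2 _ _ (hXC' m hm y hy))
    · simp
    · intro a b _ _ ha hb
      exact hC1 _ _ _ ha hb
    · intro a _ ha
      exact hC2 _ _ ha
  -- `V = K ⊔ W`
  have hV : V = K ⊔ W := by
    refine le_antisymm ?_ (sup_le (hKM.trans hMV) hWV)
    have hperf := h.perf
    rw [← hperf, Subgroup.commutator_le]
    intro v hv y hy
    obtain ⟨m, hm, w, hw, rfl⟩ := hVMW v hv
    have hwy : ⁅w, y⁆ ∈ W := by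
      have := Subgroup.commutator_mem_commutator hw hy
      rwa [hWperf] at this
    have e : ⁅m * w, y⁆ = ⁅m, ⁅w, y⁆⁆ * ⁅w, y⁆ * ⁅m, y⁆ := by
      simp only [commutatorElement_def]
      group
    rw [e]
    exact mul_mem (mul_mem (Subgroup.mem_sup_left (hWC m hm _ hwy)) (Subgroup.mem_sup_right hwy))
      (Subgroup.mem_sup_left (hXC' m hm y hy))
  have hKi : K.relIndex V ≠ 0 := by
    rw [hV, Subgroup.relIndex_sup_left]
    exact Subgroup.index_ne_zero_of_finite
  exact h.ncher (Cher.of_relIndex (hKM.trans hMV) (nz_of_normal hKn) hKi hKcher)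

end

end PMC.FI
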