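import Pool.Agent.PMC.Defs

/-!
[PMC] Row L: easy facts about locally finite groups.
-/

set_option autoImplicit false

namespace PMC.L

open PMC Subgroup

/-- [L] -/
theorem LF.subgroup {G : Type*} [Group G] (h : LF G) (U : Subgroup G) : LF U := by
  intro s hs
  have h1 := h (U.subtype '' s) (hs.image _)
  rw [← MonoidHom.map_closure, Subgroup.coe_map] at h1
  exact h1.of_finite_image U.subtype_injective.injOn

/-- [L] lift a finite set of generators to the group -/
theorem LF.quotient {G : Type*} [Group G] (h : LF G) (N : Subgroup G) [N.Normal] : LF (G ⧸ N) := by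
  intro s hs
  have h1 := h (Quotient.out '' s) (hs.image _)
  have h2 : QuotientGroup.mk' N '' (Quotient.out '' s) = s := by
    rw [Set.image_image]
    convert Set.image_id s using 1
    refine Set.image_congr fun x _ => ?_
    simp
  have h3 : (Subgroup.closure s : Set (G ⧸ N)) =
      QuotientGroup.mk' N '' (Subgroup.closure (Quotient.out '' s) : Set G) := by
    rw [← Subgroup.coe_map, MonoidHom.map_closure, h2]
  rw [h3]
  exact h1.image _

/-- [L] -/
theorem LF.torsion {G : Type*} [Group G] (h : LF G) (g : G) : ∃ n : ℕ, 0 < n ∧ g ^ n = 1 := by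
  have h1 := h {g} (Set.finite_singleton g)
  rw [← Subgroup.zpowers_eq_closure] at h1
  have h2 : IsOfFinOrder g := by
    rw [← finite_zpowers]
    exact h1
  exact isOfFinOrder_iff_pow_eq_one.1 h2

section

variable {G : Type*} [Group G]

/-- [L] the join of two finite subgroups is finite -/
theorem LF.finite_sup (h : LF G) {X Y : Subgroup G} (hX : Finite X) (hY : Finite Y) :
    Finite (X ⊔ Y : Subgroup G) := by
  have h1 := h ((X : Set G) ∪ Y) ((Set.toFinite (X : Set G)).union (Set.toFinite (Y : Set G)))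
  rw [← Subgroup.sup_eq_closure] at h1
  exact h1

theorem isOfFin (hG : LF G) (g : G) : IsOfFinOrder g :=
  isOfFinOrder_iff_pow_eq_one.2 (LF.torsion hG g)

theorem coprime_orderOf {p : ℕ} (hp : p.Prime) (hG : LF G) {V : Subgroup G} (hV : PP p V) {v : G}
    (hv : v ∈ V) : p.Coprime (orderOf v) := by
  rw [hp.coprime_iff_not_dvd]
  rintro ⟨m, hm⟩
  have h0 : 0 < orderOf v := (isOfFin hG v).orderOf_pos
  have hm0 : 0 < m := by
    rcases Nat.eq_zero_or_pos m with h | h
    · rw [h, mul_zero] at hm; omega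
    · exact h
  have h1 : v ^ m = 1 := by
    refine hV _ (pow_mem hv m) 1 ?_
    rw [pow_one, ← pow_mul, mul_comm m p, ← hm, pow_orderOf_eq_one]
  have h2 := Nat.le_of_dvd hm0 (orderOf_dvd_of_pow_eq_one h1)
  rw [hm] at h2
  have h3 : 1 < p := hp.one_lt
  nlinarith

/-- [L] (`v` has an order `n` prime to `p`, and `v` is a power of `v ^ (p ^ k)`) -/
theorem PP.mem_of_pow {p : ℕ} (hp : p.Prime) (hG : LF G) {V : Subgroup G} (hV : PP p V) {v : G}
    (hv : v ∈ V) {k : ℕ} {N : Subgroup G} (h : v ^ (p ^ k) ∈ N) : v ∈ N := by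
  have h1 : (p ^ k).Coprime (orderOf v) := (coprime_orderOf hp hG hV hv).pow_left k
  obtain ⟨m, hm⟩ := exists_pow_eq_self_of_coprime h1
  rw [← hm]
  exact pow_mem h m

/-- [L] quotients of `p'`-groups (use `PP.mem_of_pow`) -/
theorem PP.quotient {p : ℕ} (hp : p.Prime) (hG : LF G) {V : Subgroup G} (hV : PP p V)
    (N : Subgroup G) [N.Normal] : PP p (V.map (QuotientGroup.mk' N)) := by
  rintro _ ⟨v, hv, rfl⟩ k hk
  rw [← map_pow, QuotientGroup.mk'_apply, QuotientGroup.eq_one_iff] at hk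
  rw [QuotientGroup.mk'_apply, QuotientGroup.eq_one_iff]
  exact PP.mem_of_pow hp hG hV hv hk

/-- [L] a `p`-element of `G` modulo a normal `p'`-subgroup is represented by a `p`-element -/
theorem exists_p_lift {p : ℕ} (hp : p.Prime) (hG : LF G) (N : Subgroup G) [N.Normal] {g : G} {k : ℕ}
    (h : g ^ (p ^ k) ∈ N) : ∃ a : G, (∃ l : ℕ, a ^ (p ^ l) = 1) ∧ g⁻¹ * a ∈ N := by
  have h0 : 0 < orderOf g := (isOfFin hG g).orderOf_pos
  obtain ⟨l, m, hm, hn⟩ := Nat.exists_eq_pow_mul_and_not_dvd h0.ne' p hp.one_lt.ne'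
  have hcop : m.Coprime (p ^ k) := ((hp.coprime_iff_not_dvd).2 hm).symm.pow_right k
  obtain ⟨m', hm'⟩ : ∃ m' : ℕ, m * m' ≡ 1 [MOD p ^ k] := by
    rcases Nat.lt_or_ge 1 (p ^ k) with h1 | h1
    · obtain ⟨m', -, hm'⟩ := Nat.exists_mul_mod_eq_one_of_coprime hcop h1
      exact ⟨m', by rw [Nat.ModEq, hm', Nat.mod_eq_of_lt h1]⟩
    · have h2 : p ^ k = 1 := le_antisymm h1 (pow_pos hp.pos k)
      rw [h2]
      exact ⟨0, Nat.modEq_one⟩
  refine ⟨g ^ (m * m'), ⟨l, ?_⟩, ?_⟩
  · rw [← pow_mul, show m * m' * p ^ l = orderOf g * m' by rw [hn]; ring, pow_mul,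
      pow_orderOf_eq_one, one_pow]
  · obtain ⟨c, hc⟩ := (Nat.modEq_iff_dvd.1 hm')
    have e : g⁻¹ * g ^ (m * m') = (g ^ (p ^ k)) ^ (-c) := by
      have e1 : g⁻¹ * g ^ (m * m') = g ^ (((m * m' : ℕ) : ℤ) - 1) := by
        rw [zpow_sub, zpow_one, zpow_natCast]
        exact ((Commute.refl g).inv_left.pow_right _).eq
      rw [e1, ← zpow_natCast g (p ^ k), ← zpow_mul]
      congr 1
      push_cast at hc ⊢
      linarith
    rw [e]
    exact zpow_mem h _

/-- [L] `zpowers x` is a finite `p`-group -/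
theorem zpowers_facts {p : ℕ} (hp : p.Prime) {x : G} {k : ℕ} (hx : x ^ (p ^ k) = 1) :
    Finite (Subgroup.zpowers x) ∧ IsPGroup p (Subgroup.zpowers x) := by
  constructor
  · have h1 : IsOfFinOrder x := isOfFinOrder_iff_pow_eq_one.2 ⟨p ^ k, pow_pos hp.pos k, hx⟩
    exact finite_zpowers.2 h1
  · rintro ⟨y, hy⟩
    refine ⟨k, Subtype.ext ?_⟩
    obtain ⟨i, rfl⟩ := Subgroup.mem_zpowers_iff.1 hy
    rw [Subgroup.coe_pow, Subgroup.coe_one]
    simp only
    rw [← zpow_natCast, ← zpow_mul, mul_comm, zpow_mul, zpow_natCast, hx, one_zpow]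

end

end PMC.L
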