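import Pool.Agent.PMC.LibS

set_option autoImplicit false

namespace PMC.N

open Subgroup PMC
open scoped Pointwise

variable {G : Type*} [Group G]

theorem finite_class {s : G} (h : (Subgroup.centralizer ({s} : Set G)).FiniteIndex) :
    (Set.range fun g : G => g * s * g⁻¹).Finite := by
  classical
  let H := Subgroup.centralizer ({s} : Set G)
  haveI : H.FiniteIndex := h
  haveI : Finite (G ⧸ H) := inferInstance
  let F : G ⧸ H → G := Quotient.lift (fun g : G => g * s * g⁻¹) (by
    intro a b hab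
    have hab' : a⁻¹ * b ∈ H := by
      have := QuotientGroup.leftRel_apply.1 hab
      exact this
    have hc : s * (a⁻¹ * b) = (a⁻¹ * b) * s := by
      have := Subgroup.mem_centralizer_iff.1 hab' s (Set.mem_singleton s)
      exact this
    have hb : b = a * (a⁻¹ * b) := by group
    show a * s * a⁻¹ = b * s * b⁻¹
    have e1 : b * s * b⁻¹ = a * ((a⁻¹ * b) * s) * (a⁻¹ * b)⁻¹ * a⁻¹ := by group
    rw [e1, ← hc]
    group)
  refine (Set.finite_range F).subset ?_
  rintro _ ⟨g, rfl⟩
  exact ⟨(g : G ⧸ H), rfl⟩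

/-- [N] B. H. Neumann. -/
theorem neumann {T : Set G} (hT : T.Finite)
    (hinf : ∀ t ∈ T, (Set.range fun g : G => g * t * g⁻¹).Infinite) :
    ∃ g : G, ∀ s ∈ T, g * s * g⁻¹ ∉ T := by
  classical
  by_contra hcon
  push Not at hcon
  let S : Finset (G × G) := (hT.toFinset ×ˢ hT.toFinset).filter
    (fun q => ∃ g : G, g * q.1 * g⁻¹ = q.2)
  let c : G × G → G := fun q => if h : ∃ g : G, g * q.1 * g⁻¹ = q.2 then h.choose else 1
  let H : G × G → Subgroup G := fun q => Subgroup.centralizer ({q.1} : Set G)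
  have hcov : ⋃ q ∈ S, c q • (H q : Set G) = Set.univ := by
    refine Set.eq_univ_of_forall fun g => ?_
    obtain ⟨s, hs, hgs⟩ := hcon g
    rw [Set.mem_iUnion₂]
    have hex : ∃ g' : G, g' * ((s, g * s * g⁻¹) : G × G).1 * g'⁻¹ = ((s, g * s * g⁻¹) : G × G).2 :=
      ⟨g, rfl⟩
    refine ⟨(s, g * s * g⁻¹), ?_, ?_⟩
    · simp only [S, Finset.mem_filter, Finset.mem_product, Set.Finite.mem_toFinset]
      exact ⟨⟨hs, hgs⟩, hex⟩
    · rw [Set.mem_smul_set_iff_inv_smul_mem]
      have hc : c (s, g * s * g⁻¹) = hex.choose := dif_pos hex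
      have hspec : hex.choose * s * hex.choose⁻¹ = g * s * g⁻¹ := hex.choose_spec
      rw [hc]
      show hex.choose⁻¹ * g ∈ Subgroup.centralizer ({s} : Set G)
      rw [Subgroup.mem_centralizer_iff]
      intro x hx
      rw [Set.mem_singleton_iff] at hx
      subst hx
      set d := hex.choose with hd
      have e : x = d⁻¹ * (g * x * g⁻¹) * d := by
        rw [← hspec]; group
      calc x * (d⁻¹ * g) = (d⁻¹ * (g * x * g⁻¹) * d) * (d⁻¹ * g) := by rw [← e]
        _ = d⁻¹ * g * x := by group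
  obtain ⟨q, hq, hfi⟩ := Subgroup.exists_finiteIndex_of_leftCoset_cover hcov
  have hqT : q.1 ∈ T := by
    simp only [S, Finset.mem_filter, Finset.mem_product, Set.Finite.mem_toFinset] at hq
    exact hq.1.1
  exact hinf q.1 hqT (finite_class hfi)

/-- [N] two divisible commutative torsion subgroups which normalise each other commute -/
theorem divisible_commute (hG : LF G) {A B : Subgroup G} (hA : ∀ a ∈ A, ∀ b ∈ A, a * b = b * a)
    (hB : ∀ a ∈ B, ∀ b ∈ B, a * b = b * a) (hAB : Nz A B) (hBA : Nz B A)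
    (hd : ∀ b ∈ B, ∀ m : ℕ, 0 < m → ∃ c ∈ B, c ^ m = b) :
    ∀ a ∈ A, ∀ b ∈ B, a * b = b * a := by
  intro a ha b hb
  obtain ⟨n, hn, han⟩ := hG.torsion a
  obtain ⟨c, hc, rfl⟩ := hd b hb n hn
  have hzA : a * c * a⁻¹ * c⁻¹ ∈ A := by
    have h1 := hBA c hc _ (inv_mem ha)
    have e : a * c * a⁻¹ * c⁻¹ = a * (c * a⁻¹ * c⁻¹) := by group
    rw [e]
    exact mul_mem ha h1
  have hzB : a * c * a⁻¹ * c⁻¹ ∈ B := by
    have h1 := hAB a ha _ hc
    exact mul_mem h1 (inv_mem hc)
  set z := a * c * a⁻¹ * c⁻¹ with hz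
  have hza : a * z = z * a := hA a ha z hzA
  have hzc : c * z = z * c := hB c hc z hzB
  have hac : a * c * a⁻¹ = z * c := by rw [hz]; group
  have h1 : ∀ k : ℕ, a ^ k * c * (a ^ k)⁻¹ = z ^ k * c := by
    intro k
    induction k with
    | zero => simp
    | succ k ih =>
      have e : a ^ (k + 1) * c * (a ^ (k + 1))⁻¹ = a * (a ^ k * c * (a ^ k)⁻¹) * a⁻¹ := by
        rw [pow_succ']; group
      have hzk : a * z ^ k = z ^ k * a := (Commute.pow_right (show Commute a z from hza) k)
      rw [e, ih, ← mul_assoc, hzk, mul_assoc, mul_assoc, ← mul_assoc a c, hac, pow_succ]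
      simp only [mul_assoc]
  have hzn : z ^ n = 1 := by
    have := h1 n
    rw [han] at this
    simpa using this.symm
  have h2 : (a * c * a⁻¹) ^ n = c ^ n := by
    rw [hac, (show Commute z c from hzc.symm).mul_pow, hzn, one_mul]
  rw [conj_pow] at h2
  calc a * c ^ n = a * c ^ n * a⁻¹ * a := by group
    _ = c ^ n * a := by rw [h2]

end PMC.N
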