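import Pool.Agent.PMC.LibC2

/-!
[PMC] row Q: the chain condition passes to quotients.
-/

set_option autoImplicit false

namespace PMC.Q

open Subgroup PMC

variable {G : Type*} [Group G] {p : ℕ} {V X : Subgroup G} {x : G}

/-- [Q] the chain condition passes to quotients: a strictly descending chain `Ū i ≤ V̄` of `X̄`-perfect subgroups lifts
to `W i = (comap Ū i) ⊓ V` (contains `N`, normalised by `X`) and `U i = ⁅W i, X⁆`: perfect by `comm_comm`, antitone, and
`U i` maps onto `⁅Ū i, X̄⁆ = Ū i`, so the inclusions are strict. -/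
theorem Cfg.quotient (h : Cfg p V X x) (N : Subgroup G) [N.Normal] (hN : N ≤ V) :
    Cfg p (V.map (QuotientGroup.mk' N)) (X.map (QuotientGroup.mk' N)) (QuotientGroup.mk' N x) := by
  have hsurj : Function.Surjective (QuotientGroup.mk' N) := QuotientGroup.mk'_surjective N
  obtain ⟨k, hk⟩ := h.xp
  refine
    { prime := h.prime
      lf := h.lf.quotient N
      norm := h.norm.map _ hsurj
      pp := PP.quotient h.prime h.lf h.pp N
      gen := ?_
      xp := ⟨k, by rw [← map_pow, hk, map_one]⟩
      sup := ?_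
      dcc := ?_ }
  · rw [h.gen, MonoidHom.map_zpowers]
  · rw [← Subgroup.map_sup, h.sup, Subgroup.map_top_of_surjective _ hsurj]
  · rintro ⟨U, hU⟩
    apply h.dcc
    have hfin : Finite X ∧ IsPGroup p X := by
      rw [h.gen]
      exact zpowers_facts h.prime hk
    set π := QuotientGroup.mk' N with hπ
    set W : ℕ → Subgroup G := fun i => (U i).comap π ⊓ V with hW
    have hWV : ∀ i, W i ≤ V := fun i => inf_le_right
    have hWX : ∀ i, Nz X (W i) := by
      intro i y hy u hu
      have hz : Nz (X.map π) (U i) := nz_of_perf (hU i).2.1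
      refine Subgroup.mem_inf.2 ⟨?_, h.norm.conj_mem _ (hWV i hu) y⟩
      rw [Subgroup.mem_comap, map_mul, map_mul, map_inv]
      exact hz _ (Subgroup.mem_map_of_mem π hy) _ (Subgroup.mem_comap.1 (Subgroup.mem_inf.1 hu).1)
    have hmap : ∀ i, (W i).map π = U i := by
      intro i
      apply le_antisymm
      · rw [Subgroup.map_le_iff_le_comap]
        exact inf_le_left
      · intro u hu
        obtain ⟨v, hv, rfl⟩ := (hU i).1 hu
        exact Subgroup.mem_map_of_mem π (Subgroup.mem_inf.2 ⟨Subgroup.mem_comap.2 hu, hv⟩)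
    have hmap2 : ∀ i, (⁅W i, X⁆ : Subgroup G).map π = U i := by
      intro i
      rw [Subgroup.map_commutator, hmap i, (hU i).2.1]
    refine ⟨fun i => ⁅W i, X⁆, fun i => ⟨(comm_le_left (hWX i)).trans (hWV i), ?_, ?_⟩⟩
    · exact comm_comm h.prime h.lf (fun u hu => h.pp u (hWV i hu)) hfin.1 hfin.2 (hWX i)
    · refine lt_of_le_of_ne ?_ ?_
      · refine Subgroup.commutator_mono ?_ le_rfl
        exact inf_le_inf_right V (Subgroup.comap_mono (hU i).2.2.le)
      · intro heq
        have h1 := hmap2 (i + 1)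
        have h2 : (⁅W (i + 1), X⁆ : Subgroup G) = ⁅W i, X⁆ := heq
        rw [h2, hmap2 i] at h1
        exact (hU i).2.2.ne h1.symm

end PMC.Q
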