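import Pool.Agent.PMC.LibCB2

/-!
[PMC-R0] `p'`-by-finite.
-/

set_option autoImplicit false

namespace PMC.R0

open PMC Subgroup

/-- `p'`-by-finite -/
def Q0 (p : ℕ) (G : Type*) [Group G] : Prop := ∃ V : Subgroup G, V.Normal ∧ V.index ≠ 0 ∧ PP p V

theorem Q0.equiv {p : ℕ} {A B : Type*} [Group A] [Group B] (e : A ≃* B) (h : Q0 p A) : Q0 p B := by
  obtain ⟨V, hV, hi, hp⟩ := h
  refine ⟨V.comap e.symm.toMonoidHom, hV.comap _, ?_, ?_⟩
  · rw [Subgroup.index_comap_of_surjective V (f := e.symm.toMonoidHom) e.symm.surjective]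
    exact hi
  · intro u hu k hk
    have h1 : e.symm u = 1 := hp _ hu k (by rw [← map_pow, hk, map_one])
    exact (map_eq_one_iff e.symm e.symm.injective).1 h1

/-- the join of two normal `p'`-subgroups -/
theorem join {p : ℕ} (hp : p.Prime) {G : Type*} [Group G] (hG : LF G) {N₁ N₂ : Subgroup G}
    (h₁ : N₁.Normal) (hp₁ : PP p N₁) (hp₂ : PP p N₂) :
    PP p (N₁ ⊔ N₂) := by
  intro u hu k hk
  obtain ⟨y, hy, z, hz, rfl⟩ := Subgroup.mem_sup_of_normal_left.1 hu
  have h1 : ((y * z : G) : G ⧸ N₁) = (z : G ⧸ N₁) := by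
    rw [QuotientGroup.mk_mul, (QuotientGroup.eq_one_iff y).2 hy, one_mul]
  have h2 : z ^ (p ^ k) ∈ N₁ := by
    rw [← QuotientGroup.eq_one_iff, QuotientGroup.mk_pow, ← h1, ← QuotientGroup.mk_pow, hk,
      QuotientGroup.mk_one]
  have h3 : z ∈ N₁ := hp₂.mem_of_pow hp hG hz h2
  exact hp₁ _ (mul_mem hy h3) k hk

/-- a characteristic one -/
theorem exists_char {p : ℕ} (hp : p.Prime) {G : Type*} [Group G] (hG : LF G) (h : Q0 p G) :
    ∃ O : Subgroup G, O.Characteristic ∧ O.index ≠ 0 ∧ PP p O := by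
  classical
  have hex : ∃ n, ∃ V : Subgroup G, (V.Normal ∧ V.index ≠ 0 ∧ PP p V) ∧ V.index = n := by
    obtain ⟨V, hV⟩ := h
    exact ⟨_, V, hV, rfl⟩
  obtain ⟨V, ⟨hV, hi, hpp⟩, hVn⟩ := Nat.find_spec hex
  have hmin : ∀ W : Subgroup G, W.Normal → W.index ≠ 0 → PP p W → V.index ≤ W.index := by
    intro W h1 h2 h3
    rw [hVn]
    exact Nat.find_min' hex ⟨W, ⟨h1, h2, h3⟩, rfl⟩
  refine ⟨V, ?_, hi, hpp⟩
  rw [Subgroup.characteristic_iff_map_le]
  intro φ
  have hW : (V.map φ.toMonoidHom).Normal := hV.map _ φ.surjective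
  have hWp : PP p (V.map φ.toMonoidHom) := by
    rintro _ ⟨v, hv, rfl⟩ k hk
    have : v = 1 := by
      refine hpp v hv k ?_
      have h1 : φ (v ^ (p ^ k)) = 1 := by rw [map_pow]; exact hk
      exact (map_eq_one_iff φ φ.injective).1 h1
    rw [this, map_one]
  have hle : V ≤ V ⊔ V.map φ.toMonoidHom := le_sup_left
  have h1 := Subgroup.relIndex_mul_index hle
  have h2 : (V ⊔ V.map φ.toMonoidHom).index ≠ 0 := by
    intro h2
    rw [h2, mul_zero] at h1
    exact hi h1.symm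
  have h3 := hmin _ (Subgroup.sup_normal V (V.map φ.toMonoidHom)) h2 (join hp hG hV hpp hWp)
  have h4 : V.relIndex (V ⊔ V.map φ.toMonoidHom) = 1 := by
    have h5 : V.relIndex (V ⊔ V.map φ.toMonoidHom) ≠ 0 := by
      intro h5
      rw [h5, zero_mul] at h1
      exact hi h1.symm
    have h6 : 0 < (V ⊔ V.map φ.toMonoidHom).index := Nat.pos_of_ne_zero h2
    by_contra h7
    have h8 : 2 ≤ V.relIndex (V ⊔ V.map φ.toMonoidHom) := by omega
    have h9 : 2 * (V ⊔ V.map φ.toMonoidHom).index ≤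
        V.relIndex (V ⊔ V.map φ.toMonoidHom) * (V ⊔ V.map φ.toMonoidHom).index :=
      Nat.mul_le_mul_right _ h8
    omega
  rw [Subgroup.relIndex_eq_one] at h4
  exact le_sup_right.trans h4

theorem not_dvd {p : ℕ} (hp : p.Prime) {F : Type*} [Group F] [Finite F]
    (hc : ∀ a : F, (∃ l : ℕ, a ^ (p ^ l) = 1) → a ∈ Subgroup.center F) :
    ¬ p ∣ (Subgroup.center F).index := by
  intro h
  have : Fact p.Prime := ⟨hp⟩
  have hF : LF F := fun s _ => Set.toFinite _
  obtain ⟨x, hx⟩ := exists_prime_orderOf_dvd_card' (G := F ⧸ Subgroup.center F) p h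
  obtain ⟨g, rfl⟩ := QuotientGroup.mk_surjective x
  have h1 : g ^ (p ^ 1) ∈ Subgroup.center F := by
    rw [← QuotientGroup.eq_one_iff, QuotientGroup.mk_pow, pow_one, ← hx]
    exact pow_orderOf_eq_one _
  obtain ⟨a, ha, hga⟩ := exists_p_lift hp hF (Subgroup.center F) h1
  have h2 : g ∈ Subgroup.center F := by
    have h3 := mul_mem (hc a ha) (inv_mem hga)
    have h4 : a * (g⁻¹ * a)⁻¹ = g := by group
    rwa [h4] at h3
  rw [(QuotientGroup.eq_one_iff g).2 h2, orderOf_one] at hx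
  exact hp.one_lt.ne hx

theorem mul_mem' {p : ℕ} (hp : p.Prime) {F : Type*} [Group F] [Finite F]
    (hc : ∀ a : F, (∃ l : ℕ, a ^ (p ^ l) = 1) → a ∈ Subgroup.center F) {a b : F} {m m' : ℕ}
    (hm : ¬ p ∣ m) (ha : a ^ m = 1) (hm' : ¬ p ∣ m') (hb : b ^ m' = 1) :
    ∃ n : ℕ, ¬ p ∣ n ∧ (a * b) ^ n = 1 := by
  set t := (Subgroup.center F).index with ht
  have h0 := not_dvd hp hc
  have hpow : ∀ g : F, ((MonoidHom.transferCenterPow F g : Subgroup.center F) : F) = g ^ t :=
    MonoidHom.transferCenterPow_apply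
  have h1 : (a * b) ^ t = a ^ t * b ^ t := by
    rw [← hpow, ← hpow, ← hpow, map_mul, Subgroup.coe_mul]
  have h2 : a ^ t ∈ Subgroup.center F := by
    rw [← hpow]; exact SetLike.coe_mem _
  have h3 : Commute (a ^ t) (b ^ t) := (Subgroup.mem_center_iff.1 h2 (b ^ t)).symm
  refine ⟨t * (m * m'), ?_, ?_⟩
  · rw [hp.dvd_mul, hp.dvd_mul]
    rintro (h | h | h)
    · exact h0 h
    · exact hm h
    · exact hm' h
  · rw [pow_mul, h1, h3.mul_pow]
    have h4 : (a ^ t) ^ (m * m') = 1 := by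
      rw [← pow_mul, mul_comm, mul_assoc, pow_mul, ha, one_pow]
    have h5 : (b ^ t) ^ (m * m') = 1 := by
      rw [← pow_mul, mul_comm, mul_comm m m', mul_assoc, pow_mul, hb, one_pow]
    rw [h4, h5, one_mul]

theorem decomp {p : ℕ} (hp : p.Prime) {G : Type*} [Group G] (hG : LF G) (c : G) :
    ∃ (z : G) (m : ℕ), z ∈ Subgroup.zpowers c ∧ (∃ l : ℕ, z ^ (p ^ l) = 1) ∧ ¬ p ∣ m ∧
      (z⁻¹ * c) ^ m = 1 := by
  obtain ⟨n, hn, hcn⟩ := hG.torsion c
  obtain ⟨e, m, hm, rfl⟩ := Nat.exists_eq_pow_mul_and_not_dvd hn.ne' p hp.ne_one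
  have hcop : IsCoprime ((p ^ e : ℕ) : ℤ) (m : ℤ) := by
    rw [Nat.isCoprime_iff_coprime]
    exact Nat.Coprime.pow_left e ((Nat.Prime.coprime_iff_not_dvd hp).2 hm)
  obtain ⟨u, v, huv⟩ := hcop
  have hcz : c ^ (((p ^ e : ℕ) : ℤ) * (m : ℤ)) = 1 := by
    rw [← Nat.cast_mul, zpow_natCast]; exact hcn
  refine ⟨c ^ (v * m), m, ⟨_, rfl⟩, ⟨e, ?_⟩, hm, ?_⟩
  · rw [← zpow_natCast, ← zpow_mul]
    have h1 : v * (m : ℤ) * ((p ^ e : ℕ) : ℤ) = ((p ^ e : ℕ) : ℤ) * (m : ℤ) * v := by ring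
    rw [h1, zpow_mul, hcz, one_zpow]
  · have h1 : (c ^ (v * (m : ℤ)))⁻¹ * c = c ^ (u * ((p ^ e : ℕ) : ℤ)) := by
      rw [← zpow_neg]
      nth_rewrite 2 [← zpow_one c]
      rw [← zpow_add]
      congr 1
      linarith
    rw [h1, ← zpow_natCast, ← zpow_mul]
    have h2 : u * ((p ^ e : ℕ) : ℤ) * (m : ℤ) = ((p ^ e : ℕ) : ℤ) * (m : ℤ) * u := by ring
    rw [h2, zpow_mul, hcz, one_zpow]

/-- a group with a finite normal subgroup that contains all `p`-elements -/
theorem of_finite {p : ℕ} (hp : p.Prime) {G : Type*} [Group G] (hG : LF G) {K : Subgroup G}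
    (hK : K.Normal) (hf : Finite K) (hpK : ∀ x : G, ∀ k : ℕ, x ^ (p ^ k) = 1 → x ∈ K) :
    Q0 p G := by
  classical
  set C : Subgroup G := (MulAut.conjNormal (H := K)).ker with hC
  have hCm : ∀ c, c ∈ C ↔ ∀ x ∈ K, c * x = x * c := by
    intro c
    rw [hC, MonoidHom.mem_ker]
    constructor
    · intro h x hx
      have h1 := DFunLike.congr_fun h (⟨x, hx⟩ : K)
      have h2 := congrArg Subtype.val h1
      rw [MulAut.conjNormal_apply] at h2
      have h3 : c * x * c⁻¹ = x := h2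
      calc c * x = c * x * c⁻¹ * c := by group
        _ = x * c := by rw [h3]
    · intro h
      ext x
      rw [MulAut.conjNormal_apply]
      show c * x * c⁻¹ = x
      rw [h x x.2]
      group
  have hCi : C.index ≠ 0 := by
    rw [hC, Subgroup.index_ker]
    exact Nat.card_pos.ne'
  have hcent : ∀ a ∈ C, (∃ l : ℕ, a ^ (p ^ l) = 1) → ∀ b ∈ C, a * b = b * a := by
    rintro a _ ⟨l, hl⟩ b hb
    exact ((hCm b).1 hb a (hpK a l hl)).symm
  let W : Subgroup G :=
    { carrier := {c | c ∈ C ∧ ∃ m : ℕ, ¬ p ∣ m ∧ c ^ m = 1}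
      one_mem' := ⟨one_mem _, 1, hp.one_lt.ne' ∘ Nat.dvd_one.1, by simp⟩
      inv_mem' := by
        rintro c ⟨hc, m, hm, h⟩
        exact ⟨inv_mem hc, m, hm, by rw [inv_pow, h, inv_one]⟩
      mul_mem' := by
        rintro a b ⟨ha, m, hm, h⟩ ⟨hb, m', hm', h'⟩
        refine ⟨mul_mem ha hb, ?_⟩
        have hFC : Subgroup.closure {a, b} ≤ C := by
          rw [Subgroup.closure_le]
          rintro x (rfl | rfl)
          · exact ha
          · exact hb
        have hFf : Finite (Subgroup.closure {a, b} : Subgroup G) :=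
          (hG {a, b} (Set.toFinite _)).to_subtype
        have haF : a ∈ Subgroup.closure {a, b} := Subgroup.subset_closure (by simp)
        have hbF : b ∈ Subgroup.closure {a, b} := Subgroup.subset_closure (by simp)
        obtain ⟨n, hn, hab⟩ := mul_mem' (F := (Subgroup.closure {a, b} : Subgroup G)) hp
          (a := ⟨a, haF⟩) (b := ⟨b, hbF⟩) (m := m) (m' := m') (by
            rintro x ⟨l, hl⟩
            rw [Subgroup.mem_center_iff]
            intro y
            apply Subtype.ext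
            have hl' : (x : G) ^ (p ^ l) = 1 := by
              have := congrArg Subtype.val hl
              simpa using this
            exact (hcent x (hFC x.2) ⟨l, hl'⟩ y (hFC y.2)).symm) hm
          (Subtype.ext (by simpa using h)) hm' (Subtype.ext (by simpa using h'))
        refine ⟨n, hn, ?_⟩
        have := congrArg Subtype.val hab
        simpa using this }
  have hWm : ∀ c, c ∈ W ↔ c ∈ C ∧ ∃ m : ℕ, ¬ p ∣ m ∧ c ^ m = 1 := fun c => Iff.rfl
  have hCn : C.Normal := by rw [hC]; infer_instance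
  refine ⟨W, ⟨?_⟩, ?_, ?_⟩
  · rintro c hc g
    obtain ⟨h1, m, hm, h⟩ := (hWm c).1 hc
    refine (hWm _).2 ⟨hCn.conj_mem c h1 g, m, hm, ?_⟩
    rw [conj_pow, h]; group
  · have hWC : W ≤ C := fun c hc => hc.1
    rw [← Subgroup.relIndex_mul_index hWC]
    refine mul_ne_zero ?_ hCi
    have hfin : Finite (C ⧸ W.subgroupOf C) := by
      have : Finite (K ⊓ C : Subgroup G) := Finite.Set.subset (K : Set G) (fun x hx => hx.1)
      refine Finite.of_surjective
        (fun z : (K ⊓ C : Subgroup G) => (QuotientGroup.mk (⟨z.1, z.2.2⟩ : C) : C ⧸ W.subgroupOf C)) ?_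
      intro q
      obtain ⟨⟨c, hc⟩, rfl⟩ := QuotientGroup.mk_surjective q
      obtain ⟨z, m, hz, ⟨l, hl⟩, hm, h⟩ := decomp hp hG c
      have hzC : z ∈ C := by
        rw [Subgroup.mem_zpowers_iff] at hz
        obtain ⟨k, rfl⟩ := hz
        exact zpow_mem hc k
      refine ⟨⟨z, hpK z l hl, hzC⟩, ?_⟩
      rw [QuotientGroup.eq, Subgroup.mem_subgroupOf]
      exact (hWm _).2 ⟨mul_mem (inv_mem hzC) hc, m, hm, h⟩
    show (W.subgroupOf C).index ≠ 0
    exact Nat.card_pos.ne'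
  · intro u hu k hk
    obtain ⟨_, m, hm, h⟩ := (hWm u).1 hu
    have h1 : orderOf u ∣ Nat.gcd (p ^ k) m :=
      Nat.dvd_gcd (orderOf_dvd_of_pow_eq_one hk) (orderOf_dvd_of_pow_eq_one h)
    have h2 : Nat.gcd (p ^ k) m = 1 :=
      Nat.Coprime.pow_left k ((Nat.Prime.coprime_iff_not_dvd hp).2 hm)
    rw [h2, Nat.dvd_one, orderOf_eq_one_iff] at h1
    exact h1

/-- one step -/
theorem step {p : ℕ} (hp : p.Prime) {L : Type*} [Group L] (hL : LF L) {K : Subgroup L}
    (hK : K.Normal) (h : Q0 p K)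
    (hs : K.index ≠ 0 ∨ ∀ x : L, ∀ k : ℕ, x ^ (p ^ k) ∈ K → x ∈ K) : Q0 p L := by
  obtain ⟨O', hO', hi, hpp⟩ := exists_char hp (hL.subgroup K) h
  set O : Subgroup L := O'.map K.subtype with hO
  have hOn : O.Normal := by rw [hO]; infer_instance
  have hOp : PP p O := by
    rintro _ ⟨v, hv, rfl⟩ k hk
    have : v = 1 := hpp v hv k (Subtype.ext (by simpa using hk))
    rw [this, map_one]
  have hOK : O ≤ K := by
    rintro _ ⟨v, _, rfl⟩
    exact v.2
  have hOi : O.relIndex K ≠ 0 := by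
    have : O.subgroupOf K = O' := by
      rw [hO, Subgroup.subgroupOf, Subgroup.comap_map_eq_self_of_injective K.subtype_injective]
    show (O.subgroupOf K).index ≠ 0
    rw [this]; exact hi
  rcases hs with hs | hs
  · refine ⟨O, hOn, ?_, hOp⟩
    rw [← Subgroup.relIndex_mul_index hOK]
    exact mul_ne_zero hOi hs
  · have hQ : Q0 p (L ⧸ O) := by
      refine of_finite hp (hL.quotient O) (K := K.map (QuotientGroup.mk' O)) (hK.map _
        (QuotientGroup.mk'_surjective O)) ?_ ?_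
      · have h1 : Finite (K ⧸ O.subgroupOf K) := Nat.finite_of_card_ne_zero hOi
        refine Finite.of_surjective (α := K ⧸ O.subgroupOf K)
          (fun q => Quotient.liftOn' q (fun k : K => (⟨QuotientGroup.mk' O k, k, k.2, rfl⟩ :
            (K.map (QuotientGroup.mk' O) : Subgroup (L ⧸ O)))) ?_) ?_
        · intro a b hab
          rw [QuotientGroup.leftRel_apply, Subgroup.mem_subgroupOf] at hab
          apply Subtype.ext
          show (QuotientGroup.mk (a : L) : L ⧸ O) = QuotientGroup.mk (b : L)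
          rw [QuotientGroup.eq]
          exact hab
        · rintro ⟨_, k, hk, rfl⟩
          exact ⟨QuotientGroup.mk (⟨k, hk⟩ : K), rfl⟩
      · intro x k hx
        obtain ⟨l, rfl⟩ := QuotientGroup.mk_surjective x
        refine ⟨l, ?_, rfl⟩
        refine hs l k (hOK ?_)
        rw [← QuotientGroup.eq_one_iff, QuotientGroup.mk_pow]
        exact hx
    obtain ⟨W, hW, hWi, hWp⟩ := hQ
    refine ⟨W.comap (QuotientGroup.mk' O), hW.comap _, ?_, ?_⟩
    · rw [Subgroup.index_comap_of_surjective W (QuotientGroup.mk'_surjective O)]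
      exact hWi
    · intro u hu k hk
      have h1 : (QuotientGroup.mk' O) u = 1 := hWp _ hu k (by rw [← map_pow, hk, map_one])
      have h2 : u ∈ O := (QuotientGroup.eq_one_iff u).1 h1
      exact hOp u h2 k hk

/-- [R0] -/
theorem exists_pprime_finiteIndex {p : ℕ} (hp : p.Prime) {G : Type*} [Group G] (hG : LF G)
    (hs : ∃ n : ℕ, ∃ H : ℕ → Subgroup G, H 0 = ⊥ ∧ H n = ⊤ ∧
        ∀ i < n, H i ≤ H (i + 1) ∧ ((H i).subgroupOf (H (i + 1))).Normal ∧
          ((H i).relIndex (H (i + 1)) ≠ 0 ∨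
            ∀ x ∈ H (i + 1), ∀ k : ℕ, x ^ (p ^ k) ∈ H i → x ∈ H i)) :
    ∃ V : Subgroup G, V.Normal ∧ V.index ≠ 0 ∧ PP p V := by
  obtain ⟨n, H, h0, hn, hstep⟩ := hs
  have key : ∀ i ≤ n, Q0 p (H i) := by
    intro i
    induction i with
    | zero =>
      intro _
      rw [h0]
      refine ⟨⊤, inferInstance, by rw [Subgroup.index_top]; exact one_ne_zero, ?_⟩
      intro u _ k _
      exact Subsingleton.elim _ _
    | succ i ih =>
      intro hi
      obtain ⟨h1, h2, h3⟩ := hstep i (by omega)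
      refine step hp (hG.subgroup _) h2 ((ih (by omega)).equiv
        (Subgroup.subgroupOfEquivOfLe h1).symm) ?_
      rcases h3 with h3 | h3
      · exact Or.inl h3
      · right
        intro x k hx
        rw [Subgroup.mem_subgroupOf] at *
        exact h3 x x.2 k (by simpa using hx)
  have h1 := key n le_rfl
  rw [hn] at h1
  exact h1.equiv Subgroup.topEquiv

end PMC.R0
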