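import Pool.Agent.PMC.LibR0

/-!
[PMC] row R1: the chain condition on `x`-perfect subgroups follows from the `p`-minimal condition.
-/

set_option autoImplicit false

namespace PMC.R1

open Subgroup PMC
open scoped commutatorElement

theorem mem_sup_nz {G : Type*} [Group G] {U X : Subgroup G} (hN : Nz X U) {h : G}
    (hh : h ∈ U ⊔ X) : ∃ u ∈ U, ∃ y ∈ X, h = u * y := by
  rw [Subgroup.sup_eq_closure] at hh
  refine Subgroup.closure_induction (p := fun h _ => ∃ u ∈ U, ∃ y ∈ X, h = u * y)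
    ?_ ?_ ?_ ?_ hh
  · rintro y (hy | hy)
    · exact ⟨y, hy, 1, one_mem _, by simp⟩
    · exact ⟨1, one_mem _, y, hy, by simp⟩
  · exact ⟨1, one_mem _, 1, one_mem _, by simp⟩
  · rintro a b _ _ ⟨u, hu, y, hy, rfl⟩ ⟨u', hu', y', hy', rfl⟩
    refine ⟨u * (y * u' * y⁻¹), mul_mem hu (hN y hy u' hu'), y * y', mul_mem hy hy', ?_⟩
    group
  · rintro a _ ⟨u, hu, y, hy, rfl⟩
    refine ⟨y⁻¹ * u⁻¹ * y⁻¹⁻¹, hN y⁻¹ (inv_mem hy) u⁻¹ (inv_mem hu), y⁻¹, inv_mem hy, ?_⟩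
    group

/-- [R1] -/
theorem dcc_of_pmin {p : ℕ} (hp : p.Prime) {G : Type*} [Group G] (hm : PMin p G) {V : Subgroup G}
    (hpp : PP p V) {x : G} (hx : ∃ k : ℕ, x ^ (p ^ k) = 1) (hN : Nz (Subgroup.zpowers x) V) :
    ¬ ∃ U : ℕ → Subgroup G, ∀ i, U i ≤ V ∧ ⁅U i, Subgroup.zpowers x⁆ = U i ∧ U (i + 1) < U i := by
  rintro ⟨U, hU⟩
  obtain ⟨k, hk⟩ := hx
  -- `(U i ⊔ ⟨x⟩) ⊓ V ≤ U i`
  have hB : ∀ i, ∀ h ∈ U i ⊔ Subgroup.zpowers x, h ∈ V → h ∈ U i := by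
    intro i h hh hhV
    obtain ⟨u, hu, y, hy, rfl⟩ := mem_sup_nz (nz_of_perf (hU i).2.1) hh
    have hyV : y ∈ V := by
      have := mul_mem (inv_mem ((hU i).1 hu)) hhV
      rwa [inv_mul_cancel_left] at this
    have hy1 : y = 1 := by
      refine hpp y hyV k ?_
      obtain ⟨j, rfl⟩ := Subgroup.mem_zpowers_iff.1 hy
      rw [← zpow_natCast, ← zpow_mul, mul_comm, zpow_mul, zpow_natCast, hk, one_zpow]
    rw [hy1, mul_one]
    exact hu
  have hC : ∀ i, ∃ u ∈ U i, u * x * u⁻¹ ∉ U (i + 1) ⊔ Subgroup.zpowers x := by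
    intro i
    by_contra hcon
    push Not at hcon
    have hle : ⁅U i, Subgroup.zpowers x⁆ ≤ U (i + 1) := by
      rw [Subgroup.commutator_le]
      intro u hu y hy
      refine hB (i + 1) _ ?_ ?_
      · obtain ⟨j, rfl⟩ := Subgroup.mem_zpowers_iff.1 hy
        rw [commutatorElement_def, ← conj_zpow]
        exact mul_mem (zpow_mem (hcon u hu) j)
          (inv_mem ((le_sup_right : Subgroup.zpowers x ≤ _) hy))
      · refine (hU i).1 ?_
        rw [← (hU i).2.1]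
        exact Subgroup.commutator_mem_commutator hu hy
    rw [(hU i).2.1] at hle
    exact absurd hle (not_le_of_gt (hU i).2.2)
  refine hm ⟨fun i => U i ⊔ Subgroup.zpowers x, fun i => ?_⟩
  obtain ⟨u, hu, hux⟩ := hC i
  have hmem : u * x * u⁻¹ ∈ U i ⊔ Subgroup.zpowers x := by
    have h1 : u ∈ U i ⊔ Subgroup.zpowers x := (le_sup_left : U i ≤ _) hu
    have h2 : x ∈ U i ⊔ Subgroup.zpowers x :=
      (le_sup_right : Subgroup.zpowers x ≤ _) (Subgroup.mem_zpowers x)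
    exact mul_mem (mul_mem h1 h2) (inv_mem h1)
  refine ⟨lt_of_le_of_ne (sup_le_sup_right (hU i).2.2.le _) ?_, u * x * u⁻¹, hmem, hux, k, ?_⟩
  · intro he
    refine hux ?_
    have he' : U (i + 1) ⊔ Subgroup.zpowers x = U i ⊔ Subgroup.zpowers x := he
    rw [he']
    exact hmem
  · rw [conj_pow, hk, mul_one, mul_inv_cancel]

end PMC.R1
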