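import Pool.Agent.PMC.LibR1

/-!
[PMC] row R2: from single `p`-elements to all.
-/

set_option autoImplicit false

namespace PMC.R2

open PMC Subgroup
open scoped commutatorElement

theorem comm_central {R : Type*} [Group R] {a b z w : R} (ha : z ∈ Subgroup.center R)
    (hb : w ∈ Subgroup.center R) : ⁅a, b⁆ = ⁅a * z, b * w⁆ := by
  have hz := fun r => (Subgroup.mem_center_iff.1 ha) r
  have hw := fun r => (Subgroup.mem_center_iff.1 hb) r
  rw [commutatorElement_def, commutatorElement_def]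
  have e : a * z * (b * w) * (a * z)⁻¹ * (b * w)⁻¹ =
      a * (z * (b * w)) * z⁻¹ * a⁻¹ * (w⁻¹ * b⁻¹) := by group
  rw [e, ← hz (b * w)]
  have e2 : a * (b * w * z) * z⁻¹ * a⁻¹ * (w⁻¹ * b⁻¹) =
      a * b * (w * a⁻¹) * (w⁻¹ * b⁻¹) := by group
  rw [e2, ← hw a⁻¹]
  group

/-- Schur: a group whose centre has finite index has finitely many commutators. -/
theorem finite_commutatorSet {R : Type*} [Group R] (h : (Subgroup.center R).FiniteIndex) :
    Finite (commutatorSet R) := by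
  classical
  haveI : Finite (R ⧸ Subgroup.center R) := inferInstance
  have h1 : commutatorSet R ⊆ Set.range
      (fun q : (R ⧸ Subgroup.center R) × (R ⧸ Subgroup.center R) => ⁅q.1.out, q.2.out⁆) := by
    rintro _ ⟨a, b, rfl⟩
    refine ⟨((a : R ⧸ Subgroup.center R), (b : R ⧸ Subgroup.center R)), ?_⟩
    have ha : ((a : R ⧸ Subgroup.center R).out)⁻¹ * a ∈ Subgroup.center R :=
      QuotientGroup.eq.1 (QuotientGroup.out_eq' _)
    have hb : ((b : R ⧸ Subgroup.center R).out)⁻¹ * b ∈ Subgroup.center R :=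
      QuotientGroup.eq.1 (QuotientGroup.out_eq' _)
    have h2 := comm_central (a := (a : R ⧸ Subgroup.center R).out)
      (b := (b : R ⧸ Subgroup.center R).out) ha hb
    rw [mul_inv_cancel_left, mul_inv_cancel_left] at h2
    exact h2
  exact Set.Finite.subset (Set.finite_range _) h1

section

variable {G : Type*} [Group G]

theorem zp_le {p : ℕ} {x y : G} (hx : ∃ k : ℕ, x ^ (p ^ k) = 1) (hy : y ∈ Subgroup.zpowers x) :
    ∃ k : ℕ, y ^ (p ^ k) = 1 := by
  obtain ⟨k, hk⟩ := hx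
  obtain ⟨j, rfl⟩ := Subgroup.mem_zpowers_iff.1 hy
  refine ⟨k, ?_⟩
  rw [← zpow_natCast, ← zpow_mul, mul_comm, zpow_mul, zpow_natCast, hk, one_zpow]

theorem conj_pow_one {x g : G} {m : ℕ} (h : x ^ m = 1) : (g * x * g⁻¹) ^ m = 1 := by
  rw [conj_pow, h, mul_one, mul_inv_cancel]

theorem cj_zpowers (g x : G) : cj g (Subgroup.zpowers x) = Subgroup.zpowers (g * x * g⁻¹) := by
  unfold cj
  rw [MonoidHom.map_zpowers]
  rfl

/-- (a) `⁅V, ⟨x⟩⁆` depends only on the coset. -/
theorem comm_eq {p : ℕ} (hp : p.Prime) (hG : LF G) {V : Subgroup G} (hV : V.Normal)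
    (hpp : PP p V) {x y : G} (hx : ∃ k : ℕ, x ^ (p ^ k) = 1) (hy : ∃ k : ℕ, y ^ (p ^ k) = 1)
    (hxy : x⁻¹ * y ∈ V) : ⁅V, Subgroup.zpowers x⁆ = ⁅V, Subgroup.zpowers y⁆ := by
  obtain ⟨k, hk⟩ := hx
  obtain ⟨l, hl⟩ := hy
  obtain ⟨hXf, hXp⟩ := zpowers_facts hp hk
  obtain ⟨hYf, hYp⟩ := zpowers_facts hp hl
  have hsup : V ⊔ Subgroup.zpowers x = V ⊔ Subgroup.zpowers y := by
    have hxV : x ∈ V ⊔ Subgroup.zpowers x :=
      (le_sup_right : Subgroup.zpowers x ≤ _) (Subgroup.mem_zpowers x)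
    have hyV : y ∈ V ⊔ Subgroup.zpowers y :=
      (le_sup_right : Subgroup.zpowers y ≤ _) (Subgroup.mem_zpowers y)
    refine le_antisymm (sup_le le_sup_left ?_) (sup_le le_sup_left ?_)
    · rw [Subgroup.zpowers_le]
      have e : x = y * (x⁻¹ * y)⁻¹ := by group
      rw [e]
      exact mul_mem hyV (inv_mem ((le_sup_left : V ≤ _) hxy))
    · rw [Subgroup.zpowers_le]
      have e : y = x * (x⁻¹ * y) := by group
      rw [e]
      exact mul_mem hxV ((le_sup_left : V ≤ _) hxy)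
  obtain ⟨v, hv, hvX⟩ := sylow_conj hp hG hV hpp hXf hXp hYf hYp hsup
  rw [← hvX]
  have h1 : cj v ⁅V, Subgroup.zpowers x⁆ = ⁅V, Subgroup.zpowers x⁆ :=
    nz_iff_cj.1 nz_comm_left v hv.1
  rw [cj_comm, cj_normal v hV] at h1
  exact h1.symm

/-- [R2] from single `p`-elements to all. -/
theorem cher_of_single {p : ℕ} (hp : p.Prime) {G : Type*} [Group G] (hG : LF G) {V : Subgroup G}
    (hV : V.Normal) (hVi : V.index ≠ 0) (hpp : PP p V)
    (h : ∀ x : G, (∃ k : ℕ, x ^ (p ^ k) = 1) → Cher ⁅V, Subgroup.zpowers x⁆) :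
    Cher (Subgroup.closure {g : G | ∃ k : ℕ, g ^ (p ^ k) = 1}) := by
  classical
  haveI := hV
  haveI hVf : V.FiniteIndex := ⟨hVi⟩
  -- the group `N`
  set K : G ⧸ V → Subgroup G := fun c =>
    if hc : ∃ x : G, (∃ k : ℕ, x ^ (p ^ k) = 1) ∧ (x : G ⧸ V) = c then
      ⁅V, Subgroup.zpowers hc.choose⁆ else ⊥ with hK
  have hKV : ∀ c, K c ≤ V := by
    intro c
    simp only [hK]
    split_ifs with hc
    · exact comm_le_left (nz_of_normal hV)
    · exact bot_le
  have hKnz : ∀ c, Nz V (K c) := by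
    intro c
    simp only [hK]
    split_ifs with hc
    · exact nz_comm_left
    · exact nz_of_normal inferInstance
  have hKc : ∀ c, Cher (K c) := by
    intro c
    simp only [hK]
    split_ifs with hc
    · exact h _ hc.choose_spec.1
    · exact Cher.of_finite inferInstance
  have hKx : ∀ x : G, (∃ k : ℕ, x ^ (p ^ k) = 1) → K (x : G ⧸ V) = ⁅V, Subgroup.zpowers x⁆ := by
    intro x hx
    have hc : ∃ x' : G, (∃ k : ℕ, x' ^ (p ^ k) = 1) ∧ (x' : G ⧸ V) = (x : G ⧸ V) := ⟨x, hx, rfl⟩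
    simp only [hK]
    rw [dif_pos hc]
    exact comm_eq hp hG hV hpp hc.choose_spec.1 hx (QuotientGroup.eq.1 hc.choose_spec.2)
  set N : Subgroup G := ⨆ c, K c with hN
  have hNc : Cher N := Cher.iSup hG hKV hKnz hKc
  have hxN : ∀ x : G, (∃ k : ℕ, x ^ (p ^ k) = 1) → ⁅V, Subgroup.zpowers x⁆ ≤ N := by
    intro x hx
    rw [← hKx x hx]
    exact le_iSup K _
  have hcjN : ∀ g : G, cj g N ≤ N := by
    intro g
    unfold cj
    rw [hN, Subgroup.map_iSup]
    refine iSup_le fun c => ?_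
    simp only [hK]
    split_ifs with hc
    · change cj g _ ≤ _
      rw [cj_comm, cj_normal g hV, cj_zpowers]
      obtain ⟨k, hk⟩ := hc.choose_spec.1
      exact hxN _ ⟨k, conj_pow_one hk⟩
    · rw [Subgroup.map_bot]
      exact bot_le
  haveI hNn : N.Normal := by
    refine ⟨fun n hn g => ?_⟩
    exact hcjN g (conj_mem_cj.2 hn)
  -- the group `P`
  set S : Set G := {g : G | ∃ k : ℕ, g ^ (p ^ k) = 1} with hS
  set P : Subgroup G := Subgroup.closure S with hP
  have hSP : ∀ g, (∃ k : ℕ, g ^ (p ^ k) = 1) → g ∈ P := fun g hg => Subgroup.subset_closure hg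
  have hNP : N ≤ P := by
    refine iSup_le fun c => ?_
    simp only [hK]
    split_ifs with hc
    · rw [Subgroup.commutator_le]
      intro v _ y hy
      obtain ⟨k, hk⟩ := zp_le hc.choose_spec.1 hy
      rw [commutatorElement_def]
      exact mul_mem (hSP _ ⟨k, conj_pow_one hk⟩) (inv_mem (hSP _ ⟨k, hk⟩))
    · exact bot_le
  have hcomm : ∀ y ∈ P, ∀ v ∈ V, ⁅v, y⁆ ∈ N := by
    intro y hy
    refine Subgroup.closure_induction (p := fun y _ => ∀ v ∈ V, ⁅v, y⁆ ∈ N) ?_ ?_ ?_ ?_ hy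
    · intro x hx v hv
      exact hxN x hx (Subgroup.commutator_mem_commutator hv (Subgroup.mem_zpowers x))
    · intro v _
      rw [commutatorElement_one_right]
      exact one_mem N
    · intro a b _ _ ha hb v hv
      have e : ⁅v, a * b⁆ = ⁅v, a⁆ * (a * ⁅v, b⁆ * a⁻¹) := by
        simp only [commutatorElement_def]
        group
      rw [e]
      exact mul_mem (ha v hv) (hNn.conj_mem _ (hb v hv) a)
    · intro a _ ha v hv
      have e : ⁅v, a⁻¹⁆ = a⁻¹ * ⁅v, a⁆⁻¹ * a⁻¹⁻¹ := by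
        simp only [commutatorElement_def]
        group
      rw [e]
      exact hNn.conj_mem _ (inv_mem (ha v hv)) a⁻¹
  -- every element of `P` has `p`-power order modulo the commutator subgroup
  have hab : ∀ y (hy : y ∈ P), ∃ k : ℕ, (Abelianization.of (⟨y, hy⟩ : P)) ^ (p ^ k) = 1 := by
    intro y hy
    refine Subgroup.closure_induction
      (p := fun y hy => ∃ k : ℕ, (Abelianization.of (⟨y, hy⟩ : P)) ^ (p ^ k) = 1) ?_ ?_ ?_ ?_ hy
    · rintro x ⟨k, hk⟩
      refine ⟨k, ?_⟩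
      rw [← map_pow]
      have e : (⟨x, Subgroup.subset_closure ⟨k, hk⟩⟩ : P) ^ (p ^ k) = 1 := Subtype.ext hk
      rw [e, map_one]
    · refine ⟨0, ?_⟩
      have e : (⟨1, one_mem _⟩ : P) = 1 := rfl
      rw [e, map_one, one_pow]
    · rintro a b ha' hb' ⟨k, hk⟩ ⟨l, hl⟩
      refine ⟨k + l, ?_⟩
      have e : (⟨a * b, mul_mem ha' hb'⟩ : P) = ⟨a, ha'⟩ * ⟨b, hb'⟩ := rfl
      rw [e, map_mul, mul_pow, pow_add, pow_mul, hk, one_pow, one_mul, mul_comm (p ^ k), pow_mul,
        hl, one_pow]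
    · rintro a ha' ⟨k, hk⟩
      refine ⟨k, ?_⟩
      have e : (⟨a⁻¹, inv_mem ha'⟩ : P) = (⟨a, ha'⟩ : P)⁻¹ := rfl
      rw [e, map_inv, inv_pow, hk, inv_one]
  have hVP : V.subgroupOf P ≤ commutator P := by
    intro v hv
    rw [Subgroup.mem_subgroupOf] at hv
    obtain ⟨k, hk⟩ := hab v.1 v.2
    rw [← map_pow, ← MonoidHom.mem_ker, Abelianization.ker_of] at hk
    have h1 : (v : G) ^ (p ^ k) ∈ (commutator P).map P.subtype := by
      refine ⟨v ^ (p ^ k), ?_, rfl⟩
      exact hk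
    obtain ⟨w, hw, hwv⟩ := PP.mem_of_pow hp hG hpp hv h1
    have h2 : w = v := Subtype.ext hwv
    rw [← h2]
    exact hw
  -- the quotient `R`
  set M : Subgroup P := N.subgroupOf P with hM
  haveI hMn : M.Normal := Subgroup.normal_subgroupOf
  set π : P →* P ⧸ M := QuotientGroup.mk' M with hπ
  have hπs : Function.Surjective π := QuotientGroup.mk'_surjective M
  set W : Subgroup (P ⧸ M) := (V.subgroupOf P).map π with hW
  haveI hWi : W.FiniteIndex := by
    refine ⟨fun h0 => ?_⟩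
    have h1 := Subgroup.index_map_dvd (H := V.subgroupOf P) hπs
    rw [← hW, h0, zero_dvd_iff] at h1
    exact (inferInstance : (V.subgroupOf P).FiniteIndex).index_ne_zero h1
  have hWc : W ≤ Subgroup.center (P ⧸ M) := by
    rintro _ ⟨v, hv, rfl⟩
    rw [Subgroup.mem_center_iff]
    intro r
    obtain ⟨y, rfl⟩ := hπs r
    rw [← map_mul, ← map_mul]
    rw [hπ, QuotientGroup.mk'_apply, QuotientGroup.mk'_apply, QuotientGroup.eq]
    rw [hM, Subgroup.mem_subgroupOf]
    have h1 := hcomm (y⁻¹ : P) (y⁻¹ : P).2 (v⁻¹ : P) (inv_mem hv)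
    have e : (((y * v)⁻¹ * (v * y) : P) : G) = ⁅((v⁻¹ : P) : G), ((y⁻¹ : P) : G)⁆ := by
      simp only [commutatorElement_def, Subgroup.coe_mul, Subgroup.coe_inv]
      group
    rw [e]
    exact h1
  have hcen : (Subgroup.center (P ⧸ M)).FiniteIndex := Subgroup.finiteIndex_of_le hWc
  haveI := finite_commutatorSet hcen
  haveI hfin : Finite (_root_.commutator (P ⧸ M)) := inferInstance
  have hWcomm : W ≤ _root_.commutator (P ⧸ M) := by
    refine (Subgroup.map_mono hVP).trans ?_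
    rw [_root_.commutator_def, Subgroup.map_commutator, _root_.commutator_def]
    exact Subgroup.commutator_mono le_top le_top
  haveI hci : (_root_.commutator (P ⧸ M)).FiniteIndex := Subgroup.finiteIndex_of_le hWcomm
  have hRf : Nat.card (P ⧸ M) ≠ 0 := by
    rw [← Subgroup.card_mul_index (_root_.commutator (P ⧸ M))]
    exact mul_ne_zero Nat.card_pos.ne' hci.index_ne_zero
  exact Cher.of_relIndex hNP (nz_of_normal hNn) hRf hNc

end

end PMC.R2
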