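import Pool.Agent.PMC.LibL

set_option autoImplicit false

namespace PMC.S

open Subgroup PMC
open scoped commutatorElement Pointwise

section

variable {G : Type*} [Group G]

theorem nz_sup {X Y A : Subgroup G} (h1 : Nz X A) (h2 : Nz Y A) : Nz (X ⊔ Y) A := by
  rw [nz_iff_cj]
  intro g hg
  rw [Subgroup.sup_eq_closure] at hg
  refine Subgroup.closure_induction (p := fun g _ => cj g A = A) ?_ ?_ ?_ ?_ hg
  · rintro y (hy | hy)
    · exact nz_iff_cj.1 h1 y hy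
    · exact nz_iff_cj.1 h2 y hy
  · exact cj_one A
  · intro a b _ _ ha hb
    rw [← cj_cj, hb, ha]
  · intro a _ ha
    have := cj_inv_cj a A
    rwa [ha] at this

theorem mem_sup_normal {V X : Subgroup G} (hV : V.Normal) {g : G} (hg : g ∈ V ⊔ X) :
    ∃ v ∈ V, ∃ y ∈ X, v * y = g := by
  have h1 : g ∈ ((V ⊔ X : Subgroup G) : Set G) := hg
  rw [Subgroup.normal_mul V X] at h1
  exact Set.mem_mul.1 h1

/-- A `p`-subgroup which together with a normal `p'`-subgroup generates everything is Sylow. -/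
theorem sylow_of {p : ℕ} (hp : p.Prime) {H : Type*} [Group H] [Finite H] {W X : Subgroup H}
    (hW : W.Normal) (hpp : PP p W) (hXp : IsPGroup p X) (hsup : W ⊔ X = ⊤) :
    ∃ P : Sylow p H, (P : Subgroup H) = X := by
  have := Fact.mk hp
  obtain ⟨P, hP⟩ := hXp.exists_le_sylow
  refine ⟨P, le_antisymm ?_ hP⟩
  intro g hg
  obtain ⟨w, hw, y, hy, rfl⟩ := mem_sup_normal hW (by rw [hsup]; exact Subgroup.mem_top g)
  have hwP : w ∈ (P : Subgroup H) := by
    have h1 := mul_mem hg (inv_mem (hP hy))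
    simpa using h1
  obtain ⟨k, hk⟩ := P.isPGroup' ⟨w, hwP⟩
  have hw1 : w = 1 := hpp w hw k (by simpa using congrArg Subtype.val hk)
  rw [hw1, one_mul]
  exact hy

theorem sylow_conj_aux {p : ℕ} (hp : p.Prime) {H : Type*} [Group H] [Finite H]
    {W X Y : Subgroup H} (hW : W.Normal) (hpp : PP p W) (hXp : IsPGroup p X)
    (hYp : IsPGroup p Y) (hX : W ⊔ X = ⊤) (hY : W ⊔ Y = ⊤) : ∃ w ∈ W, cj w X = Y := by
  have := Fact.mk hp
  obtain ⟨P, rfl⟩ := sylow_of hp hW hpp hXp hX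
  obtain ⟨Q, rfl⟩ := sylow_of hp hW hpp hYp hY
  obtain ⟨g, hg⟩ := MulAction.exists_smul_eq H P Q
  obtain ⟨w, hw, y, hy, rfl⟩ := mem_sup_normal hW (by rw [hX]; exact Subgroup.mem_top g)
  refine ⟨w, hw, ?_⟩
  have h1 : cj (w * y) (P : Subgroup H) = Q := by
    rw [← hg]
    rfl
  rw [← h1, ← cj_cj]
  congr 1
  exact (nz_iff_cj.1 (fun a ha b hb => mul_mem (mul_mem ha hb) (inv_mem ha)) y hy).symm

/-- [S] -/
theorem sylow_conj {p : ℕ} (hp : p.Prime) (hG : LF G) {V X Y : Subgroup G} (hV : V.Normal)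
    (hpp : PP p V) (hX : Finite X) (hXp : IsPGroup p X) (hY : Finite Y) (hYp : IsPGroup p Y)
    (h : V ⊔ X = V ⊔ Y) : ∃ v ∈ V ⊓ (X ⊔ Y), cj v X = Y := by
  have hH : Finite (X ⊔ Y : Subgroup G) := hG.finite_sup hX hY
  set H := X ⊔ Y with hHdef
  have hXH : X ≤ H := le_sup_left
  have hYH : Y ≤ H := le_sup_right
  have hWn : (V.subgroupOf H).Normal := hV.subgroupOf H
  have hWpp : PP p (V.subgroupOf H) := by
    intro u hu k hk
    rw [Subgroup.mem_subgroupOf] at hu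
    exact Subtype.ext (hpp _ hu k (by simpa using congrArg Subtype.val hk))
  have hle : H ≤ V ⊔ X := sup_le le_sup_right (by rw [h]; exact le_sup_right)
  have hX1 : V.subgroupOf H ⊔ X.subgroupOf H = ⊤ := by
    rw [eq_top_iff]
    rintro ⟨g, hg⟩ -
    obtain ⟨v, hv, y, hy, hvy⟩ := mem_sup_normal hV (hle hg)
    have hvH : v ∈ H := by
      have : v = g * y⁻¹ := by rw [← hvy]; group
      rw [this]
      exact mul_mem hg (inv_mem (hXH hy))
    have h1 : (⟨g, hg⟩ : H) = ⟨v, hvH⟩ * ⟨y, hXH hy⟩ := Subtype.ext hvy.symm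
    rw [h1]
    exact mul_mem ((le_sup_left : V.subgroupOf H ≤ _) (Subgroup.mem_subgroupOf.2 hv))
      ((le_sup_right : X.subgroupOf H ≤ _) (Subgroup.mem_subgroupOf.2 hy))
  have hY1 : V.subgroupOf H ⊔ Y.subgroupOf H = ⊤ := by
    rw [eq_top_iff]
    rintro ⟨g, hg⟩ -
    obtain ⟨v, hv, y, hy, hvy⟩ := mem_sup_normal hV (by rw [← h]; exact hle hg)
    have hvH : v ∈ H := by
      have : v = g * y⁻¹ := by rw [← hvy]; group
      rw [this]
      exact mul_mem hg (inv_mem (hYH hy))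
    have h1 : (⟨g, hg⟩ : H) = ⟨v, hvH⟩ * ⟨y, hYH hy⟩ := Subtype.ext hvy.symm
    rw [h1]
    exact mul_mem ((le_sup_left : V.subgroupOf H ≤ _) (Subgroup.mem_subgroupOf.2 hv))
      ((le_sup_right : Y.subgroupOf H ≤ _) (Subgroup.mem_subgroupOf.2 hy))
  have hXp' : IsPGroup p (X.subgroupOf H) :=
    hXp.of_equiv (Subgroup.subgroupOfEquivOfLe hXH).symm
  have hYp' : IsPGroup p (Y.subgroupOf H) :=
    hYp.of_equiv (Subgroup.subgroupOfEquivOfLe hYH).symm
  obtain ⟨⟨w, hwH⟩, hw, hc⟩ := sylow_conj_aux hp hWn hWpp hXp' hYp' hX1 hY1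
  rw [Subgroup.mem_subgroupOf] at hw
  refine ⟨w, ⟨hw, hwH⟩, ?_⟩
  ext g
  rw [mem_cj]
  constructor
  · intro hg
    have hgH : g ∈ H := by
      have h1 : g = w * (w⁻¹ * g * w) * w⁻¹ := by group
      rw [h1]
      exact mul_mem (mul_mem hwH (hXH hg)) (inv_mem hwH)
    have h1 : (⟨g, hgH⟩ : H) ∈ cj ⟨w, hwH⟩ (X.subgroupOf H) := by
      rw [mem_cj, Subgroup.mem_subgroupOf]
      exact hg
    rw [hc, Subgroup.mem_subgroupOf] at h1
    exact h1
  · intro hg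
    have h1 : (⟨g, hYH hg⟩ : H) ∈ cj ⟨w, hwH⟩ (X.subgroupOf H) := by
      rw [hc, Subgroup.mem_subgroupOf]
      exact hg
    rw [mem_cj, Subgroup.mem_subgroupOf] at h1
    exact h1

theorem cj_finite {X : Subgroup G} (hX : Finite X) (g : G) : Finite (cj g X) := by
  have : Finite ((X : Set G) : Set G) := hX
  have h1 : ((cj g X : Subgroup G) : Set G) = (MulAut.conj g).toMonoidHom '' (X : Set G) := rfl
  have h2 : ((cj g X : Subgroup G) : Set G).Finite := by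
    rw [h1]
    exact (Set.toFinite (X : Set G)).image _
  exact h2

theorem cj_pgroup {p : ℕ} {X : Subgroup G} (hX : IsPGroup p X) (g : G) : IsPGroup p (cj g X) :=
  hX.map _

/-- [S] the Sylow trick. -/
theorem star {p : ℕ} (hp : p.Prime) (hG : LF G) {V X : Subgroup G} (hV : V.Normal) (hpp : PP p V)
    (hX : Finite X) (hXp : IsPGroup p X) (hsup : V ⊔ X = ⊤) (g : G) {A B : Subgroup G}
    (h1 : Nz X A) (h2 : Nz (cj g X) A) (h3 : Nz X B) (h4 : Nz (cj g X) B)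
    (h : ⁅A, X⁆ ≤ B) : ⁅A, cj g X⁆ ≤ B := by
  have h5 : V ⊔ cj g X = ⊤ := by
    rw [eq_top_iff]
    rintro a -
    obtain ⟨v, hv, y, hy, hvy⟩ := mem_sup_normal hV
      (by rw [hsup]; exact Subgroup.mem_top (g⁻¹ * a * g) : g⁻¹ * a * g ∈ V ⊔ X)
    have h6 : a = (g * v * g⁻¹) * (g * y * g⁻¹) := by
      have h7 : (g * v * g⁻¹) * (g * y * g⁻¹) = g * (v * y) * g⁻¹ := by group
      rw [h7, hvy]
      group
    rw [h6]
    exact mul_mem ((le_sup_left : V ≤ _) (hV.conj_mem v hv g))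
      ((le_sup_right : cj g X ≤ _) (conj_mem_cj.2 hy))
  obtain ⟨v, hv, hvc⟩ := sylow_conj hp hG hV hpp hX hXp (cj_finite hX g) (cj_pgroup hXp g)
    (by rw [hsup, h5])
  have hA : cj v A = A := nz_iff_cj.1 (nz_sup h1 h2) v hv.2
  have hB : cj v B = B := nz_iff_cj.1 (nz_sup h3 h4) v hv.2
  calc ⁅A, cj g X⁆ = ⁅cj v A, cj v X⁆ := by rw [hA, hvc]
    _ = cj v ⁅A, X⁆ := (cj_comm v A X).symm
    _ ≤ cj v B := cj_mono h
    _ = B := hB

/-- [S] `U = C_U(X) [U, X]`. -/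
theorem coprime_decomp {p : ℕ} (hp : p.Prime) (hG : LF G) {U X : Subgroup G} (hpp : PP p U)
    (hX : Finite X) (hXp : IsPGroup p X) (hN : Nz X U) {u : G} (hu : u ∈ U) :
    ∃ c ∈ U, (∀ y ∈ X, y * c = c * y) ∧ ∃ n ∈ ⁅U, X⁆, u = c * n := by
  set N := ⁅U, X⁆ with hNdef
  have hNU : N ≤ U := comm_le_left hN
  have hXN : Nz X N := nz_comm_right
  have hUN : Nz U N := nz_comm_left
  set K := N ⊔ X with hK
  have hNK : N ≤ K := le_sup_left
  have hXK : X ≤ K := le_sup_right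
  have hconj : ∀ y ∈ X, u * y * u⁻¹ * y⁻¹ ∈ N := fun y hy =>
    Subgroup.commutator_mem_commutator hu hy
  have hYK : cj u X ≤ K := by
    intro a ha
    rw [mem_cj] at ha
    have h1 : a = (u * (u⁻¹ * a * u) * u⁻¹ * (u⁻¹ * a * u)⁻¹) * (u⁻¹ * a * u) := by group
    rw [h1]
    exact mul_mem (hNK (hconj _ ha)) (hXK ha)
  have hNn : (N.subgroupOf K).Normal := (nz_subgroupOf hNK).2
    (nz_sup (fun a ha b hb => mul_mem (mul_mem ha hb) (inv_mem ha)) hXN)
  have hNpp : PP p (N.subgroupOf K) := by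
    intro a ha k hk
    rw [Subgroup.mem_subgroupOf] at ha
    exact Subtype.ext (hpp _ (hNU ha) k (by simpa using congrArg Subtype.val hk))
  have hX1 : N.subgroupOf K ⊔ X.subgroupOf K = ⊤ := by
    rw [eq_top_iff]
    have h1 : ∀ g (hg : g ∈ N ⊔ X), (⟨g, hg⟩ : K) ∈ N.subgroupOf K ⊔ X.subgroupOf K := by
      intro g hg
      rw [Subgroup.sup_eq_closure] at hg
      refine Subgroup.closure_induction
        (p := fun g hg => (⟨g, by rw [hK, Subgroup.sup_eq_closure]; exact hg⟩ : K) ∈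
          N.subgroupOf K ⊔ X.subgroupOf K) ?_ ?_ ?_ ?_ hg
      · rintro y (hy | hy)
        · exact (le_sup_left : N.subgroupOf K ≤ _) (Subgroup.mem_subgroupOf.2 hy)
        · exact (le_sup_right : X.subgroupOf K ≤ _) (Subgroup.mem_subgroupOf.2 hy)
      · exact one_mem _
      · intro a b _ _ ha hb
        exact mul_mem ha hb
      · intro a _ ha
        exact inv_mem ha
    rintro ⟨g, hg⟩ -
    exact h1 g hg
  have hY1 : N.subgroupOf K ⊔ (cj u X).subgroupOf K = ⊤ := by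
    rw [eq_top_iff, ← hX1]
    refine sup_le le_sup_left ?_
    rintro ⟨y, hyK⟩ hy
    rw [Subgroup.mem_subgroupOf] at hy
    have hy' : y ∈ X := hy
    have h2 : u * y * u⁻¹ ∈ cj u X := conj_mem_cj.2 hy'
    have h1 : (⟨y, hyK⟩ : K) =
        (⟨u * y * u⁻¹ * y⁻¹, hNK (hconj y hy')⟩ : K)⁻¹ * ⟨u * y * u⁻¹, hYK h2⟩ := by
      apply Subtype.ext
      show y = (u * y * u⁻¹ * y⁻¹)⁻¹ * (u * y * u⁻¹)
      group
    rw [h1]
    exact mul_mem (inv_mem ((le_sup_left : N.subgroupOf K ≤ _)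
      (Subgroup.mem_subgroupOf.2 (hconj y hy'))))
      ((le_sup_right : (cj u X).subgroupOf K ≤ _) (Subgroup.mem_subgroupOf.2 h2))
  have hYf := cj_finite hX u
  have hYp := cj_pgroup hXp u
  have hXf' : Finite (X.subgroupOf K) :=
    Finite.of_equiv _ (Subgroup.subgroupOfEquivOfLe hXK).symm.toEquiv
  have hYf' : Finite ((cj u X).subgroupOf K) :=
    Finite.of_equiv _ (Subgroup.subgroupOfEquivOfLe hYK).symm.toEquiv
  obtain ⟨⟨n, hnK⟩, hn, hc⟩ := sylow_conj hp (hG.subgroup K) hNn hNpp hXf'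
    (hXp.of_equiv (Subgroup.subgroupOfEquivOfLe hXK).symm) hYf'
    (hYp.of_equiv (Subgroup.subgroupOfEquivOfLe hYK).symm) (by rw [hX1, hY1])
  have hnN : n ∈ N := Subgroup.mem_subgroupOf.1 hn.1
  have hcX : ∀ y ∈ X, (n⁻¹ * u) * y * (n⁻¹ * u)⁻¹ ∈ X := by
    intro y hy
    have h2 : u * y * u⁻¹ ∈ cj u X := conj_mem_cj.2 hy
    have h3 : (⟨u * y * u⁻¹, hYK h2⟩ : K) ∈ cj ⟨n, hnK⟩ (X.subgroupOf K) := by
      rw [hc, Subgroup.mem_subgroupOf]
      exact h2
    rw [mem_cj, Subgroup.mem_subgroupOf] at h3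
    have h4 : (n⁻¹ * u) * y * (n⁻¹ * u)⁻¹ = n⁻¹ * (u * y * u⁻¹) * n := by group
    rw [h4]
    exact h3
  have hcU : n⁻¹ * u ∈ U := mul_mem (inv_mem (hNU hnN)) hu
  set c := n⁻¹ * u with hcdef
  have hcc : ∀ y ∈ X, y * c = c * y := by
    intro y hy
    have h1 : c * y * c⁻¹ * y⁻¹ ∈ X := mul_mem (hcX y hy) (inv_mem hy)
    have h2 : c * y * c⁻¹ * y⁻¹ ∈ U := by
      have h3 : c * y * c⁻¹ * y⁻¹ = c * (y * c⁻¹ * y⁻¹) := by group
      rw [h3]
      exact mul_mem hcU (hN y hy _ (inv_mem hcU))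
    obtain ⟨k, hk⟩ := hXp ⟨_, h1⟩
    have h4 := hpp _ h2 k (by simpa using congrArg Subtype.val hk)
    have h5 : c * y = (c * y * c⁻¹ * y⁻¹) * (y * c) := by group
    rw [h5, h4, one_mul]
  refine ⟨c, hcU, hcc, c⁻¹ * n * c, ?_, ?_⟩
  · have h1 := hUN c⁻¹ (inv_mem hcU) n hnN
    rwa [inv_inv] at h1
  · have h1 : c * (c⁻¹ * n * c) = n * c := by group
    rw [h1, hcdef]
    group

/-- [S] -/
theorem comm_comm {p : ℕ} (hp : p.Prime) (hG : LF G) {U X : Subgroup G} (hpp : PP p U)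
    (hX : Finite X) (hXp : IsPGroup p X) (hN : Nz X U) : ⁅⁅U, X⁆, X⁆ = ⁅U, X⁆ := by
  refine le_antisymm (comm_le_left nz_comm_right) ?_
  rw [Subgroup.commutator_le]
  intro u hu y hy
  obtain ⟨c, hcU, hcc, n, hn, rfl⟩ := coprime_decomp hp hG hpp hX hXp hN hu
  have h1 : ⁅c * n, y⁆ = ⁅c * n * c⁻¹, y⁆ := by
    rw [commutatorElement_def, commutatorElement_def]
    have h2 : c⁻¹ * y = y * c⁻¹ := by
      have := hcc y hy
      rw [eq_mul_inv_iff_mul_eq, mul_assoc, this]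
      group
    have h3 : (c * n * c⁻¹) * y * (c * n * c⁻¹)⁻¹ * y⁻¹ =
        c * n * (c⁻¹ * y) * c * n⁻¹ * c⁻¹ * y⁻¹ := by group
    rw [h3, h2]
    group
  rw [h1]
  exact Subgroup.commutator_mem_commutator (nz_comm_left c hcU n hn) hy

/-- [S] fixed points of `X` on a commutative `U = [U, X]` are trivial. -/
theorem fix_trivial {p : ℕ} (hp : p.Prime) {U X : Subgroup G} (hpp : PP p U)
    (hX : Finite X) (hXp : IsPGroup p X) (hc : ∀ a ∈ U, ∀ b ∈ U, a * b = b * a)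
    (hperf : ⁅U, X⁆ = U) {c : G} (hcU : c ∈ U) (hcX : ∀ y ∈ X, y * c = c * y) : c = 1 := by
  classical
  have := Fact.mk hp
  have := Fintype.ofFinite X
  have hN : Nz X U := nz_of_perf hperf
  let _ : CommGroup U :=
    { (inferInstance : Group U) with
      mul_comm := fun a b => Subtype.ext (hc a a.2 b b.2) }
  let f : X → U → U := fun y u => ⟨y * u * (y : G)⁻¹, hN y y.2 u u.2⟩
  have hf : ∀ y a b, f y (a * b) = f y a * f y b := by
    intro y a b
    apply Subtype.ext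
    show (y : G) * (a * b) * (y : G)⁻¹ = (y * a * (y : G)⁻¹) * (y * b * (y : G)⁻¹)
    group
  let T : U →* U :=
    { toFun := fun u => ∏ y : X, f y u
      map_one' := by
        refine Finset.prod_eq_one fun y _ => ?_
        apply Subtype.ext
        show (y : G) * 1 * (y : G)⁻¹ = 1
        group
      map_mul' := fun a b => by
        rw [← Finset.prod_mul_distrib]
        exact Finset.prod_congr rfl fun y _ => hf y a b }
  have hT : ∀ u, T u = ∏ y : X, f y u := fun _ => rfl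
  have hinv : ∀ (y₀ : X) (u : U), T (f y₀ u) = T u := by
    intro y₀ u
    rw [hT, hT, ← Equiv.prod_comp (Equiv.mulRight y₀) (fun y => f y u)]
    refine Finset.prod_congr rfl fun y _ => ?_
    apply Subtype.ext
    show (y : G) * (y₀ * u * (y₀ : G)⁻¹) * (y : G)⁻¹ = ((y * y₀ : X) : G) * u * ((y * y₀ : X) : G)⁻¹
    rw [Subgroup.coe_mul]
    group
  have hker : ∀ a ∈ ⁅U, X⁆, ∀ ha : a ∈ U, T ⟨a, ha⟩ = 1 := by
    intro a ha
    rw [Subgroup.commutator_def] at ha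
    refine Subgroup.closure_induction (p := fun a _ => ∀ ha : a ∈ U, T ⟨a, ha⟩ = 1) ?_ ?_ ?_ ?_ ha
    · rintro _ ⟨u, hu, y, hy, rfl⟩ ha
      have h1 : (⟨⁅u, y⁆, ha⟩ : U) = (⟨u, hu⟩ : U) * f ⟨y, hy⟩ (⟨u, hu⟩⁻¹) := by
        apply Subtype.ext
        show u * y * u⁻¹ * y⁻¹ = u * (y * u⁻¹ * y⁻¹)
        group
      rw [h1, map_mul, hinv, map_inv, mul_inv_cancel]
    · intro _
      exact map_one T
    · intro a b ha' hb' iha ihb hab
      have ha1 : a ∈ U := by rw [← hperf, Subgroup.commutator_def]; exact ha'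
      have hb1 : b ∈ U := by rw [← hperf, Subgroup.commutator_def]; exact hb'
      have h1 : (⟨a * b, hab⟩ : U) = ⟨a, ha1⟩ * ⟨b, hb1⟩ := rfl
      rw [h1, map_mul, iha, ihb, one_mul]
    · intro a ha' iha hai
      have ha1 : a ∈ U := by rw [← hperf, Subgroup.commutator_def]; exact ha'
      have h1 : (⟨a⁻¹, hai⟩ : U) = (⟨a, ha1⟩ : U)⁻¹ := rfl
      rw [h1, map_inv, iha, inv_one]
  have h1 := hker c (by rw [hperf]; exact hcU) hcU
  have h2 : T ⟨c, hcU⟩ = ⟨c, hcU⟩ ^ Fintype.card X := by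
    rw [hT]
    have h3 : ∀ y ∈ (Finset.univ : Finset X), f y ⟨c, hcU⟩ = ⟨c, hcU⟩ := by
      intro y _
      apply Subtype.ext
      show (y : G) * c * (y : G)⁻¹ = c
      rw [hcX y y.2]
      group
    rw [Finset.prod_congr rfl h3, Finset.prod_const, Finset.card_univ]
  rw [h1] at h2
  obtain ⟨k, hk⟩ := (IsPGroup.iff_card (p := p) (G := X)).1 hXp
  rw [Nat.card_eq_fintype_card] at hk
  rw [hk] at h2
  exact hpp c hcU k (by
    have := congrArg Subtype.val h2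
    rw [Subgroup.coe_pow] at this
    exact this.symm)

end

end PMC.S
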