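import Pool.Agent.PMC.LibE

/-!
[PMC] row Z1.
-/

set_option autoImplicit false

namespace PMC.Z1

open Subgroup PMC
open scoped commutatorElement

section

variable {G : Type*} [Group G] {p : ℕ} {V X : Subgroup G}

/-- a finite conjugacy class gives a centraliser of finite index -/
theorem fi_centralizer {v : G} (h : (Set.range fun g : G => g * v * g⁻¹).Finite) :
    (Subgroup.centralizer ({v} : Set G)).FiniteIndex := by
  have : Finite (Set.range fun g : G => g * v * g⁻¹) := h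
  have hq : Finite (G ⧸ Subgroup.centralizer ({v} : Set G)) := by
    refine Finite.of_injective (β := (Set.range fun g : G => g * v * g⁻¹))
      (Quotient.lift (fun g : G => (⟨g * v * g⁻¹, ⟨g, rfl⟩⟩ :
        (Set.range fun g : G => g * v * g⁻¹))) ?_) ?_
    · intro a b hab
      have h1 : a⁻¹ * b ∈ Subgroup.centralizer ({v} : Set G) := QuotientGroup.leftRel_apply.1 hab
      rw [Subgroup.mem_centralizer_singleton_iff] at h1
      apply Subtype.ext
      show a * v * a⁻¹ = b * v * b⁻¹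
      calc a * v * a⁻¹ = a * (v * (a⁻¹ * b)) * b⁻¹ := by group
        _ = a * ((a⁻¹ * b) * v) * b⁻¹ := by rw [h1]
        _ = b * v * b⁻¹ := by group
    · intro x y
      induction x using QuotientGroup.induction_on with
      | H a =>
      induction y using QuotientGroup.induction_on with
      | H b =>
      intro hab
      have h1 : a * v * a⁻¹ = b * v * b⁻¹ := congrArg Subtype.val hab
      apply QuotientGroup.eq.2
      rw [Subgroup.mem_centralizer_singleton_iff]
      calc (a⁻¹ * b) * v = a⁻¹ * (b * v * b⁻¹) * b := by group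
        _ = a⁻¹ * (a * v * a⁻¹) * b := by rw [h1]
        _ = v * (a⁻¹ * b) := by group
  exact Subgroup.finiteIndex_of_finite_quotient

/-- (a) nontrivial elements have infinite classes -/
theorem infinite_class (hV : V.Normal)
    (hfi : ∀ M : Subgroup G, M.Normal → M ≤ V → M.relIndex V ≠ 0 → M = V)
    (hZ : ∀ v ∈ V, (∀ u ∈ V, u * v = v * u) → v = 1) {v : G} (hv : v ∈ V) (h1 : v ≠ 1) :
    (Set.range fun g : G => g * v * g⁻¹).Infinite := by
  intro hfin
  have hC := fi_centralizer hfin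
  have hK : (Subgroup.centralizer ({v} : Set G)).normalCore.FiniteIndex := inferInstance
  have hKn : ((Subgroup.centralizer ({v} : Set G)).normalCore).Normal := inferInstance
  have hM : ((Subgroup.centralizer ({v} : Set G)).normalCore ⊓ V) = V := by
    apply hfi
    · exact inferInstance
    · exact inf_le_right
    · rw [Subgroup.inf_relIndex_right]
      intro h0
      have := hK.index_ne_zero
      exact this (Nat.eq_zero_of_zero_dvd (h0 ▸ Subgroup.relIndex_dvd_index_of_normal _ V))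
  apply h1
  apply hZ v hv
  intro u hu
  rw [← hM] at hu
  have := Subgroup.normalCore_le _ hu.1
  rw [Subgroup.mem_centralizer_singleton_iff] at this
  exact this

/-- (b) -/
theorem class_two (hp : p.Prime) (hG : LF G) (hV : V.Normal) (hpp : PP p V) (hX : Finite X)
    (hXp : IsPGroup p X) (hsup : V ⊔ X = ⊤)
    (hfi : ∀ M : Subgroup G, M.Normal → M ≤ V → M.relIndex V ≠ 0 → M = V)
    (hZ : ∀ v ∈ V, (∀ u ∈ V, u * v = v * u) → v = 1) {M : Subgroup G} (hM : M.Normal)
    (hMV : M ≤ V) (hT : Finite (⁅M, X⁆ : Subgroup G)) :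
    ∀ a ∈ (⁅M, X⁆ : Subgroup G), ∀ b ∈ (⁅M, X⁆ : Subgroup G), ∀ c ∈ (⁅M, X⁆ : Subgroup G),
      c * ⁅a, b⁆ = ⁅a, b⁆ * c := by
  obtain ⟨T, hTdef⟩ : ∃ T : Subgroup G, T = ⁅M, X⁆ := ⟨_, rfl⟩
  have hXM : Nz X M := nz_of_normal hM
  have hTM : T ≤ M := by rw [hTdef]; exact comm_le_left hXM
  have hMT : Nz M T := by rw [hTdef]; exact nz_comm_left
  have hXT : Nz X T := by rw [hTdef]; exact nz_comm_right
  have hTX : ⁅T, X⁆ = T := by
    rw [hTdef]
    exact comm_comm hp hG (fun u hu k hk => hpp u (hMV hu) k hk) hX hXp hXM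
  rw [← hTdef] at hT ⊢
  -- the conjugate
  obtain ⟨g, hg⟩ := neumann (G := G) (T := (T : Set G) \ {1})
    ((Set.toFinite (T : Set G)).subset Set.sdiff_subset) (by
      rintro t ⟨ht, ht1⟩
      exact infinite_class hV hfi hZ (hMV (hTM ht)) ht1)
  have hinf : ∀ z ∈ T, z ∈ cj g T → z = 1 := by
    intro z hz hz'
    by_contra hz1
    rw [mem_cj] at hz'
    have h2 : g⁻¹ * z * g ≠ 1 := by
      intro h3
      apply hz1
      calc z = g * (g⁻¹ * z * g) * g⁻¹ := by group
        _ = 1 := by rw [h3]; group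
    apply hg _ ⟨hz', h2⟩
    have e : g * (g⁻¹ * z * g) * g⁻¹ = z := by group
    rw [e]
    exact ⟨hz, hz1⟩
  obtain ⟨T', hT'def⟩ : ∃ T' : Subgroup G, T' = cj g T := ⟨_, rfl⟩
  rw [← hT'def] at hinf
  have hT'comm : T' = ⁅M, cj g X⁆ := by
    rw [hT'def, hTdef, cj_comm, cj_normal g hM]
  have hT'M : T' ≤ M := by rw [hT'comm]; exact comm_le_left (nz_of_normal hM)
  have hMT' : Nz M T' := by rw [hT'comm]; exact nz_comm_left
  have hcom : ∀ a ∈ T, ∀ b ∈ T', a * b = b * a := by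
    intro a ha b hb
    have h1 : a * b * a⁻¹ * b⁻¹ ∈ T := by
      have := mul_mem ha (hMT b (hT'M hb) a⁻¹ (inv_mem ha))
      have e : a * b * a⁻¹ * b⁻¹ = a * (b * a⁻¹ * b⁻¹) := by group
      rw [e]
      exact this
    have h2 : a * b * a⁻¹ * b⁻¹ ∈ T' :=
      mul_mem (hMT' a (hTM ha) b hb) (inv_mem hb)
    have h3 := hinf _ h1 h2
    calc a * b = (a * b * a⁻¹ * b⁻¹) * (b * a) := by group
      _ = b * a := by rw [h3, one_mul]
  -- action of X on T'
  have hact : ∀ t ∈ T', ∀ y ∈ X, ∃ c ∈ T, (∀ s ∈ T, s * c = c * s) ∧ y * t * y⁻¹ = c * t := by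
    intro t ht y hy
    refine ⟨(y * t * y⁻¹) * t⁻¹, ?_, ?_, by group⟩
    · have : ⁅t, y⁆ ∈ ⁅M, X⁆ := Subgroup.commutator_mem_commutator (hT'M ht) hy
      rw [← hTdef] at this
      have h2 := inv_mem this
      have e : ⁅t, y⁆⁻¹ = (y * t * y⁻¹) * t⁻¹ := by
        rw [commutatorElement_def]; group
      rwa [e] at h2
    · intro s hs
      have h1 : y⁻¹ * s * y ∈ T := by
        have := hXT y⁻¹ (inv_mem hy) s hs
        rwa [inv_inv] at this
      have h2 := hcom _ h1 t ht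
      have h3 : s * (y * t * y⁻¹) = (y * t * y⁻¹) * s := by
        calc s * (y * t * y⁻¹) = y * ((y⁻¹ * s * y) * t) * y⁻¹ := by group
          _ = y * (t * (y⁻¹ * s * y)) * y⁻¹ := by rw [h2]
          _ = (y * t * y⁻¹) * s := by group
      have h4 : s * t⁻¹ = t⁻¹ * s := hcom s hs t⁻¹ (inv_mem ht)
      calc s * (y * t * y⁻¹ * t⁻¹) = (s * (y * t * y⁻¹)) * t⁻¹ := by group
        _ = (y * t * y⁻¹) * (s * t⁻¹) := by rw [h3]; group
        _ = (y * t * y⁻¹) * (t⁻¹ * s) := by rw [h4]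
        _ = (y * t * y⁻¹ * t⁻¹) * s := by group
  have hfix : ∀ t ∈ T', ∀ s ∈ T', ∀ y ∈ X, y * ⁅t, s⁆ * y⁻¹ = ⁅t, s⁆ := by
    intro t ht s hs y hy
    obtain ⟨c, hc, hcc, hct⟩ := hact t ht y hy
    obtain ⟨d, hd, hdc, hds⟩ := hact s hs y hy
    have e1 : y * ⁅t, s⁆ * y⁻¹ = ⁅y * t * y⁻¹, y * s * y⁻¹⁆ := by
      simp only [commutatorElement_def]
      group
    rw [e1, hct, hds]
    -- commutation facts
    have ct : Commute c t := hcom c hc t ht
    have cs : Commute c s := hcom c hc s hs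
    have dt : Commute d t := hcom d hd t ht
    have ds : Commute d s := hcom d hd s hs
    have cd : Commute c d := (hdc c hc)
    simp only [commutatorElement_def]
    have c1 : Commute c (t * (d * s)) := ct.mul_right (cd.mul_right cs)
    calc (c * t) * (d * s) * (c * t)⁻¹ * (d * s)⁻¹
        = (c * (t * (d * s))) * t⁻¹ * c⁻¹ * (d * s)⁻¹ := by group
      _ = c * (t * (d * s) * t⁻¹) * c⁻¹ * (d * s)⁻¹ := by group
      _ = (t * (d * s) * t⁻¹) * (d * s)⁻¹ := by
          have c2 : Commute c (t * (d * s) * t⁻¹) := c1.mul_right ct.inv_right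
          rw [c2.eq]; group
      _ = (t * d) * s * t⁻¹ * (d * s)⁻¹ := by group
      _ = (d * t) * s * t⁻¹ * (d * s)⁻¹ := by rw [← dt.eq]
      _ = d * (t * s * t⁻¹ * s⁻¹) * d⁻¹ := by group
      _ = t * s * t⁻¹ * s⁻¹ := by
          have c3 : Commute d (t * s * t⁻¹ * s⁻¹) :=
            ((dt.mul_right ds).mul_right dt.inv_right).mul_right ds.inv_right
          rw [c3.eq]; group
  -- `X` centralises `⁅T', T'⁆`
  have hXc : ∀ a ∈ (⁅T', T'⁆ : Subgroup G), ∀ y ∈ X, y * a * y⁻¹ = a := by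
    intro a ha y hy
    rw [Subgroup.commutator_def] at ha
    refine Subgroup.closure_induction (p := fun a _ => y * a * y⁻¹ = a) ?_ ?_ ?_ ?_ ha
    · rintro _ ⟨t, ht, s, hs, rfl⟩
      exact hfix t ht s hs y hy
    · group
    · intro a b _ _ ha hb
      calc y * (a * b) * y⁻¹ = (y * a * y⁻¹) * (y * b * y⁻¹) := by group
        _ = a * b := by rw [ha, hb]
    · intro a _ ha
      calc y * a⁻¹ * y⁻¹ = (y * a * y⁻¹)⁻¹ := by group
        _ = a⁻¹ := by rw [ha]
  have hA : cj g ⁅T, T⁆ = ⁅T', T'⁆ := by rw [cj_comm, hT'def]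
  have hXTT : Nz X ⁅T, T⁆ := by
    rw [nz_iff_cj]
    intro y hy
    rw [cj_comm, (nz_iff_cj.1 hXT) y hy]
  have h1 : Nz X (⁅T', T'⁆ : Subgroup G) := fun y hy a ha => by
    rw [hXc a ha y hy]; exact ha
  have h2 : Nz (cj g X) (⁅T', T'⁆ : Subgroup G) := by
    intro y hy a ha
    rw [← hA] at ha ⊢
    rw [mem_cj] at hy ha ⊢
    have := hXTT _ hy _ ha
    have e : g⁻¹ * (y * a * y⁻¹) * g = (g⁻¹ * y * g) * (g⁻¹ * a * g) * (g⁻¹ * y * g)⁻¹ := by group
    rw [e]
    exact this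
  have h3 : ∀ Y : Subgroup G, Nz Y (⊥ : Subgroup G) := by
    intro Y y _ u hu
    rw [Subgroup.mem_bot] at hu ⊢
    rw [hu]; group
  have h4 : ⁅(⁅T', T'⁆ : Subgroup G), X⁆ ≤ (⊥ : Subgroup G) := by
    rw [Subgroup.commutator_le]
    intro a ha y hy
    rw [Subgroup.mem_bot, commutatorElement_def]
    have := hXc a ha y hy
    calc a * y * a⁻¹ * y⁻¹ = a * (y * a * y⁻¹)⁻¹ := by group
      _ = 1 := by rw [this]; group
  have h5 := star hp hG hV hpp hX hXp hsup g h1 h2 (h3 _) (h3 _) h4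
  have h6 : ∀ a ∈ (⁅T, T⁆ : Subgroup G), ∀ y ∈ X, a * y = y * a := by
    intro a ha y hy
    have h7 : ⁅g * a * g⁻¹, g * y * g⁻¹⁆ ∈ (⊥ : Subgroup G) := by
      apply h5
      apply Subgroup.commutator_mem_commutator
      · rw [← hA]; exact conj_mem_cj.2 ha
      · exact conj_mem_cj.2 hy
    rw [Subgroup.mem_bot] at h7
    have e : ⁅g * a * g⁻¹, g * y * g⁻¹⁆ = g * ⁅a, y⁆ * g⁻¹ := by
      simp only [commutatorElement_def]; group
    rw [e] at h7
    have h8 : ⁅a, y⁆ = 1 := by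
      calc ⁅a, y⁆ = g⁻¹ * (g * ⁅a, y⁆ * g⁻¹) * g := by group
        _ = 1 := by rw [h7]; group
    exact commutatorElement_eq_one_iff_mul_comm.1 h8
  -- `T` centralises `⁅T, T⁆`
  have hTTT : Nz T ⁅T, T⁆ := nz_comm_left
  have h9 : T ≤ Subgroup.centralizer ((⁅T, T⁆ : Subgroup G) : Set G) := by
    have h10 : ⁅T, X⁆ ≤ Subgroup.centralizer ((⁅T, T⁆ : Subgroup G) : Set G) := by
      rw [Subgroup.commutator_le]
      intro t ht y hy
      rw [Subgroup.mem_centralizer_iff]
      intro a ha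
      have ha' : a ∈ (⁅T, T⁆ : Subgroup G) := ha
      have h11 : t⁻¹ * a * t ∈ (⁅T, T⁆ : Subgroup G) := by
        have := hTTT t⁻¹ (inv_mem ht) a ha'
        rwa [inv_inv] at this
      have h12 := h6 _ h11 y hy
      have h13 := h6 _ ha' y hy
      have h14 : a * (t * y * t⁻¹) = (t * y * t⁻¹) * a := by
        calc a * (t * y * t⁻¹) = t * ((t⁻¹ * a * t) * y) * t⁻¹ := by group
          _ = t * (y * (t⁻¹ * a * t)) * t⁻¹ := by rw [h12]
          _ = (t * y * t⁻¹) * a := by group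
      have h15 : a * y⁻¹ = y⁻¹ * a := by
        calc a * y⁻¹ = y⁻¹ * (y * a) * y⁻¹ := by group
          _ = y⁻¹ * (a * y) * y⁻¹ := by rw [h13]
          _ = y⁻¹ * a := by group
      rw [commutatorElement_def]
      calc a * (t * y * t⁻¹ * y⁻¹) = (a * (t * y * t⁻¹)) * y⁻¹ := by group
        _ = (t * y * t⁻¹) * (a * y⁻¹) := by rw [h14]; group
        _ = (t * y * t⁻¹) * (y⁻¹ * a) := by rw [h15]
        _ = t * y * t⁻¹ * y⁻¹ * a := by group
    rwa [hTX] at h10
  intro a ha b hb c hc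
  have h16 := h9 hc
  rw [Subgroup.mem_centralizer_iff] at h16
  exact (h16 _ (Subgroup.commutator_mem_commutator ha hb)).symm

/-- [Z1] -/
theorem core (hp : p.Prime) (hG : LF G) (hV : V.Normal) (hpp : PP p V) (hX : Finite X)
    (hXp : IsPGroup p X) (hsup : V ⊔ X = ⊤) (hperf : ⁅V, X⁆ = V)
    (hfi : ∀ M : Subgroup G, M.Normal → M ≤ V → M.relIndex V ≠ 0 → M = V)
    (hF : ∀ F : Set G, F.Finite → F ⊆ V → Finite (⁅Subgroup.normalClosure F, X⁆ : Subgroup G))
    (hZ : ∀ v ∈ V, (∀ u ∈ V, u * v = v * u) → v = 1) : V = ⊥ := by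
  have key : ∀ a ∈ V, ∀ b ∈ V, ∀ c ∈ V, c * ⁅a, b⁆ = ⁅a, b⁆ * c := by
    intro a ha b hb c hc
    obtain ⟨F, hFf, hFV, hS⟩ := exists_finite_normal (V := V) (X := X) hV hperf
      (S := {a, b, c}) (Set.toFinite _) (by
        rintro z (rfl | rfl | rfl)
        · exact ha
        · exact hb
        · exact hc)
    exact class_two hp hG hV hpp hX hXp hsup hfi hZ Subgroup.normalClosure_normal
      (by
        have := hV
        exact Subgroup.normalClosure_le_normal hFV) (hF F hFf hFV)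
      a (hS (by simp)) b (hS (by simp)) c (hS (by simp))
  have hcomm : ∀ a ∈ V, ∀ b ∈ V, a * b = b * a := by
    intro a ha b hb
    have hm : ⁅a, b⁆ ∈ V := by
      rw [commutatorElement_def]
      exact mul_mem (mul_mem (mul_mem ha hb) (inv_mem ha)) (inv_mem hb)
    exact commutatorElement_eq_one_iff_mul_comm.1 (hZ _ hm (fun u hu => key a ha b hb u hu))
  rw [eq_bot_iff]
  intro v hv
  rw [Subgroup.mem_bot]
  exact hZ v hv (fun u hu => hcomm u hu v hv)

end

end PMC.Z1
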