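import Pool.Agent.PMC.LibZ1

/-! [PMC] row Z2 -/

set_option autoImplicit false

namespace PMC.Z2

open Subgroup PMC

section

variable {G : Type*} [Group G] {p : ℕ} {V X : Subgroup G} {x : G}

/-- The centre of `V`. -/
def Zc (V : Subgroup G) : Subgroup G := V ⊓ Subgroup.centralizer (V : Set G)

theorem mem_Zc {v : G} : v ∈ Zc V ↔ v ∈ V ∧ ∀ u ∈ V, u * v = v * u := by
  rw [Zc, Subgroup.mem_inf, Subgroup.mem_centralizer_iff]
  rfl

theorem Zc_normal (hV : V.Normal) : (Zc V).Normal := by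
  refine ⟨fun z hz g => ?_⟩
  rw [mem_Zc] at hz ⊢
  refine ⟨hV.conj_mem z hz.1 g, fun u hu => ?_⟩
  have h1 := hz.2 (g⁻¹ * u * g) (by
    have := hV.conj_mem u hu g⁻¹
    rwa [inv_inv] at this)
  have h2 : u * (g * z * g⁻¹) = g * ((g⁻¹ * u * g) * z) * g⁻¹ := by group
  have h3 : g * z * g⁻¹ * u = g * (z * (g⁻¹ * u * g)) * g⁻¹ := by group
  rw [h2, h3, h1]

/-- `u ↦ ⁅u, v⁆` -/
theorem second_centre (hG : LF G)
    (hdiv : ∀ v ∈ V, ∀ n : ℕ, 0 < n → ∃ u ∈ V, ∃ c ∈ ⁅V, V⁆, v = u ^ n * c) {v : G} (hv : v ∈ V)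
    (h : ∀ u ∈ V, u * v * u⁻¹ * v⁻¹ ∈ Zc V) : ∀ u ∈ V, u * v = v * u := by
  -- conjugation
  have hc : ∀ u ∈ V, ∃ z, z ∈ Zc V ∧ u * v = z * v * u := fun u hu =>
    ⟨u * v * u⁻¹ * v⁻¹, h u hu, by group⟩
  have hcomm : ∀ z, z ∈ Zc V → ∀ u ∈ V, u * z = z * u := fun z hz => (mem_Zc.1 hz).2
  have key : ∀ a ∈ V, ∀ b ∈ V, (a * b) * v * (a * b)⁻¹ = (b * a) * v * (b * a)⁻¹ := by
    intro a ha b hb
    obtain ⟨y, hy, hay⟩ := hc a ha
    obtain ⟨z, hz, hbz⟩ := hc b hb
    have hyV : y ∈ V := (mem_Zc.1 hy).1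
    have e1 : (a * b) * v = z * y * v * (a * b) := by
      calc a * b * v = a * (b * v) := by group
        _ = (a * z) * v * b := by rw [hbz]; group
        _ = z * (a * v) * b := by rw [hcomm z hz a ha]; group
        _ = z * y * v * (a * b) := by rw [hay]; group
    have e2 : (b * a) * v = y * z * v * (b * a) := by
      calc b * a * v = b * (a * v) := by group
        _ = (b * y) * v * a := by rw [hay]; group
        _ = y * (b * v) * a := by rw [hcomm y hy b hb]; group
        _ = y * z * v * (b * a) := by rw [hbz]; group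
    rw [e1, e2, hcomm z hz y hyV]
    group
  have hker : ⁅V, V⁆ ≤ Subgroup.centralizer {v} := by
    rw [Subgroup.commutator_le]
    intro a ha b hb
    rw [Subgroup.mem_centralizer_singleton_iff, commutatorElement_def]
    have h1 := key a⁻¹ (inv_mem ha) b⁻¹ (inv_mem hb)
    have h2 : (a⁻¹ * b⁻¹) * v * (a⁻¹ * b⁻¹)⁻¹ = (a⁻¹ * b⁻¹) * v * (b * a) := by group
    have h3 : (b⁻¹ * a⁻¹) * v * (b⁻¹ * a⁻¹)⁻¹ = (b⁻¹ * a⁻¹) * v * (a * b) := by group
    rw [h2, h3] at h1
    calc a * b * a⁻¹ * b⁻¹ * v = a * b * (a⁻¹ * b⁻¹ * v * (b * a)) * (b * a)⁻¹ := by group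
      _ = a * b * ((b⁻¹ * a⁻¹) * v * (a * b)) * (b * a)⁻¹ := by rw [h1]
      _ = v * (a * b * a⁻¹ * b⁻¹) := by group
  obtain ⟨n, hn, hvn⟩ := hG.torsion v
  intro u hu
  obtain ⟨w, hw, c, hcV, rfl⟩ := hdiv u hu n hn
  obtain ⟨z, hz, hwz⟩ := hc w hw
  have hzv : Commute z v := by
    have := hcomm z hz v hv
    exact this.symm
  have hcv : c * v = v * c := Subgroup.mem_centralizer_singleton_iff.1 (hker hcV)
  -- `z ^ n = 1`
  have hzn : z ^ n = 1 := by
    have h1 : w * v * w⁻¹ = z * v := by rw [hwz]; group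
    have h2 : (w * v * w⁻¹) ^ n = w * v ^ n * w⁻¹ := conj_pow
    rw [h1, hzv.mul_pow, hvn, mul_one, mul_one, mul_inv_cancel] at h2
    exact h2
  have hpow : ∀ k : ℕ, w ^ k * v = z ^ k * v * w ^ k := by
    intro k
    induction k with
    | zero => simp
    | succ k ih =>
      have hz2 : w * z ^ k = z ^ k * w := by
        have : Commute w z := hcomm z hz w hw
        exact (this.pow_right k)
      calc w ^ (k + 1) * v = w * (w ^ k * v) := by rw [pow_succ']; group
        _ = (w * z ^ k) * v * w ^ k := by rw [ih]; group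
        _ = z ^ k * (w * v) * w ^ k := by rw [hz2]; group
        _ = z ^ k * z * v * (w * w ^ k) := by rw [hwz]; group
        _ = z ^ (k + 1) * v * w ^ (k + 1) := by rw [← pow_succ, ← pow_succ']
  have h5 := hpow n
  rw [hzn, one_mul] at h5
  calc w ^ n * c * v = w ^ n * (c * v) := by group
    _ = (w ^ n * v) * c := by rw [hcv]; group
    _ = v * (w ^ n * c) := by rw [h5]; group

theorem core_comm (hp : p.Prime) (hG : LF G) (hV : V.Normal) (hpp : PP p V) (hX : Finite X)
    (hXp : IsPGroup p X) (hsup : V ⊔ X = ⊤) (hperf : ⁅V, X⁆ = V)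
    (hfi : ∀ M : Subgroup G, M.Normal → M ≤ V → M.relIndex V ≠ 0 → M = V)
    (hF : ∀ F : Set G, F.Finite → F ⊆ V → Finite (⁅Subgroup.normalClosure F, X⁆ : Subgroup G))
    (hdiv : ∀ v ∈ V, ∀ n : ℕ, 0 < n → ∃ u ∈ V, ∃ c ∈ ⁅V, V⁆, v = u ^ n * c) :
    ∀ a ∈ V, ∀ b ∈ V, a * b = b * a := by
  have hN : (Zc V).Normal := Zc_normal hV
  let π : G →* G ⧸ Zc V := QuotientGroup.mk' (Zc V)
  have hπ : Function.Surjective π := QuotientGroup.mk'_surjective _
  have hker : π.ker = Zc V := QuotientGroup.ker_mk' _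
  have hZV : Zc V ≤ V := inf_le_left
  have hfin : ∀ K : Subgroup G, Finite K → Finite (K.map π) := by
    intro K hK
    have : ((K.map π : Subgroup _) : Set (G ⧸ Zc V)).Finite := by
      rw [Subgroup.coe_map]
      exact Set.Finite.image _ (Set.toFinite _)
    exact this.to_subtype
  have main : V.map π = ⊥ := by
    refine core (X := X.map π) hp (hG.quotient (Zc V)) (hV.map π hπ)
      (PP.quotient hp hG hpp (Zc V)) (hfin X hX) (hXp.map π) ?_ ?_ ?_ ?_ ?_
    · rw [← Subgroup.map_sup, hsup, Subgroup.map_top_of_surjective π hπ]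
    · rw [← Subgroup.map_commutator, hperf]
    · intro M hM hMV hMi
      have h1 : (M.comap π ⊓ V) = V := by
        refine hfi _ ?_ inf_le_right ?_
        · have : (M.comap π).Normal := hM.comap π
          exact inferInstanceAs (M.comap π ⊓ V).Normal
        · rw [Subgroup.inf_relIndex_right, Subgroup.relIndex_comap]
          exact hMi
      refine le_antisymm hMV ?_
      rw [Subgroup.map_le_iff_le_comap]
      exact inf_eq_right.1 h1
    · intro F hFf hFV
      -- lift the finite set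
      have hlift : ∀ y : G ⧸ Zc V, y ∈ F → ∃ g ∈ V, π g = y := by
        intro y hy
        obtain ⟨g, hg, rfl⟩ := hFV hy
        exact ⟨g, hg, rfl⟩
      choose! s hs using hlift
      have hsF : (s '' F).Finite := hFf.image s
      have himg : π '' (s '' F) = F := by
        ext y
        constructor
        · rintro ⟨_, ⟨z, hz, rfl⟩, rfl⟩
          rw [(hs z hz).2]
          exact hz
        · intro hy
          exact ⟨s y, ⟨y, hy, rfl⟩, (hs y hy).2⟩
      have h1 := hF (s '' F) hsF (by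
        rintro _ ⟨z, hz, rfl⟩
        exact (hs z hz).1)
      have h2 := hfin _ h1
      rw [Subgroup.map_commutator, Subgroup.map_normalClosure _ π hπ, himg] at h2
      exact h2
    · rintro _ ⟨v, hv, rfl⟩ hvc
      have h1 : ∀ u ∈ V, u * v * u⁻¹ * v⁻¹ ∈ Zc V := by
        intro u hu
        rw [← hker, MonoidHom.mem_ker]
        have := hvc (π u) ⟨u, hu, rfl⟩
        rw [map_mul, map_mul, map_mul, this, map_inv, map_inv]
        group
      have h2 := second_centre hG hdiv hv h1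
      have h3 : v ∈ Zc V := mem_Zc.2 ⟨hv, h2⟩
      rw [← hker, MonoidHom.mem_ker] at h3
      exact h3
  have hVZ : V ≤ Zc V := by
    intro v hv
    have : π v ∈ V.map π := ⟨v, hv, rfl⟩
    rw [main, Subgroup.mem_bot] at this
    rw [← hker, MonoidHom.mem_ker]
    exact this
  intro a ha b hb
  exact (mem_Zc.1 (hVZ hb)).2 a ha

end

end PMC.Z2
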