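import Pool.Agent.PMC.Mo

/-!
[PMC] semidirect products `V ⋊ ⟨α⟩` as test groups.
-/

set_option autoImplicit false

namespace PMC

open Subgroup SemidirectProduct
open scoped commutatorElement

universe u

/-- no nontrivial `p`-elements -/
def NoP (p : ℕ) (V : Type*) [Group V] : Prop := ∀ v : V, ∀ k : ℕ, v ^ (p ^ k) = 1 → v = 1

/-- a finite extension of a locally finite group -/
theorem LF.ext {G H V : Type*} [Group G] [Group H] [Group V] [Finite H] (f : G →* H) (i : V →* G)
    (hi : f.ker ≤ i.range) (hV : LF V) : LF G := by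
  intro s hs
  set K := Subgroup.closure s with hK
  have : Finite s := hs
  have : Group.FG K := Group.closure_finite_fg s
  let fK : K →* H := f.comp K.subtype
  have : fK.ker.FiniteIndex := inferInstance
  have : Group.FG fK.ker := Subgroup.fg_of_index_ne_zero fK.ker
  obtain ⟨T, hT⟩ := (Group.FG.out : (⊤ : Subgroup fK.ker).FG)
  let j : fK.ker →* G := K.subtype.comp fK.ker.subtype
  have hj : Function.Injective j := fun a b h => Subtype.ext (Subtype.ext h)
  have hTf : (j '' (T : Set fK.ker)).Finite := T.finite_toSet.image j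
  have h1 : Subgroup.closure (j '' (T : Set fK.ker)) = j.range := by
    rw [← MonoidHom.map_closure, hT, ← MonoidHom.range_eq_map]
  have h2 : ∀ g ∈ j '' (T : Set fK.ker), ∃ v : V, i v = g := by
    rintro _ ⟨t, _, rfl⟩
    have : j t ∈ f.ker := t.2
    exact hi this
  choose! r hr using h2
  have h3 : j '' (T : Set fK.ker) = i '' (r '' (j '' (T : Set fK.ker))) := by
    ext g
    constructor
    · intro hg
      exact ⟨r g, ⟨g, hg, rfl⟩, hr g hg⟩
    · rintro ⟨_, ⟨g', hg', rfl⟩, rfl⟩
      rw [hr g' hg']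
      exact hg'
  have h4 : (j.range : Set G).Finite := by
    rw [← h1, h3, ← MonoidHom.map_closure]
    exact (hV _ (hTf.image r)).image i
  have h5 : Finite fK.ker := by
    have : Finite j.range := h4
    exact Finite.of_injective j.rangeRestrict
      (fun a b h => hj (congrArg (Subtype.val : j.range → G) h))
  have h6 : Finite K := by
    apply Nat.finite_of_card_ne_zero
    rw [← Subgroup.card_mul_index fK.ker]
    exact mul_ne_zero Nat.card_pos.ne' Subgroup.FiniteIndex.index_ne_zero
  exact h6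

theorem LF.pi {ι H : Type*} [Finite ι] [Group H] (hH : LF H) : LF (ι → H) := by
  intro s hs
  have h1 : (Set.pi Set.univ fun i : ι =>
      (Subgroup.closure ((fun f : ι → H => f i) '' s) : Set H)).Finite :=
    Set.Finite.pi fun i => hH _ (hs.image _)
  refine h1.subset ?_
  intro f hf i _
  have := Subgroup.mem_map_of_mem (Pi.evalMonoidHom (fun _ : ι => H) i) hf
  rw [MonoidHom.map_closure] at this
  exact this

/-- the commutator with a cyclic group of automorphisms -/
theorem comm_zpowers_eq {G : Type*} [Group G] {W : Subgroup G} {x : G}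
    (hN : Nz (Subgroup.zpowers x) W) :
    ⁅W, Subgroup.zpowers x⁆ = Subgroup.closure ((fun w => ⁅w, x⁆) '' (W : Set G)) := by
  have hx : x ∈ Subgroup.zpowers x := Subgroup.mem_zpowers x
  set C := Subgroup.closure ((fun w => ⁅w, x⁆) '' (W : Set G)) with hC
  have hgen : ∀ w ∈ W, ⁅w, x⁆ ∈ C := fun w hw => Subgroup.subset_closure ⟨w, hw, rfl⟩
  have hconj : ∀ y : G, (∀ w ∈ W, y * ⁅w, x⁆ * y⁻¹ ∈ C) → ∀ c ∈ C, y * c * y⁻¹ ∈ C := by
    intro y hy c hc
    refine Subgroup.closure_induction (p := fun c _ => y * c * y⁻¹ ∈ C) ?_ ?_ ?_ ?_ hc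
    · rintro _ ⟨w, hw, rfl⟩
      exact hy w hw
    · simp
    · intro a b _ _ ha hb
      have e : y * (a * b) * y⁻¹ = (y * a * y⁻¹) * (y * b * y⁻¹) := by group
      rw [e]
      exact mul_mem ha hb
    · intro a _ ha
      have e : y * a⁻¹ * y⁻¹ = (y * a * y⁻¹)⁻¹ := by group
      rw [e]
      exact inv_mem ha
  have h1 : ∀ c ∈ C, x * c * x⁻¹ ∈ C := hconj x fun w hw => by
    have e : x * ⁅w, x⁆ * x⁻¹ = ⁅x * w * x⁻¹, x⁆ := by
      simp only [commutatorElement_def]
      group
    rw [e]
    exact hgen _ (hN x hx w hw)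
  have h2 : ∀ c ∈ C, x⁻¹ * c * x ∈ C := by
    have := hconj x⁻¹ fun w hw => by
      have e : x⁻¹ * ⁅w, x⁆ * x⁻¹⁻¹ = ⁅x⁻¹ * w * x⁻¹⁻¹, x⁆ := by
        simp only [commutatorElement_def]
        group
      rw [e]
      exact hgen _ (hN x⁻¹ (inv_mem hx) w hw)
    simpa using this
  have key : ∀ n : ℕ, ∀ w ∈ W, ⁅w, x ^ n⁆ ∈ C ∧ ⁅w, (x ^ n)⁻¹⁆ ∈ C := by
    intro n
    induction n with
    | zero => intro w _; simp
    | succ n ih =>
      intro w hw
      constructor
      · have e : ⁅w, x ^ (n + 1)⁆ = ⁅w, x⁆ * (x * ⁅w, x ^ n⁆ * x⁻¹) := by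
          rw [pow_succ']
          simp only [commutatorElement_def]
          group
        rw [e]
        exact mul_mem (hgen w hw) (h1 _ (ih w hw).1)
      · have e : ⁅w, (x ^ (n + 1))⁻¹⁆ = (x⁻¹ * ⁅w, x⁆⁻¹ * x) * (x⁻¹ * ⁅w, (x ^ n)⁻¹⁆ * x) := by
          rw [pow_succ]
          simp only [commutatorElement_def]
          group
        rw [e]
        exact mul_mem (h2 _ (inv_mem (hgen w hw))) (h2 _ (ih w hw).2)
  apply le_antisymm
  · rw [Subgroup.commutator_le]
    rintro w hw _ ⟨z, rfl⟩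
    show ⁅w, x ^ z⁆ ∈ C
    rcases Int.eq_nat_or_neg z with ⟨n, rfl | rfl⟩
    · rw [zpow_natCast]
      exact (key n w hw).1
    · rw [zpow_neg, zpow_natCast]
      exact (key n w hw).2
  · rw [hC, Subgroup.closure_le]
    rintro _ ⟨w, hw, rfl⟩
    exact Subgroup.commutator_mem_commutator hw hx

/-- the question, for the prime `p` -/
def Q1 (p : ℕ) : Prop :=
  ∀ (G : Type u) [Group G], LF G → PMin p G →
    (∃ (n : ℕ) (H : ℕ → Subgroup G), H 0 = ⊥ ∧ H n = ⊤ ∧
      ∀ i < n, H i ≤ H (i + 1) ∧ ((H i).subgroupOf (H (i + 1))).Normal ∧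
        ((H i).relIndex (H (i + 1)) ≠ 0 ∨
          ∀ x ∈ H (i + 1), ∀ k : ℕ, x ^ (p ^ k) ∈ H i → x ∈ H i)) →
    Cher (Subgroup.closure {g : G | ∃ k : ℕ, g ^ (p ^ k) = 1})

section

variable {V : Type u} [Group V]

/-- `V ⋊ ⟨α⟩` -/
abbrev Ex (α : MulAut V) : Type u := V ⋊[(Subgroup.zpowers α).subtype] (Subgroup.zpowers α)

/-- the complement generator -/
def xx (α : MulAut V) : Ex α := inr ⟨α, Subgroup.mem_zpowers α⟩

/-- the kernel -/
def nn (α : MulAut V) : Subgroup (Ex α) := (inl : V →* Ex α).range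

theorem nn_eq (α : MulAut V) : nn α = (rightHom : Ex α →* _).ker := range_inl_eq_ker_rightHom

instance nn_normal (α : MulAut V) : (nn α).Normal := by
  rw [nn_eq]
  exact MonoidHom.normal_ker _

theorem conj_xx (α : MulAut V) (v : V) : xx α * inl v * (xx α)⁻¹ = inl (α v) := by
  have := (inl_aut (φ := (Subgroup.zpowers α).subtype) ⟨α, Subgroup.mem_zpowers α⟩ v).symm
  rw [map_inv] at this
  exact this

theorem finite_zp {α : MulAut V} {p : ℕ} (hp : p.Prime) (hα : α ^ p = 1) :
    Finite (Subgroup.zpowers α) :=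
  (zpowers_facts hp (k := 1) (by rwa [pow_one])).1

theorem xx_pow {α : MulAut V} {p : ℕ} (hα : α ^ p = 1) : xx α ^ (p ^ 1) = 1 := by
  rw [pow_one, xx, ← map_pow]
  have : (⟨α, Subgroup.mem_zpowers α⟩ : Subgroup.zpowers α) ^ p = 1 := Subtype.ext hα
  rw [this, map_one]

theorem lf_Ex {α : MulAut V} {p : ℕ} (hp : p.Prime) (hα : α ^ p = 1) (hV : LF V) : LF (Ex α) := by
  have := finite_zp hp hα
  exact LF.ext (rightHom : Ex α →* _) inl (nn_eq α).ge hV

theorem pp_nn {α : MulAut V} {p : ℕ} (hpp : NoP p V) : PP p (nn α) := by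
  rintro _ ⟨v, rfl⟩ k hk
  rw [← map_pow, ← map_one (inl : V →* Ex α)] at hk
  rw [hpp v k (inl_injective hk), map_one]

theorem sup_Ex (α : MulAut V) : nn α ⊔ Subgroup.zpowers (xx α) = ⊤ := by
  rw [eq_top_iff]
  intro g _
  rw [← inl_left_mul_inr_right g]
  refine mul_mem ((le_sup_left : nn α ≤ _) ⟨g.left, rfl⟩) ((le_sup_right : Subgroup.zpowers (xx α) ≤ _) ?_)
  obtain ⟨z, hz⟩ := Subgroup.mem_zpowers_iff.1 g.right.2
  refine ⟨z, ?_⟩
  show xx α ^ z = inr g.right
  rw [xx, ← map_zpow]
  congr 1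
  exact Subtype.ext hz

/-- the application of `Q1` -/
theorem Q1.app {p : ℕ} (hQ : Q1.{u} p) (hp : p.Prime) (hV : LF V) (hpp : NoP p V) {α : MulAut V}
    (hα : α ^ p = 1) (hm : PMin p (Ex α)) :
    Cher (Subgroup.closure (Set.range fun v : V => v⁻¹ * α v)) := by
  have hfin := finite_zp hp hα
  have hG := lf_Ex hp hα hV
  have h := hQ (Ex α) hG hm ⟨2, fun i => if i = 0 then ⊥ else if i = 1 then nn α else ⊤, by simp,
    by simp, by
      intro i hi
      have h01 : i = 0 ∨ i = 1 := by omega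
      rcases h01 with rfl | rfl
      · refine ⟨by simp, ?_, Or.inr ?_⟩
        · simp only [if_true]
          rw [Subgroup.bot_subgroupOf]
          exact Subgroup.normal_bot
        · simp only [if_true]
          intro x hx k hk
          simp only [zero_add, one_ne_zero, if_false] at hx
          rw [Subgroup.mem_bot] at hk ⊢
          exact pp_nn hpp x hx k hk
      · refine ⟨by simp, ?_, Or.inl ?_⟩
        · simp only [one_ne_zero, if_false, if_true]
          exact Subgroup.Normal.subgroupOf (nn_normal α) _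
        · simp only [one_ne_zero, if_false, if_true]
          have e : (1 + 1 = 0) = False := by simp
          have e2 : (1 + 1 = 1) = False := by simp
          simp only [e, e2, if_false]
          rw [Subgroup.relIndex_top_right, nn_eq]
          exact Subgroup.FiniteIndex.index_ne_zero⟩
  have h1 : (Subgroup.closure (Set.range fun v : V => v⁻¹ * α v)).map (inl : V →* Ex α) ≤
      Subgroup.closure {g : Ex α | ∃ k : ℕ, g ^ (p ^ k) = 1} := by
    rw [MonoidHom.map_closure, Subgroup.closure_le]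
    rintro _ ⟨_, ⟨v, rfl⟩, rfl⟩
    show (inl (v⁻¹ * α v) : Ex α) ∈ _
    rw [map_mul, ← conj_xx, map_inv]
    have e : (inl v : Ex α)⁻¹ * (xx α * inl v * (xx α)⁻¹) =
        ((inl v)⁻¹ * xx α * inl v) * (xx α)⁻¹ := by group
    rw [e]
    refine mul_mem (Subgroup.subset_closure ⟨1, ?_⟩)
      (inv_mem (Subgroup.subset_closure ⟨1, xx_pow hα⟩))
    have h2 := conj_pow (i := p ^ 1) (a := (inl v : Ex α)⁻¹) (b := xx α)
    rw [inv_inv] at h2
    rw [h2, xx_pow hα]
    group
  exact (cher_map_iff _ inl_injective).1 (h.of_le hG h1)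

end

/-- groups with the minimal condition have the `p`-minimal condition -/
theorem pmin_of_minC {p : ℕ} {G : Type*} [Group G] (h : MinC (⊤ : Subgroup G)) : PMin p G := by
  rintro ⟨K, hK⟩
  exact h ⟨K, fun i => ⟨le_top, (hK i).1⟩⟩

theorem minC_Ex {V : Type u} [Group V] {p : ℕ} (hp : p.Prime) {α : MulAut V} (hα : α ^ p = 1)
    (h : MinC (⊤ : Subgroup V)) : MinC (⊤ : Subgroup (Ex α)) := by
  have := finite_zp hp hα
  refine MinC.ext (rightHom : Ex α →* _) ?_ ?_
  · rw [top_inf_eq, ← nn_eq, nn, MonoidHom.range_eq_map]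
    exact h.map _
  · exact MinC.of_finite inferInstance

theorem minC_pi {ι H : Type*} [Finite ι] [Group H] (h : MinC (⊤ : Subgroup H)) :
    MinC (⊤ : Subgroup (ι → H)) := by
  classical
  cases nonempty_fintype ι
  have key : ∀ s : Finset ι, ∀ U : Subgroup (ι → H), (∀ f ∈ U, ∀ i ∉ s, f i = 1) → MinC U := by
    intro s
    induction s using Finset.induction_on with
    | empty =>
      intro U hU
      have : U = ⊥ := by
        rw [eq_bot_iff]
        intro f hf
        exact Subgroup.mem_bot.2 (funext fun i => hU f hf i (by simp))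
      rw [this]
      exact MinC.of_finite inferInstance
    | insert a s _ ih =>
      intro U hU
      refine MinC.ext (Pi.evalMonoidHom (fun _ : ι => H) a) (ih _ ?_) (h.mono le_top)
      rintro f ⟨hf1, hf2⟩ i hi
      by_cases hia : i = a
      · subst hia
        exact hf2
      · exact hU f hf1 i (by simp [hia, hi])
  exact key Finset.univ ⊤ (fun f _ i hi => absurd (Finset.mem_univ i) hi)

/-- the shift -/
def sh (p : ℕ) (H : Type u) [Group H] : MulAut (ZMod p → H) where
  toFun f := fun i => f (i + 1)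
  invFun f := fun i => f (i - 1)
  left_inv f := by
    funext i
    simp
  right_inv f := by
    funext i
    simp
  map_mul' f g := rfl

theorem sh_pow (p : ℕ) (H : Type u) [Group H] (k : ℕ) (f : ZMod p → H) (i : ZMod p) :
    ((sh p H ^ k) f) i = f (i + k) := by
  induction k generalizing f i with
  | zero => simp
  | succ k ih =>
    rw [pow_succ, MulAut.mul_apply, ih]
    show f (i + k + 1) = _
    congr 1
    push_cast
    ring

theorem sh_pow_self (p : ℕ) (H : Type u) [Group H] : sh p H ^ p = 1 := by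
  ext f i
  rw [sh_pow]
  simp

/-- `Q1` contains: a locally finite `p'`-group with the minimal condition is Chernikov -/
theorem Q1.min {p : ℕ} (hQ : Q1.{u} p) (hp : p.Prime) {H : Type u} [Group H] (hH : LF H)
    (hpp : NoP p H) (hm : MinC (⊤ : Subgroup H)) : Cher (⊤ : Subgroup H) := by
  have := Fact.mk hp
  have : NeZero p := ⟨hp.ne_zero⟩
  have hV : LF (ZMod p → H) := LF.pi hH
  have h1 := hQ.app hp hV (fun v k hv => funext fun i => hpp (v i) k (congrFun hv i))
    (sh_pow_self p H) (pmin_of_minC (minC_Ex hp (sh_pow_self p H) (minC_pi hm)))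
  have h2 := h1.map hV (Pi.evalMonoidHom (fun _ : ZMod p => H) 0)
  have h3 : (Subgroup.closure (Set.range fun v : ZMod p → H => v⁻¹ * sh p H v)).map
      (Pi.evalMonoidHom (fun _ : ZMod p => H) 0) = ⊤ := by
    rw [eq_top_iff]
    intro h _
    refine ⟨_, Subgroup.subset_closure ⟨Function.update 1 0 h⁻¹, rfl⟩, ?_⟩
    show (Function.update (1 : ZMod p → H) 0 h⁻¹)⁻¹ 0 *
      (Function.update (1 : ZMod p → H) 0 h⁻¹) (0 + 1) = h
    rw [Pi.inv_apply, Function.update_self, zero_add, Function.update_of_ne one_ne_zero]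
    simp
  rw [h3] at h2
  exact h2

end PMC
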