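import Pool.Agent.PMC.Sm

/-!
[PMC] `S ⋊ ⟨α⟩` has the `p`-minimal condition if the proper `α`-perfect subgroups of `S` have the
minimal condition.
-/

set_option autoImplicit false

namespace PMC

open Subgroup SemidirectProduct
open scoped commutatorElement

universe u

/-- elements of `p`-power order of `D Y` lie in `[D, Y] Y` -/
theorem mem_comm_sup {p : ℕ} (hp : p.Prime) {G : Type*} [Group G] (hG : LF G) {D Y : Subgroup G}
    (hpp : PP p D) (hYf : Finite Y) (hYp : IsPGroup p Y) (hN : Nz Y D) {g : G} {j : ℕ}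
    (hgj : g ^ (p ^ j) = 1) (hg : g ∈ D ⊔ Y) : g ∈ ⁅D, Y⁆ ⊔ Y := by
  obtain ⟨n, hn, z, hz, rfl⟩ := R1.mem_sup_nz hN hg
  obtain ⟨c, hc, hcY, m, hm, rfl⟩ := coprime_decomp hp hG hpp hYf hYp hN hn
  obtain ⟨k, hk⟩ := hYp ⟨z, hz⟩
  have hzk : z ^ (p ^ k) = 1 := congrArg (Subtype.val : Y → G) hk
  have hcz : z * c = c * z := hcY z hz
  have h1 : ∀ w ∈ ⁅D, Y⁆, (c * z)⁻¹ * w * (c * z) ∈ ⁅D, Y⁆ := by
    intro w hw
    have a1 := nz_comm_left (M := D) (X := Y) c⁻¹ (inv_mem hc) w hw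
    have a2 := nz_comm_right (M := D) (X := Y) z⁻¹ (inv_mem hz) _ a1
    have e : (c * z)⁻¹ * w * (c * z) = z⁻¹ * (c⁻¹ * w * c⁻¹⁻¹) * z⁻¹⁻¹ := by group
    rw [e]
    exact a2
  have h2 : z⁻¹ * m * z ∈ ⁅D, Y⁆ := by
    have := nz_comm_right (M := D) (X := Y) z⁻¹ (inv_mem hz) m hm
    rwa [inv_inv] at this
  have key : ∀ e : ℕ, ∃ w ∈ ⁅D, Y⁆, (c * m * z) ^ e = c ^ e * z ^ e * w := by
    intro e
    induction e with
    | zero => exact ⟨1, one_mem _, by simp⟩
    | succ e ih =>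
      obtain ⟨w, hw, he⟩ := ih
      refine ⟨((c * z)⁻¹ * w * (c * z)) * (z⁻¹ * m * z), mul_mem (h1 w hw) h2, ?_⟩
      have hze : z ^ e * c = c * z ^ e := (Commute.pow_left hcz e).eq
      calc (c * m * z) ^ (e + 1) = c ^ e * z ^ e * w * (c * m * z) := by rw [pow_succ, he]
        _ = c ^ e * (z ^ e * c) * z * (((c * z)⁻¹ * w * (c * z)) * (z⁻¹ * m * z)) := by group
        _ = c ^ e * (c * z ^ e) * z * (((c * z)⁻¹ * w * (c * z)) * (z⁻¹ * m * z)) := by rw [hze]
        _ = c ^ (e + 1) * z ^ (e + 1) * (((c * z)⁻¹ * w * (c * z)) * (z⁻¹ * m * z)) := by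
          rw [pow_succ c, pow_succ z]
          simp only [mul_assoc]
  obtain ⟨w, hw, he⟩ := key (p ^ (j + k))
  have e1 : (c * m * z) ^ (p ^ (j + k)) = 1 := by
    rw [pow_add, pow_mul, hgj, one_pow]
  have e2 : z ^ (p ^ (j + k)) = 1 := by
    rw [add_comm, pow_add, pow_mul, hzk, one_pow]
  rw [e1, e2, mul_one] at he
  have e3 : c ^ (p ^ (j + k)) ∈ ⁅D, Y⁆ := by
    have : c ^ (p ^ (j + k)) = w⁻¹ := eq_inv_of_mul_eq_one_left he.symm
    rw [this]
    exact inv_mem hw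
  have e4 := PP.mem_of_pow hp hG hpp hc e3
  exact mul_mem ((le_sup_left : ⁅D, Y⁆ ≤ _) (mul_mem e4 hm)) ((le_sup_right : Y ≤ _) hz)

theorem pmin_Ex {p : ℕ} (hp : p.Prime) {S : Type u} [Group S] (hS : LF S) (hpp : NoP p S)
    {α : MulAut S} (h1 : α ≠ 1) (hα : α ^ p = 1)
    (hW : ∀ W : Subgroup S, W ≠ ⊤ →
      Subgroup.closure ((fun w => w⁻¹ * α w) '' (W : Set S)) = W → MinC W) : PMin p (Ex α) := by
  rintro ⟨K, hK⟩
  have hG := lf_Ex hp hα hS
  have hNn : (nn α).Normal := nn_normal α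
  have hNpp : PP p (nn α) := pp_nn hpp
  have hfin := finite_zp hp hα
  have hidx : (nn α).index = p := by
    rw [nn_eq, Subgroup.index_ker, MonoidHom.range_eq_top.2 rightHom_surjective]
    rw [Subgroup.card_top, Nat.card_zpowers]
    have := Fact.mk hp
    exact orderOf_eq_prime hα h1
  have hmaxN : ∀ T : Subgroup (Ex α), nn α ≤ T → ¬ T ≤ nn α → T = ⊤ := by
    intro T hT hne
    have h2 := Subgroup.relIndex_mul_index hT
    rw [hidx] at h2
    rcases hp.eq_one_or_self_of_dvd _ (Dvd.intro _ h2) with h3 | h3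
    · exact absurd (Subgroup.relIndex_eq_one.1 h3) hne
    · rw [h3] at h2
      have h4 : T.index = 1 := Nat.eq_of_mul_eq_mul_left hp.pos (by rw [h2, mul_one])
      exact Subgroup.index_eq_one.1 h4
  have hanti : Antitone K := antitone_nat_of_succ_le fun i => (hK i).1.le
  obtain ⟨-, y, hyK, hyK', k, hyk⟩ := hK 1
  have hy1 : y ≠ 1 := fun h => hyK' (h ▸ one_mem _)
  have hyN : y ∉ nn α := fun h => hy1 (hNpp y h k hyk)
  have hNY : nn α ⊔ Subgroup.zpowers y = ⊤ := hmaxN _ le_sup_left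
    (fun h => hyN (h ((le_sup_right : Subgroup.zpowers y ≤ _) (Subgroup.mem_zpowers y))))
  obtain ⟨hYf, hYp⟩ := zpowers_facts hp hyk
  obtain ⟨hXf, hXp⟩ := zpowers_facts hp (xx_pow hα)
  obtain ⟨v, -, hvXY⟩ := sylow_conj hp hG hNn hNpp hXf hXp hYf hYp ((sup_Ex α).trans hNY.symm)
  have hYK : Subgroup.zpowers y ≤ K 1 := by rwa [Subgroup.zpowers_le]
  set D := K 1 ⊓ nn α with hD
  have hDpp : PP p D := fun u hu => hNpp u hu.2
  have hDY : Nz (Subgroup.zpowers y) D := by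
    intro z hz d hd
    exact Subgroup.mem_inf.2 ⟨(K 1).mul_mem ((K 1).mul_mem (hYK hz) hd.1) ((K 1).inv_mem (hYK hz)),
      hNn.conj_mem d hd.2 z⟩
  set W := (⁅D, Subgroup.zpowers y⁆ : Subgroup (Ex α)) with hWdef
  have hWD : W ≤ D := comm_le_left hDY
  have hWW : ⁅W, Subgroup.zpowers y⁆ = W := comm_comm hp hG hDpp hYf hYp hDY
  have hWm : MinC W := by
    have hXY : cj v⁻¹ (Subgroup.zpowers y) = Subgroup.zpowers (xx α) := by rw [← hvXY, cj_inv_cj]
    have hW'X : ⁅cj v⁻¹ W, Subgroup.zpowers (xx α)⁆ = cj v⁻¹ W := by rw [← hXY, ← cj_comm, hWW]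
    have hW'N : cj v⁻¹ W ≤ nn α :=
      (cj_mono (hWD.trans inf_le_right)).trans (cj_normal v⁻¹ hNn).le
    set W' := cj v⁻¹ W with hW'
    have hmap : (W'.comap (inl : S →* Ex α)).map inl = W' := by
      rw [Subgroup.map_comap_eq]
      exact inf_eq_right.2 hW'N
    have hclo : Subgroup.closure ((fun w => w⁻¹ * α w) '' (W'.comap (inl : S →* Ex α) : Set S)) =
        W'.comap (inl : S →* Ex α) := by
      apply Subgroup.map_injective (inl_injective (φ := (Subgroup.zpowers α).subtype))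
      rw [MonoidHom.map_closure, hmap]
      conv_rhs => rw [← hW'X, comm_zpowers_eq (nz_of_perf hW'X)]
      congr 1
      ext g
      constructor
      · rintro ⟨_, ⟨w, hw, rfl⟩, rfl⟩
        refine ⟨(inl w : Ex α)⁻¹, inv_mem hw, ?_⟩
        show ⁅(inl w : Ex α)⁻¹, xx α⁆ = inl (w⁻¹ * α w)
        rw [map_mul, ← conj_xx, map_inv, commutatorElement_def]
        group
      · rintro ⟨w', hw', rfl⟩
        obtain ⟨w, rfl⟩ := hW'N hw'
        refine ⟨w⁻¹⁻¹ * α w⁻¹, ⟨w⁻¹, ?_, rfl⟩, ?_⟩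
        · show (inl w⁻¹ : Ex α) ∈ W'
          rw [map_inv]
          exact inv_mem hw'
        · show inl (w⁻¹⁻¹ * α w⁻¹) = ⁅(inl w : Ex α), xx α⁆
          rw [map_mul, ← conj_xx, map_inv, map_inv, commutatorElement_def]
          group
    have hne : W'.comap (inl : S →* Ex α) ≠ ⊤ := by
      intro h
      have e1 : W' = nn α := by
        rw [← hmap, h, ← MonoidHom.range_eq_map]
        rfl
      have e2 : W = nn α := by
        rw [← cj_cj_inv v W, ← hW', e1, cj_normal v hNn]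
      have e3 : nn α ≤ K 1 := by
        rw [← e2]
        exact hWD.trans inf_le_left
      have e4 : K 1 = ⊤ := by
        rw [eq_top_iff, ← hNY]
        exact sup_le e3 hYK
      have := (hK 0).1
      rw [zero_add, e4] at this
      exact absurd this not_top_lt
    have h3 := (hW _ hne hclo).map (inl : S →* Ex α)
    rw [hmap] at h3
    have h4 := h3.map (MulAut.conj v).toMonoidHom
    have e5 : W'.map (MulAut.conj v).toMonoidHom = W := by
      show cj v W' = W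
      rw [hW', cj_cj_inv]
    rwa [e5] at h4
  have hM : MinC (W ⊔ Subgroup.zpowers y) := by
    refine MinC.ext (rightHom : Ex α →* _) (hWm.mono ?_) (MinC.of_finite inferInstance)
    rintro g ⟨hg1, hg2⟩
    obtain ⟨w, hw, z, hz, rfl⟩ := R1.mem_sup_nz (nz_of_perf hWW) hg1
    have hwN : w ∈ nn α := (hWD hw).2
    have hzN : z ∈ nn α := by
      rw [← nn_eq] at hg2
      have := (nn α).mul_mem ((nn α).inv_mem hwN) hg2
      rwa [inv_mul_cancel_left] at this
    obtain ⟨j, hj⟩ := hYp ⟨z, hz⟩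
    have hz1 : z = 1 := hNpp z hzN j (congrArg (Subtype.val : Subgroup.zpowers y → Ex α) hj)
    rw [hz1, mul_one]
    exact hw
  have hin : ∀ g ∈ K 1, ∀ j : ℕ, g ^ (p ^ j) = 1 → g ∈ W ⊔ Subgroup.zpowers y := by
    intro g hg j hgj
    refine mem_comm_sup hp hG hDpp hYf hYp hDY hgj ?_
    have h5 : g ∈ nn α ⊔ Subgroup.zpowers y := by
      rw [hNY]
      exact Subgroup.mem_top g
    obtain ⟨n, hn, z, hz, rfl⟩ := R1.mem_sup_nz (nz_of_normal hNn) h5
    have hnK : n ∈ K 1 := by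
      have := (K 1).mul_mem hg ((K 1).inv_mem (hYK hz))
      rwa [mul_inv_cancel_right] at this
    exact mul_mem ((le_sup_left : D ≤ _) (Subgroup.mem_inf.2 ⟨hnK, hn⟩))
      ((le_sup_right : Subgroup.zpowers y ≤ _) hz)
  apply hM
  refine ⟨fun i => K (i + 1) ⊓ (W ⊔ Subgroup.zpowers y), fun i => ⟨inf_le_right, ?_⟩⟩
  obtain ⟨h6, g, hg, hg', j, hgj⟩ := hK (i + 1)
  refine lt_of_le_of_ne (inf_le_inf_right _ h6.le) fun e => hg' ?_
  have h7 : g ∈ K (i + 1) ⊓ (W ⊔ Subgroup.zpowers y) :=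
    Subgroup.mem_inf.2 ⟨hg, hin g (hanti (by omega) hg) j hgj⟩
  have e' : K (i + 1 + 1) ⊓ (W ⊔ Subgroup.zpowers y) = K (i + 1) ⊓ (W ⊔ Subgroup.zpowers y) := e
  rw [← e'] at h7
  exact h7.1

/-- `Q1` contains: an infinite simple locally finite `p'`-group with an automorphism `α` of order
`p` has a proper `α`-perfect subgroup which is not Chernikov -/
theorem Q1.auto {p : ℕ} (hQ : Q1.{u} p) (hp : p.Prime) {S : Type u} [Group S] [Infinite S]
    (hs : ∀ N : Subgroup S, N.Normal → N = ⊥ ∨ N = ⊤) (hS : LF S) (hpp : NoP p S)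
    {α : MulAut S} (h1 : α ≠ 1) (hα : α ^ p = 1) :
    ∃ W : Subgroup S, W ≠ ⊤ ∧ Subgroup.closure ((fun w => w⁻¹ * α w) '' (W : Set S)) = W ∧
      ¬ Cher W := by
  by_contra hcon
  push Not at hcon
  have hm := pmin_Ex hp hS hpp h1 hα (fun W h2 h3 => (hcon W h2 h3).minC hS)
  have hC := hQ.app hp hS hpp hα hm
  set D := Subgroup.closure (Set.range fun v : S => v⁻¹ * α v) with hD
  have hgen : ∀ v : S, v⁻¹ * α v ∈ D := fun v => Subgroup.subset_closure ⟨v, rfl⟩
  have hDn : D.Normal := by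
    refine ⟨fun d hd g => ?_⟩
    refine Subgroup.closure_induction (p := fun d _ => g * d * g⁻¹ ∈ D) ?_ ?_ ?_ ?_ hd
    · rintro _ ⟨v, rfl⟩
      have e : g * (v⁻¹ * α v) * g⁻¹ =
          ((v * g⁻¹)⁻¹ * α (v * g⁻¹)) * ((g⁻¹)⁻¹ * α g⁻¹)⁻¹ := by
        rw [map_mul]
        group
      show g * (v⁻¹ * α v) * g⁻¹ ∈ D
      rw [e]
      exact mul_mem (hgen _) (inv_mem (hgen _))
    · simp
    · intro a b _ _ ha hb
      have e : g * (a * b) * g⁻¹ = (g * a * g⁻¹) * (g * b * g⁻¹) := by group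
      rw [e]
      exact mul_mem ha hb
    · intro a _ ha
      have e : g * a⁻¹ * g⁻¹ = (g * a * g⁻¹)⁻¹ := by group
      rw [e]
      exact inv_mem ha
  rcases hs D hDn with h | h
  · apply h1
    ext v
    have := hgen v
    rw [h, Subgroup.mem_bot] at this
    rw [MulAut.one_apply]
    exact (inv_mul_eq_one.1 this).symm
  · rw [h] at hC
    exact not_cher_simple hS hs hC

end PMC
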