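import Pool.Agent.PMC.Sn

/-!
[PMC] the converse: if there is no simple group of the two types, the question has a positive
answer.
-/

set_option autoImplicit false

namespace PMC

open Subgroup
open scoped commutatorElement

universe u

section

variable {G : Type u} [Group G]

theorem nz_zpowers_of_pow {x : G} {n : ℕ} (hn : 0 < n) (hx : x ^ n = 1) {L : Subgroup G}
    (h : ∀ l ∈ L, x * l * x⁻¹ ∈ L) : Nz (Subgroup.zpowers x) L := by
  have hpow : ∀ j : ℕ, ∀ l ∈ L, x ^ j * l * (x ^ j)⁻¹ ∈ L := by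
    intro j
    induction j with
    | zero => intro l hl; simpa using hl
    | succ j ih =>
      intro l hl
      have e : x ^ (j + 1) * l * (x ^ (j + 1))⁻¹ = x ^ j * (x * l * x⁻¹) * (x ^ j)⁻¹ := by
        rw [pow_succ]
        group
      rw [e]
      exact ih _ (h l hl)
  have hfo : IsOfFinOrder x := isOfFinOrder_iff_pow_eq_one.2 ⟨n, hn, hx⟩
  intro y hy l hl
  rw [← hfo.mem_powers_iff_mem_zpowers] at hy
  obtain ⟨j, rfl⟩ := hy
  exact hpow j l hl

/-- `U / L` -/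
abbrev QQ (L U : Subgroup G) [(L.subgroupOf U).Normal] : Type u := U ⧸ L.subgroupOf U

/-- pull back to `G` -/
def pb (L U : Subgroup G) [(L.subgroupOf U).Normal] (N : Subgroup (QQ L U)) : Subgroup G :=
  (N.comap (QuotientGroup.mk' (L.subgroupOf U))).map U.subtype

section

variable {L U : Subgroup G} [(L.subgroupOf U).Normal]

theorem mem_pb {N : Subgroup (QQ L U)} (u : U) :
    (u : G) ∈ pb L U N ↔ (QuotientGroup.mk' (L.subgroupOf U)) u ∈ N := by
  constructor
  · rintro ⟨w, hw, hwu⟩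
    have : w = u := Subtype.ext hwu
    rw [this] at hw
    exact hw
  · intro h
    exact ⟨u, h, rfl⟩

theorem pb_le (N : Subgroup (QQ L U)) : pb L U N ≤ U := by
  rintro _ ⟨w, _, rfl⟩
  exact w.2

theorem mk_eq_one {u : U} : (QuotientGroup.mk' (L.subgroupOf U)) u = 1 ↔ (u : G) ∈ L := by
  rw [← MonoidHom.mem_ker, QuotientGroup.ker_mk', Subgroup.mem_subgroupOf]

theorem le_pb (hLU : L ≤ U) (N : Subgroup (QQ L U)) : L ≤ pb L U N := by
  intro l hl
  have h1 := (mem_pb (N := N) ⟨l, hLU hl⟩).2 (by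
    rw [mk_eq_one.2 hl]
    exact one_mem _)
  exact h1

theorem pb_inj : Function.Injective (pb L U) := by
  intro A B h
  have h1 := Subgroup.map_injective U.subtype_injective h
  exact Subgroup.comap_injective (QuotientGroup.mk'_surjective _) h1

theorem simple_QQ (hLU : L ≤ U)
    (hmax : ∀ N : Subgroup G, L ≤ N → N ≤ U → Nz U N → N = L ∨ N = U) :
    ∀ N : Subgroup (QQ L U), N.Normal → N = ⊥ ∨ N = ⊤ := by
  intro N hN
  have hMn : Nz U (pb L U N) := by
    intro y hy m hm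
    have hmU := pb_le N hm
    have h1 := (mem_pb (N := N) ⟨m, hmU⟩).1 hm
    have h2 := hN.conj_mem _ h1 ((QuotientGroup.mk' (L.subgroupOf U)) ⟨y, hy⟩)
    have h3 := (mem_pb (N := N) (⟨y, hy⟩ * ⟨m, hmU⟩ * ⟨y, hy⟩⁻¹)).2 (by
      rw [map_mul, map_mul, map_inv]
      exact h2)
    exact h3
  rcases hmax _ (le_pb hLU N) (pb_le N) hMn with h | h
  · left
    rw [eq_bot_iff]
    intro q hq
    obtain ⟨u, rfl⟩ := QuotientGroup.mk'_surjective _ q
    have h1 := (mem_pb u).2 hq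
    rw [h] at h1
    rw [Subgroup.mem_bot]
    exact mk_eq_one.2 h1
  · right
    rw [eq_top_iff]
    intro q _
    obtain ⟨u, rfl⟩ := QuotientGroup.mk'_surjective _ q
    exact (mem_pb u).1 (by rw [h]; exact u.2)

theorem infinite_QQ (hi : L.relIndex U = 0) : Infinite (QQ L U) := by
  have h1 : Nat.card (QQ L U) = 0 := hi
  rcases Nat.card_eq_zero.1 h1 with h | h
  · exact (h.false (1 : QQ L U)).elim
  · exact h

theorem nop_QQ {p : ℕ} (hp : p.Prime) (hG : LF G) (hpp : PP p U) : NoP p (QQ L U) := by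
  have h1 := PP.quotient hp (hG.subgroup U) (V := ⊤)
    (fun u _ k hk => Subtype.ext (hpp u u.2 k (by
      have := congrArg (Subtype.val : U → G) hk
      simpa using this))) (L.subgroupOf U)
  intro v k hv
  obtain ⟨u, rfl⟩ := QuotientGroup.mk'_surjective _ v
  exact h1 _ ⟨u, Subgroup.mem_top u, rfl⟩ k hv

theorem minC_QQ (hLU : L ≤ U)
    (h : ¬ ∃ S : ℕ → Subgroup G, ∀ i, L ≤ S i ∧ S i ≤ U ∧ S (i + 1) < S i) :
    MinC (⊤ : Subgroup (QQ L U)) := by
  rintro ⟨S, hS⟩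
  apply h
  refine ⟨fun i => pb L U (S i), fun i => ⟨le_pb hLU _, pb_le _, ?_⟩⟩
  refine lt_of_le_of_ne ?_ fun e => (hS i).2.ne (pb_inj e)
  exact Subgroup.map_mono (Subgroup.comap_mono (hS i).2.le)

theorem map_mk_eq_top {D : Subgroup G} (hD : D ≤ U) (hDL : L ⊔ D = U) :
    (D.subgroupOf U).map (QuotientGroup.mk' (L.subgroupOf U)) = ⊤ := by
  have hLU : L ≤ U := by
    rw [← hDL]
    exact le_sup_left
  have h1 : L.subgroupOf U ⊔ D.subgroupOf U = ⊤ := by
    apply Subgroup.map_injective U.subtype_injective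
    rw [Subgroup.map_sup, Subgroup.map_subgroupOf_eq_of_le hLU,
      Subgroup.map_subgroupOf_eq_of_le hD, ← MonoidHom.range_eq_map, Subgroup.range_subtype, hDL]
  have h2 := congrArg (Subgroup.map (QuotientGroup.mk' (L.subgroupOf U))) h1
  rw [Subgroup.map_sup, QuotientGroup.map_mk'_self, bot_sup_eq,
    ← MonoidHom.range_eq_map, MonoidHom.range_eq_top.2 (QuotientGroup.mk'_surjective _)] at h2
  exact h2

end

/-- no simple quotient of the first kind -/
theorem case_min {p : ℕ} (hp : p.Prime) (hG : LF G) {L U : Subgroup G} (hpp : PP p U)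
    (hA : ∀ (H : Type u) [Group H], LF H → NoP p H → MinC (⊤ : Subgroup H) →
      Cher (⊤ : Subgroup H))
    (h1 : L < U) (h2 : Nz U L) (h3 : L.relIndex U = 0)
    (h4 : ∀ N : Subgroup G, L ≤ N → N ≤ U → Nz U N → N = L ∨ N = U)
    (h5 : ¬ ∃ S : ℕ → Subgroup G, ∀ i, L ≤ S i ∧ S i ≤ U ∧ S (i + 1) < S i) : False := by
  have hn : (L.subgroupOf U).Normal := (nz_subgroupOf h1.le).2 h2
  have := infinite_QQ (L := L) (U := U) h3
  have hQ : LF (QQ L U) := (hG.subgroup U).quotient _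
  exact not_cher_simple hQ (simple_QQ h1.le h4)
    (hA (QQ L U) hQ (nop_QQ hp hG hpp) (minC_QQ h1.le h5))

theorem case_auto {p : ℕ} (hp : p.Prime) (hG : LF G) {x : G} {L U : Subgroup G} (hpp : PP p U)
    (hB : ∀ (S : Type u) [Group S] [Infinite S], (∀ N : Subgroup S, N.Normal → N = ⊥ ∨ N = ⊤) →
      LF S → NoP p S → ∀ α : MulAut S, α ≠ 1 → α ^ p = 1 →
        ∃ W : Subgroup S, W ≠ ⊤ ∧ Subgroup.closure ((fun w => w⁻¹ * α w) '' (W : Set S)) = W ∧
          ¬ Cher W)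
    (hx : ∃ k : ℕ, x ^ (p ^ k) = 1)
    (hUp : ⁅U, Subgroup.zpowers x⁆ = U)
    (hUm : ∀ W ≤ U, ⁅W, Subgroup.zpowers x⁆ = W → W ≠ U → Cher W)
    (h1 : L < U) (h2 : Nz U L) (h3 : L.relIndex U = 0)
    (h4 : ∀ N : Subgroup G, L ≤ N → N ≤ U → Nz U N → N = L ∨ N = U)
    (hD : Cher ⁅U, Subgroup.zpowers (x ^ p)⁆)
    {y : G} (hy : y ∈ Subgroup.zpowers x) (hyL : ∀ l ∈ L, y * l * y⁻¹ ∈ L)
    (hyv : ∃ v ∈ U, v * y * v⁻¹ * y⁻¹ ∉ L) : False := by
  obtain ⟨k, hk⟩ := hx
  obtain ⟨hXf, hXp⟩ := zpowers_facts hp hk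
  have hn : (L.subgroupOf U).Normal := (nz_subgroupOf h1.le).2 h2
  have hinf := infinite_QQ (L := L) (U := U) h3
  have hQ : LF (QQ L U) := (hG.subgroup U).quotient _
  have hsQ := simple_QQ h1.le h4
  have hXU : Nz (Subgroup.zpowers x) U := nz_of_perf hUp
  have hx0 : x ∈ Subgroup.zpowers x := Subgroup.mem_zpowers x
  have hxp : Subgroup.zpowers (x ^ p) ≤ Subgroup.zpowers x := by
    rw [Subgroup.zpowers_le]
    exact pow_mem hx0 p
  have hDU : (⁅U, Subgroup.zpowers (x ^ p)⁆ : Subgroup G) ≤ U := comm_le_left (hXU.mono hxp)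
  -- `[U, x ^ p] ≤ L`
  have hDL : (⁅U, Subgroup.zpowers (x ^ p)⁆ : Subgroup G) ≤ L := by
    have hNz : Nz U (L ⊔ ⁅U, Subgroup.zpowers (x ^ p)⁆) := C2.nz_sup h2 nz_comm_left
    rcases h4 _ le_sup_left (sup_le h1.le hDU) hNz with h | h
    · rw [← h]
      exact le_sup_right
    · exfalso
      have h5 := map_mk_eq_top (L := L) hDU h
      have h6 : Cher ((⁅U, Subgroup.zpowers (x ^ p)⁆ : Subgroup G).subgroupOf U) := by
        rw [← cher_map_iff U.subtype U.subtype_injective,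
          Subgroup.map_subgroupOf_eq_of_le hDU]
        exact hD
      have h7 := h6.map (hG.subgroup U) (QuotientGroup.mk' (L.subgroupOf U))
      rw [h5] at h7
      exact not_cher_simple hQ hsQ h7
  have hpow : ∀ u ∈ U, u * x ^ p * u⁻¹ * (x ^ p)⁻¹ ∈ L := fun u hu => by
    have := hDL (Subgroup.commutator_mem_commutator hu (Subgroup.mem_zpowers (x ^ p)))
    rwa [commutatorElement_def] at this
  -- `x` is a power of `y`
  have hxy : x ∈ Subgroup.zpowers y := by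
    obtain ⟨z, rfl⟩ := hy
    have hz : ¬ (p : ℤ) ∣ z := by
      rintro ⟨c, rfl⟩
      obtain ⟨v, hv, hvL⟩ := hyv
      apply hvL
      have h5 : (fun z : ℤ => x ^ z) ((p : ℤ) * c) ∈ Subgroup.zpowers (x ^ p) := by
        refine ⟨c, ?_⟩
        show (x ^ p) ^ c = x ^ ((p : ℤ) * c)
        rw [zpow_mul, zpow_natCast]
      have h6 := hDL (Subgroup.commutator_mem_commutator hv h5)
      rwa [commutatorElement_def] at h6
    have hco : IsCoprime z ((p ^ k : ℕ) : ℤ) := by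
      push_cast
      apply IsCoprime.pow_right
      rw [Int.isCoprime_iff_gcd_eq_one, Int.gcd_comm]
      exact (Nat.Prime.coprime_iff_not_dvd hp).2 (by
        intro h
        exact hz (Int.natCast_dvd.2 h))
    obtain ⟨a, b, hab⟩ := hco
    refine ⟨a, ?_⟩
    show (x ^ z) ^ a = x
    rw [← zpow_mul, mul_comm z a]
    have h5 : a * z = 1 - b * ((p ^ k : ℕ) : ℤ) := by linarith
    rw [h5, zpow_sub, zpow_one, mul_comm b, zpow_mul, zpow_natCast, hk, one_zpow, inv_one, mul_one]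
  have hyk : y ^ (p ^ k) = 1 := by
    obtain ⟨z, rfl⟩ := hy
    show (x ^ z) ^ (p ^ k) = 1
    rw [← zpow_natCast, zpow_comm, zpow_natCast, hk, one_zpow]
  have hyL' : Nz (Subgroup.zpowers y) L := nz_zpowers_of_pow (pow_pos hp.pos k) hyk hyL
  have hXL : Nz (Subgroup.zpowers x) L := hyL'.mono (by rwa [Subgroup.zpowers_le])
  -- the automorphism of `U` and of `U / L`
  let β : U ≃* U :=
    { toFun := fun u => ⟨x * u * x⁻¹, hXU x hx0 u u.2⟩
      invFun := fun u => ⟨x⁻¹ * u * x, by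
        have := hXU x⁻¹ (inv_mem hx0) u u.2
        rwa [inv_inv] at this⟩
      left_inv := fun u => Subtype.ext (by
        show x⁻¹ * (x * (u : G) * x⁻¹) * x = u
        group)
      right_inv := fun u => Subtype.ext (by
        show x * (x⁻¹ * (u : G) * x) * x⁻¹ = u
        group)
      map_mul' := fun u v => Subtype.ext (by
        show x * ((u : G) * v) * x⁻¹ = (x * u * x⁻¹) * (x * v * x⁻¹)
        group) }
  have hβ : (L.subgroupOf U).map (β : U →* U) = L.subgroupOf U := by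
    ext u
    constructor
    · rintro ⟨w, hw, rfl⟩
      exact hXL x hx0 w hw
    · intro hu
      refine ⟨β.symm u, ?_, β.apply_symm_apply u⟩
      have := hXL x⁻¹ (inv_mem hx0) u hu
      rw [inv_inv] at this
      exact this
  let α : MulAut (QQ L U) := QuotientGroup.congr (L.subgroupOf U) (L.subgroupOf U) β hβ
  have hα : ∀ u : U, α (QuotientGroup.mk' (L.subgroupOf U) u) =
      QuotientGroup.mk' (L.subgroupOf U) (β u) := fun u => rfl
  have hβv : ∀ u : U, ((β u : U) : G) = x * u * x⁻¹ := fun u => rfl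
  have hαn : ∀ (n : ℕ) (u : U), ∃ u' : U, (u' : G) = x ^ n * u * (x ^ n)⁻¹ ∧
      (α ^ n) (QuotientGroup.mk' (L.subgroupOf U) u) = QuotientGroup.mk' (L.subgroupOf U) u' := by
    intro n
    induction n with
    | zero => intro u; exact ⟨u, by simp, rfl⟩
    | succ n ih =>
      intro u
      obtain ⟨u', hu', h5⟩ := ih (β u)
      refine ⟨u', ?_, ?_⟩
      · rw [hu', hβv, pow_succ]
        group
      · rw [pow_succ, MulAut.mul_apply, hα, h5]
  have hαp : α ^ p = 1 := by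
    ext q
    obtain ⟨u, rfl⟩ := QuotientGroup.mk'_surjective _ q
    obtain ⟨u', hu', h5⟩ := hαn p u
    rw [h5, MulAut.one_apply, ← mul_inv_eq_one, ← map_inv, ← map_mul, mk_eq_one]
    rw [Subgroup.coe_mul, Subgroup.coe_inv, hu']
    have h6 := inv_mem (hpow u u.2)
    have e : (u * x ^ p * (u : G)⁻¹ * (x ^ p)⁻¹)⁻¹ = x ^ p * u * (x ^ p)⁻¹ * (u : G)⁻¹ := by group
    rwa [e] at h6
  have hα1 : α ≠ 1 := by
    intro h
    have h5 : U ≤ L := by
      rw [← hUp, comm_zpowers_eq hXU, Subgroup.closure_le]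
      rintro _ ⟨w, hw, rfl⟩
      have h6 : α (QuotientGroup.mk' (L.subgroupOf U) (⟨w, hw⟩⁻¹ : U)) =
          QuotientGroup.mk' (L.subgroupOf U) (⟨w, hw⟩⁻¹ : U) := by
        rw [h, MulAut.one_apply]
      rw [hα, ← inv_mul_eq_one, ← map_inv, ← map_mul, mk_eq_one] at h6
      have h7 := inv_mem h6
      rw [Subgroup.coe_mul, Subgroup.coe_inv, hβv] at h7
      have e : ((x * ((⟨w, hw⟩⁻¹ : U) : G) * x⁻¹)⁻¹ * ((⟨w, hw⟩⁻¹ : U) : G))⁻¹ =
          ⁅w, x⁆ := by
        rw [commutatorElement_def, Subgroup.coe_inv]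
        group
      rw [e] at h7
      exact h7
    exact h1.not_ge h5
  obtain ⟨W, hW1, hW2, hW3⟩ := hB (QQ L U) hsQ hQ (nop_QQ hp hG hpp) α hα1 hαp
  apply hW3
  -- `W` is invariant under `α`
  have hαW : ∀ w ∈ W, α w ∈ W := by
    intro w hw
    have h5 : w⁻¹ * α w ∈ W := by
      rw [← hW2]
      exact Subgroup.subset_closure ⟨w, hw, rfl⟩
    have := W.mul_mem hw h5
    rwa [mul_inv_cancel_left] at this
  have hWX : Nz (Subgroup.zpowers x) (pb L U W) := by
    refine nz_zpowers_of_pow (pow_pos hp.pos k) hk fun l hl => ?_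
    have hlU := pb_le W hl
    have h5 := hαW _ ((mem_pb (N := W) ⟨l, hlU⟩).1 hl)
    rw [hα] at h5
    exact (mem_pb (N := W) (β ⟨l, hlU⟩)).2 h5
  have hWpp : PP p (pb L U W) := fun u hu => hpp u (pb_le W hu)
  set W₁ := (⁅pb L U W, Subgroup.zpowers x⁆ : Subgroup G) with hW₁
  have hW₁le : W₁ ≤ pb L U W := comm_le_left hWX
  have hW₁p : ⁅W₁, Subgroup.zpowers x⁆ = W₁ := comm_comm hp hG hWpp hXf hXp hWX
  have hW₁U : W₁ ≤ U := hW₁le.trans (pb_le W)
  have hW₁ne : W₁ ≠ U := by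
    intro h
    apply hW1
    rw [eq_top_iff]
    intro q _
    obtain ⟨u, rfl⟩ := QuotientGroup.mk'_surjective _ q
    exact (mem_pb u).1 (hW₁le (by rw [h]; exact u.2))
  have hC := hUm W₁ hW₁U hW₁p hW₁ne
  have hC' : Cher (W₁.subgroupOf U) := by
    rw [← cher_map_iff U.subtype U.subtype_injective, Subgroup.map_subgroupOf_eq_of_le hW₁U]
    exact hC
  have hC'' := hC'.map (hG.subgroup U) (QuotientGroup.mk' (L.subgroupOf U))
  refine hC''.of_le hQ ?_
  rw [← hW2, Subgroup.closure_le]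
  rintro _ ⟨w, hw, rfl⟩
  obtain ⟨u, rfl⟩ := QuotientGroup.mk'_surjective _ w
  refine ⟨u⁻¹ * β u, ?_, ?_⟩
  · show ((u⁻¹ * β u : U) : G) ∈ W₁
    rw [Subgroup.coe_mul, Subgroup.coe_inv, hβv]
    have hu : (u : G) ∈ pb L U W := (mem_pb u).2 hw
    have h5 := Subgroup.commutator_mem_commutator (inv_mem hu) hx0
    have e : (u : G)⁻¹ * (x * u * x⁻¹) = ⁅(u : G)⁻¹, x⁆ := by
      rw [commutatorElement_def]
      group
    rw [e]
    exact h5
  · show QuotientGroup.mk' (L.subgroupOf U) (u⁻¹ * β u) =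
      (QuotientGroup.mk' (L.subgroupOf U) u)⁻¹ * α (QuotientGroup.mk' (L.subgroupOf U) u)
    rw [hα, map_mul, map_inv]

end

/-- the converse -/
theorem conv {p : ℕ} (hp : p.Prime)
    (hA : ∀ (H : Type u) [Group H], LF H → NoP p H → MinC (⊤ : Subgroup H) →
      Cher (⊤ : Subgroup H))
    (hB : ∀ (S : Type u) [Group S] [Infinite S], (∀ N : Subgroup S, N.Normal → N = ⊥ ∨ N = ⊤) →
      LF S → NoP p S → ∀ α : MulAut S, α ≠ 1 → α ^ p = 1 →
        ∃ W : Subgroup S, W ≠ ⊤ ∧ Subgroup.closure ((fun w => w⁻¹ * α w) '' (W : Set S)) = W ∧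
          ¬ Cher W) : Q1.{u} p := by
  classical
  intro G _ hG hm ⟨n, H, h0, hn, hH⟩
  by_contra hnc
  have hex : ∃ n : ℕ, ∃ (x : G) (V : Subgroup G), orderOf x = n ∧ (∃ k : ℕ, x ^ (p ^ k) = 1) ∧
      PP p V ∧ Nz (Subgroup.zpowers x) V ∧ ¬ Cher ⁅V, Subgroup.zpowers x⁆ := by
    obtain ⟨x, L, U, hx, hpp, hUp, hUn, -⟩ := reduction hp hG hm h0 hn hH hnc
    exact ⟨_, x, U, rfl, hx, hpp, nz_of_perf hUp, by rwa [hUp]⟩
  obtain ⟨x, V, hxn, hx, hpp, hN, hV⟩ := Nat.find_spec hex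
  have hmin : ∀ (y : G) (W : Subgroup G), orderOf y < orderOf x → (∃ k : ℕ, y ^ (p ^ k) = 1) →
      PP p W → Nz (Subgroup.zpowers y) W → Cher ⁅W, Subgroup.zpowers y⁆ := by
    intro y W h1 h2 h3 h4
    by_contra h5
    rw [hxn] at h1
    exact Nat.find_min hex h1 ⟨y, W, rfl, h2, h3, h4, h5⟩
  obtain ⟨L, U, hUV, hUp, hUn, hUm, h1, h2, h3, h4, h5⟩ :=
    main_rel hp hG hpp hx hN (dcc_of_pmin hp hm hpp hx hN) hV
  have hUpp : PP p U := fun u hu => hpp u (hUV hu)
  rcases h5 with h5 | ⟨y, hy, hyL, hyv⟩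
  · exact case_min hp hG hUpp hA h1 h2 h3 h4 h5
  · refine case_auto hp hG hUpp hB hx hUp hUm h1 h2 h3 h4 ?_ hy hyL hyv
    obtain ⟨k, hk⟩ := hx
    have hx1 : x ≠ 1 := by
      rintro rfl
      apply hUn
      rw [← hUp, Subgroup.zpowers_one_eq_bot, Subgroup.commutator_bot_right]
      exact cher_bot
    have hdvd : p ∣ orderOf x := by
      obtain ⟨m, -, hm'⟩ := (Nat.dvd_prime_pow hp).1 (orderOf_dvd_of_pow_eq_one hk)
      rcases Nat.eq_zero_or_pos m with rfl | h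
      · rw [pow_zero, orderOf_eq_one_iff] at hm'
        exact absurd hm' hx1
      · rw [hm']
        exact dvd_pow_self p h.ne'
    have hpos : 0 < orderOf x :=
      orderOf_pos_iff.2 (isOfFinOrder_iff_pow_eq_one.2 ⟨_, pow_pos hp.pos k, hk⟩)
    apply hmin
    · rw [orderOf_pow_of_dvd hp.ne_zero hdvd]
      exact Nat.div_lt_self hpos hp.one_lt
    · exact ⟨k, by rw [← pow_mul, mul_comm, pow_mul, hk, one_pow]⟩
    · exact hUpp
    · refine (nz_of_perf hUp).mono ?_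
      rw [Subgroup.zpowers_le]
      exact pow_mem (Subgroup.mem_zpowers x) p

end PMC
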