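import Pool.Agent.PMC.So

/-!
[PMC] from an infinite simple group with the minimal condition to one all of whose proper
subgroups are Chernikov.
-/

set_option autoImplicit false

namespace PMC

open Subgroup SemidirectProduct
open scoped commutatorElement

universe u

/-- an infinite simple locally finite group is perfect -/
theorem perfect_of_simple {Q : Type*} [Group Q] [Infinite Q] (hG : LF Q)
    (hs : ∀ N : Subgroup Q, N.Normal → N = ⊥ ∨ N = ⊤) : ⁅(⊤ : Subgroup Q), (⊤ : Subgroup Q)⁆ = ⊤ := by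
  rcases hs ⁅(⊤ : Subgroup Q), (⊤ : Subgroup Q)⁆ inferInstance with h | h
  · exfalso
    have hcc : ∀ a b : Q, a * b = b * a := fun a b => by
      have h1 := Subgroup.commutator_mem_commutator (Subgroup.mem_top a) (Subgroup.mem_top b)
      rw [h, Subgroup.mem_bot] at h1
      exact commutatorElement_eq_one_iff_mul_comm.1 h1
    obtain ⟨g, hg⟩ := exists_ne (1 : Q)
    have hz : Subgroup.zpowers g = ⊤ := by
      rcases hs (Subgroup.zpowers g) ⟨fun n hn x => by rw [hcc x n, mul_inv_cancel_right]; exact hn⟩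
        with h | h
      · exact absurd (Subgroup.zpowers_eq_bot.1 h) hg
      · exact h
    have hfin : (Subgroup.zpowers g : Set Q).Finite := by
      have := hG {g} (Set.finite_singleton g)
      rwa [← Subgroup.zpowers_eq_closure] at this
    rw [hz] at hfin
    exact Set.infinite_univ hfin
  · exact h

/-- finitely many normal subgroups whose intersection lies in the kernel of an epimorphism onto a
perfect simple group: one of them lies in the kernel -/
theorem exists_le_ker {U Q : Type*} [Group U] [Group Q] [Nontrivial Q] {π : U →* Q}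
    (hπ : Function.Surjective π) (hs : ∀ N : Subgroup Q, N.Normal → N = ⊥ ∨ N = ⊤)
    (hc : ⁅(⊤ : Subgroup Q), (⊤ : Subgroup Q)⁆ = ⊤) {ι : Type*} [Finite ι] {K : ι → Subgroup U}
    (hK : ∀ i, (K i).Normal) (hinf : ⨅ i, K i ≤ π.ker) : ∃ i, K i ≤ π.ker := by
  classical
  cases nonempty_fintype ι
  by_contra hcon
  push Not at hcon
  have htop : ∀ i, (K i).map π = ⊤ := by
    intro i
    rcases hs _ ((hK i).map π hπ) with h | h
    · exact absurd ((Subgroup.map_eq_bot_iff (f := π) (K i)).1 h) (hcon i)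
    · exact h
  have key : ∀ s : Finset ι, (⨅ i ∈ s, K i).map π = ⊤ := by
    intro s
    induction s using Finset.induction_on with
    | empty =>
      simp only [Finset.notMem_empty, iInf_false, iInf_top]
      rw [← MonoidHom.range_eq_map]
      exact MonoidHom.range_eq_top.2 hπ
    | insert a s _ ih =>
      rw [eq_top_iff, ← hc]
      have hN : (⨅ i ∈ s, K i).Normal := by
        refine ⟨fun n hn g => ?_⟩
        simp only [Subgroup.mem_iInf] at hn ⊢
        exact fun i hi => (hK i).conj_mem n (hn i hi) g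
      have hN' := hK a
      calc (⁅(⊤ : Subgroup Q), (⊤ : Subgroup Q)⁆ : Subgroup Q)
          = ⁅(K a).map π, (⨅ i ∈ s, K i).map π⁆ := by rw [htop a, ih]
        _ = (⁅K a, ⨅ i ∈ s, K i⁆ : Subgroup U).map π := (Subgroup.map_commutator _ _ _).symm
        _ ≤ (⨅ i ∈ insert a s, K i).map π := by
          apply Subgroup.map_mono
          rw [Finset.iInf_insert]
          exact Subgroup.commutator_le_inf _ _
  have h1 := key Finset.univ
  simp only [Finset.mem_univ, iInf_pos] at h1
  rw [(Subgroup.map_eq_bot_iff (f := π) _).2 hinf] at h1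
  exact bot_ne_top h1

section

/-- the shift group: if `[H ^ p, σ]` is Chernikov then so is `H` -/
theorem cher_of_shift {p : ℕ} (hp : p.Prime) {H : Type u} [Group H] (hH : LF H)
    (h1 : Cher (Subgroup.closure (Set.range fun v : ZMod p → H => v⁻¹ * sh p H v))) :
    Cher (⊤ : Subgroup H) := by
  have := Fact.mk hp
  have : NeZero p := ⟨hp.ne_zero⟩
  have hV : LF (ZMod p → H) := LF.pi hH
  have h2 := h1.map hV (Pi.evalMonoidHom (fun _ : ZMod p => H) 0)
  have h3 : (Subgroup.closure (Set.range fun v : ZMod p → H => v⁻¹ * sh p H v)).map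
      (Pi.evalMonoidHom (fun _ : ZMod p => H) 0) = ⊤ := by
    rw [eq_top_iff]
    intro h _
    refine ⟨_, Subgroup.subset_closure ⟨Function.update 1 0 h⁻¹, rfl⟩, ?_⟩
    show (Function.update (1 : ZMod p → H) 0 h⁻¹)⁻¹ 0 *
      (Function.update (1 : ZMod p → H) 0 h⁻¹) (0 + 1) = h
    rw [Pi.inv_apply, Function.update_self, zero_add, Function.update_of_ne one_ne_zero]
    simp
  rw [h3] at h2
  exact h2

/-- a Chernikov image under a map with kernel in `L` gives a Chernikov quotient -/
theorem cher_of_image {U M Q : Type*} [Group U] [Group M] [Group Q] {π : U →* Q}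
    (hπ : Function.Surjective π) {ε : U →* M} (hε : ε.ker ≤ π.ker)
    {T : Subgroup Q} (hT : MinC T) (h : Cher ((T.comap π).map ε)) : Cher T := by
  obtain ⟨A, hA, hc, hi⟩ := h.abel
  have hmap : (T.comap π).map π = T := Subgroup.map_comap_eq_self_of_surjective hπ T
  refine cher_of_minC (A := (A.comap ε ⊓ T.comap π).map π) ?_ ?_ ?_ hT
  · exact (Subgroup.map_mono inf_le_right).trans hmap.le
  · rintro _ ⟨a, ⟨ha, -⟩, rfl⟩ _ ⟨b, ⟨hb, -⟩, rfl⟩
    have h1 : a * b * (b * a)⁻¹ ∈ ε.ker := by
      rw [MonoidHom.mem_ker, map_mul, map_inv, map_mul, map_mul, hc (ε a) ha (ε b) hb,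
        mul_inv_cancel]
    have h2 := hε h1
    rw [MonoidHom.mem_ker, map_mul, map_inv, mul_inv_eq_one, map_mul, map_mul] at h2
    exact h2
  · have h1 : (A.comap ε ⊓ T.comap π).relIndex (T.comap π) ≠ 0 := by
      rw [Subgroup.inf_relIndex_right, Subgroup.relIndex_comap]
      exact hi
    have h2 := C2.relIndex_sup (nz_of_normal (X := T.comap π) π.normal_ker) h1
    rw [sup_comm π.ker, sup_comm π.ker, ← Subgroup.relIndex_map_map, hmap] at h2
    exact h2

theorem exists_strong {p : ℕ} (hp : p.Prime) {S : Type u} [Group S] (hS : LF S) (hpp : NoP p S)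
    (hm : MinC (⊤ : Subgroup S)) (hn : ¬ Cher (⊤ : Subgroup S)) :
    ∃ (M : Type u) (_ : Group M), Infinite M ∧ (∀ N : Subgroup M, N.Normal → N = ⊥ ∨ N = ⊤) ∧
      LF M ∧ NoP p M ∧ ∀ W : Subgroup M, W ≠ ⊤ → Cher W := by
  -- a minimal non-Chernikov subgroup
  obtain ⟨M, hM, -, hMmin⟩ := exists_minimal_of_dcc (fun T : Subgroup S => ¬ Cher T)
    (by
      rintro ⟨T, hT⟩
      exact hm ⟨T, fun i => ⟨le_top, (hT i).2⟩⟩)
    (U := ⊤) hn
  have hLM : LF M := hS.subgroup M
  have hPM : NoP p M := fun v k hv => Subtype.ext (hpp v k (by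
    have := congrArg (Subtype.val : M → S) hv
    simpa using this))
  have hmap : (⊤ : Subgroup M).map M.subtype = M := by
    rw [← MonoidHom.range_eq_map, Subgroup.range_subtype]
  have hMM : MinC (⊤ : Subgroup M) := by
    rintro ⟨T, hT⟩
    apply hm
    refine ⟨fun i => (T i).map M.subtype, fun i => ⟨le_top, ?_⟩⟩
    refine lt_of_le_of_ne (Subgroup.map_mono (hT i).2.le) fun e => (hT i).2.ne ?_
    exact Subgroup.map_injective M.subtype_injective e
  have hMn : ¬ Cher (⊤ : Subgroup M) := by
    rw [← cher_map_iff M.subtype M.subtype_injective, hmap]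
    exact hM
  have hMW : ∀ W : Subgroup M, W ≠ ⊤ → Cher W := by
    intro W hW
    by_contra h
    rw [← cher_map_iff M.subtype M.subtype_injective] at h
    have h1 := hMmin _ h (by
      rintro _ ⟨w, -, rfl⟩
      exact w.2)
    apply hW
    apply Subgroup.map_injective M.subtype_injective
    rw [h1, hmap]
  -- the wreath product
  have := Fact.mk hp
  have : NeZero p := ⟨hp.ne_zero⟩
  have hV : LF (ZMod p → M) := LF.pi hLM
  have hα := sh_pow_self p M
  have hG := lf_Ex hp hα hV
  have hpN : PP p (nn (sh p M)) := pp_nn fun v k hv => funext fun i => hPM (v i) k (congrFun hv i)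
  have hmin : MinC (⊤ : Subgroup (Ex (sh p M))) := minC_Ex hp hα (minC_pi hMM)
  have hPM' : PMin p (Ex (sh p M)) := pmin_of_minC hmin
  have hNn := nn_normal (sh p M)
  have hx : ∃ k : ℕ, xx (sh p M) ^ (p ^ k) = 1 := ⟨1, xx_pow hα⟩
  have hnc : ¬ Cher ⁅nn (sh p M), Subgroup.zpowers (xx (sh p M))⁆ := by
    intro h
    apply hMn
    apply cher_of_shift hp hLM
    rw [← cher_map_iff (inl : (ZMod p → M) →* Ex (sh p M)) inl_injective]
    refine h.of_le hG ?_
    rw [MonoidHom.map_closure, Subgroup.closure_le]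
    rintro _ ⟨_, ⟨v, rfl⟩, rfl⟩
    show (inl (v⁻¹ * sh p M v) : Ex (sh p M)) ∈ _
    have e : (inl (v⁻¹ * sh p M v) : Ex (sh p M)) = ⁅(inl v : Ex (sh p M))⁻¹, xx (sh p M)⁆ := by
      rw [map_mul, ← conj_xx, map_inv, commutatorElement_def]
      group
    rw [e]
    exact Subgroup.commutator_mem_commutator (inv_mem ⟨v, rfl⟩) (Subgroup.mem_zpowers _)
  obtain ⟨L, U, hUV, hUp, hUn, hUm, h1, h2, h3, h4, -⟩ :=
    main_rel hp hG hpN hx (nz_of_normal hNn) (dcc_of_pmin hp hPM' hpN hx (nz_of_normal hNn)) hnc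
  have hn' : (L.subgroupOf U).Normal := (nz_subgroupOf h1.le).2 h2
  have hinf := infinite_QQ (L := L) (U := U) h3
  have hQ : LF (QQ L U) := (hG.subgroup U).quotient _
  have hsQ := simple_QQ h1.le h4
  have hUpp : PP p U := fun u hu => hpN u (hUV hu)
  have hπ := QuotientGroup.mk'_surjective (L.subgroupOf U)
  have hker : (QuotientGroup.mk' (L.subgroupOf U)).ker = L.subgroupOf U := QuotientGroup.ker_mk' _
  have hUr : ∀ u : U, (u : Ex (sh p M)).right = 1 := by
    intro u
    obtain ⟨v, hv⟩ := hUV u.2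
    rw [← hv]
    rfl
  have hQm : MinC (⊤ : Subgroup (QQ L U)) := by
    apply minC_QQ h1.le
    rintro ⟨T, hT⟩
    exact hmin ⟨T, fun i => ⟨le_top, (hT i).2.2⟩⟩
  let ε : ZMod p → U →* M := fun i =>
    { toFun := fun u => (u : Ex (sh p M)).left i
      map_one' := rfl
      map_mul' := fun a b => by
        show ((a : Ex (sh p M)) * b).left i = _
        rw [SemidirectProduct.mul_left, hUr a]
        rfl }
  have hε : ⨅ i, (ε i).ker ≤ (QuotientGroup.mk' (L.subgroupOf U)).ker := by
    intro u hu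
    simp only [Subgroup.mem_iInf, MonoidHom.mem_ker] at hu
    have h5 : (u : Ex (sh p M)) = 1 := by
      apply SemidirectProduct.ext
      · funext i
        exact hu i
      · exact hUr u
    have h6 : u = 1 := Subtype.ext h5
    rw [h6]
    exact one_mem _
  obtain ⟨i, hi⟩ := exists_le_ker hπ hsQ (perfect_of_simple hQ hsQ)
    (fun i => MonoidHom.normal_ker (ε i)) hε
  have hQn : ¬ Cher (⊤ : Subgroup (QQ L U)) := not_cher_simple hQ hsQ
  have hR : (ε i).range = ⊤ := by
    by_contra h
    apply hQn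
    apply cher_of_image hπ hi hQm
    rw [Subgroup.comap_top, ← MonoidHom.range_eq_map]
    exact hMW _ h
  refine ⟨QQ L U, inferInstance, hinf, hsQ, hQ, nop_QQ hp hG hUpp, fun T hT => ?_⟩
  apply cher_of_image hπ hi (hQm.mono le_top)
  apply hMW
  intro h
  apply hT
  have h5 : T.comap (QuotientGroup.mk' (L.subgroupOf U)) = ⊤ := by
    rw [eq_top_iff]
    intro u _
    have h6 : ε i u ∈ (T.comap (QuotientGroup.mk' (L.subgroupOf U))).map (ε i) := by
      rw [h]
      exact Subgroup.mem_top _
    obtain ⟨w, hw, hwu⟩ := h6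
    have h7 : w⁻¹ * u ∈ (ε i).ker := by
      rw [MonoidHom.mem_ker, map_mul, map_inv, hwu, inv_mul_cancel]
    have h8 : w⁻¹ * u ∈ T.comap (QuotientGroup.mk' (L.subgroupOf U)) := by
      have := hi h7
      rw [MonoidHom.mem_ker] at this
      rw [Subgroup.mem_comap, this]
      exact one_mem _
    have := mul_mem hw h8
    rwa [mul_inv_cancel_left] at this
  rw [← Subgroup.map_comap_eq_self_of_surjective hπ T, h5, ← MonoidHom.range_eq_map]
  exact MonoidHom.range_eq_top.2 hπ

end

end PMC
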