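import Pool.Agent.PMC.Sp

/-!
[PMC] countable simple subgroups and the final equivalence.
-/

set_option autoImplicit false

namespace PMC

open Subgroup
open scoped commutatorElement

universe u

/-- in a simple group every element is a product of finitely many conjugates of `g^{±1}` -/
theorem exists_conj {S : Type u} [Group S] (hs : ∀ N : Subgroup S, N.Normal → N = ⊥ ∨ N = ⊤)
    {g : S} (hg : g ≠ 1) (h : S) :
    ∃ T : Set S, T.Finite ∧ h ∈ Subgroup.closure ((fun t => t * g * t⁻¹) '' T) := by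
  have htop : Subgroup.normalClosure {g} = (⊤ : Subgroup S) := by
    rcases hs _ (Subgroup.normalClosure_normal (s := {g})) with h | h
    · exfalso
      apply hg
      have := Subgroup.subset_normalClosure (s := {g}) (Set.mem_singleton _)
      rw [h] at this
      exact Subgroup.mem_bot.1 this
    · exact h
  have hh : h ∈ Subgroup.normalClosure {g} := by
    rw [htop]
    exact Subgroup.mem_top h
  unfold Subgroup.normalClosure at hh
  refine Subgroup.closure_induction (p := fun h _ => ∃ T : Set S, T.Finite ∧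
    h ∈ Subgroup.closure ((fun t => t * g * t⁻¹) '' T)) ?_ ?_ ?_ ?_ hh
  · intro x hx
    rw [Group.mem_conjugatesOfSet_iff] at hx
    obtain ⟨c, hc1, hc2⟩ := hx
    rw [Set.mem_singleton_iff] at hc1
    subst hc1
    obtain ⟨t, ht⟩ := isConj_iff.1 hc2
    refine ⟨{t}, Set.finite_singleton t, Subgroup.subset_closure ?_⟩
    exact ⟨t, Set.mem_singleton t, ht⟩
  · exact ⟨∅, Set.finite_empty, one_mem _⟩
  · rintro x y _ _ ⟨T, hT, hx⟩ ⟨R, hR, hy⟩
    refine ⟨T ∪ R, hT.union hR, mul_mem ?_ ?_⟩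
    · exact Subgroup.closure_mono (Set.image_mono Set.subset_union_left) hx
    · exact Subgroup.closure_mono (Set.image_mono Set.subset_union_right) hy
  · rintro x _ ⟨T, hT, hx⟩
    exact ⟨T, hT, inv_mem hx⟩

/-- one closing-off step -/
def stp {S : Type u} [Group S] (α : MulAut S) (T : S → S → Set S) (A : Set S) : Set S :=
  A ∪ (Set.image2 (fun a b => a * b) A A ∪ ((fun a => a⁻¹) '' A ∪ (α '' A ∪
    (α.symm '' A ∪ ⋃ g ∈ A, ⋃ h ∈ A, T g h))))

theorem exists_countable {S : Type u} [Group S] [Infinite S]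
    (hs : ∀ N : Subgroup S, N.Normal → N = ⊥ ∨ N = ⊤) (α : MulAut S) :
    ∃ S₀ : Subgroup S, Countable S₀ ∧ Infinite S₀ ∧
      (∀ N : Subgroup S₀, N.Normal → N = ⊥ ∨ N = ⊤) ∧
      (∀ s ∈ S₀, α s ∈ S₀) ∧ (α ≠ 1 → ∃ s ∈ S₀, α s ≠ s) := by
  classical
  have hT : ∀ g h : S, ∃ T : Set S, T.Finite ∧
      (g ≠ 1 → h ∈ Subgroup.closure ((fun t => t * g * t⁻¹) '' T)) := by
    intro g h
    by_cases hg : g = 1
    · exact ⟨∅, Set.finite_empty, fun h => absurd hg h⟩
    · obtain ⟨T, h1, h2⟩ := exists_conj hs hg h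
      exact ⟨T, h1, fun _ => h2⟩
  choose T hTf hTm using hT
  obtain ⟨v, hv⟩ : ∃ v : S, α ≠ 1 → α v ≠ v := by
    by_cases h : α = 1
    · exact ⟨1, fun h' => absurd h h'⟩
    · by_contra hcon
      push Not at hcon
      exact h (MulEquiv.ext fun v => (hcon v).2)
  set A₀ : Set S := {1, v} ∪ Set.range (Infinite.natEmbedding S) with hA₀
  set A : ℕ → Set S := fun n => (stp α T)^[n] A₀ with hA
  have hA0 : A 0 = A₀ := rfl
  have hAs : ∀ n, A (n + 1) = stp α T (A n) := fun n => Function.iterate_succ_apply' _ _ _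
  have hsub : ∀ n, A n ⊆ A (n + 1) := fun n => by
    rw [hAs]
    exact Set.subset_union_left
  have hmono : Monotone A := monotone_nat_of_le_succ hsub
  have hcount : ∀ n, (A n).Countable := by
    intro n
    induction n with
    | zero =>
      rw [hA0]
      exact (Set.toFinite {1, v}).countable.union (Set.countable_range _)
    | succ n ih =>
      rw [hAs]
      refine ih.union ((ih.image2 ih _).union ((ih.image _).union ((ih.image _).union
        ((ih.image _).union ?_))))
      exact ih.biUnion fun g _ => ih.biUnion fun h _ => (hTf g h).countable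
  let S₀ : Subgroup S :=
    { carrier := ⋃ n, A n
      one_mem' := Set.mem_iUnion.2 ⟨0, Or.inl (Or.inl rfl)⟩
      mul_mem' := by
        intro a b ha hb
        obtain ⟨n, hn⟩ := Set.mem_iUnion.1 ha
        obtain ⟨m, hm⟩ := Set.mem_iUnion.1 hb
        refine Set.mem_iUnion.2 ⟨max n m + 1, ?_⟩
        rw [hAs]
        exact Or.inr (Or.inl ⟨a, hmono (le_max_left n m) hn, b, hmono (le_max_right n m) hm, rfl⟩)
      inv_mem' := by
        intro a ha
        obtain ⟨n, hn⟩ := Set.mem_iUnion.1 ha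
        refine Set.mem_iUnion.2 ⟨n + 1, ?_⟩
        rw [hAs]
        exact Or.inr (Or.inr (Or.inl ⟨a, hn, rfl⟩)) }
  have hmem : ∀ a : S, a ∈ S₀ ↔ ∃ n, a ∈ A n := fun a => Set.mem_iUnion
  have hTS : ∀ g ∈ S₀, ∀ h ∈ S₀, T g h ⊆ S₀ := by
    intro g hg h hh t ht
    obtain ⟨n, hn⟩ := (hmem g).1 hg
    obtain ⟨m, hm⟩ := (hmem h).1 hh
    refine (hmem t).2 ⟨max n m + 1, ?_⟩
    rw [hAs]
    refine Or.inr (Or.inr (Or.inr (Or.inr (Or.inr ?_))))
    simp only [Set.mem_iUnion]
    exact ⟨g, hmono (le_max_left n m) hn, h, hmono (le_max_right n m) hm, ht⟩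
  refine ⟨S₀, ?_, ?_, ?_, ?_, ?_⟩
  · exact Set.countable_iUnion hcount
  · have : (S₀ : Set S).Infinite := by
      refine Set.Infinite.mono ?_ (Set.infinite_range_of_injective (Infinite.natEmbedding S).injective)
      intro a ha
      exact (hmem a).2 ⟨0, Or.inr ha⟩
    exact this.to_subtype
  · intro N hN
    by_cases hb : N = ⊥
    · exact Or.inl hb
    · right
      obtain ⟨g, hgN, hg1⟩ := (Subgroup.ne_bot_iff_exists_ne_one).1 hb |>.elim fun a ha =>
        (⟨a.1, a.2, fun h => ha (Subtype.ext h)⟩ : ∃ g : S₀, g ∈ N ∧ g ≠ 1)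
      rw [eq_top_iff]
      intro h _
      have h1 := hTm g h (fun h => hg1 (Subtype.ext h))
      have h2 : Subgroup.closure ((fun t => t * (g : S) * t⁻¹) '' T g h) ≤ N.map S₀.subtype := by
        rw [Subgroup.closure_le]
        rintro _ ⟨t, ht, rfl⟩
        have htS := hTS g g.2 h h.2 ht
        exact ⟨⟨t, htS⟩ * g * ⟨t, htS⟩⁻¹, hN.conj_mem g hgN _, rfl⟩
      obtain ⟨h', hh', e⟩ := h2 h1
      have : h' = h := Subtype.ext e
      rwa [← this]
  · intro s hs'
    obtain ⟨n, hn⟩ := (hmem s).1 hs'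
    refine (hmem _).2 ⟨n + 1, ?_⟩
    rw [hAs]
    exact Or.inr (Or.inr (Or.inr (Or.inl ⟨s, hn, rfl⟩)))
  · intro h
    exact ⟨v, (hmem v).2 ⟨0, Or.inl (Or.inr rfl)⟩, hv h⟩

/-- the final equivalence -/
theorem main_iff {p : ℕ} (hp : p.Prime) :
    ¬ Q1.{u} p ↔ ∃ (S : Type u) (_ : Group S), Countable S ∧ Infinite S ∧
      (∀ N : Subgroup S, N.Normal → N = ⊥ ∨ N = ⊤) ∧ LF S ∧ NoP p S ∧
      ((∀ W : Subgroup S, W ≠ ⊤ → Cher W) ∨
        ∃ α : MulAut S, α ≠ 1 ∧ α ^ p = 1 ∧ ∀ W : Subgroup S, W ≠ ⊤ →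
          Subgroup.closure ((fun w => w⁻¹ * α w) '' (W : Set S)) = W → Cher W) := by
  constructor
  · intro hQ
    by_contra hcon
    apply hQ
    have hsub : ∀ {M : Type u} [Group M], LF M → ∀ S₀ : Subgroup M, Infinite S₀ →
        (∀ N : Subgroup S₀, N.Normal → N = ⊥ ∨ N = ⊤) → ¬ Cher S₀ := by
      intro M _ hM S₀ h1 h2 h3
      apply not_cher_simple (hM.subgroup S₀) h2
      rw [← cher_map_iff S₀.subtype S₀.subtype_injective, ← MonoidHom.range_eq_map,
        Subgroup.range_subtype]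
      exact h3
    have hcnt : ∀ {M : Type u} [Group M] (S₀ : Subgroup M), Countable S₀ → S₀ = ⊤ →
        Countable M := by
      intro M _ S₀ h1 h2
      subst h2
      exact Countable.of_equiv _ (Subgroup.topEquiv (G := M)).toEquiv
    apply conv hp
    · intro H _ hH hpp hm
      by_contra hn
      obtain ⟨M, hMg, hMi, hMs, hMl, hMp, hMc⟩ := exists_strong hp hH hpp hm hn
      obtain ⟨S₀, h1, h2, h3, -, -⟩ := exists_countable hMs (1 : MulAut M)
      by_cases h : S₀ = ⊤
      · exact hcon ⟨M, hMg, hcnt S₀ h1 h, hMi, hMs, hMl, hMp, Or.inl hMc⟩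
      · exact hsub hMl S₀ h2 h3 (hMc S₀ h)
    · intro S _ _ hs hS hpp α hα1 hαp
      by_contra hn
      push Not at hn
      obtain ⟨S₀, h1, h2, h3, h4, h5⟩ := exists_countable hs α
      by_cases h : S₀ = ⊤
      · exact hcon ⟨S, inferInstance, hcnt S₀ h1 h, inferInstance, hs, hS, hpp,
          Or.inr ⟨α, hα1, hαp, hn⟩⟩
      · refine hsub hS S₀ h2 h3 (hn S₀ h ?_)
        -- `S₀` is perfect under `α`
        set D := Subgroup.closure ((fun w => w⁻¹ * α w) '' (S₀ : Set S)) with hD
        have hgen : ∀ w ∈ S₀, w⁻¹ * α w ∈ D := fun w hw => Subgroup.subset_closure ⟨w, hw, rfl⟩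
        have hDS : D ≤ S₀ := by
          rw [hD, Subgroup.closure_le]
          rintro _ ⟨w, hw, rfl⟩
          exact mul_mem (inv_mem hw) (h4 w hw)
        have hDn : (D.subgroupOf S₀).Normal := by
          rw [nz_subgroupOf hDS]
          intro g hg d hd
          refine Subgroup.closure_induction (p := fun d _ => g * d * g⁻¹ ∈ D) ?_ ?_ ?_ ?_ hd
          · rintro _ ⟨w, hw, rfl⟩
            have e : g * (w⁻¹ * α w) * g⁻¹ =
                ((w * g⁻¹)⁻¹ * α (w * g⁻¹)) * ((g⁻¹)⁻¹ * α g⁻¹)⁻¹ := by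
              rw [map_mul]
              group
            show g * (w⁻¹ * α w) * g⁻¹ ∈ D
            rw [e]
            exact mul_mem (hgen _ (mul_mem hw (inv_mem hg))) (inv_mem (hgen _ (inv_mem hg)))
          · simp
          · intro a b _ _ ha hb
            have e : g * (a * b) * g⁻¹ = (g * a * g⁻¹) * (g * b * g⁻¹) := by group
            rw [e]
            exact mul_mem ha hb
          · intro a _ ha
            have e : g * a⁻¹ * g⁻¹ = (g * a * g⁻¹)⁻¹ := by group
            rw [e]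
            exact inv_mem ha
        rcases h3 _ hDn with h6 | h6
        · exfalso
          obtain ⟨s, hs0, hsα⟩ := h5 hα1
          apply hsα
          have h7 := hgen s hs0
          have h8 : (⟨s⁻¹ * α s, hDS h7⟩ : S₀) ∈ D.subgroupOf S₀ := h7
          rw [h6, Subgroup.mem_bot] at h8
          exact (inv_mul_eq_one.1 (congrArg (Subtype.val : S₀ → S) h8)).symm
        · apply le_antisymm hDS
          intro s hs0
          have h7 : (⟨s, hs0⟩ : S₀) ∈ D.subgroupOf S₀ := by
            rw [h6]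
            exact Subgroup.mem_top _
          exact h7
  · rintro ⟨S, _, -, hi, hs, hS, hpp, h⟩ hQ
    rcases h with h | ⟨α, hα1, hαp, h⟩
    · have hm : MinC (⊤ : Subgroup S) := by
        rintro ⟨T, hT⟩
        have h1 : T 1 ≠ ⊤ := fun e => by
          have := (hT 0).2
          rw [zero_add, e] at this
          exact absurd this not_top_lt
        refine (h _ h1).minC hS ⟨fun i => T (i + 1), fun i => ⟨?_, (hT (i + 1)).2⟩⟩
        exact antitone_nat_of_succ_le (fun i => (hT i).2.le) (by omega)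
      exact not_cher_simple hS hs (hQ.min hp hS hpp hm)
    · obtain ⟨W, h1, h2, h3⟩ := hQ.auto hp hs hS hpp hα1 hαp
      exact h3 (h W h1 h2)

end PMC
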